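import Pool.Agent.P.MP_6c8efb_pr.One.IfE

section NiceS

/-! Step Nice. -/

namespace Pool.Agent.P.MP_6c8efb_pr.One

open Polynomial MeasureTheory Real Filter Topology

namespace NiceA

theorem ch (t θ : ℝ) : Complex.cosh (t + θ * Complex.I) =
    ((cosh t * cos θ : ℝ) : ℂ) + ((sinh t * sin θ : ℝ) : ℂ) * Complex.I := by
  rw [Complex.cosh_add, Complex.cosh_mul_I, Complex.sinh_mul_I]
  push_cast; ring

theorem sh (t θ : ℝ) : Complex.sinh (t + θ * Complex.I) =
    ((sinh t * cos θ : ℝ) : ℂ) + ((cosh t * sin θ : ℝ) : ℂ) * Complex.I := by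
  rw [Complex.sinh_add, Complex.cosh_mul_I, Complex.sinh_mul_I]
  push_cast; ring

theorem ch_le (t θ : ℝ) : ‖Complex.cosh (t + θ * Complex.I)‖ ≤ cosh t := by
  rw [ch, Complex.norm_add_mul_I, sqrt_le_left (cosh_pos t).le]
  nlinarith [cosh_sq t, sin_sq_add_cos_sq θ, sq_nonneg (sin θ)]

theorem sh_le (t θ : ℝ) : ‖Complex.sinh (t + θ * Complex.I)‖ ≤ cosh t := by
  rw [sh, Complex.norm_add_mul_I, sqrt_le_left (cosh_pos t).le]
  nlinarith [cosh_sq t, sin_sq_add_cos_sq θ, sq_nonneg (cos θ)]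

theorem le_ch (t θ : ℝ) : cosh t * cos θ ≤ ‖Complex.cosh (t + θ * Complex.I)‖ := by
  refine le_trans (le_of_eq ?_) (Complex.re_le_norm _)
  rw [ch]
  simp only [Complex.add_re, Complex.ofReal_re, Complex.mul_re, Complex.I_re, Complex.ofReal_im,
    Complex.I_im]
  ring

theorem ratio (x : ℝ) : cosh (π * x / 2) ≤ 2 * exp (-(π * |x|)) * cosh (3 * π * x / 2) := by
  have h1 := cosh_le_exp_abs (π * x / 2)
  have h2 := exp_abs_le_cosh (3 * π * x / 2)
  have e1 : |π * x / 2| = π * |x| / 2 := by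
    rw [abs_div, abs_mul, abs_of_pos pi_pos, abs_two]
  have e2 : |3 * π * x / 2| = 3 * π * |x| / 2 := by
    rw [abs_div, abs_mul, abs_of_pos (by positivity : 0 < 3 * π), abs_two]
  rw [e1] at h1
  rw [e2] at h2
  have e3 : exp (π * |x| / 2) = exp (-(π * |x|)) * exp (3 * π * |x| / 2) := by
    rw [← exp_add]; congr 1; ring
  nlinarith [exp_pos (-(π * |x|))]

/-- numerator argument -/
noncomputable def u (ψ x : ℝ) : ℂ := ((π * x / 2 : ℝ) : ℂ) + ((-ψ : ℝ) : ℂ) * Complex.I

/-- denominator argument -/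
noncomputable def v (ψ x : ℝ) : ℂ := ((3 * π * x / 2 : ℝ) : ℂ) + (ψ : ℂ) * Complex.I

theorem rr_eq (ψ x : ℝ) : rr ψ x = 1 + Complex.cosh (u ψ x) / Complex.cosh (v ψ x) := by
  unfold rr u v
  congr 3
  push_cast; ring

theorem den_pos {ψ : ℝ} (hc : 0 < cos ψ) (x : ℝ) : 0 < ‖Complex.cosh (v ψ x)‖ :=
  (mul_pos (cosh_pos _) hc).trans_le (le_ch _ _)

theorem sub_le {ψ : ℝ} (hc : 0 < cos ψ) (x : ℝ) :
    ‖rr ψ x - 1‖ ≤ 2 / cos ψ * exp (-(π * |x|)) := by
  rw [rr_eq, add_sub_cancel_left, norm_div, div_le_iff₀ (den_pos hc x)]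
  refine (ch_le _ _).trans ((ratio x).trans ?_)
  refine le_trans (le_of_eq ?_) (mul_le_mul_of_nonneg_left (le_ch _ ψ) (by positivity))
  field_simp

theorem re_ge {ψ : ℝ} (hc : 0 < cos ψ) (x : ℝ) : cos ψ ^ 2 ≤ (rr ψ x).re := by
  have hp : 0 < Complex.normSq (Complex.cosh (v ψ x)) :=
    Complex.normSq_pos.2 (norm_pos_iff.1 (den_pos hc x))
  rw [rr_eq, Complex.add_re, Complex.one_re, Complex.div_re, ← add_div, ← sub_le_iff_le_add',
    le_div_iff₀ hp]
  unfold u v
  rw [ch, ch, Complex.normSq_add_mul_I]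
  simp only [Complex.add_re, Complex.ofReal_re, Complex.mul_re, Complex.I_re, Complex.ofReal_im,
    Complex.I_im, Complex.add_im, Complex.mul_im, cos_neg, sin_neg]
  have e : 3 * π * x / 2 = 3 * (π * x / 2) := by ring
  rw [e]
  generalize π * x / 2 = a
  have h1 : 0 ≤ sinh (3 * a) * (sinh (3 * a) - sinh a) := by
    rw [sinh_three_mul]
    nlinarith [sq_nonneg (sinh a), sq_nonneg (sinh a ^ 2), sq_nonneg (sinh a ^ 3)]
  have h2 := cosh_sq (3 * a)
  have h3 : cos ψ ^ 2 - 1 = -sin ψ ^ 2 := by linarith [sin_sq_add_cos_sq ψ]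
  have h4 : (cosh (3 * a) * cos ψ) ^ 2 + (sinh (3 * a) * sin ψ) ^ 2 =
      sinh (3 * a) ^ 2 + cos ψ ^ 2 := by
    rw [mul_pow, mul_pow, h2]; linear_combination (sinh (3 * a) ^ 2) * sin_sq_add_cos_sq ψ
  rw [h3, h4]
  have h5 := mul_nonneg (sq_nonneg (sin ψ)) h1
  have h6 := mul_nonneg (sq_nonneg (sin ψ)) (sq_nonneg (cos ψ))
  have h7 := mul_nonneg (mul_pos (cosh_pos a) (cosh_pos (3 * a))).le (sq_nonneg (cos ψ))
  nlinarith

theorem du (ψ x : ℝ) : HasDerivAt (u ψ) ((π / 2 : ℝ) : ℂ) x := by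
  have h : HasDerivAt (fun x : ℝ => π * x / 2) (π / 2) x := by
    simpa using ((hasDerivAt_id x).const_mul π).div_const 2
  exact h.ofReal_comp.add_const _

theorem dv (ψ x : ℝ) : HasDerivAt (v ψ) ((3 * π / 2 : ℝ) : ℂ) x := by
  have h : HasDerivAt (fun x : ℝ => 3 * π * x / 2) (3 * π / 2) x := by
    simpa using ((hasDerivAt_id x).const_mul (3 * π)).div_const 2
  exact h.ofReal_comp.add_const _

/-- the derivative -/
noncomputable def rd (ψ x : ℝ) : ℂ :=
  (Complex.sinh (u ψ x) * ((π / 2 : ℝ) : ℂ) * Complex.cosh (v ψ x) -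
    Complex.cosh (u ψ x) * (Complex.sinh (v ψ x) * ((3 * π / 2 : ℝ) : ℂ))) /
      Complex.cosh (v ψ x) ^ 2

theorem drr {ψ : ℝ} (hc : 0 < cos ψ) (x : ℝ) : HasDerivAt (rr ψ) (rd ψ x) x := by
  have e : rr ψ = fun x => 1 + Complex.cosh (u ψ x) / Complex.cosh (v ψ x) := funext (rr_eq ψ)
  rw [e]
  have h1 : HasDerivAt (fun x => Complex.cosh (u ψ x)) _ x :=
    (Complex.hasDerivAt_cosh (u ψ x)).comp x (du ψ x)
  have h2 : HasDerivAt (fun x => Complex.cosh (v ψ x)) _ x :=
    (Complex.hasDerivAt_cosh (v ψ x)).comp x (dv ψ x)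
  exact (h1.div h2 (norm_pos_iff.1 (den_pos hc x))).const_add 1

theorem rd_le {ψ : ℝ} (hc : 0 < cos ψ) (x : ℝ) :
    ‖rd ψ x‖ ≤ 4 * π / cos ψ ^ 2 * exp (-(π * |x|)) := by
  have hd := den_pos hc x
  unfold rd
  rw [norm_div, norm_pow, div_le_iff₀ (by positivity)]
  have a1 : ‖Complex.sinh (u ψ x)‖ ≤ cosh (π * x / 2) := sh_le _ _
  have a2 : ‖Complex.cosh (u ψ x)‖ ≤ cosh (π * x / 2) := ch_le _ _
  have a3 : ‖Complex.sinh (v ψ x)‖ ≤ cosh (3 * π * x / 2) := sh_le _ _
  have a4 : ‖Complex.cosh (v ψ x)‖ ≤ cosh (3 * π * x / 2) := ch_le _ _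
  have a5 : cosh (3 * π * x / 2) * cos ψ ≤ ‖Complex.cosh (v ψ x)‖ := le_ch _ _
  have a6 := ratio x
  have p1 := cosh_pos (π * x / 2)
  have p2 := cosh_pos (3 * π * x / 2)
  have p3 := pi_pos
  refine (norm_sub_le _ _).trans ?_
  simp only [norm_mul, Complex.norm_real, Real.norm_of_nonneg (by positivity : 0 ≤ π / 2),
    Real.norm_of_nonneg (by positivity : 0 ≤ 3 * π / 2)]
  calc _ ≤ cosh (π * x / 2) * (π / 2) * cosh (3 * π * x / 2) +
        cosh (π * x / 2) * (cosh (3 * π * x / 2) * (3 * π / 2)) := by gcongr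
    _ = 2 * π * cosh (3 * π * x / 2) * cosh (π * x / 2) := by ring
    _ ≤ 2 * π * cosh (3 * π * x / 2) * (2 * exp (-(π * |x|)) * cosh (3 * π * x / 2)) := by gcongr
    _ = 4 * π / cos ψ ^ 2 * exp (-(π * |x|)) * (cosh (3 * π * x / 2) * cos ψ) ^ 2 := by
      field_simp; ring
    _ ≤ _ := by gcongr

theorem log_le {r : ℂ} {c : ℝ} (hc : 0 < c) (h1 : c ≤ 1) (h : c ≤ ‖r‖) :
    |log ‖r‖| ≤ ‖r - 1‖ / c := by
  have hr : 0 < ‖r‖ := hc.trans_le h
  have a1 : |‖r‖ - 1| ≤ ‖r - 1‖ := by simpa using abs_norm_sub_norm_le r 1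
  have a2 := log_le_sub_one_of_pos hr
  have a3 := one_sub_inv_le_log_of_pos hr
  have a4 : ‖r - 1‖ ≤ ‖r - 1‖ / c := le_div_self (norm_nonneg _) hc h1
  have a5 : ‖r - 1‖ / ‖r‖ ≤ ‖r - 1‖ / c := by gcongr
  have a6 : (1 - ‖r‖) / ‖r‖ ≤ ‖r - 1‖ / ‖r‖ := by
    gcongr; linarith [(abs_le.1 a1).1]
  have a7 : (1 - ‖r‖) / ‖r‖ = ‖r‖⁻¹ - 1 := by field_simp
  rw [abs_le]
  constructor <;> linarith [(abs_le.1 a1).2]

end NiceA

open NiceA in
theorem p_Nice (hLip : S_Lip) :
    S_Nice := by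
  intro ψ h0 h1
  have hc : 0 < cos ψ := cos_pos_of_mem_Ioo ⟨by linarith [pi_pos], h1⟩
  have hc2 : 0 < cos ψ ^ 2 := by positivity
  have hc1 : cos ψ ^ 2 ≤ 1 := cos_sq_le_one ψ
  have hK : 0 < 2 / cos ψ := by positivity
  have hK2 : 2 / cos ψ ≤ 2 / cos ψ / cos ψ ^ 2 := le_div_self hK.le hc2 hc1
  have he : ∀ x : ℝ, exp (-(π * |x|)) ≤ exp (-|x|) := fun x =>
    exp_le_exp.2 (by nlinarith [pi_gt_three, abs_nonneg x])
  have he1 : ∀ x : ℝ, exp (-(π * |x|)) ≤ 1 := fun x =>
    exp_le_one_iff.2 (by nlinarith [pi_gt_three, abs_nonneg x])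
  have hL : 0 ≤ 4 * π / cos ψ ^ 2 := by have := pi_pos; positivity
  obtain ⟨D, hD⟩ := hLip (rr ψ) (rd ψ) 1 (2 / cos ψ + 4 * π / cos ψ ^ 2) (drr hc)
    (fun x => (sub_le hc x).trans (mul_le_mul (by linarith) (he x) (exp_pos _).le (by linarith)))
    (fun x => (rd_le hc x).trans (mul_le_mul (by linarith) (he x) (exp_pos _).le (by linarith)))
  refine ⟨cos ψ ^ 2, 1 + 2 / cos ψ / cos ψ ^ 2, D, hc2, ⟨?_, fun x => ?_⟩, re_ge hc, hD,
    fun x => ?_⟩
  · exact continuous_iff_continuousAt.2 fun x => (drr hc x).continuousAt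
  · have a1 : ‖rr ψ x‖ ≤ ‖rr ψ x - 1‖ + 1 := by simpa using norm_add_le (rr ψ x - 1) 1
    have a2 := (sub_le hc x).trans (mul_le_of_le_one_right hK.le (he1 x))
    linarith
  · refine (log_le hc2 hc1 ((re_ge hc x).trans (Complex.re_le_norm _))).trans ?_
    calc _ ≤ 2 / cos ψ * exp (-(π * |x|)) / cos ψ ^ 2 := by gcongr; exact sub_le hc x
      _ = 2 / cos ψ / cos ψ ^ 2 * exp (-(π * |x|)) := by ring
      _ ≤ _ := by gcongr; linarith

end Pool.Agent.P.MP_6c8efb_pr.One

end NiceS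

section HankS

/-! Step Hank. -/

namespace Pool.Agent.P.MP_6c8efb_pr.One

open Polynomial MeasureTheory Real Filter Topology

namespace HankA

theorem coeff_pp (n : ℕ) : (∀ i, n < i → (pp n).coeff i = 0) ∧ 0 < (pp n).coeff n := by
  induction n using Nat.twoStepInduction with
  | zero => exact ⟨fun i hi => by simp [pp, coeff_one, hi.ne'], by simp [pp]⟩
  | one => exact ⟨fun i hi => by simp [pp, coeff_X, hi.ne], by simp [pp]⟩
  | more n h0 h1 =>
    have e : ∀ i, (pp (n + 2)).coeff (i + 1) = 1 / (n + 2 : ℝ) *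
        (2 * (pp (n + 1)).coeff i - (n + 1) * (pp n).coeff (i + 1)) := fun i => by
      rw [pp, coeff_C_mul, coeff_sub, coeff_C_mul, mul_assoc, coeff_ofNat_mul, coeff_X_mul]
    refine ⟨fun i hi => ?_, ?_⟩
    · obtain ⟨i, rfl⟩ := Nat.exists_eq_add_one_of_ne_zero (by omega : i ≠ 0)
      rw [e, h1.1 i (by omega), h0.1 _ (by omega)]
      simp
    · rw [e, h0.1 _ (by omega), mul_zero, sub_zero]
      have := h1.2
      positivity

theorem pf_eq {L : ℕ} (j : Fin L) (x : ℝ) : pf j x = ∑ i : Fin L, (pp j).coeff i * x ^ (i : ℕ) := by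
  rw [pf, eval_eq_sum_range' (n := L)
    ((natDegree_le_iff_coeff_eq_zero.2 (coeff_pp j).1).trans_lt j.2), Finset.sum_range]

end HankA

theorem p_Hank :
    S_Hank := by
  intro L
  let T : Matrix (Fin L) (Fin L) ℂ := .of fun j i => ((pp j).coeff i : ℝ)
  have hT : T.det ≠ 0 := by
    rw [Matrix.det_of_isLowerTriangular T fun j i h => by
      simp [T, (HankA.coeff_pp j).1 i (by simpa using h)]]
    exact Finset.prod_ne_zero_iff.2 fun i _ => by simpa [T] using (HankA.coeff_pp i).2.ne'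
  refine ⟨(T.det ^ 2)⁻¹, by simpa using hT, fun C g hg => ?_⟩
  have e : Mx L g = T * (Matrix.of fun j k : Fin L =>
      ∫ x, g x * ((x ^ ((j : ℕ) + k) * wt0 x : ℝ) : ℂ)) * T.transpose := by
    have hi : ∀ n : ℕ, Integrable fun x => g x * ((x ^ n * wt0 x : ℝ) : ℂ) := fun n => by
      simpa using hg.integrable_poly (X ^ n)
    ext j k
    simp only [Mx_apply, Matrix.mul_apply, Matrix.transpose_apply, Matrix.of_apply, T,
      Finset.sum_mul, ← integral_const_mul, ← integral_mul_const]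
    rw [Finset.sum_congr rfl fun b _ => (integral_finsetSum _ fun a _ =>
      ((hi _).const_mul _).mul_const _).symm, ← integral_finsetSum _ fun b _ =>
      integrable_finsetSum _ fun a _ => ((hi _).const_mul _).mul_const _]
    refine integral_congr_ae (.of_forall fun x => ?_)
    simp only [HankA.pf_eq, Finset.sum_mul, Finset.mul_sum, Complex.ofReal_sum]
    refine Finset.sum_congr rfl fun b _ => Finset.sum_congr rfl fun a _ => ?_
    push_cast
    ring
  rw [e, Matrix.det_mul, Matrix.det_mul, Matrix.det_transpose, HD]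
  field_simp

end Pool.Agent.P.MP_6c8efb_pr.One

end HankS

section OrthS

/-! Step Orth. -/

namespace Pool.Agent.P.MP_6c8efb_pr.One

open Polynomial MeasureTheory Real Filter Topology

namespace OrthA

open Complex in
theorem rec_c (n : ℕ) (z : ℂ) : (n + 2) * aeval z (pp (n + 2)) =
    2 * z * aeval z (pp (n + 1)) - (n + 1) * aeval z (pp n) := by
  simpa [map_ofNat] using congrArg (aeval z) (pp_rec n)

open Complex in
theorem shift (n : ℕ) (z : ℂ) : (1 / 2 - I * z) * aeval (z + I) (pp n) =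
    (n + 1 / 2 + I * z) * aeval z (pp n) - I * (n + 1) * aeval z (pp (n + 1)) := by
  induction n using Nat.twoStepInduction with
  | zero => simp [pp, map_ofNat]; ring
  | one =>
    have h := rec_c 0 z
    simp only [pp, map_mul, aeval_X, map_ofNat, map_one] at h ⊢
    push_cast at h ⊢
    linear_combination I * h - 2 * z * I_sq
  | more n h0 h1 =>
    refine mul_left_cancel₀ (a := (n + 2 : ℂ)) (by norm_cast) ?_
    have r0 := rec_c n z
    have r1 := rec_c (n + 1) z
    have r2 := rec_c n (z + I)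
    push_cast at h1 r1 ⊢
    linear_combination (1 / 2 - I * z) * r2 + 2 * (z + I) * h1 - (n + 1) * h0 +
      I * (n + 2) * r1 - (n + 1 / 2 + I * z) * r0 +
      (2 * z * aeval z (pp (n + 1)) - 2 * (n + 2) * aeval z (pp (n + 2))) * I_sq

theorem aeval_real (n : ℕ) (x : ℝ) : aeval (x : ℂ) (pp n) = pf n x := by
  rw [pf, ← coe_aeval_eq_eval]
  exact aeval_algebraMap_apply ℂ x (pp n)

theorem shift_poly (hShift : S_Shift) (P : ℂ[X]) :
    ∫ x : ℝ, (P.eval (x + Complex.I) + P.eval (x : ℂ)) * (wt0 x : ℂ) = 2 * P.eval (Complex.I / 2) := by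
  obtain ⟨C, hC, h⟩ := poly_le_exp P one_pos
  refine hShift (fun z => P.eval z) 1 (C * exp 1) (by linarith [pi_gt_three]) P.differentiable
    fun z h0 h1 => (h z).trans ?_
  rw [mul_assoc, ← exp_add]
  have := Complex.norm_le_abs_re_add_abs_im z
  rw [abs_of_nonneg h0] at this
  gcongr
  linarith

theorem int_one (hShift : S_Shift) : ∫ x, wt0 x = 1 := by
  have h := shift_poly hShift 1
  simp only [eval_one, integral_const_mul, integral_complex_ofReal] at h
  exact Complex.ofReal_eq_one.1 (by linear_combination (1 / 2) * h)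

theorem int_succ (hShift : S_Shift) (n : ℕ) : ∫ x, pf (n + 1) x * wt0 x = 0 := by
  have h := shift_poly hShift ((C (1 / 2) + C Complex.I * X) * (pp n).map (algebraMap ℝ ℂ))
  have e : ∀ x : ℝ, (eval (x + Complex.I) ((C (1 / 2) + C Complex.I * X) *
      (pp n).map (algebraMap ℝ ℂ)) + eval (x : ℂ) ((C (1 / 2) + C Complex.I * X) *
      (pp n).map (algebraMap ℝ ℂ))) * (wt0 x : ℂ) = -n * ((pf n x * wt0 x : ℝ) : ℂ) +
      Complex.I * (n + 1) * ((pf (n + 1) x * wt0 x : ℝ) : ℂ) := fun x => by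
    have h1 := shift n x
    simp only [eval_mul, eval_add, eval_C, eval_X, eval_map_algebraMap, aeval_real] at h1 ⊢
    push_cast
    linear_combination (-wt0 x : ℂ) * h1 + wt0 x * aeval (x + Complex.I) (pp n) * Complex.I_sq
  have e0 : (1 / 2 + Complex.I * (Complex.I / 2) : ℂ) = 0 := by
    linear_combination (1 / 2) * Complex.I_sq
  simp only [e] at h
  rw [integral_add ((integrable_poly _).ofReal.const_mul _) ((integrable_poly _).ofReal.const_mul _),
    integral_const_mul, integral_const_mul, integral_complex_ofReal, integral_complex_ofReal] at h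
  simp only [eval_mul, eval_add, eval_C, eval_X, e0, zero_mul, mul_zero] at h
  have h2 := congrArg Complex.im h
  simpa [Nat.cast_add_one_ne_zero, pf] using h2

theorem step (j k : ℕ) : ∫ x, 2 * x * pf j x * pf k x * wt0 x =
    (j + 1) * (∫ x, pf (j + 1) x * pf k x * wt0 x) + j * ∫ x, pf (j - 1) x * pf k x * wt0 x := by
  rw [← integral_const_mul, ← integral_const_mul,
    ← integral_add ((integrable_pf _ _).const_mul _) ((integrable_pf _ _).const_mul _)]
  refine integral_congr_ae (.of_forall fun x => ?_)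
  rcases j with _ | j
  · simp
  · have := pf_rec j x
    simp only [Nat.add_sub_cancel]
    push_cast
    linear_combination (-pf k x * wt0 x) * this

end OrthA

theorem p_Orth (hShift : S_Shift) :
    S_Orth := by
  have hs : ∀ j k, ∫ x, pf j x * pf k x * wt0 x = ∫ x, pf k x * pf j x * wt0 x := fun j k => by
    simp only [mul_comm (pf j _)]
  intro j
  induction j using Nat.strong_induction_on with
  | _ j ih =>
    intro k
    rcases j with _ | j
    · rcases k with _ | k
      · simpa using OrthA.int_one hShift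
      · simpa using OrthA.int_succ hShift k
    have h1 := OrthA.step j k
    have h2 := OrthA.step k j
    rw [show (fun x => 2 * x * pf k x * pf j x * wt0 x) = fun x => 2 * x * pf j x * pf k x * wt0 x
      from funext fun x => by ring, h1, hs (k + 1), hs (k - 1), ih j j.lt_succ_self,
      ih j j.lt_succ_self, ih (j - 1) (by omega)] at h2
    refine mul_left_cancel₀ (a := (j + 1 : ℝ)) (by positivity) ?_
    rw [eq_sub_of_add_eq h2]
    clear hs ih h1 h2
    by_cases e1 : j = k + 1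
    · subst e1
      simp [show k + 1 ≠ k - 1 by omega, show k + 1 + 1 ≠ k by omega]
    by_cases e2 : j + 1 = k
    · subst e2
      simp [e1, show j - 1 ≠ j + 1 by omega]
    rw [if_neg e1, if_neg e2]
    have e3 : (j * if j - 1 = k then 1 else 0 : ℝ) = 0 := by
      split_ifs with h
      · simp [show j = 0 by omega]
      · simp
    have e4 : (k * if j = k - 1 then 1 else 0 : ℝ) = 0 := by
      split_ifs with h
      · simp [show k = 0 by omega]
      · simp
    rw [e3, e4]
    simp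

end Pool.Agent.P.MP_6c8efb_pr.One

end OrthS

section Var1S

/-! Step Var1. -/

namespace Pool.Agent.P.MP_6c8efb_pr.One

open Polynomial MeasureTheory Real Filter Topology

namespace Var1A

noncomputable def ww (j k : ℕ) (x : ℝ) : ℝ := pf j x * pf k x * wt0 x

noncomputable def mm (g : ℝ → ℝ) (j k : ℕ) : ℝ := ∫ x, g x * ww j k x

theorem mm_symm (g : ℝ → ℝ) (j k : ℕ) : mm g j k = mm g k j := by
  simp only [mm, ww, mul_comm (pf j _)]

theorem intg {g : ℝ → ℝ} {C : ℝ} (hg : Continuous g) (hb : ∀ x, ‖g x‖ ≤ C) (j k : ℕ) :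
    Integrable fun x => g x * ww j k x :=
  (integrable_pf j k).bdd_mul hg.aestronglyMeasurable (.of_forall hb)

theorem gen (hOrth : S_Orth) {L : ℕ} {a b n : ℝ → ℝ}
    (ha : ∀ j k, Integrable fun x => a x * ww j k x)
    (hb : ∀ j k, Integrable fun x => b x * ww j k x)
    (hn : ∀ j k, Integrable fun x => n x * ww j k x) (c1 c2 c3 c4 : Fin L → Fin L → ℝ)
    {F : ℝ → ℝ} (hF : ∀ x, F x = ∑ j : Fin L, ∑ l : Fin L,
      (c1 j l + c2 j l * a x + c3 j l * b x + c4 j l * n x) * ww j l x) :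
    ∫ x, F x = ∑ j : Fin L, ∑ l : Fin L, (c1 j l * (if j = l then 1 else 0) + c2 j l * mm a j l +
      c3 j l * mm b j l + c4 j l * mm n j l) := by
  have h1 : ∀ j l : Fin L, Integrable fun x => c1 j l * ww j l x := fun j l =>
    (integrable_pf j l).const_mul _
  have h2 := fun j l : Fin L => (ha j l).const_mul (c2 j l)
  have h3 := fun j l : Fin L => (hb j l).const_mul (c3 j l)
  have h4 := fun j l : Fin L => (hn j l).const_mul (c4 j l)
  have e : F = fun x => ∑ j : Fin L, ∑ l : Fin L, (c1 j l * ww j l x + c2 j l * (a x * ww j l x) +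
      c3 j l * (b x * ww j l x) + c4 j l * (n x * ww j l x)) := funext fun x => by
    rw [hF]
    exact Finset.sum_congr rfl fun j _ => Finset.sum_congr rfl fun l _ => by ring
  have i2 := fun j l : Fin L => (h1 j l).fun_add (h2 j l)
  have i3 := fun j l : Fin L => (i2 j l).fun_add (h3 j l)
  have i := fun j l : Fin L => (i3 j l).fun_add (h4 j l)
  rw [e, integral_finsetSum _ fun j _ => integrable_finsetSum _ fun l _ => i j l]
  refine Finset.sum_congr rfl fun j _ => ?_
  rw [integral_finsetSum _ fun l _ => i j l]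
  refine Finset.sum_congr rfl fun l _ => ?_
  rw [integral_add (i3 j l) (h4 j l), integral_add (i2 j l) (h3 j l),
    integral_add (h1 j l) (h2 j l)]
  simp only [integral_const_mul, mm]
  have := hOrth j l
  simp only [Fin.val_inj] at this
  rw [← this]; rfl

theorem sq_sum {L : ℕ} (k : Fin L) (t : ℝ) (A p : Fin L → ℝ) :
    (t * p k - ∑ j, A j * p j) ^ 2 = ∑ j, ∑ l, (t * (if j = k then 1 else 0) - A j) *
      (t * (if l = k then 1 else 0) - A l) * (p j * p l) := by
  have : t * p k - ∑ j, A j * p j = ∑ j, (t * (if j = k then 1 else 0) - A j) * p j := by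
    simp [sub_mul, Finset.sum_sub_distrib]
  rw [this, sq, Finset.sum_mul_sum]
  exact Finset.sum_congr rfl fun j _ => Finset.sum_congr rfl fun l _ => by ring

end Var1A

open Var1A in
theorem p_Var1 (hOrth : S_Orth) :
    S_Var1 := by
  intro L C h H
  obtain ⟨a, ea⟩ : ∃ a : ℝ → ℝ, a = fun x => (h x).re := ⟨_, rfl⟩
  obtain ⟨b, eb⟩ : ∃ b : ℝ → ℝ, b = fun x => (h x).im := ⟨_, rfl⟩
  obtain ⟨n, en⟩ : ∃ n : ℝ → ℝ, n = fun x => ‖h x‖ ^ 2 := ⟨_, rfl⟩
  have hc := H.cont
  have ha := intg (g := a) (by rw [ea]; fun_prop) fun x => by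
    rw [ea]; exact (Complex.abs_re_le_norm _).trans (H.bd x)
  have hb := intg (g := b) (by rw [eb]; fun_prop) fun x => by
    rw [eb]; exact (Complex.abs_im_le_norm _).trans (H.bd x)
  have hn := intg (g := n) (C := C ^ 2) (by rw [en]; fun_prop) fun x => by
    rw [en, norm_pow, norm_norm]; exact pow_le_pow_left₀ (norm_nonneg _) (H.bd x) 2
  have a1 : ∀ x, (h x).re = a x := fun x => by rw [ea]
  have b1 : ∀ x, (h x).im = b x := fun x => by rw [eb]
  have n1 : ∀ x, n x = a x ^ 2 + b x ^ 2 := fun x => by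
    rw [en, ← a1, ← b1, sq, sq, ← Complex.normSq_apply, ← Complex.sq_norm]
  have re : ∀ j k : Fin L, (Mx L h j k).re = mm a j k := fun j k => by
    rw [Mx_apply, ← RCLike.re_to_complex, ← integral_re (H.integrable j k)]
    simp only [RCLike.re_to_complex, Complex.re_mul_ofReal, a1, mm, ww]
  have im : ∀ j k : Fin L, (Mx L h j k).im = mm b j k := fun j k => by
    rw [Mx_apply, ← RCLike.im_to_complex, ← integral_im (H.integrable j k)]
    simp only [RCLike.im_to_complex, Complex.im_mul_ofReal, b1, mm, ww]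
  have left : ∀ k : Fin L, ∫ x, ‖res L h k x‖ ^ 2 * wt0 x =
      mm n k k - ∑ j : Fin L, (mm a j k ^ 2 + mm b j k ^ 2) := fun k => by
    rw [gen hOrth ha hb hn (fun j l : Fin L => mm a j k * mm a l k + mm b j k * mm b l k)
      (fun j l => -((if j = k then 1 else 0) * mm a l k + (if l = k then 1 else 0) * mm a j k))
      (fun j l => -((if j = k then 1 else 0) * mm b l k + (if l = k then 1 else 0) * mm b j k))
      (fun j l => (if j = k then 1 else 0) * (if l = k then 1 else 0)) fun x => ?_]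
    · simp only [neg_mul, add_mul, neg_add, Finset.sum_add_distrib, Finset.sum_neg_distrib, ite_mul,
        mul_ite, one_mul, zero_mul, mul_one, mul_zero, Finset.sum_ite_eq, Finset.sum_ite_eq',
        Finset.mem_univ, if_true, Finset.sum_ite_irrel, Finset.sum_const_zero,
        mm_symm _ (k : ℕ), sq]
      ring
    · rw [Complex.sq_norm, Complex.normSq_apply, ← sq, ← sq]
      simp only [res, Complex.sub_re, Complex.sub_im, Complex.re_sum, Complex.im_sum,
        Complex.re_mul_ofReal, Complex.im_mul_ofReal, re, im, a1, b1]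
      rw [sq_sum k (a x) (fun j => mm a j k) fun j => pf j x,
        sq_sum k (b x) (fun j => mm b j k) fun j => pf j x]
      simp only [← Finset.sum_add_distrib, Finset.sum_mul]
      exact Finset.sum_congr rfl fun j _ => Finset.sum_congr rfl fun l _ => by
        rw [n1, ww]; ring
  have inner : ∀ x, ∫ y, ‖h x - h y‖ ^ 2 * KK L x y ^ 2 * wt0 y = _ := fun x =>
    gen hOrth ha hb hn (fun j l : Fin L => pf j x * pf l x * n x)
      (fun j l => pf j x * pf l x * (-2 * a x)) (fun j l => pf j x * pf l x * (-2 * b x))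
      (fun j l => pf j x * pf l x) fun y => by
        rw [Complex.sq_norm, Complex.normSq_apply, KK, Finset.sum_range, sq, Finset.sum_mul_sum]
        simp only [Complex.sub_re, Complex.sub_im, a1, b1, Finset.mul_sum, Finset.sum_mul]
        exact Finset.sum_congr rfl fun j _ => Finset.sum_congr rfl fun l _ => by
          rw [n1, n1, ww]; ring
  rw [gen hOrth ha hb hn (fun j l : Fin L => mm n j l) (fun j l => -2 * mm a j l)
    (fun j l => -2 * mm b j l) (fun j l => if j = l then 1 else 0) fun x => ?_]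
  · rw [VV, Finset.mul_sum]
    refine Finset.sum_congr rfl fun k _ => ?_
    rw [left]
    simp only [Finset.sum_add_distrib, ite_mul, mul_ite, one_mul, zero_mul, mul_one, mul_zero,
      Finset.sum_ite_eq, Finset.mem_univ, if_true, mm_symm _ (k : ℕ), sq, mul_assoc,
      ← Finset.mul_sum]
    ring
  · rw [inner, Finset.sum_mul]
    refine Finset.sum_congr rfl fun j _ => ?_
    rw [Finset.sum_mul]
    exact Finset.sum_congr rfl fun l _ => by rw [ww]; ring

end Pool.Agent.P.MP_6c8efb_pr.One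

end Var1S
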