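import Pool.Agent.P.MP_6c8efb_pr.One.IfE

section CauS

/-! Step Cau. -/

namespace Pool.Agent.P.MP_6c8efb_pr.One

open Polynomial MeasureTheory Real Filter Topology

namespace CauA

open Finset

/-- the twisted partial sums -/
noncomputable def s (n : ℕ) (x : ℝ) : ℂ := ∑ k ∈ range (n + 1), Complex.I ^ k * pf k x

theorem s_eq (n : ℕ) (x : ℝ) : (2 * x - Complex.I) * s n x =
    Complex.I ^ n * (n + 1) * (pf (n + 1) x - Complex.I * pf n x) := by
  induction n with
  | zero => simp [s]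
  | succ n ih =>
    have h : ((n : ℂ) + 2) * pf (n + 2) x = 2 * x * pf (n + 1) x - (n + 1) * pf n x := by
      exact_mod_cast congrArg Complex.ofReal (pf_rec n x)
    rw [s, sum_range_succ, ← s, mul_add, ih]
    push_cast
    linear_combination (-Complex.I ^ (n + 1)) * h +
      (Complex.I ^ n * (n + 1) * pf (n + 1) x) * Complex.I_mul_I

theorem s_sq (n : ℕ) (x : ℝ) :
    (1 + 4 * x ^ 2) * Complex.normSq (s n x) = (n + 1) ^ 2 * (pf n x ^ 2 + pf (n + 1) x ^ 2) := by
  have h := congrArg Complex.normSq (s_eq n x)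
  rw [map_mul, map_mul, map_mul, map_pow, Complex.normSq_I, one_pow] at h
  have h1 : Complex.normSq (2 * x - Complex.I) = 1 + 4 * x ^ 2 := by
    simp [Complex.normSq_apply]; ring
  have h2 : Complex.normSq ((n : ℂ) + 1) = (n + 1) ^ 2 := by
    simp [Complex.normSq_apply]; ring
  have h3 : Complex.normSq (pf (n + 1) x - Complex.I * pf n x) = pf n x ^ 2 + pf (n + 1) x ^ 2 := by
    simp [Complex.normSq_apply]; ring
  rw [h1, h2, h3] at h
  rw [h, one_mul]

theorem s_sum (n : ℕ) (x : ℝ) : Complex.normSq (s n x) * wt0 x = ∑ j ∈ range (n + 1),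
    ∑ k ∈ range (n + 1), (Complex.I ^ j * starRingEnd ℂ (Complex.I ^ k)).re *
      (pf j x * pf k x * wt0 x) := by
  rw [← Complex.ofReal_re (Complex.normSq _), ← Complex.mul_conj, s, map_sum, sum_mul_sum,
    Complex.re_sum, sum_mul]
  refine sum_congr rfl fun j _ => ?_
  rw [Complex.re_sum, sum_mul]
  refine sum_congr rfl fun k _ => ?_
  rw [map_mul, Complex.conj_ofReal, mul_mul_mul_comm, ← Complex.ofReal_mul, Complex.re_mul_ofReal,
    mul_assoc]

theorem s_int (hOrth : S_Orth) (n : ℕ) : ∫ x, Complex.normSq (s n x) * wt0 x = n + 1 := by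
  simp only [s_sum]
  rw [integral_finsetSum _ fun j _ => integrable_finsetSum _ fun k _ =>
    (integrable_pf j k).const_mul _]
  rw [sum_congr rfl fun j hj => (?_ : _ = (1 : ℝ))]
  · simp
  rw [integral_finsetSum _ fun k _ => (integrable_pf j k).const_mul _]
  simp only [integral_const_mul, hOrth j, mul_ite, mul_one, mul_zero, sum_ite_eq, if_pos hj]
  rw [Complex.mul_conj, map_pow, Complex.normSq_I, one_pow, Complex.ofReal_re]

theorem intg (n : ℕ) : Integrable fun x => pf n x ^ 2 / (1 + 4 * x ^ 2) * wt0 x := by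
  refine (integrable_pf n n).mono' (Continuous.aestronglyMeasurable ?_) (.of_forall fun x => ?_)
  · exact (Continuous.div (by fun_prop) (by fun_prop) fun x => by positivity).mul continuous_wt0
  · have h := wt0_pos x
    rw [Real.norm_of_nonneg (by positivity), ← sq]
    exact mul_le_mul_of_nonneg_right (div_le_self (sq_nonneg _) (by nlinarith [sq_nonneg x])) h.le

end CauA

theorem p_Cau (hOrth : S_Orth) :
    S_Cau := by
  intro n
  refine ⟨CauA.intg n, ?_⟩
  have h0 : (n + 1 : ℝ) ≠ 0 := by positivity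
  rw [← integral_add (CauA.intg n) (CauA.intg (n + 1))]
  have h : ∀ x, pf n x ^ 2 / (1 + 4 * x ^ 2) * wt0 x + pf (n + 1) x ^ 2 / (1 + 4 * x ^ 2) * wt0 x =
      1 / (n + 1) ^ 2 * (Complex.normSq (CauA.s n x) * wt0 x) := fun x => by
    have h1 : (1 + 4 * x ^ 2 : ℝ) ≠ 0 := by positivity
    have h2 := CauA.s_sq n x
    field_simp
    linear_combination (-wt0 x) * h2
  simp only [h]
  rw [integral_const_mul, CauA.s_int hOrth]
  field_simp

end Pool.Agent.P.MP_6c8efb_pr.One

end CauS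

section VarS

/-! Step Var. -/

namespace Pool.Agent.P.MP_6c8efb_pr.One

open Polynomial MeasureTheory Real Filter Topology

namespace VarA

lemma cd (n : ℕ) (x y : ℝ) : 2 * (x - y) * KK (n + 1) x y =
    (n + 1) * (pf (n + 1) x * pf n y - pf n x * pf (n + 1) y) := by
  induction n with
  | zero => simp [KK]; ring
  | succ n ih =>
    have e : KK (n + 1 + 1) x y = KK (n + 1) x y + pf (n + 1) x * pf (n + 1) y := by
      simp only [KK]; rw [Finset.sum_range_succ]
    rw [e, mul_add, ih]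
    push_cast
    linear_combination -pf (n + 1) y * pf_rec n x + pf (n + 1) x * pf_rec n y

/-- the density of the Cauchy integrals -/
noncomputable def A (n : ℕ) (x : ℝ) : ℝ := pf n x ^ 2 / (1 + 4 * x ^ 2)

lemma ptw {D : ℝ} {h : ℝ → ℂ} (hL : Lw D h) (n : ℕ) (x y : ℝ) :
    ‖h x - h y‖ ^ 2 * KK (n + 1) x y ^ 2 ≤
      D ^ 2 * (n + 1) ^ 2 / 2 * (A (n + 1) x * A n y + A n x * A (n + 1) y) := by
  have ha : 0 < 1 + 4 * x ^ 2 := by positivity
  have hb : 0 < 1 + 4 * y ^ 2 := by positivity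
  have h1 := mul_le_mul_of_nonneg_right (hL x y) (sq_nonneg (KK (n + 1) x y))
  have h2 : (x - y) ^ 2 * KK (n + 1) x y ^ 2 =
      (n + 1) ^ 2 / 4 * (pf (n + 1) x * pf n y - pf n x * pf (n + 1) y) ^ 2 := by
    have := congrArg (· ^ 2) (cd n x y)
    simp only [mul_pow] at this
    linarith
  have h3 : (pf (n + 1) x * pf n y - pf n x * pf (n + 1) y) ^ 2 ≤
      2 * (pf (n + 1) x ^ 2 * pf n y ^ 2 + pf n x ^ 2 * pf (n + 1) y ^ 2) := by
    nlinarith [sq_nonneg (pf (n + 1) x * pf n y + pf n x * pf (n + 1) y)]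
  have h4 := mul_le_mul_of_nonneg_left h3 (by positivity : 0 ≤ D ^ 2 * ((n + 1 : ℝ) ^ 2 / 4))
  have e : D ^ 2 * (n + 1) ^ 2 / 2 * (A (n + 1) x * A n y + A n x * A (n + 1) y) =
      D ^ 2 * ((n + 1 : ℝ) ^ 2 / 4) *
        (2 * (pf (n + 1) x ^ 2 * pf n y ^ 2 + pf n x ^ 2 * pf (n + 1) y ^ 2)) /
        ((1 + 4 * x ^ 2) * (1 + 4 * y ^ 2)) := by
    simp only [A]; field_simp; ring
  rw [e, le_div_iff₀ (mul_pos ha hb)]
  rw [mul_assoc (D ^ 2), h2] at h1
  linarith

lemma mono {f : ℝ → ℝ} {n : ℕ} {c a b : ℝ} (h0 : ∀ x, 0 ≤ f x)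
    (i0 : Integrable fun x => A n x * wt0 x) (i1 : Integrable fun x => A (n + 1) x * wt0 x)
    (h : ∀ x, f x ≤ c * (a * A n x + b * A (n + 1) x)) :
    ∫ x, f x * wt0 x ≤ c * ((a * ∫ x, A n x * wt0 x) + b * ∫ x, A (n + 1) x * wt0 x) := by
  rw [← integral_const_mul, ← integral_const_mul,
    ← integral_add (i0.const_mul a) (i1.const_mul b), ← integral_const_mul]
  refine integral_mono_of_nonneg (.of_forall fun x => mul_nonneg (h0 x) (wt0_pos x).le)
    (((i0.const_mul a).add (i1.const_mul b)).const_mul c) (.of_forall fun x => ?_)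
  have := mul_le_mul_of_nonneg_right (h x) (wt0_pos x).le
  simp only
  linarith

end VarA

theorem p_Var (hVar1 : S_Var1) (hCau : S_Cau) :
    S_Var := by
  intro L C D h hB hL
  rcases L with _ | n
  · simp only [VV, Finset.univ_eq_empty, Finset.sum_empty]
    positivity
  have i0 : Integrable fun x => VarA.A n x * wt0 x := (hCau n).1
  have i1 : Integrable fun x => VarA.A (n + 1) x * wt0 x := (hCau (n + 1)).1
  have hs : (∫ x, VarA.A n x * wt0 x) + ∫ x, VarA.A (n + 1) x * wt0 x = 1 / (n + 1) := (hCau n).2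
  have h1 := VarA.mono (c := D ^ 2 * (n + 1) ^ 2 / 2) (a := ∫ x, VarA.A (n + 1) x * wt0 x)
    (b := ∫ x, VarA.A n x * wt0 x)
    (f := fun x => ∫ y, ‖h x - h y‖ ^ 2 * KK (n + 1) x y ^ 2 * wt0 y)
    (fun x => integral_nonneg fun y => mul_nonneg (by positivity) (wt0_pos y).le) i0 i1 fun x => by
      refine (VarA.mono (fun y => by positivity) i0 i1 (VarA.ptw hL n x)).trans_eq ?_
      ring
  rw [← hVar1 _ C h hB] at h1
  generalize (∫ x, VarA.A n x * wt0 x) = u at *
  generalize (∫ x, VarA.A (n + 1) x * wt0 x) = v at *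
  have h2 : (n + 1 : ℝ) * (u + v) = 1 := by rw [hs]; field_simp
  have h3 : (n + 1 : ℝ) ^ 2 * (u * v) ≤ 1 := by
    have := congrArg (· ^ 2) h2
    simp only [mul_pow] at this
    nlinarith [mul_nonneg (sq_nonneg (n + 1 : ℝ)) (sq_nonneg (u - v)),
      mul_nonneg (sq_nonneg (n + 1 : ℝ)) (sq_nonneg (u + v))]
  nlinarith [mul_le_mul_of_nonneg_left h3 (sq_nonneg D), sq_nonneg D]

end Pool.Agent.P.MP_6c8efb_pr.One

end VarS

section ErrS

/-! Step Err. -/

namespace Pool.Agent.P.MP_6c8efb_pr.One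

open Polynomial MeasureTheory Real Filter Topology

namespace ErrA

/-- continuous with exponential growth -/
def Gr (f : ℝ → ℂ) : Prop := Continuous f ∧ ∃ C, ∀ x, ‖f x‖ ≤ C * exp |x|

theorem Gr.int {u v : ℝ → ℂ} (hu : Gr u) (hv : Gr v) :
    Integrable fun x => u x * v x * (wt0 x : ℂ) := by
  obtain ⟨c1, C, h1⟩ := hu
  obtain ⟨c2, D, h2⟩ := hv
  refine integrable_wt0 (c1.mul c2) (C := C * D) (by linarith [pi_gt_three] : 2 < π) fun x => ?_
  rw [norm_mul]
  refine (mul_le_mul (h1 x) (h2 x) (norm_nonneg _) ((norm_nonneg _).trans (h1 x))).trans_eq ?_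
  rw [two_mul, exp_add]
  ring

theorem Gr.sq {u : ℝ → ℂ} (hu : Gr u) : Integrable fun x => ‖u x‖ ^ 2 * wt0 x :=
  (hu.int hu).norm.congr (.of_forall fun x => by
    simp only [norm_mul, Complex.norm_real, Real.norm_of_nonneg (wt0_pos x).le, pow_two])

theorem gr_pf (n : ℕ) : Gr fun x => (pf n x : ℂ) := by
  obtain ⟨C, -, h⟩ := poly_le_exp (pp n) one_pos
  exact ⟨by fun_prop, C, fun x => by simpa [pf] using h x⟩

theorem Gr.bmul {C : ℝ} {g u : ℝ → ℂ} (hg : Bc C g) (hu : Gr u) : Gr fun x => g x * u x := by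
  obtain ⟨c1, D, h1⟩ := hu
  refine ⟨hg.cont.mul c1, C * D, fun x => ?_⟩
  rw [norm_mul, mul_assoc]
  exact mul_le_mul (hg.bd x) (h1 x) (norm_nonneg _) hg.nonneg

theorem Gr.cmul (c : ℂ) {u : ℝ → ℂ} (hu : Gr u) : Gr fun x => c * u x :=
  Gr.bmul (C := ‖c‖) (g := fun _ => c) ⟨continuous_const, fun _ => le_rfl⟩ hu

theorem Gr.sub {u v : ℝ → ℂ} (hu : Gr u) (hv : Gr v) : Gr fun x => u x - v x := by
  obtain ⟨c1, C, h1⟩ := hu
  obtain ⟨c2, D, h2⟩ := hv
  refine ⟨c1.sub c2, C + D, fun x => ?_⟩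
  rw [add_mul]
  exact (norm_sub_le _ _).trans (add_le_add (h1 x) (h2 x))

theorem gr_sum {L : ℕ} {u : Fin L → ℝ → ℂ} (hu : ∀ j, Gr (u j)) : Gr fun x => ∑ j, u j x := by
  choose C hC using fun j => (hu j).2
  refine ⟨continuous_finsetSum _ fun j _ => (hu j).1, ∑ j, C j, fun x => ?_⟩
  rw [Finset.sum_mul]
  exact (norm_sum_le _ _).trans (Finset.sum_le_sum fun j _ => hC j x)

theorem gr_res {C : ℝ} {h : ℝ → ℂ} (hh : Bc C h) (L : ℕ) (k : Fin L) : Gr (res L h k) :=
  (Gr.bmul hh (gr_pf k)).sub (gr_sum fun j => (gr_pf j).cmul _)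

theorem expand {C : ℝ} {h u : ℝ → ℂ} (hh : Bc C h) (hu : Gr u) (L : ℕ) (k : Fin L) :
    ∫ x, u x * res L h k x * (wt0 x : ℂ) = (∫ x, u x * (h x * pf k x) * (wt0 x : ℂ)) -
      ∑ m : Fin L, Mx L h m k * ∫ x, u x * pf m x * (wt0 x : ℂ) := by
  simp only [← integral_const_mul]
  have i1 : ∀ m : Fin L, Integrable fun x => Mx L h m k * (u x * pf m x * (wt0 x : ℂ)) :=
    fun m => (hu.int (gr_pf m)).const_mul _
  rw [← integral_finsetSum _ fun m _ => i1 m, ← integral_sub (hu.int (Gr.bmul hh (gr_pf k)))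
    (integrable_finsetSum _ fun m _ => i1 m)]
  refine integral_congr_ae (.of_forall fun x => ?_)
  simp only [res, mul_sub, sub_mul, Finset.mul_sum, Finset.sum_mul]
  congr 1
  exact Finset.sum_congr rfl fun m _ => by ring

theorem orth (hOrth : S_Orth) {C : ℝ} {h : ℝ → ℂ} (hh : Bc C h) (L : ℕ) (l k : Fin L) :
    ∫ x, (pf l x : ℂ) * res L h k x * (wt0 x : ℂ) = 0 := by
  have e : ∀ m : Fin L, ∫ x, (pf l x : ℂ) * pf m x * (wt0 x : ℂ) = if l = m then 1 else 0 :=
    fun m => by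
      simp only [← Complex.ofReal_mul]
      rw [integral_complex_ofReal, hOrth]
      simp only [Fin.val_inj]
      split_ifs <;> simp
  rw [expand hh (gr_pf l), sub_eq_zero]
  simp only [e, mul_ite, mul_one, mul_zero, Finset.sum_ite_eq, Finset.mem_univ, if_true, Mx_apply]
  exact integral_congr_ae (.of_forall fun x => by push_cast; ring)

theorem entry (hOrth : S_Orth) {C D : ℝ} {g h : ℝ → ℂ} (hg : Bc C g) (hh : Bc D h) (L : ℕ)
    (j k : Fin L) : (Mx L (fun x => g x * h x) - Mx L g * Mx L h) j k =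
      ∫ x, res L h k x * res L g j x * (wt0 x : ℂ) := by
  have e : ∀ l : Fin L, ∫ x, res L h k x * pf l x * (wt0 x : ℂ) = 0 := fun l =>
    (integral_congr_ae (.of_forall fun x => by ring)).trans (orth hOrth hh L l k)
  rw [expand hg (gr_res hh L k)]
  simp only [e, mul_zero, Finset.sum_const_zero, sub_zero]
  rw [integral_congr_ae (g := fun x => g x * pf j x * res L h k x * (wt0 x : ℂ))
    (.of_forall fun x => by ring), expand hh (Gr.bmul hg (gr_pf j)), Matrix.sub_apply,
    Matrix.mul_apply]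
  congr 1
  · exact integral_congr_ae (.of_forall fun x => by push_cast; ring)
  · refine Finset.sum_congr rfl fun m _ => ?_
    rw [mul_comm]
    congr 1
    exact integral_congr_ae (.of_forall fun x => by push_cast; ring)

theorem point {L : ℕ} {A : Matrix (Fin L) (Fin L) ℂ} {a : ℝ} (ha : 0 ≤ a) (hA : Opb A a)
    (u v : Fin L → ℂ) :
    ‖∑ k, v k * A.mulVec u k‖ ≤ a * (∑ k, ‖u k‖ ^ 2 + ∑ k, ‖v k‖ ^ 2) / 2 := by
  have h1 := Finset.sum_mul_sq_le_sq_mul_sq Finset.univ (fun k => ‖v k‖) fun k => ‖A.mulVec u k‖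
  have h2 : 0 ≤ ∑ k, ‖v k‖ ^ 2 := by positivity
  have h3 : 0 ≤ ∑ k, ‖u k‖ ^ 2 := by positivity
  have h4 := mul_le_mul_of_nonneg_left (hA u) h2
  refine (norm_sum_le _ _).trans ?_
  simp only [norm_mul]
  refine le_of_sq_le_sq (h1.trans (h4.trans ?_)) (by positivity)
  nlinarith [sq_nonneg (a * (∑ k, ‖u k‖ ^ 2 - ∑ k, ‖v k‖ ^ 2))]

end ErrA

theorem p_Err (hOrth : S_Orth) :
    S_Err := by
  intro L C D a g h A hg hh ha hA
  have G := ErrA.gr_res hg L
  have H := ErrA.gr_res hh L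
  have i1 : ∀ k j : Fin L, Integrable fun x => A k j * (res L h k x * res L g j x * (wt0 x : ℂ)) :=
    fun k j => ((H k).int (G j)).const_mul _
  have e : (A * (Mx L (fun x => g x * h x) - Mx L g * Mx L h)).trace =
      ∫ x, (∑ k, res L h k x * A.mulVec (fun j => res L g j x) k) * (wt0 x : ℂ) := by
    simp only [Matrix.trace, Matrix.diag_apply]
    simp only [Matrix.mul_apply (M := A), ErrA.entry hOrth hg hh, ← integral_const_mul]
    simp only [← integral_finsetSum _ fun j _ => i1 _ j]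
    rw [← integral_finsetSum _ fun k _ => integrable_finsetSum _ fun j _ => i1 k j]
    refine integral_congr_ae (.of_forall fun x => ?_)
    simp only [Matrix.mulVec, dotProduct, Finset.mul_sum, Finset.sum_mul]
    exact Finset.sum_congr rfl fun k _ => Finset.sum_congr rfl fun j _ => by ring
  have j1 := integrable_finsetSum Finset.univ fun k _ => (G k).sq
  have j2 := integrable_finsetSum Finset.univ fun k _ => (H k).sq
  rw [e]
  refine (norm_integral_le_of_norm_le (((j1.add j2).const_mul a).div_const 2)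
    (.of_forall fun x => ?_)).trans_eq ?_
  · rw [norm_mul, Complex.norm_real, Real.norm_of_nonneg (wt0_pos x).le]
    refine (mul_le_mul_of_nonneg_right (ErrA.point ha hA _ _) (wt0_pos x).le).trans_eq ?_
    simp only [Pi.add_apply, ← Finset.sum_mul]
    ring
  · simp only [Pi.add_apply]
    rw [integral_div, integral_const_mul, integral_add j1 j2,
      integral_finsetSum _ fun k _ => (G k).sq, integral_finsetSum _ fun k _ => (H k).sq]
    rfl

end Pool.Agent.P.MP_6c8efb_pr.One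

end ErrS

section SectS

/-! Step Sect. -/

namespace Pool.Agent.P.MP_6c8efb_pr.One

open Polynomial MeasureTheory Real Filter Topology

namespace SectA

open scoped ComplexConjugate

variable {L : ℕ} {c C : ℝ} {g : ℝ → ℂ}

theorem form (hg : Bc C g) (v : Fin L → ℂ) :
    (Integrable fun x => g x * ((‖∑ k : Fin L, v k * pf k x‖ ^ 2 * wt0 x : ℝ) : ℂ)) ∧
    ∑ j, conj (v j) * (Mx L g).mulVec v j =
      ∫ x, g x * ((‖∑ k : Fin L, v k * pf k x‖ ^ 2 * wt0 x : ℝ) : ℂ) := by
  have e : ∀ x, g x * ((‖∑ k : Fin L, v k * pf k x‖ ^ 2 * wt0 x : ℝ) : ℂ) = ∑ j : Fin L, ∑ k : Fin L,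
      conj (v j) * v k * (g x * ((pf j x * pf k x * wt0 x : ℝ) : ℂ)) := fun x => by
    push_cast
    rw [← Complex.conj_mul', map_sum, Finset.sum_mul_sum, Finset.sum_mul, Finset.mul_sum]
    refine Finset.sum_congr rfl fun j _ => ?_
    rw [Finset.sum_mul, Finset.mul_sum]
    refine Finset.sum_congr rfl fun k _ => ?_
    rw [map_mul, Complex.conj_ofReal]; ring
  have hi := fun j k : Fin L => (hg.integrable j k).const_mul (conj (v j) * v k)
  simp only [e]
  refine ⟨integrable_finsetSum _ fun j _ => integrable_finsetSum _ fun k _ => hi j k, ?_⟩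
  rw [integral_finsetSum _ fun j _ => integrable_finsetSum _ fun k _ => hi j k]
  refine Finset.sum_congr rfl fun j _ => ?_
  rw [integral_finsetSum _ fun k _ => hi j k, Matrix.mulVec, dotProduct, Finset.mul_sum]
  refine Finset.sum_congr rfl fun k _ => ?_
  rw [integral_const_mul, Mx_apply]; ring

theorem one (hOrth : S_Orth) (L : ℕ) : Mx L (fun _ => 1) = 1 := by
  ext j k
  simp only [Mx_apply, one_mul, integral_complex_ofReal, hOrth j k, Matrix.one_apply, Fin.ext_iff]
  split_ifs <;> simp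

theorem low (hOrth : S_Orth) (hc : 0 < c) (hg : Bc C g) (h : ∀ x, c ≤ (g x).re) (v : Fin L → ℂ) :
    c ^ 2 * ∑ i, ‖v i‖ ^ 2 ≤ ∑ i, ‖(Mx L g).mulVec v i‖ ^ 2 := by
  obtain ⟨i1, e1⟩ := form hg v
  obtain ⟨i2, e2⟩ := form (C := 1) (g := fun _ => 1) ⟨continuous_const, by simp⟩ v
  simp only [one hOrth, Matrix.one_mulVec, Complex.conj_mul', one_mul, integral_complex_ofReal] at e2 i2
  have e3 : ∑ i, ‖v i‖ ^ 2 = ∫ x, ‖∑ k : Fin L, v k * pf k x‖ ^ 2 * wt0 x := by exact_mod_cast e2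
  have h1 : c * ∑ i, ‖v i‖ ^ 2 ≤ (∑ j, conj (v j) * (Mx L g).mulVec v j).re := by
    rw [e1, e3, ← integral_const_mul]
    refine (integral_mono (i2.re.const_mul c) i1.re fun x => ?_).trans_eq (integral_re i1)
    simp only [RCLike.re_to_complex, Complex.re_mul_ofReal, Complex.ofReal_re]
    exact mul_le_mul_of_nonneg_right (h x) (mul_nonneg (sq_nonneg _) (wt0_pos x).le)
  have h2 : (∑ j, conj (v j) * (Mx L g).mulVec v j).re ≤ ∑ j, ‖v j‖ * ‖(Mx L g).mulVec v j‖ :=
    (Complex.re_le_norm _).trans ((norm_sum_le _ _).trans_eq (by simp))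
  have h3 := Finset.sum_mul_sq_le_sq_mul_sq Finset.univ (fun j => ‖v j‖)
    fun j => ‖(Mx L g).mulVec v j‖
  have h4 : 0 ≤ ∑ i, ‖v i‖ ^ 2 := by positivity
  rcases h4.eq_or_lt with h5 | h5
  · rw [← h5, mul_zero]; positivity
  · have := pow_le_pow_left₀ (by positivity) (h1.trans h2) 2
    exact le_of_mul_le_mul_left (by nlinarith) h5

end SectA

theorem p_Sect (hOrth : S_Orth) :
    S_Sect := by
  intro L c C g hc hg h
  have key := SectA.low (L := L) hOrth hc hg h
  have hd : (Mx L g).det ≠ 0 := fun h0 => by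
    obtain ⟨v, hv, e⟩ := Matrix.exists_mulVec_eq_zero_iff.2 h0
    have h1 := key v
    simp only [e, Pi.zero_apply, norm_zero, ne_eq, OfNat.ofNat_ne_zero, not_false_eq_true, zero_pow,
      Finset.sum_const_zero] at h1
    have h2 : ∑ i, ‖v i‖ ^ 2 = 0 :=
      le_antisymm (nonpos_of_mul_nonpos_right h1 (by positivity)) (by positivity)
    exact hv (funext fun i => by
      simpa using (Finset.sum_eq_zero_iff_of_nonneg fun _ _ => sq_nonneg _).1 h2 i (Finset.mem_univ i))
  refine ⟨hd, fun w => ?_⟩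
  have h1 := key ((Mx L g)⁻¹.mulVec w)
  rw [Matrix.mulVec_mulVec, Matrix.mul_nonsing_inv _ (Ne.isUnit hd), Matrix.one_mulVec] at h1
  rw [one_div, inv_pow, le_inv_mul_iff₀ (by positivity)]
  exact h1

end Pool.Agent.P.MP_6c8efb_pr.One

end SectS

section JacS

/-! Step Jac. -/

namespace Pool.Agent.P.MP_6c8efb_pr.One

open Polynomial MeasureTheory Real Filter Topology

namespace JacA

theorem der {L : ℕ} (N : Matrix (Fin L) (Fin L) ℂ) (s : ℂ) :
    HasDerivAt (fun z : ℂ => (1 + (z - s) • N).det) N.trace s := by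
  have h := (hasDerivAt_id' s).sub_const s
  have h2 := HasDerivAt.comp (h := fun x => x - s) s
    ((Matrix.det (1 + (X : ℂ[X]) • N.map C)).divX.divX.hasDerivAt _) h
  rw [funext fun z => Matrix.det_one_add_smul (z - s) N]
  simpa using ((h.const_mul N.trace).const_add 1).fun_add (h2.fun_mul (h.fun_pow 2))

end JacA

theorem p_Jac :
    S_Jac := by
  intro L A B s hs
  set M := A + (s : ℂ) • B with hM
  have e : ∀ t : ℝ, (A + (t : ℂ) • B).det = M.det * (1 + ((t : ℂ) - s) • (M⁻¹ * B)).det := by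
    intro t
    rw [← Matrix.det_mul, mul_add, mul_one, Matrix.mul_smul,
      Matrix.mul_nonsing_inv_cancel_left _ _ (Ne.isUnit hs), hM, sub_smul, add_assoc,
      add_sub_cancel]
  have h1 := (JacA.der (M⁻¹ * B) s).comp_ofReal
  have h2 := Complex.reCLM.hasFDerivAt.comp_hasDerivAt s (h1.clog_real (by simp))
  have h3 := h1.continuousAt.eventually_ne (show _ ≠ (0 : ℂ) by simp)
  refine ((h2.const_add (log ‖M.det‖)).congr_of_eventuallyEq (h3.mono fun t ht => ?_)).congr_deriv
    (by simp)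
  simp only [e, norm_mul, Function.comp, Complex.reCLM_apply, Complex.log_re]
  exact log_mul (norm_ne_zero_iff.2 hs) (norm_ne_zero_iff.2 ht)

end Pool.Agent.P.MP_6c8efb_pr.One

end JacS

section DintS

/-! Step Dint. -/

namespace Pool.Agent.P.MP_6c8efb_pr.One

open Polynomial MeasureTheory Real Filter Topology

namespace DintA

theorem re_ge {c s : ℝ} {z : ℂ} (hz : c ≤ z.re) (h0 : 0 ≤ s) (h1 : s ≤ 1) :
    min 1 c ≤ (1 + s * (z - 1)).re := by
  have e : (1 + s * (z - 1)).re = (1 - s) * 1 + s * z.re := by simp; ring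
  rw [e]
  nlinarith [min_le_left 1 c, min_le_right 1 c,
    mul_le_mul_of_nonneg_left ((min_le_right 1 c).trans hz) h0,
    mul_le_mul_of_nonneg_left (min_le_left 1 c) (sub_nonneg.2 h1)]

theorem bc {c C s : ℝ} {r : ℝ → ℂ} (hc : 0 < c) (h : Bc C r) (hr : ∀ x, c ≤ (r x).re) (h0 : 0 ≤ s)
    (h1 : s ≤ 1) : Bc ((C + 1) / min 1 c) fun x => (r x - 1) / (1 + s * (r x - 1)) := by
  have hm : 0 < min 1 c := lt_min one_pos hc
  have hn : ∀ x, min 1 c ≤ ‖1 + s * (r x - 1)‖ := fun x =>
    (re_ge (hr x) h0 h1).trans (Complex.re_le_norm _)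
  have := h.cont
  refine ⟨Continuous.div (by fun_prop) (by fun_prop) fun x => norm_pos_iff.1 (hm.trans_le (hn x)),
    fun x => ?_⟩
  rw [norm_div]
  refine div_le_div₀ (by linarith [h.nonneg]) ((norm_sub_le _ _).trans ?_) hm (hn x)
  simpa using h.bd x

theorem ftc {c : ℝ} {z : ℂ} (hc : 0 < c) (hz : c ≤ z.re) :
    ∫ s in (0 : ℝ)..1, ((z - 1) / (1 + s * (z - 1))).re = log ‖z‖ := by
  have hm : 0 < min 1 c := lt_min one_pos hc
  have hp : ∀ s ∈ Set.uIcc (0 : ℝ) 1, 0 < (1 + s * (z - 1)).re := fun s hs => by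
    rw [Set.uIcc_of_le zero_le_one] at hs
    exact hm.trans_le (re_ge hz hs.1 hs.2)
  have hd : ∀ s ∈ Set.uIcc (0 : ℝ) 1, HasDerivAt (fun s : ℝ => (Complex.log (1 + s * (z - 1))).re)
      ((z - 1) / (1 + s * (z - 1))).re s := fun s hs => by
    have h1 : HasDerivAt (fun s : ℝ => 1 + (s : ℂ) * (z - 1)) (z - 1) s := by
      simpa using (((hasDerivAt_id s).ofReal_comp).mul_const (z - 1)).const_add 1
    exact Complex.reCLM.hasFDerivAt.comp_hasDerivAt s (h1.clog_real (Or.inl (hp s hs)))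
  rw [intervalIntegral.integral_eq_sub_of_hasDerivAt hd]
  · simp [Complex.log_re]
  · refine ContinuousOn.intervalIntegrable (Complex.continuous_re.comp_continuousOn ?_)
    refine ContinuousOn.div (by fun_prop) (by fun_prop) fun s hs e => ?_
    simpa [e] using hp s hs

theorem tr {C : ℝ} {g : ℝ → ℂ} (h : Bc C g) (L : ℕ) :
    (Mx L g).trace.re = ∫ x, (g x).re * (KK L x x * wt0 x) := by
  have e : (Mx L g).trace = ∫ x, ∑ j : Fin L, g x * ((pf j x * pf j x * wt0 x : ℝ) : ℂ) := by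
    rw [integral_finsetSum _ fun (j : Fin L) _ => h.integrable j j]
    rfl
  have h1 := integral_re (𝕜 := ℂ) (integrable_finsetSum Finset.univ fun (j : Fin L) _ => h.integrable j j)
  simp only [RCLike.re_to_complex] at h1
  rw [e, ← h1]
  refine integral_congr_ae (.of_forall fun x => ?_)
  simp only [← Finset.mul_sum, ← Complex.ofReal_sum, Complex.re_mul_ofReal, ← Finset.sum_mul, KK,
    Finset.sum_range]

end DintA

open DintA in
theorem p_Dint :
    S_Dint := by
  intro L c C r hc h hr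
  have hK : Integrable fun x => KK L x x * wt0 x := by
    simp only [KK, Finset.sum_mul]
    exact integrable_finsetSum _ fun j _ => integrable_pf j j
  have hi : Integrable (Function.uncurry fun (s x : ℝ) =>
      ((r x - 1) / (1 + s * (r x - 1))).re * (KK L x x * wt0 x))
      ((volume.restrict (Set.uIoc (0 : ℝ) 1)).prod volume) := by
    rw [Set.uIoc_of_le zero_le_one]
    refine (hK.comp_snd _).bdd_mul (c := (C + 1) / min 1 c) ?_ ?_
    · have := h.cont.measurable
      exact (by fun_prop : Measurable fun p : ℝ × ℝ =>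
        ((r p.2 - 1) / (1 + p.1 * (r p.2 - 1))).re).aestronglyMeasurable
    · filter_upwards [Measure.quasiMeasurePreserving_fst.ae (ae_restrict_mem measurableSet_Ioc)]
        with p hp
      exact (Complex.abs_re_le_norm _).trans ((bc hc h hr hp.1.le hp.2).bd p.2)
  have he : ∀ s ∈ Set.uIcc (0 : ℝ) 1, (Mx L fun x => (r x - 1) / (1 + s * (r x - 1))).trace.re =
      ∫ x, ((r x - 1) / (1 + s * (r x - 1))).re * (KK L x x * wt0 x) := fun s hs => by
    rw [Set.uIcc_of_le zero_le_one] at hs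
    exact tr (bc hc h hr hs.1 hs.2) L
  refine ⟨intervalIntegrable_iff.2 (IntegrableOn.congr_fun hi.integral_prod_left
    (fun s hs => (he s (Set.uIoc_subset_uIcc hs)).symm) measurableSet_uIoc), ?_⟩
  rw [intervalIntegral.integral_congr he, intervalIntegral_integral_swap hi]
  refine integral_congr_ae (.of_forall fun x => ?_)
  simp only
  rw [intervalIntegral.integral_mul_const, ftc hc (hr x), mul_assoc]

end Pool.Agent.P.MP_6c8efb_pr.One

end DintS
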