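import Pool.Agent.P.MP_6c8efb_pr.One.IfE

section IrecS

/-! Step Irec. -/

namespace Pool.Agent.P.MP_6c8efb_pr.One

open Polynomial MeasureTheory Real Filter Topology

namespace IrecA

noncomputable def G (n : ℕ) (x v : ℝ) : ℂ :=
  ((tanh v ^ n / cosh v : ℝ) : ℂ) * Complex.exp (-2 * Complex.I * x * v)

theorem II_eq (n : ℕ) (x : ℝ) : II n x = ∫ v in Set.Ioi (0 : ℝ), G n x v := rfl

theorem d_tanh (v : ℝ) : HasDerivAt tanh (1 - tanh v ^ 2) v := by
  have h := (hasDerivAt_sinh v).div (hasDerivAt_cosh v) (cosh_pos v).ne'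
  have e : tanh = sinh / cosh := by funext y; simp [tanh_eq_sinh_div_cosh]
  have hc := (cosh_pos v).ne'
  rw [← e] at h
  refine h.congr_deriv ?_
  rw [tanh_eq_sinh_div_cosh]; field_simp

theorem cont_tanh : Continuous tanh :=
  continuous_iff_continuousAt.2 fun v => (d_tanh v).continuousAt

theorem cont_G (n : ℕ) (x : ℝ) : Continuous (G n x) := by
  unfold G
  refine Continuous.mul (Complex.continuous_ofReal.comp ?_) (by fun_prop)
  exact (cont_tanh.pow n).div continuous_cosh fun v => (cosh_pos v).ne'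

theorem norm_G (n : ℕ) (x v : ℝ) : ‖G n x v‖ ≤ 2 * exp (-(1 * |v|)) := by
  have h1 : ‖Complex.exp (-2 * Complex.I * x * v)‖ = 1 := by
    rw [Complex.norm_exp]; simp
  rw [G, norm_mul, h1, mul_one, Complex.norm_real, Real.norm_eq_abs, abs_div, abs_pow,
    abs_of_pos (cosh_pos v), one_mul, exp_neg, ← div_eq_mul_inv,
    div_le_div_iff₀ (cosh_pos _) (exp_pos _)]
  have h2 : |tanh v| ^ n ≤ 1 := pow_le_one₀ (abs_nonneg _) (abs_tanh_lt_one v).le
  have h3 := exp_abs_le_cosh v
  nlinarith [exp_pos |v|]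

theorem int_G (n : ℕ) (x : ℝ) : Integrable (G n x) :=
  integrable_of_exp (cont_G n x) one_pos (norm_G n x)

theorem lim_G (n : ℕ) (x : ℝ) : Tendsto (G n x) atTop (𝓝 0) := by
  refine squeeze_zero_norm (norm_G n x) ?_
  have h : Tendsto (fun v : ℝ => exp (-(1 * |v|))) atTop (𝓝 0) := by
    simp only [one_mul]
    exact tendsto_exp_neg_atTop_nhds_zero.comp tendsto_abs_atTop_atTop
  simpa using h.const_mul 2

theorem d_G (n : ℕ) (x v : ℝ) : HasDerivAt (G n x)
    (n * G (n - 1) x v - (n + 1) * G (n + 1) x v - 2 * Complex.I * x * G n x v) v := by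
  have hc := (cosh_pos v).ne'
  have h1 : HasDerivAt (fun v => tanh v ^ n / cosh v)
      (n * (tanh v ^ (n - 1) / cosh v) - (n + 1) * (tanh v ^ (n + 1) / cosh v)) v := by
    have h := ((d_tanh v).pow n).div (hasDerivAt_cosh v) hc
    refine h.congr_deriv ?_
    have hs : sinh v = tanh v * cosh v := by rw [tanh_eq_sinh_div_cosh]; field_simp
    rw [hs]
    rcases n with _ | n
    · simp only [Pi.pow_apply]; field_simp; push_cast; ring
    · simp only [Pi.pow_apply, Nat.add_sub_cancel]; field_simp; push_cast; ring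
  have h2 : HasDerivAt (fun v : ℝ => Complex.exp (-2 * Complex.I * x * v))
      (Complex.exp (-2 * Complex.I * x * v) * (-2 * Complex.I * x)) v := by
    have := ((hasDerivAt_id v).ofReal_comp.const_mul (-2 * Complex.I * x)).cexp
    simpa using this
  have h := h1.ofReal_comp.mul h2
  refine h.congr_deriv ?_
  simp only [G]; push_cast; ring

theorem key (n : ℕ) (x : ℝ) :
    n * II (n - 1) x - (n + 1) * II (n + 1) x - 2 * Complex.I * x * II n x = -G n x 0 := by
  have i1 := ((int_G (n - 1) x).const_mul (n : ℂ)).integrableOn (s := Set.Ioi 0)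
  have i2 := ((int_G (n + 1) x).const_mul ((n : ℂ) + 1)).integrableOn (s := Set.Ioi 0)
  have i3 := ((int_G n x).const_mul (2 * Complex.I * x)).integrableOn (s := Set.Ioi 0)
  have h := integral_Ioi_of_hasDerivAt_of_tendsto' (a := 0) (fun v _ => d_G n x v)
    ((i1.sub i2).sub i3) (lim_G n x)
  have i4 : IntegrableOn (fun v => n * G (n - 1) x v - (n + 1) * G (n + 1) x v) (Set.Ioi 0) :=
    i1.sub i2
  rw [integral_sub i4 i3, integral_sub i1 i2, integral_const_mul, integral_const_mul,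
    integral_const_mul, zero_sub] at h
  exact h

theorem full (hSech : S_Sech) (x : ℝ) : ∫ v, G 0 x v = ((π * wt0 x : ℝ) : ℂ) := by
  have h := (hSech (-2 * π * Complex.I * x) 0 (by simpa using pi_pos) le_rfl (by positivity)).2
  have h2 := Measure.integral_comp_mul_left (G 0 x) π
  have e : ∀ y : ℝ, G 0 x (π * y) = Complex.exp (-2 * π * Complex.I * x * y) /
      Complex.cosh ((π * y : ℝ) + (0 : ℝ) * Complex.I) := by
    intro y
    simp only [G, pow_zero]
    push_cast
    rw [zero_mul, add_zero, one_div, mul_comm, ← div_eq_mul_inv]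
    congr 2; ring
  simp_rw [e] at h2
  rw [h] at h2
  have e2 : (-2 * π * Complex.I * x : ℂ) / 2 = ((-(π * x) : ℝ) : ℂ) * Complex.I := by
    push_cast; ring
  rw [e2, Complex.cos_mul_I, abs_of_pos (inv_pos.2 pi_pos)] at h2
  have hp : (π : ℂ) ≠ 0 := Complex.ofReal_ne_zero.2 pi_pos.ne'
  have h3 : ∫ v, G 0 x v = π * ((π⁻¹ : ℝ) • ∫ v, G 0 x v) := by
    rw [Complex.real_smul]; push_cast; field_simp
  rw [h3, ← h2, wt0]
  push_cast
  simp

theorem re0 (hSech : S_Sech) (x : ℝ) : (II 0 x).re = π / 2 * wt0 x := by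
  have h := intervalIntegral.integral_Iic_add_Ioi (b := (0 : ℝ)) (int_G 0 x).integrableOn
    (int_G 0 x).integrableOn
  have h1 := integral_comp_neg_Ioi 0 (G 0 x)
  have e : ∀ v : ℝ, G 0 x (-v) = (starRingEnd ℂ) (G 0 x v) := by
    intro v
    simp only [G, pow_zero, cosh_neg, map_mul, Complex.conj_ofReal, ← Complex.exp_conj, map_neg,
      Complex.conj_I, map_ofNat]
    push_cast
    congr 2; ring
  simp_rw [e] at h1
  rw [integral_conj, neg_zero] at h1
  rw [← h1, full hSech, ← II_eq] at h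
  have := congrArg Complex.re h
  simp only [Complex.add_re, Complex.conj_re, Complex.ofReal_re] at this
  linarith

end IrecA

theorem p_Irec (hSech : S_Sech) :
    S_Irec := by
  intro x
  refine ⟨?_, fun n => ?_, IrecA.re0 hSech x⟩
  · have h := IrecA.key 0 x
    simp only [IrecA.G] at h
    simp at h
    linear_combination -h
  · have h := IrecA.key (n + 1) x
    simp only [IrecA.G, Nat.add_sub_cancel] at h
    simp at h
    linear_combination -h

end Pool.Agent.P.MP_6c8efb_pr.One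

end IrecS

section IbdS

/-! Step Ibd. -/

namespace Pool.Agent.P.MP_6c8efb_pr.One

open Polynomial MeasureTheory Real Filter Topology

namespace IbdA

/-- the integrand -/
noncomputable def ff (n : ℕ) (v : ℝ) : ℝ := tanh v ^ n / cosh v

/-- the value at zero -/
noncomputable def AA (n : ℕ) : ℝ := ∫ v in Set.Ioi (0 : ℝ), ff n v

theorem cont_ff (n : ℕ) : Continuous (ff n) := by
  have : Continuous tanh := by
    rw [funext tanh_eq_sinh_div_cosh]
    exact continuous_sinh.div continuous_cosh fun _ => (cosh_pos _).ne'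
  exact (this.pow n).div continuous_cosh fun _ => (cosh_pos _).ne'

theorem int_ff (n : ℕ) : Integrable (ff n) := by
  refine integrable_of_exp (cont_ff n) (C := 2) one_pos fun v => ?_
  rw [ff, norm_div, norm_pow, Real.norm_of_nonneg (cosh_pos v).le, one_mul, exp_neg,
    ← div_eq_mul_inv, div_le_div_iff₀ (cosh_pos _) (exp_pos _)]
  exact (mul_le_of_le_one_left (exp_pos _).le
    (pow_le_one₀ (norm_nonneg _) (abs_tanh_lt_one v).le)).trans (exp_abs_le_cosh v)

theorem tanh_nn {v : ℝ} (hv : 0 < v) : 0 ≤ tanh v := by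
  rw [tanh_eq_sinh_div_cosh]
  exact div_nonneg (sinh_nonneg_iff.2 hv.le) (cosh_pos v).le

theorem ff_nn (n : ℕ) {v : ℝ} (hv : 0 < v) : 0 ≤ ff n v :=
  div_nonneg (pow_nonneg (tanh_nn hv) n) (cosh_pos v).le

theorem ff_le (n : ℕ) {v : ℝ} (hv : 0 < v) : ff (n + 1) v ≤ ff n v :=
  div_le_div_of_nonneg_right
    (pow_le_pow_of_le_one (tanh_nn hv) (tanh_lt_one v).le n.le_succ) (cosh_pos v).le

theorem AA_nn (n : ℕ) : 0 ≤ AA n := setIntegral_nonneg measurableSet_Ioi fun _ h => ff_nn n h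

theorem AA_le (n : ℕ) : AA (n + 1) ≤ AA n :=
  setIntegral_mono_on (int_ff _).integrableOn (int_ff _).integrableOn measurableSet_Ioi
    fun _ h => ff_le n h

theorem II_zero (n : ℕ) : II n 0 = AA n := by
  rw [II, AA, ← integral_complex_ofReal]
  simp [ff]

theorem norm_e (x v : ℝ) : ‖Complex.exp (-2 * Complex.I * x * v)‖ = 1 := by
  rw [Complex.norm_exp]; simp

theorem norm_le {g : ℝ → ℝ} (h : ∀ v, 0 < v → 0 ≤ g v) (x : ℝ) :
    ‖∫ v in Set.Ioi (0 : ℝ), (g v : ℂ) * Complex.exp (-2 * Complex.I * x * v)‖ ≤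
      ∫ v in Set.Ioi (0 : ℝ), g v :=
  (norm_integral_le_integral_norm _).trans_eq <| setIntegral_congr_fun measurableSet_Ioi
    fun v hv => by
      simp only [norm_mul, norm_e, Complex.norm_real, Real.norm_of_nonneg (h v hv), mul_one]

theorem int_e (n : ℕ) (x : ℝ) :
    Integrable fun v : ℝ => (ff n v : ℂ) * Complex.exp (-2 * Complex.I * x * v) :=
  (int_ff n).ofReal.mul_bdd (c := 1) (by fun_prop) (.of_forall fun v => (norm_e x v).le)

theorem II_le (n : ℕ) (x : ℝ) : ‖II n x‖ ≤ AA n := norm_le (fun _ h => ff_nn n h) x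

theorem II_sub (n : ℕ) (x : ℝ) : ‖II (n + 1) x - II n x‖ ≤ AA n - AA (n + 1) := by
  have h := norm_le (g := fun v => ff n v - ff (n + 1) v) (fun _ h => sub_nonneg.2 (ff_le n h)) x
  rw [integral_sub (int_ff _).integrableOn (int_ff _).integrableOn] at h
  simp only [Complex.ofReal_sub, sub_mul] at h
  rw [integral_sub (int_e _ x).integrableOn (int_e _ x).integrableOn, norm_sub_rev] at h
  exact h

end IbdA

open IbdA in
theorem p_Ibd (hIrec : S_Irec) :
    S_Ibd := by
  obtain ⟨h1, h2, h0⟩ := hIrec 0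
  simp only [II_zero, Complex.ofReal_zero, mul_zero, zero_mul, sub_zero, Complex.ofReal_re, wt0,
    cosh_zero, div_one, mul_one] at h0 h1 h2
  have a1 : AA 1 = 1 := by exact_mod_cast h1
  have a2 : ∀ n : ℕ, (n + 2) * AA (n + 2) = (n + 1) * AA n := fun n => by exact_mod_cast h2 n
  have w : ∀ n : ℕ, (n + 1) * AA (n + 1) * AA n = π / 2 := fun n => by
    induction n with
    | zero => simp [a1, h0]
    | succ n ih =>
      rw [← ih]
      push_cast
      linear_combination AA (n + 1) * a2 n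
  have b : ∀ n : ℕ, AA n ^ 2 ≤ 4 / (n + 1) := fun n => by
    rw [le_div_iff₀ (by positivity)]
    cases n with
    | zero => rw [h0]; simp; nlinarith [pi_lt_four, pi_pos]
    | succ n =>
      have c1 : (n + 1) * AA (n + 1) * AA (n + 1) ≤ π / 2 := by
        rw [← w n]
        exact mul_le_mul_of_nonneg_left (AA_le n) (mul_nonneg (by positivity) (AA_nn _))
      have c2 : (0 : ℝ) ≤ n * AA (n + 1) ^ 2 := by positivity
      push_cast
      nlinarith [pi_lt_four]
  intro n x
  refine ⟨(pow_le_pow_left₀ (norm_nonneg _) (II_le n x) 2).trans (b n), ?_⟩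
  have c : ‖II (n + 1) x - II n x‖ * (n + 1) ≤ AA n := by
    have d1 := mul_le_mul_of_nonneg_right ((II_sub n x).trans (sub_le_sub_left (AA_le (n + 1)) _))
      (by positivity : (0 : ℝ) ≤ n + 2)
    nlinarith [a2 n, norm_nonneg (II (n + 1) x - II n x)]
  have d := (pow_le_pow_left₀ (by positivity) c 2).trans (b n)
  rw [le_div_iff₀ (by positivity)] at d ⊢
  linarith

end Pool.Agent.P.MP_6c8efb_pr.One

end IbdS

section JostS

/-! Step Jost. -/

namespace Pool.Agent.P.MP_6c8efb_pr.One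

open Polynomial MeasureTheory Real Filter Topology

namespace JostA

noncomputable def J (x : ℝ) (n : ℕ) : ℂ := Complex.I ^ n * II n x

theorem J_one (h : S_Irec) (x : ℝ) : J x 1 = Complex.I + 2 * x * J x 0 := by
  simp only [J, (h x).1, pow_one, pow_zero, one_mul]
  linear_combination (-2 * x * II 0 x) * Complex.I_mul_I

theorem J_rec (h : S_Irec) (x : ℝ) (n : ℕ) :
    (n + 2) * J x (n + 2) = 2 * x * J x (n + 1) - (n + 1) * J x n := by
  have h1 := (h x).2.1 n
  simp only [J, pow_succ]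
  linear_combination (Complex.I ^ n * Complex.I * Complex.I) * h1 +
    (Complex.I ^ n * ((n + 1) * II n x - 2 * Complex.I * x * II (n + 1) x)) * Complex.I_mul_I

theorem re_rec (h : S_Irec) (x : ℝ) (n : ℕ) :
    (n + 2) * (J x (n + 2)).re = 2 * x * (J x (n + 1)).re - (n + 1) * (J x n).re := by
  simpa using congrArg Complex.re (J_rec h x n)

theorem im_rec (h : S_Irec) (x : ℝ) (n : ℕ) :
    (n + 2) * (J x (n + 2)).im = 2 * x * (J x (n + 1)).im - (n + 1) * (J x n).im := by
  simpa using congrArg Complex.im (J_rec h x n)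

theorem re_eq (h : S_Irec) (x : ℝ) (n : ℕ) :
    (J x n).re = (J x 0).re * pf n x ∧ (J x (n + 1)).re = (J x 0).re * pf (n + 1) x := by
  induction n with
  | zero =>
    refine ⟨by simp, ?_⟩
    have := congrArg Complex.re (J_one h x)
    simp at this
    simp only [zero_add, this, pf_one]; ring
  | succ n ih =>
    refine ⟨ih.2, mul_left_cancel₀ (by positivity : (n + 2 : ℝ) ≠ 0) ?_⟩
    have h1 := re_rec h x n
    rw [ih.1, ih.2] at h1
    linear_combination h1 - (J x 0).re * pf_rec n x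

theorem wron (h : S_Irec) (x : ℝ) (n : ℕ) :
    (n + 1) * ((J x (n + 1)).re * (J x n).im - (J x n).re * (J x (n + 1)).im) = -(J x 0).re := by
  induction n with
  | zero =>
    have h1 := congrArg Complex.re (J_one h x)
    have h2 := congrArg Complex.im (J_one h x)
    simp at h1 h2
    simp only [zero_add, h1, h2]; push_cast; ring
  | succ n ih =>
    push_cast
    linear_combination ih + (J x (n + 1)).im * re_rec h x n - (J x (n + 1)).re * im_rec h x n

theorem key {a b e1 e2 N c : ℝ} (hN : 1 ≤ N) (h1 : a ^ 2 + b ^ 2 ≤ 4 / N)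
    (h2 : e1 ^ 2 + e2 ^ 2 ≤ 4 / N ^ 3) (h3 : N * ((-b + e1) * b - a * (a + e2)) = -c) :
    |a ^ 2 + (-b + e1) ^ 2 - c / N| ≤ 8 / N ^ 2 := by
  have hN0 : 0 < N := by linarith
  have h4 : a ^ 2 + (-b + e1) ^ 2 - c / N = e1 ^ 2 - (e1 * b + e2 * a) := by
    field_simp
    linear_combination -h3
  have h5 : (e1 * b + e2 * a) ^ 2 ≤ (4 / N ^ 2) ^ 2 := by
    calc _ ≤ (e1 ^ 2 + e2 ^ 2) * (a ^ 2 + b ^ 2) := by nlinarith [sq_nonneg (e1 * a - e2 * b)]
      _ ≤ 4 / N ^ 3 * (4 / N) := by gcongr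
      _ = _ := by field_simp
  have h6 := abs_le.1 (abs_le_of_sq_le_sq h5 (by positivity))
  have h7 : 4 / N ^ 3 ≤ 4 / N ^ 2 := by gcongr; norm_num
  have h8 : 8 / N ^ 2 = 4 / N ^ 2 + 4 / N ^ 2 := by ring
  have h9 : 0 < 4 / N ^ 2 := by positivity
  rw [h4, abs_le]
  constructor <;> nlinarith [sq_nonneg e1, sq_nonneg e2]

theorem sq_norm' (z : ℂ) : ‖z‖ ^ 2 = z.re ^ 2 + z.im ^ 2 := by
  rw [Complex.sq_norm, Complex.normSq_apply]; ring

end JostA

open JostA in
theorem p_Jost (hIrec : S_Irec) (hIbd : S_Ibd) :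
    S_Jost := by
  refine ⟨32 / π ^ 2, fun n x => ?_⟩
  set e : ℂ := Complex.I ^ (n + 1) * (II (n + 1) x - II n x) with he
  have hJ : J x (n + 1) = Complex.I * J x n + e := by simp only [J, he]; ring
  have ha : (J x (n + 1)).re = -(J x n).im + e.re := by simp [hJ]
  have hb : (J x (n + 1)).im = (J x n).re + e.im := by simp [hJ]
  have h1 : (J x n).re ^ 2 + (J x n).im ^ 2 ≤ 4 / (n + 1) := by
    rw [← sq_norm']; simpa [J] using (hIbd n x).1
  have h2 : e.re ^ 2 + e.im ^ 2 ≤ 4 / (n + 1) ^ 3 := by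
    rw [← sq_norm']; simpa [he] using (hIbd n x).2
  have h3 := wron hIrec x n
  rw [ha, hb] at h3
  have h4 := key (by linarith [n.cast_nonneg (α := ℝ)]) h1 h2 h3
  have h0 : (J x 0).re = π / 2 * wt0 x := by simpa [J] using (hIrec x).2.2
  rw [← ha, (re_eq hIrec x n).1, (re_eq hIrec x n).2, h0] at h4
  have hc := cosh_pos (π * x)
  have hp := pi_pos
  have h5 : (pf n x ^ 2 + pf (n + 1) x ^ 2) * wt0 x - 2 / (π * (n + 1)) =
      (4 * cosh (π * x) / π ^ 2) * ((π / 2 * wt0 x * pf n x) ^ 2 +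
        (π / 2 * wt0 x * pf (n + 1) x) ^ 2 - π / 2 * wt0 x / (n + 1)) := by
    unfold wt0
    field_simp
    ring
  rw [h5, abs_mul, abs_of_pos (by positivity : 0 < 4 * cosh (π * x) / π ^ 2)]
  refine (mul_le_mul_of_nonneg_left h4 (by positivity)).trans_eq ?_
  field_simp
  ring

end Pool.Agent.P.MP_6c8efb_pr.One

end JostS

section PairS

/-! Step Pair. -/

namespace Pool.Agent.P.MP_6c8efb_pr.One

open Polynomial MeasureTheory Real Filter Topology

namespace PairA

theorem amgm {g e t u : ℝ} (he : 0 ≤ e) (ht : 0 < t) (hu : 0 < u) :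
    |g| * e ≤ t / 2 * (g ^ 2 * e * u) + 1 / (2 * t) * (e / u) := by
  have h : t / 2 * (g ^ 2 * e * u) + 1 / (2 * t) * (e / u) - |g| * e =
      e * (t * u * |g| - 1) ^ 2 / (2 * t * u) := by
    rw [← sq_abs g]; field_simp; ring
  have h2 : 0 ≤ e * (t * u * |g| - 1) ^ 2 / (2 * t * u) := by positivity
  linarith

theorem poly_le (x : ℝ) : 1 + 4 * x ^ 2 ≤ 8 * exp |x| := by
  have h := quadratic_le_exp_of_nonneg (abs_nonneg x)
  rw [sq_abs] at h
  linarith [abs_nonneg x]

theorem first {g e C D x : ℝ} (hg : |g| ≤ C * exp (-(π * |x|))) (he0 : 0 ≤ e)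
    (he : e ≤ D * cosh (π * x)) :
    g ^ 2 * e * (1 + 4 * x ^ 2) ≤ D * (8 * C ^ 2 * exp (-((π - 1) * |x|))) := by
  have hD : 0 ≤ D := by
    by_contra h
    push Not at h
    nlinarith [cosh_pos (π * x)]
  have h1 : g ^ 2 ≤ (C * exp (-(π * |x|))) ^ 2 := by
    rw [← sq_abs g]; exact pow_le_pow_left₀ (abs_nonneg g) hg 2
  have h2 : e ≤ D * exp (π * |x|) := by
    have h := cosh_le_exp_abs (π * x)
    rw [abs_mul, abs_of_pos pi_pos] at h
    exact he.trans (mul_le_mul_of_nonneg_left h hD)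
  have h3 : exp (-((π - 1) * |x|)) =
      exp (-(π * |x|)) * exp (-(π * |x|)) * exp (π * |x|) * exp |x| := by
    rw [← exp_add, ← exp_add, ← exp_add]; congr 1; ring
  calc g ^ 2 * e * (1 + 4 * x ^ 2)
      ≤ (C * exp (-(π * |x|))) ^ 2 * (D * exp (π * |x|)) * (8 * exp |x|) :=
        mul_le_mul (mul_le_mul h1 h2 he0 (by positivity)) (poly_le x) (by positivity)
          (by positivity)
    _ = _ := by rw [h3]; ring

end PairA

theorem p_Pair (hJost : S_Jost) (hOrth : S_Orth) (hCau : S_Cau) :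
    S_Pair := by
  intro g C hg hb
  obtain ⟨D, hD⟩ := hJost
  have hπ : 0 < π - 1 := by linarith [pi_gt_three]
  have i1 := (integrable_exp_neg_abs hπ).const_mul (8 * C ^ 2)
  have i2 := integrable_inv_one_add_sq
  obtain ⟨I1, e1⟩ : ∃ I, I = ∫ x : ℝ, 8 * C ^ 2 * exp (-((π - 1) * |x|)) := ⟨_, rfl⟩
  obtain ⟨I2, e2⟩ : ∃ I, I = ∫ x : ℝ, (1 + x ^ 2)⁻¹ := ⟨_, rfl⟩
  refine ⟨D * I1 / 2 + 1 / 2 + I2 / π, fun n => ?_⟩
  obtain ⟨c1, c3⟩ := hCau n
  have c2 := (hCau (n + 1)).1
  have hN : (0 : ℝ) < n + 1 := by positivity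
  have ht : 0 < sqrt (n + 1 : ℝ) := sqrt_pos.2 hN
  have ht2 : sqrt (n + 1 : ℝ) ^ 2 = n + 1 := sq_sqrt hN.le
  have hDn := hD n
  generalize sqrt (n + 1 : ℝ) = t at ht ht2 ⊢
  generalize (n + 1 : ℝ) = N at hN ht2 hDn c3 ⊢
  have ig : Integrable g := integrable_of_exp hg pi_pos hb
  have gb : ∀ x, ‖g x‖ ≤ |C| := fun x => (hb x).trans <| by
    have h : exp (-(π * |x|)) ≤ 1 := exp_le_one_iff.2 (neg_nonpos.2 (by positivity))
    nlinarith [le_abs_self C, abs_nonneg C, exp_pos (-(π * |x|))]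
  have iA : Integrable fun x => g x * (pf n x ^ 2 + pf (n + 1) x ^ 2) * wt0 x := by
    have h := ((integrable_pf n n).add (integrable_pf (n + 1) (n + 1))).bdd_mul
      hg.aestronglyMeasurable (.of_forall gb)
    refine h.congr (.of_forall fun x => ?_)
    simp only [Pi.add_apply]; ring
  rw [← integral_const_mul, ← integral_sub iA (ig.const_mul _), ← Real.norm_eq_abs]
  have iB := ((c1.add c2).add (i2.const_mul (2 / (π * N)))).const_mul (1 / (2 * t))
  have iC := i1.const_mul (t / 2 * (D / N ^ 2))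
  refine (norm_integral_le_of_norm_le (iC.add iB) (.of_forall fun x => ?_)).trans_eq ?_
  · have hu : 0 < 1 + 4 * x ^ 2 := by positivity
    have hw := wt0_pos x
    have hE := hDn x
    obtain ⟨b, eb⟩ : ∃ b, b = 2 / (π * N) := ⟨_, rfl⟩
    have hb0 : 0 < b := by rw [eb]; positivity
    rw [← eb] at hE ⊢
    have h0 : g x * (pf n x ^ 2 + pf (n + 1) x ^ 2) * wt0 x - b * g x =
        g x * ((pf n x ^ 2 + pf (n + 1) x ^ 2) * wt0 x - b) := by ring
    rw [Real.norm_eq_abs, h0, abs_mul]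
    have hA : 0 ≤ (pf n x ^ 2 + pf (n + 1) x ^ 2) * wt0 x := by positivity
    have h1 : |(pf n x ^ 2 + pf (n + 1) x ^ 2) * wt0 x - b| ≤
        (pf n x ^ 2 + pf (n + 1) x ^ 2) * wt0 x + b := abs_le.2 ⟨by linarith, by linarith⟩
    have h2 := PairA.first (D := D / N ^ 2) (hb x) (abs_nonneg _) (hE.trans_eq (by ring))
    refine (PairA.amgm (abs_nonneg _) ht hu).trans ?_
    simp only [Pi.add_apply]
    refine add_le_add ?_ (mul_le_mul_of_nonneg_left ?_ (by positivity))
    · rw [mul_assoc (t / 2)]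
      exact mul_le_mul_of_nonneg_left h2 (by positivity)
    · have h3 : b / (1 + 4 * x ^ 2) ≤ b * (1 + x ^ 2)⁻¹ := by
        rw [← div_eq_mul_inv]
        exact div_le_div_of_nonneg_left hb0.le (by positivity) (by nlinarith [sq_nonneg x])
      refine (div_le_div_of_nonneg_right h1 hu.le).trans ?_
      rw [add_div]
      refine add_le_add (le_of_eq ?_) h3
      ring
  · rw [integral_add' iC iB, integral_const_mul, ← e1, integral_const_mul,
      integral_add' (c1.add c2) (i2.const_mul _), integral_add' c1 c2, c3, integral_const_mul,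
      ← e2, ← ht2]
    field_simp
    ring

end Pool.Agent.P.MP_6c8efb_pr.One

end PairS
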