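import Pool.Agent.P.MP_6c8efb_pr.One.IfE

section TraceS

/-! Step Trace. -/

namespace Pool.Agent.P.MP_6c8efb_pr.One

open Polynomial MeasureTheory Real Filter Topology

namespace TraceA

theorem lower (m : ℕ) : log (m + 1) ≤ ∑ k ∈ Finset.range m, 2 / (2 * (k : ℝ) + 1) := by
  induction m with
  | zero => simp
  | succ m ih =>
    rw [Finset.sum_range_succ]
    have h1 : log (((m + 1 : ℕ) : ℝ) + 1) = log (m + 1) + log (1 + 1 / ((m : ℝ) + 1)) := by
      rw [← log_mul (by positivity) (by positivity)]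
      congr 1
      push_cast
      field_simp
    have h2 : log (1 + 1 / ((m : ℝ) + 1)) ≤ 1 / ((m : ℝ) + 1) := by
      linarith [log_le_sub_one_of_pos (show 0 < 1 + 1 / ((m : ℝ) + 1) by positivity)]
    have h3 : 1 / ((m : ℝ) + 1) ≤ 2 / (2 * (m : ℝ) + 1) := by
      rw [div_le_div_iff₀ (by positivity) (by positivity)]
      linarith
    linarith

theorem upper (m : ℕ) :
    ∑ k ∈ Finset.range (m + 1), 2 / (2 * (k : ℝ) + 1) ≤ 2 + log (m + 1) := by
  induction m with
  | zero => simp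
  | succ m ih =>
    rw [Finset.sum_range_succ]
    have h1 : log (((m + 1 : ℕ) : ℝ) + 1) = log (m + 1) + log (1 + 1 / ((m : ℝ) + 1)) := by
      rw [← log_mul (by positivity) (by positivity)]
      congr 1
      push_cast
      field_simp
    have h2 := le_log_one_add_of_nonneg (show 0 ≤ 1 / ((m : ℝ) + 1) by positivity)
    have h3 : 2 * (1 / ((m : ℝ) + 1)) / (1 / ((m : ℝ) + 1) + 2) = 2 / (2 * ((m + 1 : ℕ) : ℝ) + 1) := by
      push_cast
      field_simp
      ring
    linarith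

theorem harm {m : ℕ} (hm : 1 ≤ m) :
    |∑ k ∈ Finset.range m, 2 / (2 * (k : ℝ) + 1) - log m| ≤ 3 := by
  obtain ⟨n, rfl⟩ := Nat.exists_eq_add_of_le' hm
  have h1 := lower (n + 1)
  have h2 := upper n
  have h3 : log ((n + 1 : ℕ) : ℝ) ≤ log (((n + 1 : ℕ) : ℝ) + 1) :=
    log_le_log (by positivity) (by linarith)
  have h4 : ((n + 1 : ℕ) : ℝ) = n + 1 := by push_cast; ring
  rw [abs_le]
  rw [h4] at h3 h1 ⊢
  constructor <;> linarith

theorem errs (m : ℕ) :
    ∑ k ∈ Finset.range m, 1 / ((2 * (k : ℝ) + 1) * sqrt (2 * k + 1)) ≤ 3 - 3 / sqrt (2 * m + 1) := by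
  induction m with
  | zero => simp
  | succ m ih =>
    rw [Finset.sum_range_succ]
    have ha : 0 < sqrt (2 * (m : ℝ) + 1) := sqrt_pos.2 (by positivity)
    have hb : 0 < sqrt (2 * ((m + 1 : ℕ) : ℝ) + 1) := sqrt_pos.2 (by positivity)
    have a2 : sqrt (2 * (m : ℝ) + 1) ^ 2 = 2 * m + 1 := sq_sqrt (by positivity)
    have b2 : sqrt (2 * ((m + 1 : ℕ) : ℝ) + 1) ^ 2 = 2 * m + 3 := by
      rw [sq_sqrt (by positivity)]; push_cast; ring
    have m0 : (0 : ℝ) ≤ m := m.cast_nonneg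
    generalize sqrt (2 * (m : ℝ) + 1) = a at *
    generalize sqrt (2 * ((m + 1 : ℕ) : ℝ) + 1) = b at *
    have hba : b ≤ 2 * a := by nlinarith
    have key : 1 / ((2 * (m : ℝ) + 1) * a) ≤ 3 / a - 3 / b := by
      rw [← a2, div_sub_div _ _ ha.ne' hb.ne', div_le_div_iff₀ (by positivity) (by positivity)]
      have e : (b - a) * (b + a) = 2 := by nlinarith
      have f : b * (b + a) ≤ 6 * a ^ 2 := by nlinarith
      have g : b ≤ 3 * (b - a) * a ^ 2 := by
        by_contra h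
        rw [not_le] at h
        nlinarith [mul_lt_mul_of_pos_right h (show 0 < b + a by positivity)]
      nlinarith [mul_le_mul_of_nonneg_left g ha.le]
    linarith

theorem split {g : ℝ → ℝ} {C : ℝ} (hg : Continuous g) (hb : ∀ x, |g x| ≤ C) (m : ℕ) :
    ∫ x, g x * KK (2 * m) x x * wt0 x =
      ∑ k ∈ Finset.range m, ∫ x, g x * (pf (2 * k) x ^ 2 + pf (2 * k + 1) x ^ 2) * wt0 x := by
  rw [← integral_finsetSum]
  · congr 1
    funext x
    rw [← Finset.sum_mul, ← Finset.mul_sum]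
    congr 2
    induction m with
    | zero => simp [KK]
    | succ m ih =>
      rw [Finset.sum_range_succ, ← ih, KK, KK, show 2 * (m + 1) = 2 * m + 1 + 1 by ring,
        Finset.sum_range_succ, Finset.sum_range_succ]
      ring
  · intro k _
    have := ((integrable_pf (2 * k) (2 * k)).add (integrable_pf (2 * k + 1) (2 * k + 1))).bdd_mul
      hg.aestronglyMeasurable (.of_forall hb)
    refine this.congr (.of_forall fun x => ?_)
    simp only [Pi.add_apply]
    ring

end TraceA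

theorem p_Trace (hPair : S_Pair) :
    S_Trace := by
  intro g C hg hb
  obtain ⟨D, hD⟩ := hPair g C hg hb
  have hC : ∀ x, |g x| ≤ |C| := fun x => (hb x).trans ((le_abs_self _).trans (by
    rw [abs_mul, abs_of_pos (exp_pos _)]
    exact mul_le_of_le_one_right (abs_nonneg _) (exp_le_one_iff.2 (neg_nonpos.2 (by positivity)))))
  refine ⟨3 * |D| + 3 / π * |∫ x, g x|, fun m hm => ?_⟩
  rw [TraceA.split hg hC]
  set I := ∫ x, g x
  have h1 : |∑ k ∈ Finset.range m, ((∫ x, g x * (pf (2 * k) x ^ 2 + pf (2 * k + 1) x ^ 2) * wt0 x) -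
      2 / (2 * (k : ℝ) + 1) / π * I)| ≤ 3 * |D| := by
    refine (Finset.abs_sum_le_sum_abs _ _).trans ?_
    refine (Finset.sum_le_sum (g := fun k : ℕ => |D| * (1 / ((2 * (k : ℝ) + 1) * sqrt (2 * k + 1))))
      fun k _ => ?_).trans ?_
    · have := hD (2 * k)
      push_cast at this
      rw [div_div, mul_comm _ π, mul_one_div]
      exact this.trans (div_le_div_of_nonneg_right (le_abs_self D) (by positivity))
    · rw [← Finset.mul_sum, mul_comm]
      refine mul_le_mul_of_nonneg_right ((TraceA.errs m).trans ?_) (abs_nonneg _)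
      have : 0 ≤ 3 / sqrt (2 * (m : ℝ) + 1) := by positivity
      linarith
  have h2 : |(∑ k ∈ Finset.range m, 2 / (2 * (k : ℝ) + 1) - log m) / π * I| ≤ 3 / π * |I| := by
    rw [abs_mul, abs_div, abs_of_pos pi_pos]
    exact mul_le_mul_of_nonneg_right (div_le_div_of_nonneg_right (TraceA.harm hm) pi_pos.le)
      (abs_nonneg _)
  refine le_trans (le_of_eq ?_) ((abs_add_le _ _).trans (add_le_add h1 h2))
  congr 1
  rw [Finset.sum_sub_distrib, ← Finset.sum_mul, ← Finset.sum_div]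
  ring

end Pool.Agent.P.MP_6c8efb_pr.One

end TraceS

section LamS

/-! Step Lam. -/

namespace Pool.Agent.P.MP_6c8efb_pr.One

open Polynomial MeasureTheory Real Filter Topology

namespace LamA

theorem cos_pos' {t : ℝ} (h0 : 0 ≤ t) (h1 : t < π) : 0 < 1 + cos t := by
  have := cos_lt_cos_of_nonneg_of_le_pi h0 le_rfl h1
  rw [cos_pi] at this
  linarith

theorem bd {t φ : ℝ} (h0 : 0 ≤ t) (h1 : t ≤ φ) (h2 : φ < π) (s : ℝ) :
    ‖sin t / (cosh s + cos t)‖ ≤ 4 / (1 + cos φ) * exp (-(1 * |s|)) := by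
  have hc := cos_pos' (h0.trans h1) h2
  have h3 := cos_le_cos_of_nonneg_of_le_pi h0 h2.le h1
  have h4 := one_le_cosh s
  have h5 := exp_abs_le_cosh s
  have h6 := cos_le_one φ
  have h7 : (1 + cos φ) * exp |s| ≤ 4 * (cosh s + cos t) := by nlinarith
  have h8 : 0 < cosh s + cos t := by linarith
  rw [norm_div, Real.norm_of_nonneg h8.le, one_mul, exp_neg, ← div_eq_mul_inv, div_div,
    div_le_div_iff₀ h8 (by positivity)]
  exact (mul_le_of_le_one_left (by positivity) (abs_sin_le_one t)).trans h7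

theorem inner {t : ℝ} (h0 : 0 < t) (h1 : t < π) : ∫ s, sin t / (cosh s + cos t) = 2 * t := by
  have hs := sin_pos_of_pos_of_lt_pi h0 h1
  have hc := cos_pos' h0.le h1
  have hp : ∀ s, 0 < cosh s + cos t := fun s => by linarith [one_le_cosh s]
  have hd : ∀ s, HasDerivAt (fun s => 2 * arctan ((exp s + cos t) / sin t))
      (sin t / (cosh s + cos t)) s := fun s => by
    refine (((((hasDerivAt_exp s).add_const (cos t)).div_const (sin t)).arctan).const_mul 2).congr_deriv ?_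
    have h2 := hp s
    have h3 := exp_pos s
    have h4 : sin t ^ 2 + (exp s + cos t) ^ 2 = 2 * exp s * (cosh s + cos t) := by
      rw [cosh_eq, exp_neg]
      field_simp
      linear_combination (sin_sq_add_cos_sq t)
    field_simp
    rw [h4]
  have hi : Integrable fun s => sin t / (cosh s + cos t) :=
    integrable_of_exp (Continuous.div (by fun_prop) (by fun_prop) fun s => (hp s).ne') one_pos
      (bd h0.le le_rfl h1)
  have hb : Tendsto (fun s => 2 * arctan ((exp s + cos t) / sin t)) atBot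
      (𝓝 (2 * arctan ((0 + cos t) / sin t))) :=
    ((continuous_arctan.tendsto _).comp
      ((tendsto_exp_atBot.add_const (cos t)).div_const (sin t))).const_mul 2
  have ht : Tendsto (fun s => 2 * arctan ((exp s + cos t) / sin t)) atTop (𝓝 (2 * (π / 2))) :=
    ((tendsto_nhds_of_tendsto_nhdsWithin tendsto_arctan_atTop).comp
      ((tendsto_atTop_add_const_right _ (cos t) tendsto_exp_atTop).atTop_div_const hs)).const_mul 2
  rw [integral_of_hasDerivAt_of_tendsto hd hi hb ht, zero_add, ← sin_pi_div_two_sub t,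
    ← cos_pi_div_two_sub t, ← tan_eq_sin_div_cos, arctan_tan (by linarith) (by linarith)]
  ring

theorem ftc {φ : ℝ} (h0 : 0 ≤ φ) (h1 : φ < π) (s : ℝ) :
    ∫ t in (0 : ℝ)..φ, sin t / (cosh s + cos t) = -(log (cosh s + cos φ) - log (cosh s + 1)) := by
  have hp : ∀ t ∈ Set.uIcc (0 : ℝ) φ, cosh s + cos t ≠ 0 := fun t ht => by
    rw [Set.uIcc_of_le h0] at ht
    linarith [one_le_cosh s, cos_pos' ht.1 (ht.2.trans_lt h1)] |> ne_of_gt
  rw [intervalIntegral.integral_eq_sub_of_hasDerivAt (f := fun t => -log (cosh s + cos t))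
    (f' := fun t => sin t / (cosh s + cos t))
    (fun t ht => ((((hasDerivAt_cos t).const_add (cosh s)).log (hp t ht)).neg).congr_deriv (by ring))
    (ContinuousOn.intervalIntegrable (ContinuousOn.div (by fun_prop) (by fun_prop) hp))]
  simp
  ring

end LamA

open LamA in
theorem p_Lam :
    S_Lam := by
  intro φ h0 h1
  have hi : Integrable (Function.uncurry fun (t s : ℝ) => sin t / (cosh s + cos t))
      ((volume.restrict (Set.uIoc (0 : ℝ) φ)).prod volume) := by
    rw [Set.uIoc_of_le h0]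
    refine (((integrable_exp_neg_abs one_pos).const_mul (4 / (1 + cos φ))).comp_snd _).mono' ?_ ?_
    · exact (by fun_prop : Measurable fun p : ℝ × ℝ =>
        sin p.1 / (cosh p.2 + cos p.1)).aestronglyMeasurable
    · filter_upwards [Measure.quasiMeasurePreserving_fst.ae (ae_restrict_mem measurableSet_Ioc)]
        with p hp
      exact bd hp.1.le hp.2 h1 p.2
  have h2 := intervalIntegral_integral_swap hi
  have h3 := hi.integral_prod_right
  simp only [Function.uncurry, Set.uIoc_of_le h0, ← intervalIntegral.integral_of_le h0,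
    ftc h0 h1] at h3
  refine ⟨integrable_neg_iff.1 h3, ?_⟩
  rw [intervalIntegral.integral_congr_ae (g := fun t => 2 * t) (.of_forall fun t ht => by
    rw [Set.uIoc_of_le h0] at ht
    exact inner ht.1 (ht.2.trans_lt h1))] at h2
  rw [intervalIntegral.integral_const_mul 2 (fun t => t), integral_id] at h2
  simp only [ftc h0 h1, integral_neg] at h2
  linarith

end Pool.Agent.P.MP_6c8efb_pr.One

end LamS

section LogintS

/-! Step Logint. -/

namespace Pool.Agent.P.MP_6c8efb_pr.One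

open Polynomial MeasureTheory Real Filter Topology

namespace LogintA

theorem nsq (t ψ : ℝ) :
    ‖Complex.cosh (t + ψ * Complex.I)‖ ^ 2 = (cosh (2 * t) + cos (2 * ψ)) / 2 := by
  rw [Complex.cosh_add, Complex.cosh_mul_I, Complex.sinh_mul_I, ← Complex.ofReal_cosh,
    ← Complex.ofReal_sinh, ← Complex.ofReal_cos, ← Complex.ofReal_sin, ← mul_assoc,
    ← Complex.ofReal_mul, ← Complex.ofReal_mul, Complex.sq_norm, Complex.normSq_add_mul_I,
    cosh_two_mul, cos_two_mul, mul_pow, mul_pow, sin_sq, cosh_sq]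
  ring

theorem pos {ψ : ℝ} (h0 : 0 ≤ ψ) (h1 : ψ < π / 2) (t : ℝ) : 0 < cosh t + cos (2 * ψ) := by
  have := cos_pos_of_mem_Ioo (x := ψ) ⟨by linarith [pi_pos], h1⟩
  rw [cos_two_mul]
  nlinarith [one_le_cosh t]

theorem lg {ψ : ℝ} (h0 : 0 ≤ ψ) (h1 : ψ < π / 2) (t : ℝ) :
    Complex.cosh (t + ψ * Complex.I) ≠ 0 ∧ log ‖Complex.cosh (t + ψ * Complex.I)‖ =
      (log (cosh (2 * t) + cos (2 * ψ)) - log 2) / 2 := by
  have h := nsq t ψ
  have p := pos h0 h1 (2 * t)
  refine ⟨fun e => ?_, ?_⟩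
  · rw [e, norm_zero] at h
    linarith
  · rw [← log_div p.ne' two_ne_zero, ← h, log_pow]
    push_cast
    ring

theorem lr {ψ : ℝ} (h0 : 0 ≤ ψ) (h1 : ψ < π / 2) (x : ℝ) :
    log ‖rr ψ x‖ = log (2 * cosh (π * x)) + (log (cosh (π * x) + cos (2 * ψ)) -
      log (cosh (3 * π * x) + cos (2 * ψ))) / 2 := by
  obtain ⟨a1, a2⟩ := lg h0 h1 (π * x / 2)
  obtain ⟨b1, b2⟩ := lg h0 h1 (3 * π * x / 2)
  have e : rr ψ x = ((2 * cosh (π * x) : ℝ) : ℂ) *
      Complex.cosh ((π * x / 2 : ℝ) + ψ * Complex.I) /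
        Complex.cosh ((3 * π * x / 2 : ℝ) + ψ * Complex.I) := by
    rw [rr, eq_div_iff b1, add_mul, one_mul, div_mul_cancel₀ _ b1]
    have e1 : ((3 * π * x / 2 : ℝ) : ℂ) + ψ * Complex.I =
        (π * x : ℝ) + (((π * x / 2 : ℝ) : ℂ) + ψ * Complex.I) := by push_cast; ring
    have e2 : ((π * x / 2 : ℝ) : ℂ) - ψ * Complex.I =
        (π * x : ℝ) - (((π * x / 2 : ℝ) : ℂ) + ψ * Complex.I) := by push_cast; ring
    rw [e1, e2, Complex.cosh_add (π * x : ℝ), Complex.cosh_sub (π * x : ℝ), Complex.ofReal_mul 2,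
      Complex.ofReal_cosh]
    push_cast
    ring
  have c : 0 < 2 * cosh (π * x) := by positivity
  rw [e, norm_div, norm_mul, Complex.norm_real, norm_of_nonneg c.le,
    log_div (mul_ne_zero c.ne' (norm_ne_zero_iff.2 a1)) (norm_ne_zero_iff.2 b1),
    log_mul c.ne' (norm_ne_zero_iff.2 a1), a2, b2, show 2 * (π * x / 2) = π * x by ring,
    show 2 * (3 * π * x / 2) = 3 * π * x by ring]
  ring

theorem sc (hLam : S_Lam) {ψ : ℝ} (h0 : 0 ≤ ψ) (h1 : ψ < π / 2) {a : ℝ} (ha : 0 < a) :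
    (Integrable fun x => log (cosh (a * x) + cos (2 * ψ)) - log (cosh (a * x) + 1)) ∧
      ∫ x, (log (cosh (a * x) + cos (2 * ψ)) - log (cosh (a * x) + 1)) = -(4 * ψ ^ 2) / a := by
  obtain ⟨i, e⟩ := hLam (2 * ψ) (by linarith) (by linarith)
  refine ⟨i.comp_mul_left' ha.ne', ?_⟩
  rw [Measure.integral_comp_mul_left
    (fun s => log (cosh s + cos (2 * ψ)) - log (cosh s + 1)) a, e, abs_of_pos (inv_pos.2 ha),
    smul_eq_mul]
  field_simp
  ring

end LogintA

theorem p_Logint (hLam : S_Lam) :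
    S_Logint := by
  intro ψ₁ ψ₂ a1 a2 b1 b2
  have p3 : 0 < 3 * π := by positivity
  obtain ⟨i1, e1⟩ := LogintA.sc hLam a1 a2 pi_pos
  obtain ⟨i2, e2⟩ := LogintA.sc hLam b1 b2 pi_pos
  obtain ⟨i3, e3⟩ := LogintA.sc hLam a1 a2 p3
  obtain ⟨i4, e4⟩ := LogintA.sc hLam b1 b2 p3
  have h := integral_sub (i1.sub i2) (i3.sub i4)
  simp only [Pi.sub_apply] at h
  rw [integral_sub i1 i2, integral_sub i3 i4, e1, e2, e3, e4] at h
  rw [← div_left_inj' (two_ne_zero (α := ℝ)), ← integral_div] at h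
  refine Eq.trans (integral_congr_ae (Eventually.of_forall fun x => ?_)) (h.trans ?_)
  · simp only [LogintA.lr a1 a2, LogintA.lr b1 b2]
    ring
  · field_simp
    ring

end Pool.Agent.P.MP_6c8efb_pr.One

end LogintS

section AsymS

/-! Step Asym. -/

namespace Pool.Agent.P.MP_6c8efb_pr.One

open Polynomial MeasureTheory Real Filter Topology

namespace AsymA

theorem one (hLogdet : S_Logdet) (hTrace : S_Trace) (hNice : S_Nice) {ψ : ℝ} (h0 : 0 ≤ ψ)
    (h1 : ψ < π / 2) : (Integrable fun x => log ‖rr ψ x‖) ∧ (∃ C, Bc C (rr ψ)) ∧ ∃ K : ℝ, ∀ m : ℕ,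
      1 ≤ m → (Mx (2 * m) (rr ψ)).det ≠ 0 ∧
        |log ‖(Mx (2 * m) (rr ψ)).det‖ - log m / π * ∫ x, log ‖rr ψ x‖| ≤ K := by
  obtain ⟨c, C, D, c0, hb, hc, hl, he⟩ := hNice ψ h0 h1
  have ct : Continuous fun x => log ‖rr ψ x‖ := hb.cont.norm.log fun x =>
    (c0.trans_le ((hc x).trans (Complex.re_le_norm _))).ne'
  obtain ⟨K1, k1⟩ := hLogdet c C D _ c0 hb hc hl
  obtain ⟨K2, k2⟩ := hTrace _ C ct he
  exact ⟨integrable_of_exp ct pi_pos he, ⟨C, hb⟩, K1 + K2, fun m hm => ⟨(k1 _).1,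
    (abs_sub_le _ _ _).trans (add_le_add (k1 _).2 (k2 m hm))⟩⟩

end AsymA

theorem p_Asym (hHank : S_Hank) (hLogdet : S_Logdet) (hTrace : S_Trace) (hNice : S_Nice) (hLogint : S_Logint) :
    S_Asym := by
  have p := pi_pos
  obtain ⟨i1, ⟨C1, b1⟩, K1, k1⟩ := AsymA.one hLogdet hTrace hNice (ψ := 3 * π / 8) (by positivity)
    (by linarith)
  obtain ⟨i2, ⟨C2, b2⟩, K2, k2⟩ := AsymA.one hLogdet hTrace hNice (ψ := π / 4) (by positivity)
    (by linarith)
  have e := hLogint (3 * π / 8) (π / 4) (by positivity) (by linarith) (by positivity) (by linarith)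
  rw [integral_sub i1 i2] at e
  refine ⟨exp (-(K1 + K2)), exp (K1 + K2), exp_pos _, fun m hm => ?_⟩
  obtain ⟨c, c0, hc⟩ := hHank (2 * m)
  obtain ⟨d1, l1⟩ := k1 m hm
  obtain ⟨d2, l2⟩ := k2 m hm
  have m0 : (0 : ℝ) < m := by exact_mod_cast hm
  have n1 := norm_pos_iff.2 d1
  have n2 := norm_pos_iff.2 d2
  have e2 : log m / π * (∫ x, log ‖rr (3 * π / 8) x‖) - log m / π * (∫ x, log ‖rr (π / 4) x‖) =
      -(5 / 48 * log m) := by
    rw [← mul_sub, e]; field_simp; ring
  rw [hc _ _ b1, hc _ _ b2, mul_div_mul_left _ _ c0, norm_div, ← le_log_iff_exp_le (by positivity),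
    ← log_le_iff_le_exp (by positivity), log_mul (by positivity) (by positivity),
    log_div n1.ne' n2.ne', log_rpow m0]
  rw [abs_le] at l1 l2
  constructor <;> linarith [l1.1, l1.2, l2.1, l2.2]

end Pool.Agent.P.MP_6c8efb_pr.One

end AsymS
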