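import Pool.Agent.P.MP_6c8efb_pr.One.Iface

section TriS

/-! Step Tri: signed partner functions for the annular patterns, the area and the triangular
induction. -/

namespace Pool.Agent.P.MP_6c8efb_pr.One

open Arm (up dn)

namespace TriA

/-- signed involutions without fixed point on the sites below `L` -/
structure Inv (L : ℕ) (σ s : ℕ → ℕ) : Prop where
  lt : ∀ j, j < L → σ j < L
  inv : ∀ j, j < L → σ (σ j) = j
  ne : ∀ j, j < L → σ j ≠ j
  sg : ∀ j, j < L → s (σ j) = s j
  le : ∀ j, j < L → s j ≤ 1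

/-- planarity in the annulus; `s j = 1` marks the arcs through the seam -/
structure Val (L : ℕ) (σ s : ℕ → ℕ) : Prop extends Inv L σ s where
  nc : ∀ j k, j < L → j < k → k < σ j → j < σ k ∧ σ k < σ j ∧ s k ≤ s j
  two : ∀ j k, k < L → j < σ j → σ j < k → σ j < σ k → s j + s k ≤ 1

/-- the colourings of a signed involution -/
def SS (L : ℕ) (σ s : ℕ → ℕ) : St :=
  {f | (∀ j, L ≤ j → f j = 0) ∧ ∀ j, j < L → f (σ j) = (-1) ^ s j * f j}

theorem Inv.sq {L : ℕ} {σ s : ℕ → ℕ} (_ : Inv L σ s) (j : ℕ) (x : K) :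
    (-1) ^ s j * ((-1) ^ s j * x) = x := by
  rw [← mul_assoc, ← mul_pow]; simp

theorem SS_inj {L : ℕ} {σ s σ' s' : ℕ → ℕ} (h : Inv L σ s) (h' : Inv L σ' s')
    (e : SS L σ s = SS L σ' s') (j : ℕ) (hj : j < L) : σ j = σ' j ∧ s j = s' j := by
  let f : ℕ → K := fun k => if k = j then 1 else if k = σ j then (-1) ^ s j else 0
  have a1 := h.lt j hj
  have a2 := h.inv j hj
  have a3 := h.ne j hj
  have hf : f ∈ SS L σ s := by
    refine ⟨fun k hk => ?_, fun k hk => ?_⟩
    · simp only [f]; rw [if_neg (by omega), if_neg (by omega)]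
    · by_cases k1 : k = j
      · simp [f, k1, a3]
      by_cases k2 : k = σ j
      · simp only [f, k2, a2, if_true, if_neg a3, h.sg j hj]
        simpa using (h.sq j 1).symm
      have b1 : σ k ≠ j := fun e => k2 (by rw [← e, h.inv k hk])
      have b2 : σ k ≠ σ j := fun e => k1 (by rw [← h.inv k hk, e, a2])
      simp [f, k1, k2, b1, b2]
  rw [e] at hf
  have k := hf.2 j hj
  have c := h.le j hj
  have c' := h'.le j hj
  simp only [f, if_neg (h'.ne j hj), if_true, mul_one] at k
  by_cases d : σ' j = σ j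
  · rw [if_pos d] at k
    refine ⟨d.symm, ?_⟩
    interval_cases s j <;> interval_cases s' j <;> first | rfl | exact absurd k (by decide)
  · rw [if_neg d] at k
    interval_cases s' j <;> exact absurd k (by decide)

/-! ### cups -/

def cupσ (i : ℕ) (σ : ℕ → ℕ) (j : ℕ) : ℕ :=
  if j = i then i + 1 else if j = i + 1 then i else up i (σ (dn i j))

def cups (i : ℕ) (s : ℕ → ℕ) (j : ℕ) : ℕ := if j = i ∨ j = i + 1 then 0 else s (dn i j)

theorem cupσ_up (i : ℕ) (σ : ℕ → ℕ) (j : ℕ) : cupσ i σ (up i j) = up i (σ j) := by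
  simp [cupσ, Arm.up_ne, Arm.up_ne']
theorem cups_up (i : ℕ) (s : ℕ → ℕ) (j : ℕ) : cups i s (up i j) = s j := by
  simp [cups, Arm.up_ne, Arm.up_ne']
theorem cupσ_l (i : ℕ) (σ : ℕ → ℕ) : cupσ i σ i = i + 1 := by simp [cupσ]
theorem cupσ_r (i : ℕ) (σ : ℕ → ℕ) : cupσ i σ (i + 1) = i := by simp [cupσ]
theorem cups_l (i : ℕ) (s : ℕ → ℕ) : cups i s i = 0 := by simp [cups]
theorem cups_r (i : ℕ) (s : ℕ → ℕ) : cups i s (i + 1) = 0 := by simp [cups]

theorem up_lt {L i j : ℕ} (hi : i ≤ L) : up i j < L + 2 ↔ j < L := by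
  unfold up; split_ifs <;> omega

theorem Val.cup {L i : ℕ} {σ s : ℕ → ℕ} (h : Val L σ s) (hi : i ≤ L) :
    Val (L + 2) (cupσ i σ) (cups i s) := by
  refine ⟨⟨fun j hj => ?_, fun j hj => ?_, fun j hj => ?_, fun j hj => ?_, fun j hj => ?_⟩,
    fun j k hj h1 h2 => ?_, fun j k hk h1 h2 h3 => ?_⟩
  · rcases Arm.site_cases i j with rfl | rfl | ⟨j, rfl⟩
    · rw [cupσ_l]; omega
    · rw [cupσ_r]; omega
    · rw [cupσ_up, up_lt hi]; exact h.lt j ((up_lt hi).1 hj)
  · rcases Arm.site_cases i j with rfl | rfl | ⟨j, rfl⟩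
    · rw [cupσ_l, cupσ_r]
    · rw [cupσ_r, cupσ_l]
    · rw [cupσ_up, cupσ_up, h.inv j ((up_lt hi).1 hj)]
  · rcases Arm.site_cases i j with rfl | rfl | ⟨j, rfl⟩
    · rw [cupσ_l]; omega
    · rw [cupσ_r]; omega
    · rw [cupσ_up]; exact fun e => h.ne j ((up_lt hi).1 hj) (Arm.up_inj.1 e)
  · rcases Arm.site_cases i j with rfl | rfl | ⟨j, rfl⟩
    · rw [cupσ_l, cups_r, cups_l]
    · rw [cupσ_r, cups_r, cups_l]
    · rw [cupσ_up, cups_up, cups_up, h.sg j ((up_lt hi).1 hj)]
  · rcases Arm.site_cases i j with rfl | rfl | ⟨j, rfl⟩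
    · rw [cups_l]; omega
    · rw [cups_r]; omega
    · rw [cups_up]; exact h.le j ((up_lt hi).1 hj)
  · rcases Arm.site_cases i j with rfl | rfl | ⟨j, rfl⟩
    · rw [cupσ_l] at h2; omega
    · rw [cupσ_r] at h2; omega
    · rw [cupσ_up] at h2 ⊢
      have a := Arm.up_ne i j
      have b := Arm.up_ne' i (σ j)
      rcases Arm.site_cases i k with rfl | rfl | ⟨k, rfl⟩
      · rw [cupσ_l, cups_l]; omega
      · rw [cupσ_r, cups_r]; omega
      · rw [cupσ_up, cups_up, cups_up, Arm.up_lt_up, Arm.up_lt_up]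
        exact h.nc j k ((up_lt hi).1 hj) (Arm.up_lt_up.1 h1) (Arm.up_lt_up.1 h2)
  · rcases Arm.site_cases i k with rfl | rfl | ⟨k, rfl⟩
    · rw [cups_l]; unfold cups; split_ifs
      · omega
      · exact h.le _ (by unfold dn; split_ifs <;> omega)
    · rw [cups_r]; unfold cups; split_ifs
      · omega
      · exact h.le _ (by unfold dn; split_ifs <;> omega)
    · have hk' := (up_lt hi).1 hk
      rcases Arm.site_cases i j with rfl | rfl | ⟨j, rfl⟩
      · rw [cups_l, cups_up]; have := h.le k hk'; omega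
      · rw [cups_r, cups_up]; have := h.le k hk'; omega
      · rw [cupσ_up] at h1 h2 h3
        rw [cupσ_up] at h3
        rw [cups_up, cups_up]
        exact h.two j k hk' (Arm.up_lt_up.1 h1) (Arm.up_lt_up.1 h2) (Arm.up_lt_up.1 h3)

theorem cup_SS {L i : ℕ} (σ s : ℕ → ℕ) (hi : i ≤ L) :
    cup i (SS L σ s) = SS (L + 2) (cupσ i σ) (cups i s) := by
  ext f
  constructor
  · rintro ⟨h1, h2, h3⟩
    refine ⟨fun j hj => ?_, fun j hj => ?_⟩
    · have : f (up i (j - 2)) = 0 := h2 (j - 2) (by omega)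
      rwa [show up i (j - 2) = j by unfold up; split_ifs <;> omega] at this
    · rcases Arm.site_cases i j with rfl | rfl | ⟨j, rfl⟩
      · rw [cupσ_l, cups_l, h1]; simp
      · rw [cupσ_r, cups_r, h1]; simp
      · rw [cupσ_up, cups_up]; exact h3 j ((up_lt hi).1 hj)
  · rintro ⟨h2, h3⟩
    refine ⟨?_, fun j hj => h2 _ (by unfold up; split_ifs <;> omega), fun j hj => ?_⟩
    · have := h3 i (by omega)
      rw [cupσ_l, cups_l] at this
      simpa using this.symm
    · have := h3 _ ((up_lt hi).2 hj)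
      rwa [cupσ_up, cups_up] at this

/-! ### rotation -/

def rotσ (M : ℕ) (σ : ℕ → ℕ) : ℕ → ℕ
  | 0 => σ M + 1
  | j + 1 => if σ j = M then 0 else σ j + 1

def rots (M : ℕ) (σ s : ℕ → ℕ) : ℕ → ℕ
  | 0 => 1 - s M
  | j + 1 => if σ j = M then 1 - s j else s j

theorem Val.rot {M : ℕ} {σ s : ℕ → ℕ} (h : Val (M + 1) σ s) :
    Val (M + 1) (rotσ M σ) (rots M σ s) := by
  have m1 := h.lt M (by omega)
  have m2 := h.inv M (by omega)
  have m3 := h.ne M (by omega)
  have m4 := h.sg M (by omega)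
  have m5 := h.le M (by omega)
  refine ⟨⟨fun j hj => ?_, fun j hj => ?_, fun j hj => ?_, fun j hj => ?_, fun j hj => ?_⟩,
    fun j k hj h1 h2 => ?_, fun j k hk h1 h2 h3 => ?_⟩
  · rcases j with _ | j <;> simp only [rotσ]
    · omega
    · have := h.lt j (by omega)
      split_ifs <;> omega
  · rcases j with _ | j <;> simp only [rotσ]
    · rw [if_pos m2]
    · have a := h.inv j (by omega)
      split_ifs with c
      · simp only [← c, a]
      · simp only [a, if_neg (show ¬ j = M by omega)]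
  · rcases j with _ | j <;> simp only [rotσ]
    · omega
    · have := h.ne j (by omega)
      split_ifs <;> omega
  · rcases j with _ | j <;> simp only [rotσ, rots]
    · rw [if_pos m2, m4]
    · have a := h.inv j (by omega)
      have b := h.sg j (by omega)
      split_ifs with c
      · simp only [← c, b]
      · simp only [a, if_neg (show ¬ j = M by omega), b]
  · rcases j with _ | j <;> simp only [rots]
    · omega
    · have := h.le j (by omega)
      split_ifs <;> omega
  · obtain ⟨k, rfl⟩ : ∃ k', k = k' + 1 := ⟨k - 1, by omega⟩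
    rcases j with _ | j <;> simp only [rotσ, rots] at h2 ⊢
    · have a1 := h.lt k (by omega)
      have a2 := h.inv k (by omega)
      have a3 := h.ne k (by omega)
      have a4 := h.sg k (by omega)
      have a5 := h.le k (by omega)
      have b1 := h.nc (σ M) (σ k) m1
      have b2 := h.two k M (by omega)
      have b3 := h.two (σ k) M (by omega)
      have b4 : σ k = M → k = σ M := fun e => by rw [← e, a2]
      have b5 : σ k = σ M → k = M := fun e => by rw [← a2, e, m2]
      rw [a2] at b1 b3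
      rw [m2] at b1
      split_ifs <;> omega
    · have a := h.nc j k (by omega) (by omega)
      have a1 := h.lt j (by omega)
      split_ifs at h2 ⊢ <;> omega
  · obtain ⟨k, rfl⟩ : ∃ k', k = k' + 1 := ⟨k - 1, by omega⟩
    rcases j with _ | j <;> simp only [rotσ, rots] at h1 h2 h3 ⊢
    · have b1 := h.nc (σ M) k m1
      rw [m2] at b1
      split_ifs at h3 ⊢ <;> omega
    · have a := h.two j k (by omega)
      split_ifs at h1 h2 h3 ⊢ <;> omega

theorem rot_SS {M : ℕ} {σ s : ℕ → ℕ} (h : Inv (M + 1) σ s) :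
    rot (M + 1) (SS (M + 1) σ s) = SS (M + 1) (rotσ M σ) (rots M σ s) := by
  have m1 := h.lt M (by omega)
  have m2 := h.inv M (by omega)
  have m3 := h.ne M (by omega)
  have pw : ∀ t : ℕ, t ≤ 1 → ((-1 : K)) ^ (1 - t) = -(-1) ^ t := by
    intro t ht; interval_cases t <;> simp
  have r1 : ∀ (f : ℕ → K) j, j < M → rotF (M + 1) f j = f (j + 1) := fun f j hj => if_pos (by omega)
  have r2 : ∀ f : ℕ → K, rotF (M + 1) f M = -f 0 := fun f => by simp [rotF]
  have r3 : ∀ (f : ℕ → K) j, M + 1 ≤ j → rotF (M + 1) f j = f j := fun f j hj => by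
    unfold rotF; rw [if_neg (by omega), if_neg (by omega)]
  ext f
  refine and_congr (forall_congr' fun j => forall_congr' fun hj => by rw [r3 f j hj]) ?_
  have e0 : rotF (M + 1) f (σ M) = (-1) ^ s M * rotF (M + 1) f M ↔
      f (rotσ M σ 0) = (-1) ^ rots M σ s 0 * f 0 := by
    rw [r1 f _ (by omega), r2]
    simp only [rotσ, rots, pw _ (h.le M (by omega)), mul_neg, neg_mul]
  have e1 : ∀ j, j < M → (rotF (M + 1) f (σ j) = (-1) ^ s j * rotF (M + 1) f j ↔
      f (rotσ M σ (j + 1)) = (-1) ^ rots M σ s (j + 1) * f (j + 1)) := by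
    intro j hj
    have := h.lt j (by omega)
    rw [r1 f j hj]
    simp only [rotσ, rots]
    split_ifs with c
    · rw [c, r2, pw _ (h.le j (by omega)), neg_mul, neg_eq_iff_eq_neg]
    · rw [r1 f _ (by omega)]
  constructor
  · intro k j hj
    rcases j with _ | j
    · exact e0.1 (k M (by omega))
    · exact (e1 j (by omega)).1 (k j (by omega))
  · intro k j hj
    by_cases c : j = M
    · rw [c]; exact e0.2 (k 0 (by omega))
    · exact (e1 j (by omega)).2 (k _ (by omega))

/-! ### the area -/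

/-- length of the arc at a site -/
def len (L : ℕ) (σ s : ℕ → ℕ) (j : ℕ) : ℕ :=
  if s j = 0 then max (σ j) j - min (σ j) j else L - (max (σ j) j - min (σ j) j)

/-- twice the sum of the lengths of the arcs -/
def area (L : ℕ) (σ s : ℕ → ℕ) : ℕ := ∑ j ∈ Finset.range L, len L σ s j

theorem area_le (L : ℕ) {σ s : ℕ → ℕ} (h : Inv L σ s) : area L σ s ≤ L * L := by
  have := Finset.sum_le_card_nsmul (Finset.range L) (len L σ s) L fun j hj => by
    have := h.lt j (Finset.mem_range.1 hj)
    have := Finset.mem_range.1 hj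
    unfold len; split_ifs <;> omega
  rwa [Finset.card_range, smul_eq_mul] at this

theorem area_congr {L : ℕ} {σ s σ' s' : ℕ → ℕ} (h : ∀ j, j < L → σ j = σ' j ∧ s j = s' j) :
    area L σ s = area L σ' s' :=
  Finset.sum_congr rfl fun j hj => by
    obtain ⟨a, b⟩ := h j (Finset.mem_range.1 hj)
    simp only [len, a, b]

theorem area_rot {M : ℕ} {σ s : ℕ → ℕ} (h : Inv (M + 1) σ s) :
    area (M + 1) (rotσ M σ) (rots M σ s) = area (M + 1) σ s := by
  unfold area
  rw [Finset.sum_range_succ', Finset.sum_range_succ]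
  congr 1
  · refine Finset.sum_congr rfl fun j hj => ?_
    have a := Finset.mem_range.1 hj
    have b := h.lt j (by omega)
    have c := h.le j (by omega)
    simp only [len, rotσ, rots]
    split_ifs <;> omega
  · have b := h.lt M (by omega)
    have c := h.le M (by omega)
    have d := h.ne M (by omega)
    simp only [len, rotσ, rots]
    split_ifs <;> omega

/-! ### the generators -/

def eeσ (i : ℕ) (σ : ℕ → ℕ) (j : ℕ) : ℕ :=
  if j = i then i + 1 else if j = i + 1 then i else if j = σ i then σ (i + 1)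
    else if j = σ (i + 1) then σ i else σ j

def ees (i : ℕ) (σ s : ℕ → ℕ) (j : ℕ) : ℕ :=
  if j = i ∨ j = i + 1 then 0 else if j = σ i ∨ j = σ (i + 1) then (s i + s (i + 1)) % 2 else s j

/-- the facts on the two arcs at the sites `i, i + 1` -/
theorem Inv.pair {L i : ℕ} {σ s : ℕ → ℕ} (h : Inv L σ s) (hi : i + 2 ≤ L) :
    σ i < L ∧ σ (i + 1) < L ∧ σ i ≠ i ∧ σ (i + 1) ≠ i + 1 ∧ σ i ≠ σ (i + 1) ∧
      (σ i = i + 1 ↔ σ (i + 1) = i) := by
  have a := h.inv i (by omega)
  have b := h.inv (i + 1) (by omega)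
  refine ⟨h.lt _ (by omega), h.lt _ (by omega), h.ne _ (by omega), h.ne _ (by omega), fun e => ?_,
    fun e => by rw [← e, a], fun e => by rw [← b, e]⟩
  rw [e, b] at a
  omega

theorem Inv.other {L i j : ℕ} {σ s : ℕ → ℕ} (h : Inv L σ s) (hi : i + 2 ≤ L) (hj : j < L)
    (h1 : j ≠ i) (h2 : j ≠ i + 1) (h3 : j ≠ σ i) (h4 : j ≠ σ (i + 1)) :
    σ j ≠ i ∧ σ j ≠ i + 1 ∧ σ j ≠ σ i ∧ σ j ≠ σ (i + 1) := by
  have a := h.inv j hj
  refine ⟨fun e => h3 (by rw [← a, e]), fun e => h4 (by rw [← a, e]), fun e => h1 ?_,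
    fun e => h2 ?_⟩
  · rw [← a, e, h.inv i (by omega)]
  · rw [← a, e, h.inv (i + 1) (by omega)]

theorem Inv.ee {L i : ℕ} {σ s : ℕ → ℕ} (h : Inv L σ s) (hi : i + 2 ≤ L) :
    Inv L (eeσ i σ) (ees i σ s) := by
  obtain ⟨a1, a2, a3, a4, a5, a6⟩ := h.pair hi
  refine ⟨fun j hj => ?_, fun j hj => ?_, fun j hj => ?_, fun j hj => ?_, fun j hj => ?_⟩
  · have := h.lt j hj
    unfold eeσ; split_ifs <;> omega
  · have := h.other hi hj
    have := h.inv j hj
    unfold eeσ; split_ifs <;> omega
  · have := h.ne j hj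
    unfold eeσ; split_ifs <;> omega
  · have := h.other hi hj
    have := h.sg j hj
    unfold ees eeσ; split_ifs <;> omega
  · have := h.le j hj
    unfold ees; split_ifs <;> omega

theorem ee_SS {L i : ℕ} {σ s : ℕ → ℕ} (h : Inv L σ s) (hi : i + 2 ≤ L) :
    ee i (SS L σ s) = SS L (eeσ i σ) (ees i σ s) := by
  obtain ⟨a1, a2, a3, a4, a5, a6⟩ := h.pair hi
  have pw : ((-1 : K)) ^ ((s i + s (i + 1)) % 2) = (-1) ^ s i * (-1) ^ s (i + 1) := by
    rw [← neg_one_pow_eq_pow_mod_two, pow_add]
  ext f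
  constructor
  · rintro ⟨h1, g, ⟨g0, g1⟩, g2, g3⟩
    have fg : ∀ j, j ≠ i → j ≠ i + 1 → f j = g j := fun j j1 j2 => by
      have := g3 (dn i j)
      simp only [Arm.up_dn j1 j2] at this
      exact this.symm
    refine ⟨fun j hj => by rw [fg j (by omega) (by omega), g0 j hj], fun j hj => ?_⟩
    have b1 := g1 i (by omega)
    have b2 := g1 (i + 1) (by omega)
    unfold eeσ ees
    by_cases c1 : j = i
    · simp [c1, h1]
    by_cases c2 : j = i + 1
    · simp [c2, h1]
    rw [if_neg c1, if_neg c2, if_neg (not_or.2 ⟨c1, c2⟩)]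
    by_cases c3 : j = σ i
    · rw [if_pos c3, if_pos (Or.inl c3), fg _ (by omega) a4, fg j c1 c2, c3, b1, b2, pw, ← g2,
        mul_comm ((-1 : K) ^ s i), mul_assoc, h.sq]
    by_cases c4 : j = σ (i + 1)
    · rw [if_neg c3, if_pos c4, if_pos (Or.inr c4), fg _ a3 (by omega), fg j c1 c2, c4, b1, b2, pw,
        ← g2, mul_assoc, h.sq]
    obtain ⟨d1, d2, -⟩ := h.other hi hj c1 c2 c3 c4
    rw [if_neg c3, if_neg c4, if_neg (not_or.2 ⟨c3, c4⟩), fg _ d1 d2, fg j c1 c2]
    exact g1 j hj
  · rintro ⟨f0, f1⟩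
    have b0 := f1 i (by omega)
    simp only [eeσ, ees, if_true, true_or, pow_zero, one_mul] at b0
    let c : K := if σ i = i + 1 then 0 else (-1) ^ s i * f (σ i)
    let g : ℕ → K := fun j => if j = i ∨ j = i + 1 then c else f j
    have gi : g i = c := by simp [g]
    have gi' : g (i + 1) = c := by simp [g]
    have gj : ∀ j, j ≠ i → j ≠ i + 1 → g j = f j := fun j j1 j2 => if_neg (not_or.2 ⟨j1, j2⟩)
    refine ⟨b0.symm, g, ⟨fun j hj => by rw [gj j (by omega) (by omega), f0 j hj], fun j hj => ?_⟩,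
      by rw [gi, gi'], fun j => gj _ (Arm.up_ne i j) (Arm.up_ne' i j)⟩
    have e1 : g (σ i) = (-1) ^ s i * g i := by
      by_cases d : σ i = i + 1
      · rw [d, gi, gi']; simp [c, d]
      · rw [gi, gj _ a3 d]; simp only [c, if_neg d, h.sq]
    have e2 : g (σ (i + 1)) = (-1) ^ s (i + 1) * g (i + 1) := by
      by_cases d : σ i = i + 1
      · rw [a6.1 d, gi, gi']; simp [c, d]
      · have k := f1 (σ i) a1
        simp only [eeσ, ees, if_neg a3, if_neg d, if_neg (not_or.2 ⟨a3, d⟩), if_true, true_or] at k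
        rw [gi', gj _ (fun e => d (a6.2 e)) a4, k, pw]
        simp only [c, if_neg d]
        ring
    have back : ∀ k, k < L → g (σ k) = (-1) ^ s k * g k →
        g (σ (σ k)) = (-1) ^ s (σ k) * g (σ k) := fun k hk e => by
      rw [h.inv k hk, h.sg k hk, e, h.sq]
    by_cases c1 : j = i
    · rw [c1]; exact e1
    by_cases c2 : j = i + 1
    · rw [c2]; exact e2
    by_cases c3 : j = σ i
    · rw [c3]; exact back i (by omega) e1
    by_cases c4 : j = σ (i + 1)
    · rw [c4]; exact back (i + 1) (by omega) e2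
    obtain ⟨d1, d2, -⟩ := h.other hi hj c1 c2 c3 c4
    have k := f1 j hj
    simp only [eeσ, ees, if_neg c1, if_neg c2, if_neg c3, if_neg c4, if_neg (not_or.2 ⟨c1, c2⟩),
      if_neg (not_or.2 ⟨c3, c4⟩)] at k
    rw [gj _ d1 d2, gj j c1 c2, k]

theorem sum_two {L a b : ℕ} (ha : a < L) (hb : b < L) (hab : a ≠ b) (c : ℕ) :
    ∑ j ∈ Finset.range L, (if j = a ∨ j = b then c else 0) = 2 * c := by
  have : ∀ j, (if j = a ∨ j = b then c else 0) = (if j = a then c else 0) + if j = b then c else 0 := by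
    intro j; split_ifs <;> omega
  simp only [this, Finset.sum_add_distrib, Finset.sum_ite_eq', Finset.mem_range, ha, hb, if_true]
  omega

/-- a closing site followed by an opening site, not joined to each other -/
def Good (i : ℕ) (σ s : ℕ → ℕ) : Prop :=
  σ i ≠ i + 1 ∧ ¬(i < σ i ↔ s i = 0) ∧ (i + 1 < σ (i + 1) ↔ s (i + 1) = 0)

/-- the three possible positions of the two arcs -/
theorem Val.pos {L i : ℕ} {σ s : ℕ → ℕ} (h : Val L σ s) (hi : i + 2 ≤ L) (hn : σ i ≠ i + 1) :
    (σ i < i ∧ i + 1 < σ (i + 1) ∧ s i + s (i + 1) ≤ 1) ∨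
      (i + 1 < σ (i + 1) ∧ σ (i + 1) < σ i ∧ s (i + 1) ≤ s i) ∨
      (σ (i + 1) < σ i ∧ σ i < i ∧ s i ≤ s (i + 1)) := by
  obtain ⟨a1, a2, a3, a4, a5, a6⟩ := h.toInv.pair hi
  have b1 := h.nc i (i + 1) (by omega) (by omega)
  have b2 := h.nc (σ (i + 1)) i a2
  have b3 := h.two (σ i) (i + 1) (by omega)
  rw [h.inv _ (by omega), h.sg _ (by omega)] at b2 b3
  omega

theorem Val.area_ee {L i : ℕ} {σ s : ℕ → ℕ} (h : Val L σ s) (hi : i + 2 ≤ L) :
    (Good i σ s → area L (eeσ i σ) (ees i σ s) = area L σ s + 4) ∧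
      (¬Good i σ s → area L (eeσ i σ) (ees i σ s) ≤ area L σ s) := by
  obtain ⟨a1, a2, a3, a4, a5, a6⟩ := h.toInv.pair hi
  have i1 := h.inv i (by omega)
  have i2 := h.inv (i + 1) (by omega)
  have s1 := h.sg i (by omega)
  have s2 := h.sg (i + 1) (by omega)
  have l1 := h.le i (by omega)
  have l2 := h.le (i + 1) (by omega)
  by_cases hn : σ i = i + 1
  · refine ⟨fun g => absurd hn g.1, fun _ => Finset.sum_le_sum fun j hj => ?_⟩
    by_cases c1 : j = i
    · simp only [len, eeσ, ees, c1, if_true, true_or]; split_ifs <;> omega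
    by_cases c2 : j = i + 1
    · simp only [len, eeσ, ees, c2, if_true, or_true]; split_ifs <;> omega
    simp only [len, eeσ, ees, hn, a6.1 hn, c1, c2, if_false, or_self, le_refl]
  have key : ∀ j ∈ Finset.range L, len L (eeσ i σ) (ees i σ s) j
      + (if j = i ∨ j = σ i then len L σ s i else 0)
      + (if j = i + 1 ∨ j = σ (i + 1) then len L σ s (i + 1) else 0)
      = len L σ s j + (if j = i ∨ j = i + 1 then 1 else 0)
      + (if j = σ i ∨ j = σ (i + 1) then len L (eeσ i σ) (ees i σ s) (σ i) else 0) := by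
    intro j _
    have hn' : σ (i + 1) ≠ i := fun e => hn (a6.2 e)
    by_cases c1 : j = i
    · subst c1
      have : len L (eeσ j σ) (ees j σ s) j = 1 := by simp [len, eeσ, ees]
      rw [this]; split_ifs <;> omega
    by_cases c2 : j = i + 1
    · subst c2
      have : len L (eeσ i σ) (ees i σ s) (i + 1) = 1 := by simp [len, eeσ, ees]
      rw [this]; split_ifs <;> omega
    by_cases c3 : j = σ i
    · subst c3
      have : len L σ s (σ i) = len L σ s i := by
        simp only [len, i1, s1, max_comm i, min_comm i]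
      rw [this]; split_ifs <;> omega
    by_cases c4 : j = σ (i + 1)
    · subst c4
      have e1 : len L σ s (σ (i + 1)) = len L σ s (i + 1) := by
        simp only [len, i2, s2, max_comm (i + 1), min_comm (i + 1)]
      have e2 : len L (eeσ i σ) (ees i σ s) (σ (i + 1)) = len L (eeσ i σ) (ees i σ s) (σ i) := by
        simp only [len, eeσ, ees, a3, a4, hn, hn', c3, if_false, if_true, or_self, or_true, true_or,
          max_comm (σ i), min_comm (σ i)]
      rw [e1, e2]; split_ifs <;> omega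
    have : len L (eeσ i σ) (ees i σ s) j = len L σ s j := by
      simp only [len, eeσ, ees, c1, c2, c3, c4, if_false, or_self]
    rw [this]; split_ifs <;> omega
  have sm := Finset.sum_congr rfl key
  simp only [Finset.sum_add_distrib] at sm
  rw [sum_two (by omega) a1 a3.symm, sum_two (by omega) a2 a4.symm,
    sum_two (by omega) (by omega) (by omega), sum_two a1 a2 a5] at sm
  have e3 : len L (eeσ i σ) (ees i σ s) (σ i) = if (s i + s (i + 1)) % 2 = 0 then
      max (σ (i + 1)) (σ i) - min (σ (i + 1)) (σ i)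
      else L - (max (σ (i + 1)) (σ i) - min (σ (i + 1)) (σ i)) := by
    simp only [len, eeσ, ees, a3, hn, if_false, if_true, or_self, true_or]
  rw [e3] at sm
  have ps := h.pos hi hn
  unfold area Good
  generalize ∑ j ∈ Finset.range L, len L (eeσ i σ) (ees i σ s) j = A at sm ⊢
  generalize ∑ j ∈ Finset.range L, len L σ s j = B at sm ⊢
  unfold len at sm
  split_ifs at sm <;> omega

theorem Val.good_uniq {L i : ℕ} {σ s τ t : ℕ → ℕ} (h : Val L σ s) (h' : Val L τ t)
    (hi : i + 2 ≤ L) (g : Good i σ s) (g' : Good i τ t)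
    (e : ∀ j, j < L → eeσ i σ j = eeσ i τ j ∧ ees i σ s j = ees i τ t j) (j : ℕ) (hj : j < L) :
    σ j = τ j ∧ s j = t j := by
  obtain ⟨a1, a2, a3, a4, a5, a6⟩ := h.toInv.pair hi
  obtain ⟨b1, b2, b3, b4, b5, b6⟩ := h'.toInv.pair hi
  obtain ⟨g1, g2, g3⟩ := g
  obtain ⟨g1', g2', g3'⟩ := g'
  have ps := h.pos hi g1
  have ps' := h'.pos hi g1'
  have l1 := h.le i (by omega)
  have l2 := h.le (i + 1) (by omega)
  have l1' := h'.le i (by omega)
  have l2' := h'.le (i + 1) (by omega)
  have main : σ i = τ i ∧ σ (i + 1) = τ (i + 1) := by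
    have c1 := e _ a1
    have c3 := e _ b1
    simp only [eeσ, ees, a3, g1, b3, g1', if_false, if_true, or_self, true_or] at c1 c3
    by_cases d1 : σ i = τ i
    · rw [if_pos d1] at c1
      exact ⟨d1, c1.1⟩
    exfalso
    by_cases d2 : σ i = τ (i + 1)
    · rw [if_neg d1, if_pos d2] at c1
      omega
    rw [if_neg d1, if_neg d2, if_neg (not_or.2 ⟨d1, d2⟩)] at c1
    have u1 := h'.inv _ a1
    have u2 := h'.sg _ a1
    rw [← c1.1] at u1 u2
    have d3 : τ i ≠ σ (i + 1) := fun k => a3 (by rw [← u1, ← k, h'.inv _ (by omega)])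
    rw [if_neg (Ne.symm d1), if_neg d3, if_neg (not_or.2 ⟨Ne.symm d1, d3⟩)] at c3
    have v1 := h.inv _ b1
    have v2 := h.sg _ b1
    rw [c3.1] at v1 v2
    have w1 := h.inv (i + 1) (by omega)
    have w2 := h.sg (i + 1) (by omega)
    have w3 := h'.inv (i + 1) (by omega)
    have w4 := h'.sg (i + 1) (by omega)
    rcases ps with p | p | p <;> rcases ps' with r | r | r
    · have n1 := h.nc (τ i) i b1 (by omega) (by omega)
      have m1 := h'.nc (σ i) i a1 (by omega) (by omega)
      omega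
    · have m1 := h'.nc (σ i) i a1 (by omega) (by omega)
      omega
    · have m1 := h'.nc (σ i) (i + 1) a1 (by omega) (by omega)
      omega
    · have n1 := h.nc (τ i) i b1 (by omega) (by omega)
      omega
    · have n5 := h.two i (τ (i + 1)) b2 (by omega)
      have n2 := h.nc i (τ (i + 1)) (by omega) (by omega)
      have m5 := h'.two i (σ (i + 1)) a2 (by omega)
      have m2 := h'.nc i (σ (i + 1)) (by omega) (by omega)
      omega
    · have n4 := h.two (τ (i + 1)) i (by omega) (by omega) (by omega) (by omega)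
      omega
    · have n1 := h.nc (τ i) (i + 1) b1 (by omega) (by omega)
      omega
    · have m4 := h'.two (σ (i + 1)) i (by omega) (by omega) (by omega) (by omega)
      omega
    · have n8 := h.two (τ (i + 1)) (σ (i + 1)) a2 (by omega)
      have n7 := h.nc (σ (i + 1)) (τ i) a2
      have m8 := h'.two (σ (i + 1)) (τ (i + 1)) b2 (by omega)
      have m7 := h'.nc (τ (i + 1)) (σ i) b2
      omega
  have s1 : s i = t i := by omega
  have s2 : s (i + 1) = t (i + 1) := by omega
  by_cases c1 : j = i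
  · rw [c1]; exact ⟨main.1, s1⟩
  by_cases c2 : j = i + 1
  · rw [c2]; exact ⟨main.2, s2⟩
  by_cases c3 : j = σ i
  · rw [c3, h.inv _ (by omega), h.sg _ (by omega), main.1, h'.inv _ (by omega), h'.sg _ (by omega)]
    exact ⟨rfl, s1⟩
  by_cases c4 : j = σ (i + 1)
  · rw [c4, h.inv _ (by omega), h.sg _ (by omega), main.2, h'.inv _ (by omega), h'.sg _ (by omega)]
    exact ⟨rfl, s2⟩
  simpa only [eeσ, ees, ← main.1, ← main.2, c1, c2, c3, c4, if_false, or_self] using e j hj

theorem step_up (p : ℕ → Prop) (a : ℕ) (ha : ¬p a) : ∀ b, a ≤ b → p b →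
    ∃ i, a ≤ i ∧ i < b ∧ ¬p i ∧ p (i + 1) := by
  intro b hb
  induction b, hb using Nat.le_induction with
  | base => exact fun k => absurd k ha
  | succ b hb ih =>
    intro k
    by_cases c : p b
    · obtain ⟨i, h1, h2, h3⟩ := ih c
      exact ⟨i, h1, by omega, h3⟩
    · exact ⟨b, hb, by omega, c, k⟩

theorem Val.exists_good {M j : ℕ} {σ s : ℕ → ℕ} (h : Val (M + 1) σ s) (h0 : σ 0 = M)
    (h1 : s 0 = 1) (hj : j < M + 1) (hs : s j ≠ 1) : ∃ i, i + 2 ≤ M + 1 ∧ Good i σ s := by
  wlog hlt : j < σ j generalizing j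
  · have a := h.inv j hj
    have b := h.ne j hj
    exact this (h.lt j hj) (by rwa [h.sg j hj]) (by omega)
  have a1 := h.inv j hj
  have a2 := h.sg j hj
  have a3 := h.le j hj
  have a4 := h.lt j hj
  have b1 := h.inv 0 (by omega)
  have b2 := h.sg 0 (by omega)
  have b3 := h.ne 0 (by omega)
  rw [h0] at b1 b2
  obtain ⟨i, -, i2, i3, i4⟩ := step_up (fun k => (k < σ k ↔ s k = 0)) 0 (by omega) j (by omega)
    (by omega)
  obtain ⟨k, k1, k2, k3, k4⟩ := step_up (fun k => (k < σ k ↔ s k = 0)) (σ j) (by omega) M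
    (by omega) (by omega)
  by_cases c : σ i = i + 1
  · refine ⟨k, by omega, fun d => ?_, k3, k4⟩
    have := h.two i k (by omega)
    omega
  · exact ⟨i, by omega, c, i3, i4⟩

theorem rep {L : ℕ} {P : St} (h : Bd L P) : ∃ σ s, Val L σ s ∧ P = SS L σ s ∧
    ((∀ j, j < L → s j = 1) → P = o L) ∧
    (L = 0 ∨ (∃ i, i + 2 ≤ L ∧ σ i = i + 1 ∧ s i = 0) ∨ (σ 0 + 1 = L ∧ s 0 = 1)) := by
  induction h with
  | nil =>
    refine ⟨id, id, ⟨⟨?_, ?_, ?_, ?_, ?_⟩, ?_, ?_⟩, ?_, fun _ => rfl, Or.inl rfl⟩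
    any_goals omega
    ext f
    simp [One.nil, SS]
  | @cup L i P _ hi ih =>
    obtain ⟨σ, s, h1, h2, -⟩ := ih
    refine ⟨_, _, h1.cup hi, by rw [h2, cup_SS σ s hi], fun k => ?_,
      Or.inr (Or.inl ⟨i, by omega, cupσ_l _ _, cups_l _ _⟩)⟩
    have := k i (by omega)
    rw [cups_l] at this
    omega
  | @cupS L P _ ih =>
    obtain ⟨σ, s, h1, h2, h3, -⟩ := ih
    refine ⟨_, _, (h1.cup le_rfl).rot, ?_, fun k => ?_, Or.inr (Or.inr ⟨?_, ?_⟩)⟩
    · rw [← rot_SS (h1.cup le_rfl).toInv, ← cup_SS σ s le_rfl, ← h2]; rfl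
    · rw [h3 fun j hj => ?_]
      · rfl
      have := k (j + 1) (by omega)
      have e : up L j = j := if_pos hj
      simp only [rots] at this
      rwa [← e, cupσ_up, cups_up, if_neg (Arm.up_ne' _ _)] at this
    · simp only [rotσ, cupσ_r]
    · simp only [rots, cups_r]

/-- the triangular induction principle -/
theorem tri (L : ℕ) (p : St → Prop) (h0 : p (o L)) (hr : ∀ a, Bd L a → p (rot L a) → p a)
    (hs : ∀ a i, i + 2 ≤ L → Bd L a → p (ee i a) →
      (∀ c, Bd L c → ee i c = ee i a → c ≠ a → p c) → p a) (a : St) (ha : Bd L a) : p a := by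
  have main : ∀ n, ∀ a σ s, Bd L a → Val L σ s → a = SS L σ s → L * L < area L σ s + n → p a := by
    intro n
    induction n with
    | zero => intro a σ s _ h _ k; have := area_le L h.toInv; omega
    | succ n ih =>
      have seam : ∀ a σ s, Bd L a → Val L σ s → a = SS L σ s → L * L < area L σ s + (n + 1) →
          σ 0 + 1 = L → s 0 = 1 → p a := by
        intro a σ s ha h e k e0 e1
        by_cases c : ∀ j, j < L → s j = 1
        · obtain ⟨τ, t, h', e', k', -⟩ := rep ha
          rw [k' fun j hj => (SS_inj h'.toInv h.toInv (e'.symm.trans e) j hj).2.trans (c j hj)]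
          exact h0
        obtain ⟨j, hj⟩ := not_forall.1 c
        rw [Classical.not_imp] at hj
        subst e0
        obtain ⟨i, hi, g⟩ := h.exists_good rfl e1 hj.1 hj.2
        have ar := (h.area_ee hi).1 g
        have oth : ∀ c, Bd (σ 0 + 1) c → ee i c = ee i a → c ≠ a → p c := by
          intro c hc e2 ne
          obtain ⟨τ, t, h', e', -⟩ := rep hc
          rw [e, e', ee_SS h.toInv hi, ee_SS h'.toInv hi] at e2
          have ag := SS_inj (h'.toInv.ee hi) (h.toInv.ee hi) e2
          have a2 := area_congr ag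
          have a3 := (h'.area_ee hi).2 fun g' => ne (by
            have u := h'.good_uniq h hi g' g ag
            rw [e, e']
            ext f
            exact and_congr_right fun _ => forall_congr' fun j => forall_congr' fun hj => by
              rw [(u j hj).1, (u j hj).2])
          exact ih c τ t hc h' e' (by omega)
        refine hs a i hi ha ?_ oth
        obtain ⟨τ, t, h', e', -⟩ := rep (ha.ee hi)
        have e2 := e'
        rw [e, ee_SS h.toInv hi] at e2
        have a2 := area_congr (SS_inj (h.toInv.ee hi) h'.toInv e2)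
        exact ih _ τ t (ha.ee hi) h' e' (by omega)
      have small : ∀ d i a σ s, Bd L a → Val L σ s → a = SS L σ s →
          L * L < area L σ s + (n + 1) → i + 2 + d = L → σ i = i + 1 → s i = 0 → p a := by
        intro d
        induction d with
        | zero =>
          intro i a σ s ha h e k e0 e1 e2
          obtain rfl : L = i + 1 + 1 := by omega
          have b1 := h.inv i (by omega)
          have b2 := h.sg i (by omega)
          rw [e1] at b1 b2
          refine hr a ha (seam _ _ _ ha.rot h.rot (by rw [e, rot_SS h.toInv])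
            (by rwa [area_rot h.toInv]) ?_ ?_)
          · simp only [rotσ, b1]
          · simp only [rots, b2, e2]
        | succ d ihd =>
          intro i a σ s ha h e k e0 e1 e2
          obtain rfl : L = i + 2 + d + 1 := by omega
          refine hr a ha (ihd (i + 1) _ _ _ ha.rot h.rot (by rw [e, rot_SS h.toInv])
            (by rwa [area_rot h.toInv]) (by omega) ?_ ?_)
          · simp only [rotσ, e1]; rw [if_neg (by omega)]
          · simp only [rots, e1, e2]; rw [if_neg (by omega)]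
      intro a σ s ha h e k
      obtain ⟨τ, t, h', e', k1, k2⟩ := rep ha
      rw [area_congr (SS_inj h.toInv h'.toInv (e.symm.trans e'))] at k
      rcases k2 with k2 | ⟨i, i1, i2, i3⟩ | ⟨k2, k3⟩
      · rw [k1 fun j hj => by omega]; exact h0
      · exact small (L - (i + 2)) i a τ t ha h' e' k (by omega) i2 i3
      · exact seam a τ t ha h' e' k k2 k3
  obtain ⟨σ, s, h, e, -⟩ := rep ha
  exact main (L * L + 1) a σ s ha h e (by omega)

end TriA

theorem p_Tri :
    S_Tri := by
  intro L P h0 hr hs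
  refine TriA.tri L P h0 (fun a ha k => ?_) hs
  have : Finite {p : St // Bd L p} := (finite_bd L).to_subtype
  let g : {p : St // Bd L p} → {p : St // Bd L p} := fun p => ⟨rot L p.1, p.2.rot⟩
  have hg : Function.Injective g := fun p r e => Subtype.ext (rot_injective L (congrArg Subtype.val e))
  obtain ⟨n, hn, e⟩ := Function.mem_periodicPts.1 (hg.mem_periodicPts ⟨a, ha⟩)
  have it : ∀ m, P (g^[m + 1] ⟨a, ha⟩).1 := by
    intro m
    induction m with
    | zero => exact k
    | succ m ih => rw [Function.iterate_succ_apply']; exact hr _ (g^[m + 1] ⟨a, ha⟩).2 ih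
  have := it (n - 1)
  rwa [Nat.sub_add_cancel hn, e.eq] at this

end Pool.Agent.P.MP_6c8efb_pr.One

end TriS
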