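import Pool.Agent.P.MP_6c8efb_pr.One.An

/-! The statements of the analytic steps. -/

open Polynomial MeasureTheory Real

namespace Pool.Agent.P.MP_6c8efb_pr.One

-- deps:
def S_Strip : Prop := ∀ (F : ℂ → ℂ) (η c C : ℝ), 0 ≤ η → 0 < c →
  (∀ z : ℂ, 0 ≤ z.im → z.im ≤ η → DifferentiableAt ℂ F z ∧ ‖F z‖ ≤ C * exp (-(c * |z.re|))) →
  ∫ x : ℝ, F (x + η * Complex.I) = ∫ x : ℝ, F x

-- deps: Strip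
def S_Shift : Prop := ∀ (G : ℂ → ℂ) (c C : ℝ), c < π → Differentiable ℂ G →
  (∀ z : ℂ, 0 ≤ z.im → z.im ≤ 1 → ‖G z‖ ≤ C * exp (c * |z.re|)) →
  ∫ x : ℝ, (G (x + Complex.I) + G x) * (wt0 x : ℂ) = 2 * G (Complex.I / 2)

-- deps: Strip Shift
def S_Sech : Prop := ∀ (s : ℂ) (ψ : ℝ), |s.re| < π → 0 ≤ ψ → ψ < π / 2 →
  (Integrable fun x : ℝ => Complex.exp (s * x) / Complex.cosh ((π * x : ℝ) + ψ * Complex.I)) ∧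
  ∫ x : ℝ, Complex.exp (s * x) / Complex.cosh ((π * x : ℝ) + ψ * Complex.I) =
    Complex.exp (-(s * Complex.I * ψ / π)) / Complex.cos (s / 2)

-- deps: Shift
def S_Orth : Prop := ∀ j k : ℕ, ∫ x, pf j x * pf k x * wt0 x = if j = k then 1 else 0

-- deps: Orth
def S_Cau : Prop := ∀ n : ℕ,
  (Integrable fun x => pf n x ^ 2 / (1 + 4 * x ^ 2) * wt0 x) ∧
  (∫ x, pf n x ^ 2 / (1 + 4 * x ^ 2) * wt0 x) + ∫ x, pf (n + 1) x ^ 2 / (1 + 4 * x ^ 2) * wt0 x =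
    (1 / (n + 1) : ℝ)

-- deps: Orth
def S_Var1 : Prop := ∀ (L : ℕ) (C : ℝ) (h : ℝ → ℂ), Bc C h →
  2 * VV L h = ∫ x, (∫ y, ‖h x - h y‖ ^ 2 * KK L x y ^ 2 * wt0 y) * wt0 x

-- deps: Var1 Cau
def S_Var : Prop := ∀ (L : ℕ) (C D : ℝ) (h : ℝ → ℂ), Bc C h → Lw D h → VV L h ≤ D ^ 2

-- deps: Orth
def S_Err : Prop := ∀ (L : ℕ) (C D a : ℝ) (g h : ℝ → ℂ) (A : Matrix (Fin L) (Fin L) ℂ),
  Bc C g → Bc D h → 0 ≤ a → Opb A a →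
  ‖(A * (Mx L (fun x => g x * h x) - Mx L g * Mx L h)).trace‖ ≤ a * (VV L g + VV L h) / 2

-- deps: Orth
def S_Sect : Prop := ∀ (L : ℕ) (c C : ℝ) (g : ℝ → ℂ), 0 < c → Bc C g → (∀ x, c ≤ (g x).re) →
  (Mx L g).det ≠ 0 ∧ Opb (Mx L g)⁻¹ (1 / c)

-- deps:
def S_Jac : Prop := ∀ (L : ℕ) (A B : Matrix (Fin L) (Fin L) ℂ) (s : ℝ), (A + (s : ℂ) • B).det ≠ 0 →
  HasDerivAt (fun t : ℝ => log ‖(A + (t : ℂ) • B).det‖) (((A + (s : ℂ) • B)⁻¹ * B).trace).re s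

-- deps:
def S_Dint : Prop := ∀ (L : ℕ) (c C : ℝ) (r : ℝ → ℂ), 0 < c → Bc C r → (∀ x, c ≤ (r x).re) →
  IntervalIntegrable (fun s : ℝ => ((Mx L fun x => (r x - 1) / (1 + s * (r x - 1))).trace).re)
    volume 0 1 ∧
  ∫ x, log ‖r x‖ * KK L x x * wt0 x =
    ∫ s in (0 : ℝ)..1, ((Mx L fun x => (r x - 1) / (1 + s * (r x - 1))).trace).re

-- deps: Orth Var Err Sect Jac Dint
def S_Logdet : Prop := ∀ (c C D : ℝ) (r : ℝ → ℂ), 0 < c → Bc C r → (∀ x, c ≤ (r x).re) → Lw D r →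
  ∃ C' : ℝ, ∀ L : ℕ, (Mx L r).det ≠ 0 ∧
    |log ‖(Mx L r).det‖ - ∫ x, log ‖r x‖ * KK L x x * wt0 x| ≤ C'

-- deps: Sech
def S_Irec : Prop := ∀ x : ℝ, II 1 x = 1 - 2 * Complex.I * x * II 0 x ∧
  (∀ n : ℕ, (n + 2) * II (n + 2) x = (n + 1) * II n x - 2 * Complex.I * x * II (n + 1) x) ∧
    (II 0 x).re = π / 2 * wt0 x

-- deps: Irec
def S_Ibd : Prop := ∀ (n : ℕ) (x : ℝ), ‖II n x‖ ^ 2 ≤ 4 / (n + 1) ∧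
  ‖II (n + 1) x - II n x‖ ^ 2 ≤ 4 / (n + 1) ^ 3

-- deps: Irec Ibd
def S_Jost : Prop := ∃ C : ℝ, ∀ (n : ℕ) (x : ℝ),
  |(pf n x ^ 2 + pf (n + 1) x ^ 2) * wt0 x - 2 / (π * (n + 1))| ≤ C * cosh (π * x) / (n + 1) ^ 2

-- deps: Jost Orth Cau
def S_Pair : Prop := ∀ (g : ℝ → ℝ) (C : ℝ), Continuous g → (∀ x, |g x| ≤ C * exp (-(π * |x|))) →
  ∃ C' : ℝ, ∀ n : ℕ, |(∫ x, g x * (pf n x ^ 2 + pf (n + 1) x ^ 2) * wt0 x) -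
    2 / (π * (n + 1)) * ∫ x, g x| ≤ C' / ((n + 1) * sqrt (n + 1))

-- deps: Pair
def S_Trace : Prop := ∀ (g : ℝ → ℝ) (C : ℝ), Continuous g → (∀ x, |g x| ≤ C * exp (-(π * |x|))) →
  ∃ C' : ℝ, ∀ m : ℕ, 1 ≤ m →
    |(∫ x, g x * KK (2 * m) x x * wt0 x) - log m / π * ∫ x, g x| ≤ C'

-- deps:
def S_Lip : Prop := ∀ (f f' : ℝ → ℂ) (a : ℂ) (C : ℝ), (∀ x, HasDerivAt f (f' x) x) →
  (∀ x, ‖f x - a‖ ≤ C * exp (-|x|)) → (∀ x, ‖f' x‖ ≤ C * exp (-|x|)) → ∃ D, Lw D f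

-- deps: Lip
def S_Nice : Prop := ∀ ψ : ℝ, 0 ≤ ψ → ψ < π / 2 → ∃ c C D : ℝ, 0 < c ∧ Bc C (rr ψ) ∧
  (∀ x, c ≤ (rr ψ x).re) ∧ Lw D (rr ψ) ∧ ∀ x, |log ‖rr ψ x‖| ≤ C * exp (-(π * |x|))

-- deps:
def S_Lam : Prop := ∀ φ : ℝ, 0 ≤ φ → φ < π →
  (Integrable fun s => log (cosh s + cos φ) - log (cosh s + 1)) ∧
    ∫ s, (log (cosh s + cos φ) - log (cosh s + 1)) = -φ ^ 2

-- deps: Lam
def S_Logint : Prop := ∀ ψ₁ ψ₂ : ℝ, 0 ≤ ψ₁ → ψ₁ < π / 2 → 0 ≤ ψ₂ → ψ₂ < π / 2 →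
  ∫ x, (log ‖rr ψ₁ x‖ - log ‖rr ψ₂ x‖) = -(4 / (3 * π)) * (ψ₁ ^ 2 - ψ₂ ^ 2)

-- deps:
def S_Hank : Prop := ∀ L : ℕ, ∃ c : ℂ, c ≠ 0 ∧ ∀ (C : ℝ) (g : ℝ → ℂ), Bc C g →
  HD L g = c * (Mx L g).det

-- deps:
def S_Toep : Prop := ∀ L : ℕ, ∃ c : ℂ, c ≠ 0 ∧ ∀ (C : ℝ) (g : ℝ → ℂ), Bc C g →
  Filter.Tendsto (fun ε : ℝ => Matrix.det (Matrix.of fun j k : Fin L =>
    ∫ x : ℝ, g x * Complex.exp (Complex.I * (ε * ((k : ℕ) - (j : ℕ)) * x : ℝ)) * (wt0 x : ℂ)) /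
      (ε : ℂ) ^ (L * (L - 1))) (nhdsWithin 0 (Set.Ioi 0)) (nhds (c * HD L g))

-- deps: Hank Logdet Trace Nice Logint
def S_Asym : Prop := ∃ c C : ℝ, 0 < c ∧ ∀ m : ℕ, 1 ≤ m →
  c ≤ (m : ℝ) ^ (5 / 48 : ℝ) * ‖HD (2 * m) (rr (3 * π / 8)) / HD (2 * m) (rr (π / 4))‖ ∧
    (m : ℝ) ^ (5 / 48 : ℝ) * ‖HD (2 * m) (rr (3 * π / 8)) / HD (2 * m) (rr (π / 4))‖ ≤ C

end Pool.Agent.P.MP_6c8efb_pr.One
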