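import Pool.Agent.P.MP_6c8efb_pr.One.Iface
import Pool.Agent.P.MP_6c8efb_pr.One.IfE

section DpolyS

/-! Step Dpoly. -/

namespace Pool.Agent.P.MP_6c8efb_pr.One

open Polynomial Filter Topology
open Arm (q ah ac Nz Gen Near LPd LP1 TC Pt TConn q_eq q_cube q_ne_zero)

namespace DpolyA

theorem natDegree_det_le {n : ℕ} (M : Matrix (Fin n) (Fin n) ℂ[X]) (u v : Fin n → ℕ)
    (h : ∀ i j, (M i j).natDegree ≤ u i + v j) : M.det.natDegree ≤ ∑ i, u i + ∑ i, v i := by
  rw [Matrix.det_apply']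
  refine natDegree_sum_le_of_forall_le _ _ fun σ _ => ?_
  refine natDegree_mul_le.trans ?_
  rw [natDegree_intCast, zero_add]
  refine (natDegree_prod_le _ _).trans ?_
  calc ∑ i, (M (σ i) i).natDegree ≤ ∑ i, (u (σ i) + v i) := Finset.sum_le_sum fun i _ => h _ _
    _ = _ := by rw [Finset.sum_add_distrib, Equiv.sum_comp σ u]

/-- a bordered matrix -/
def bd {R : Type} {n : ℕ} (a : R) (r c : Fin n → R) (B : Fin n → Fin n → R) :
    Matrix (Fin (n + 1)) (Fin (n + 1)) R :=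
  Matrix.of (Fin.cons (Fin.cons a r) fun i => Fin.cons (c i) (B i))

theorem det_bd_scale {R : Type} [CommRing R] {n : ℕ} (d e a : R) (r c : Fin n → R)
    (B : Fin n → Fin n → R) :
    (bd (d * e * a) (fun k => d * r k) (fun i => e * c i) B).det = d * e * (bd a r c B).det := by
  have h : bd (d * e * a) (fun k => d * r k) (fun i => e * c i) B =
      Matrix.of fun i j => (Fin.cons d fun _ => 1 : Fin (n + 1) → R) i *
        (Matrix.of fun i j => (Fin.cons e fun _ => 1 : Fin (n + 1) → R) j * bd a r c B i j) i j := by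
    ext i j
    refine Fin.cases ?_ (fun i => ?_) i <;> refine Fin.cases ?_ (fun j => ?_) j <;>
      simp [bd, mul_assoc]
  rw [h, Matrix.det_mul_column, Matrix.det_mul_row, Fin.prod_univ_succ, Fin.prod_univ_succ]
  simp [mul_assoc]

theorem det_bd_op {R : Type} [CommRing R] {n : ℕ} (d e a : R) (r c : Fin n → R)
    (B : Fin n → Fin n → R) (j : Fin n) :
    (bd (a + d * c j + e * (r j + d * B j j)) (fun k => r k + d * B j k)
      (fun i => c i + e * B i j) B).det = (bd a r c B).det := by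
  rw [← Matrix.det_updateRow_add_smul_self (bd a r c B) (Fin.succ_ne_zero j).symm d,
    ← Matrix.det_updateCol_add_smul_self (Matrix.updateRow _ _ _) (Fin.succ_ne_zero j).symm e]
  congr 1
  ext i k
  refine Fin.cases ?_ (fun i => ?_) i <;> refine Fin.cases ?_ (fun k => ?_) k <;>
    simp [bd, Matrix.updateRow_apply]

theorem sq_dvd_det {R : Type} [CommRing R] {n : ℕ} {d a : R} {r c : Fin n → R}
    (B : Fin n → Fin n → R) (h0 : d * d ∣ a) (hr : ∀ k, d ∣ r k) (hc : ∀ i, d ∣ c i) :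
    d ^ 2 ∣ (bd a r c B).det := by
  obtain ⟨a, rfl⟩ := h0
  choose r' hr using hr
  choose c' hc using hc
  rw [funext hr, funext hc, det_bd_scale, sq]
  exact dvd_mul_right _ _

theorem eval_det_bd {n : ℕ} (t : ℂ) (a : ℂ[X]) (r c : Fin n → ℂ[X]) (B : Fin n → Fin n → ℂ) :
    (bd a r c fun i k => C (B i k)).det.eval t =
      (bd (a.eval t) (fun k => (r k).eval t) (fun i => (c i).eval t) B).det := by
  rw [← coe_evalRingHom, RingHom.map_det]
  congr 1
  ext i j
  refine Fin.cases ?_ (fun i => ?_) i <;> refine Fin.cases ?_ (fun j => ?_) j <;> simp [bd]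

theorem s_ne {x y : ℂ} (h : x ^ 3 ≠ y ^ 3 ∨ (x = y ∧ x ≠ 0)) : x ^ 2 + x * y + y ^ 2 ≠ 0 := by
  rcases h with h | ⟨rfl, h⟩
  · exact fun e => h (by linear_combination (x - y) * e)
  · exact fun e => h (pow_eq_zero_iff two_ne_zero |>.1 (by linear_combination e / 3))

theorem phi_mul (α β : ℂ) {x y : ℂ} (h : x ^ 2 + x * y + y ^ 2 ≠ 0) :
    (x ^ 2 + x * y + y ^ 2) * phi α β x y = α * (x - q ^ 2 * y) + β * (x - q * y) := by
  have e : x ^ 2 + x * y + y ^ 2 = (x - q * y) * (x - q ^ 2 * y) := by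
    linear_combination x * y * q_eq - y ^ 2 * q_cube
  rw [e] at h ⊢
  have h1 := left_ne_zero_of_mul h
  have h2 := right_ne_zero_of_mul h
  rw [phi]
  field_simp

theorem kap_eq (α β : ℂ) : 3 * kap α β = α * (1 - q ^ 2) + β * (1 - q) := by
  have h := phi_mul α β (s_ne (x := 1) (y := 1) (Or.inr ⟨rfl, one_ne_zero⟩))
  simp only [phi, mul_one] at h
  rw [kap]
  linear_combination h

theorem phi_self (α β : ℂ) {x : ℂ} (h : x ≠ 0) : x * phi α β x x = kap α β := by
  have h1 := phi_mul α β (s_ne (x := x) (y := x) (Or.inr ⟨rfl, h⟩))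
  apply mul_left_cancel₀ h
  linear_combination h1 / 3 - x / 3 * kap_eq α β

section

variable {n : ℕ} (α β : ℂ) (x : Fin n → ℂ)

/-- the quadratic factors -/
noncomputable def sP (y : ℂ) : ℂ[X] := X ^ 2 + X * C y + C y ^ 2
/-- their product -/
noncomputable def PP : ℂ[X] := ∏ k, sP (x k)
/-- the product without one factor -/
noncomputable def EP (k : Fin n) : ℂ[X] := ∏ i ∈ Finset.univ.erase k, sP (x i)
/-- the first row -/
noncomputable def rP (k : Fin n) : ℂ[X] :=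
  X * (C α * (X - C (q ^ 2 * x k)) + C β * (X - C (q * x k))) * EP x k
/-- the first column -/
noncomputable def cP (i : Fin n) : ℂ[X] :=
  (C α * (C (x i) - C (q ^ 2) * X) + C β * (C (x i) - C q * X)) * EP x i
/-- the polynomial determinant -/
noncomputable def P0 : ℂ[X] :=
  (bd (C (kap α β) * PP x ^ 2) (rP α β x) (cP α β x) fun i k => C (phi α β (x i) (x k))).det

theorem PP_eq (k : Fin n) : PP x = sP (x k) * EP x k :=
  (Finset.mul_prod_erase _ (fun k => sP (x k)) (Finset.mem_univ k)).symm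

theorem sP_deg (y : ℂ) : (sP y).natDegree ≤ 2 := by
  unfold sP
  compute_degree

theorem PP_deg : (PP x).natDegree ≤ 2 * n := by
  refine (natDegree_prod_le _ _).trans ?_
  refine (Finset.sum_le_card_nsmul _ _ 2 fun i _ => sP_deg _).trans ?_
  simp [mul_comm]

theorem EP_deg (k : Fin n) : (EP x k).natDegree + 2 ≤ 2 * n := by
  have h : (EP x k).natDegree ≤ (n - 1) * 2 := by
    refine (natDegree_prod_le _ _).trans ?_
    refine (Finset.sum_le_card_nsmul _ _ 2 fun i _ => sP_deg _).trans ?_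
    simp
  have := k.pos
  omega

theorem P0_deg : (P0 α β x).natDegree ≤ 4 * n := by
  refine (natDegree_det_le _ (Fin.cons (2 * n) fun _ => 0) (Fin.cons (2 * n) fun _ => 0)
    fun i j => ?_).trans (by simp [Fin.sum_univ_succ]; omega)
  refine Fin.cases ?_ (fun i => ?_) i <;> refine Fin.cases ?_ (fun j => ?_) j <;>
    simp only [bd, Matrix.of_apply, Fin.cons_zero, Fin.cons_succ]
  · refine (natDegree_C_mul_le _ _).trans (natDegree_pow_le.trans ?_)
    have := PP_deg x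
    omega
  · have h : (X * (C α * (X - C (q ^ 2 * x j)) + C β * (X - C (q * x j)))).natDegree ≤ 2 := by
      compute_degree
    have := EP_deg x j
    refine natDegree_mul_le.trans (by omega)
  · have h : (C α * (C (x i) - C (q ^ 2) * X) + C β * (C (x i) - C q * X)).natDegree ≤ 2 := by
      compute_degree
      norm_num
    have := EP_deg x i
    refine natDegree_mul_le.trans (by omega)
  · simp

theorem eval_sP (y t : ℂ) : (sP y).eval t = t ^ 2 + t * y + y ^ 2 := by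
  simp only [sP, eval_add, eval_mul, eval_pow, eval_X, eval_C]

theorem eval_rP (k : Fin n) {t : ℂ} (h : t ^ 2 + t * x k + x k ^ 2 ≠ 0) :
    (rP α β x k).eval t = t * (PP x).eval t * phi α β t (x k) := by
  rw [PP_eq x k, eval_mul, eval_sP]
  simp only [rP, eval_mul, eval_add, eval_sub, eval_C, eval_X]
  linear_combination (-t * (EP x k).eval t) * phi_mul α β h

theorem eval_cP (i : Fin n) {t : ℂ} (h : t ^ 2 + t * x i + x i ^ 2 ≠ 0) :
    (cP α β x i).eval t = (PP x).eval t * phi α β (x i) t := by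
  have h' : x i ^ 2 + x i * t + t ^ 2 ≠ 0 := fun e => h (by linear_combination e)
  rw [PP_eq x i, eval_mul, eval_sP]
  simp only [cP, eval_mul, eval_add, eval_sub, eval_C, eval_X]
  linear_combination (-(EP x i).eval t) * phi_mul α β h'

theorem eval_P0 {t : ℂ} (ht : t ≠ 0) (h : ∀ k, t ^ 3 ≠ x k ^ 3) :
    (P0 α β x).eval t = t * (PP x).eval t * (PP x).eval t *
      (bd (phi α β t t) (fun k => phi α β t (x k)) (fun i => phi α β (x i) t)
        fun i k => phi α β (x i) (x k)).det := by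
  rw [P0, eval_det_bd, ← det_bd_scale, funext fun k => eval_rP α β x k (s_ne (Or.inl (h k))),
    funext fun k => eval_cP α β x k (s_ne (Or.inl (h k)))]
  congr 2
  rw [eval_mul, eval_C, eval_pow, ← phi_self α β ht]
  ring

theorem sq_dvd_P0 (h0 : ∀ k, x k ≠ 0) (h : ∀ j k, j ≠ k → x j ^ 3 ≠ x k ^ 3) (j : Fin n) :
    (X - C (x j)) ^ 2 ∣ P0 α β x := by
  have hs : ∀ k, x j ^ 2 + x j * x k + x k ^ 2 ≠ 0 := fun k => s_ne <| by
    by_cases e : j = k
    · exact Or.inr ⟨by rw [e], h0 j⟩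
    · exact Or.inl (h j k e)
  rw [P0, ← det_bd_op (-(X * PP x)) (-PP x) _ _ _ _ j]
  refine sq_dvd_det _ ?_ (fun k => ?_) fun i => ?_
  · refine ⟨PP x * EP x j * C (phi α β (x j) (x j)) * (X + C (x j)), ?_⟩
    have e1 := congrArg C (phi_self α β (h0 j))
    have e2 := congrArg C (kap_eq α β)
    simp only [map_mul, map_add, map_sub, map_pow, map_one, map_ofNat] at e1 e2
    rw [PP_eq x j]
    simp only [rP, cP, sP, map_mul, map_pow]
    linear_combination
      (X ^ 2 + X * C (x j) + C (x j) ^ 2) * EP x j ^ 2 * (X * (X + C (x j)) * e2 -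
        (X ^ 2 + X * C (x j) + C (x j) ^ 2 - 3 * X * (X + C (x j))) * e1)
  · rw [dvd_iff_isRoot, IsRoot.def, eval_add, eval_rP α β x k (hs k)]
    simp
  · rw [dvd_iff_isRoot, IsRoot.def, eval_add, eval_cP α β x i (hs i)]
    simp

theorem exists_quot (h0 : ∀ k, x k ≠ 0) (h : ∀ j k, j ≠ k → x j ^ 3 ≠ x k ^ 3) :
    ∃ Q : ℂ[X], Q.natDegree ≤ 2 * n ∧ P0 α β x = (∏ k, (X - C (x k))) ^ 2 * Q := by
  have hd : ∏ k, (X - C (x k)) ^ 2 ∣ P0 α β x := by
    refine Finset.prod_dvd_of_coprime (fun j _ k _ e => ?_) fun j _ => sq_dvd_P0 α β x h0 h j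
    refine IsCoprime.pow (isCoprime_X_sub_C_of_isUnit_sub (Ne.isUnit ?_))
    exact sub_ne_zero.2 fun e' => h j k e (by rw [e'])
  rw [Finset.prod_pow] at hd
  obtain ⟨Q, hQ⟩ := hd
  refine ⟨Q, ?_, hQ⟩
  by_cases hz : Q = 0
  · simp [hz]
  have hm : (∏ k, (X - C (x k)) : ℂ[X]).Monic := monic_prod_X_sub_C _ _
  have h1 := P0_deg α β x
  rw [hQ, (hm.pow 2).natDegree_mul' hz, hm.natDegree_pow, natDegree_finsetProd_X_sub_C_eq_card] at h1
  simp only [Finset.card_univ, Fintype.card_fin] at h1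
  omega

end

theorem dphi_cons (α β t : ℂ) (l : List ℂ) : dphi α β (t :: l) =
    (bd (phi α β t t) (fun k : Fin l.length => phi α β t l[k]) (fun i => phi α β l[i] t)
      fun i k => phi α β l[i] l[k]).det := by
  rw [dphi]
  congr 1
  ext i j
  refine Fin.cases ?_ (fun i => ?_) i <;> refine Fin.cases ?_ (fun j => ?_) j <;> rfl

end DpolyA

theorem p_Dpoly :
    S_Dpoly := by
  intro α β l hl
  have h0 : ∀ k : Fin l.length, l[k] ≠ 0 := fun k => (hl.1 _ (List.getElem_mem _)).1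
  have hlt := List.pairwise_iff_getElem.1 hl.2
  have h : ∀ j k : Fin l.length, j ≠ k → l[j] ^ 3 ≠ l[k] ^ 3 := fun j k e => by
    rcases lt_or_gt_of_ne e with e | e
    · exact (hlt j k j.2 k.2 e).1
    · exact (hlt k j k.2 j.2 e).1.symm
  obtain ⟨Q, hQ, e⟩ := DpolyA.exists_quot α β (fun k : Fin l.length => l[k]) h0 h
  refine ⟨C (PQ l ^ 2 * PR l ^ 2 / (VD l ^ 2 * PR l ^ (l.length + 1))) * Q,
    (natDegree_C_mul_le _ _).trans hQ, fun t ht => ?_⟩
  obtain ⟨⟨ht0, -⟩, ht1, -⟩ := Arm.gen_cons.1 ht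
  have ht2 : ∀ k : Fin l.length, t ^ 3 ≠ l[k] ^ 3 := fun k => (ht1 _ (List.getElem_mem _)).1
  have e1 := DpolyA.eval_P0 α β (fun k : Fin l.length => l[k]) ht0 ht2
  rw [← DpolyA.dphi_cons, e] at e1
  simp only [DpolyA.PP, eval_mul, eval_pow, eval_prod, DpolyA.eval_sP, eval_sub, eval_X,
    eval_C] at e1
  have hV : ∏ k : Fin l.length, (t - l[k]) ≠ 0 :=
    Finset.prod_ne_zero_iff.2 fun k _ => sub_ne_zero.2 fun e' => ht2 k (by rw [← e'])
  rw [DD, PQ, VD, ← Fin.prod_univ_fun_getElem, ← Fin.prod_univ_fun_getElem, eval_mul, eval_C,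
    show PR (t :: l) = t * PR l from List.prod_cons, List.length_cons]
  simp only [Fin.getElem_fin] at e1 hV
  generalize ∏ k : Fin l.length, (t - l[(k : ℕ)]) = V at e1 hV
  generalize ∏ k : Fin l.length, (t ^ 2 + t * l[(k : ℕ)] + l[(k : ℕ)] ^ 2) = S at e1
  have e2 : Q.eval t = t * S * S * dphi α β (t :: l) / V ^ 2 := by
    rw [← e1, mul_div_cancel_left₀ _ (pow_ne_zero 2 hV)]
  have e3 : t ^ l.length / t ^ (l.length + 1) = t⁻¹ := by
    rw [pow_succ]
    field_simp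
  have e4 : t ^ 2 * t⁻¹ = t := by field_simp
  rw [e2]
  calc _ = PQ l ^ 2 * PR l ^ 2 / (VD l ^ 2 * PR l ^ (l.length + 1)) *
        (t ^ 2 * (t ^ l.length / t ^ (l.length + 1)) * S * S * dphi α β (t :: l) / V ^ 2) := by
        rw [mul_pow t (PR l) (l.length + 1)]
        simp only [div_eq_mul_inv, mul_inv]
        ring
    _ = _ := by rw [e3, e4]

end Pool.Agent.P.MP_6c8efb_pr.One

end DpolyS

section LogdetS

/-! Step Logdet. -/

namespace Pool.Agent.P.MP_6c8efb_pr.One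

open Polynomial MeasureTheory Real Filter Topology

namespace LogdetA

variable {c C D s : ℝ} {r : ℝ → ℂ}

theorem one (hOrth : S_Orth) (L : ℕ) : Mx L (fun _ => 1) = 1 := by
  ext j k
  simp only [Mx_apply, one_mul, integral_complex_ofReal, hOrth j k, Matrix.one_apply, Fin.ext_iff]
  split_ifs <;> simp

theorem lw {g : ℝ → ℂ} {K : ℝ} (h : Lw D r) (e : ∀ x y, ‖g x - g y‖ ≤ K * ‖r x - r y‖) :
    Lw (K * D) g := fun x y => by
  have h1 := pow_le_pow_left₀ (norm_nonneg _) (e x y) 2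
  have h2 := mul_le_mul_of_nonneg_left (h x y) (sq_nonneg K)
  have h3 : 0 ≤ (1 + 4 * x ^ 2) * (1 + 4 * y ^ 2) := by positivity
  nlinarith [mul_le_mul_of_nonneg_right h1 h3]

theorem bc1 (h : Bc C r) : Bc (C + 1) fun x => r x - 1 :=
  ⟨h.cont.sub continuous_const, fun x => (norm_sub_le _ _).trans (by simpa using h.bd x)⟩

theorem bc2 (h : Bc C r) (s0 : 0 ≤ s) (s1 : s ≤ 1) : Bc (C + 2) fun x => 1 + s * (r x - 1) :=
  ⟨by have := h.cont; fun_prop, fun x => (norm_add_le _ _).trans (by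
    rw [norm_mul, Complex.norm_real, Real.norm_of_nonneg s0, norm_one]
    nlinarith [(bc1 h).bd x, norm_nonneg (r x - 1)])⟩

theorem low (h : ∀ x, c ≤ (r x).re) (s0 : 0 ≤ s) (s1 : s ≤ 1) (x : ℝ) :
    min 1 c ≤ (1 + s * (r x - 1)).re := by
  simp only [Complex.add_re, Complex.one_re, Complex.re_ofReal_mul, Complex.sub_re]
  nlinarith [min_le_left 1 c, min_le_right 1 c, h x]

theorem mx (hOrth : S_Orth) (h : Bc C r) (L : ℕ) (s : ℝ) :
    Mx L (fun x => 1 + s * (r x - 1)) = 1 + (s : ℂ) • Mx L fun x => r x - 1 := by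
  rw [← one hOrth]
  ext j k
  simp only [Mx_apply, Matrix.add_apply, Matrix.smul_apply, smul_eq_mul, add_mul, mul_assoc (s : ℂ)]
  rw [integral_add (Bc.integrable (C := 1) ⟨continuous_const, by simp⟩ j k)
    (((bc1 h).integrable j k).const_mul _), integral_const_mul (s : ℂ)]

theorem err (hVar : S_Var) (hErr : S_Err) (hSect : S_Sect) (hc : 0 < c) (hb : Bc C r)
    (h : ∀ x, c ≤ (r x).re) (hl : Lw D r) (L : ℕ) (s0 : 0 ≤ s) (s1 : s ≤ 1) :
    ‖(((Mx L fun x => 1 + s * (r x - 1))⁻¹ * Mx L fun x => r x - 1).trace).re -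
      ((Mx L fun x => (r x - 1) / (1 + s * (r x - 1))).trace).re‖ ≤
      1 / min 1 c * ((1 * D) ^ 2 + (1 / min 1 c ^ 2 * D) ^ 2) / 2 := by
  have c0 : 0 < min 1 c := lt_min one_pos hc
  have n1 : ∀ x, min 1 c ≤ ‖1 + s * (r x - 1)‖ := fun x =>
    (low h s0 s1 x).trans (Complex.re_le_norm _)
  have n0 : ∀ x, 1 + s * (r x - 1) ≠ 0 := fun x => norm_pos_iff.1 (c0.trans_le (n1 x))
  have b2 := bc2 hb s0 s1
  have b3 : Bc ((C + 1) / min 1 c) fun x => (r x - 1) / (1 + s * (r x - 1)) :=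
    ⟨(bc1 hb).cont.div b2.cont n0, fun x => by
      rw [norm_div]; exact div_le_div₀ (bc1 hb).nonneg ((bc1 hb).bd x) c0 (n1 x)⟩
  have l2 : Lw (1 * D) fun x => 1 + s * (r x - 1) := lw hl fun x y => by
    rw [show 1 + s * (r x - 1) - (1 + s * (r y - 1)) = s * (r x - r y) by ring, norm_mul,
      Complex.norm_real, Real.norm_of_nonneg s0]
    exact mul_le_mul_of_nonneg_right s1 (norm_nonneg _)
  have l3 : Lw (1 / min 1 c ^ 2 * D) fun x => (r x - 1) / (1 + s * (r x - 1)) := lw hl fun x y => by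
    rw [div_sub_div _ _ (n0 x) (n0 y), show (r x - 1) * (1 + s * (r y - 1)) -
      (1 + s * (r x - 1)) * (r y - 1) = r x - r y by ring, norm_div, norm_mul, one_div_mul_eq_div, sq]
    exact div_le_div_of_nonneg_left (norm_nonneg _) (by positivity)
      (mul_le_mul (n1 x) (n1 y) c0.le (norm_nonneg _))
  obtain ⟨hd, ho⟩ := hSect L _ _ _ c0 b2 (low h s0 s1)
  have key := hErr L _ _ _ _ _ _ b2 b3 (by positivity) ho
  simp only [mul_div_cancel₀ _ (n0 _)] at key
  rw [Matrix.mul_sub, ← Matrix.mul_assoc, Matrix.nonsing_inv_mul _ (Ne.isUnit hd), Matrix.one_mul,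
    Matrix.trace_sub] at key
  rw [← Complex.sub_re]
  refine (Complex.abs_re_le_norm _).trans (key.trans ?_)
  have := hVar L _ _ _ b2 l2
  have := hVar L _ _ _ b3 l3
  gcongr

end LogdetA

open LogdetA in
theorem p_Logdet (hOrth : S_Orth) (hVar : S_Var) (hErr : S_Err) (hSect : S_Sect) (hJac : S_Jac) (hDint : S_Dint) :
    S_Logdet := by
  intro c C D r hc hb h hl
  refine ⟨1 / min 1 c * ((1 * D) ^ 2 + (1 / min 1 c ^ 2 * D) ^ 2) / 2, fun L =>
    ⟨(hSect L _ _ _ hc hb h).1, ?_⟩⟩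
  obtain ⟨i1, e1⟩ := hDint L c C r hc hb h
  set B := Mx L fun x => r x - 1 with hB
  have hd : ∀ s ∈ Set.uIcc (0 : ℝ) 1, (1 + (s : ℂ) • B).det ≠ 0 := fun s hs => by
    rw [Set.uIcc_of_le zero_le_one] at hs
    rw [← mx hOrth hb]
    exact (hSect L _ _ _ (lt_min one_pos hc) (bc2 hb hs.1 hs.2) (low h hs.1 hs.2)).1
  have c1 : Continuous fun s : ℝ => 1 + (s : ℂ) • B := by fun_prop
  have i2 : IntervalIntegrable (fun s : ℝ => (((1 + (s : ℂ) • B)⁻¹ * B).trace).re) volume 0 1 := by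
    refine ContinuousOn.intervalIntegrable ?_
    simp only [Matrix.inv_def, Ring.inverse_eq_inv', Matrix.smul_mul, Matrix.trace_smul, smul_eq_mul]
    exact Complex.continuous_re.comp_continuousOn ((c1.matrix_det.continuousOn.inv₀ hd).mul
      (c1.matrix_adjugate.matrix_mul continuous_const).matrix_trace.continuousOn)
  have e2 := intervalIntegral.integral_eq_sub_of_hasDerivAt (fun s hs => hJac L 1 B s (hd s hs)) i2
  have e3 : 1 + ((1 : ℝ) : ℂ) • B = Mx L r := by rw [← mx hOrth hb]; simp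
  rw [e3] at e2
  simp only [Complex.ofReal_zero, zero_smul, add_zero, Matrix.det_one, norm_one, log_one,
    sub_zero] at e2
  rw [e1, ← e2, ← intervalIntegral.integral_sub i2 i1]
  refine (intervalIntegral.norm_integral_le_of_norm_le_const (E := ℝ) fun s hs => ?_).trans_eq
    (by rw [sub_zero, abs_one, mul_one])
  rw [Set.uIoc_of_le zero_le_one] at hs
  rw [← mx hOrth hb]
  exact err hVar hErr hSect hc hb h hl L hs.1.le hs.2

end Pool.Agent.P.MP_6c8efb_pr.One

end LogdetS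

section GlueDS

/-! Step GlueD. -/

namespace Pool.Agent.P.MP_6c8efb_pr.One

namespace GlueDA

/-- a long horizontal and a long vertical path meet -/
theorem X {ω : Cfg} {W A B : Set V} {x0 x1 y0 y1 : ℤ} (hx : x0 ≤ x1) (hy : y0 < y1)
    {p p' q q' : V} (hA : A ⊆ W) (hB : B ⊆ W) (hAy : ∀ z ∈ A, y0 ≤ z.2 ∧ z.2 ≤ y1)
    (hBx : ∀ z ∈ B, x0 ≤ z.1 ∧ z.1 ≤ x1) (hR : MP_6c8efb_pr.Rc x0 x1 y0 y1 ⊆ W)
    (h : Conn ω A q q') (hq : q ∈ A) (q0 : q.1 ≤ x0) (q1 : x1 ≤ q'.1)
    (h' : Conn ω B p p') (hp : p ∈ B) (p0 : p.2 ≤ y0) (p1 : y1 ≤ p'.2) : Conn ω W p q := by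
  obtain ⟨a, a', a1, a2, a3, a4⟩ := h.strip lip_fst hx q0 q1
  obtain ⟨b, b', b1, b2, b3, b4⟩ := h'.strip lip_snd hy.le p0 p1
  have sA : A ∩ {z | x0 ≤ z.1 ∧ z.1 ≤ x1} ⊆ MP_6c8efb_pr.Rc x0 x1 y0 y1 := fun z hz =>
    ⟨hz.2.1, hz.2.2, hAy z hz.1⟩
  have sB : B ∩ {z | y0 ≤ z.2 ∧ z.2 ≤ y1} ⊆ MP_6c8efb_pr.Rc x0 x1 y0 y1 := fun z hz =>
    ⟨(hBx z hz.1).1, (hBx z hz.1).2, hz.2⟩
  have := cross' hy (b4.mono_set sB) (sB ⟨b3.mem hp, by simp only [Set.mem_ofPred_eq]; omega⟩)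
    b1 b2 (a4.mono_set sA) (sA ⟨a3.mem hq, by simp only [Set.mem_ofPred_eq]; omega⟩) a1 a2
  exact ((b3.mono_set hB).trans' (this.mono_set hR)).trans' (a3.mono_set hA).symm'

theorem sub {a b c d a' b' c' d' : ℤ} (h : a' ≤ a ∧ b ≤ b' ∧ c' ≤ c ∧ d ≤ d') :
    MP_6c8efb_pr.Rc a b c d ⊆ MP_6c8efb_pr.Rc a' b' c' d' := fun z hz => by
  simp only [mem_Rc] at hz ⊢; omega

theorem iny {a b c d : ℤ} : ∀ z ∈ MP_6c8efb_pr.Rc a b c d, c ≤ z.2 ∧ z.2 ≤ d := fun _ hz => hz.2.2

theorem inx {a b c d : ℤ} : ∀ z ∈ MP_6c8efb_pr.Rc a b c d, a ≤ z.1 ∧ z.1 ≤ b :=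
  fun _ hz => ⟨hz.1, hz.2.1⟩

end GlueDA

open GlueDA in
theorem p_GlueD : S_GlueD := by
  rintro m r ω hr hm hper ⟨⟨⟨⟨hA, t, t', ⟨t1, t2, t3⟩, t4⟩, b, b', ⟨b1, b2, b3⟩, b4⟩,
    l, l', ⟨l1, l2, l3⟩, l4⟩, s, s', ⟨s1, s2, s3⟩, s4⟩
  rw [AG_eq _ _ (by omega)] at hA
  obtain ⟨_, y, ⟨rfl, y1⟩, y2⟩ := hA
  have sb : Set.univ ∩ {z | nm 0 z ≤ 3 * r} ⊆
      MP_6c8efb_pr.Rc (-3 * r) (3 * r) (-3 * r) (3 * r) := fun z hz => by
    have := hz.2
    simp only [nm, abs_eq_max_neg, mem_Rc, Set.mem_ofPred_eq, Prod.fst_zero, Prod.snd_zero]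
      at this ⊢
    omega
  have y3 := y2.mono_set sb
  have m0 : (0 : V) ∈ MP_6c8efb_pr.Rc (-3 * r) (3 * r) (-3 * r) (3 * r) := by
    simp only [mem_Rc, Prod.fst_zero, Prod.snd_zero]; omega
  have my := y3.mem m0
  set W := MP_6c8efb_pr.Rc (-3 * r) (m - r) (r - m) (3 * r) with hW
  have st : Conn ω W s t := X (x0 := r) (x1 := 3 * r) (by omega) (by omega) (sub (by omega))
    (sub (by omega)) iny inx (sub (by omega)) t4 t1 (by omega) (by omega) s4 s1 (by omega)
    (by omega)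
  have sb' : Conn ω W s b := X (x0 := r) (x1 := 3 * r) (by omega) (by omega) (sub (by omega))
    (sub (by omega)) iny inx (sub (by omega)) b4 b1 (by omega) (by omega) s4 s1 (by omega)
    (by omega)
  have lt : Conn ω W l t := X (x0 := -3 * r) (x1 := -r) (by omega) (by omega) (sub (by omega))
    (sub (by omega)) iny inx (sub (by omega)) t4 t1 (by omega) (by omega) l4 l1 (by omega)
    (by omega)
  have z1 : (0 : V).1 = 0 := rfl
  have z2 : (0 : V).2 = 0 := rfl
  have ot : Conn ω W 0 t := by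
    have y4 := y3.mono_set (T := W) (sub (by omega))
    simp only [nm, abs_eq_max_neg, Prod.fst_zero, Prod.snd_zero] at y1
    by_cases c1 : 3 * r ≤ y.1
    · exact (X (x0 := r) (x1 := 3 * r) (by omega) (by omega) (sub (by omega)) (sub (by omega))
        iny inx (sub (by omega)) y3 m0 (by omega) c1 s4 s1 (by omega) (by omega)).symm'.trans' st
    by_cases c2 : y.1 ≤ -3 * r
    · exact (y4.trans' (X (x0 := -3 * r) (x1 := -r) (by omega) (by omega) (sub (by omega))
        (sub (by omega)) iny inx (sub (by omega)) y3.symm' my c2 (by omega) l4 l1 (by omega)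
        (by omega)).symm').trans' lt
    by_cases c3 : 3 * r ≤ y.2
    · exact X (y0 := r) (y1 := 3 * r) (by omega) (by omega) (sub (by omega)) (sub (by omega))
        iny inx (sub (by omega)) t4 t1 (by omega) (by omega) y3 m0 (by omega) c3
    · exact ((y4.trans' (X (y0 := -3 * r) (y1 := -r) (by omega) (by omega) (sub (by omega))
        (sub (by omega)) iny inx (sub (by omega)) b4 b1 (by omega) (by omega) y3.symm' my
        (by omega) (by omega))).trans' sb'.symm').trans' st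
  have ol := ot.trans' lt.symm'
  have e : (fun e => ω ((syT m m).e e)) = ω := funext fun e => hper e
  have k1 : Conn ω (MP_6c8efb_pr.Rc (-m) (2 * m) (-m) (2 * m)) ((syT m m).v 0) ((syT m m).v l) :=
    Conn.map (syT m m) (by rw [e]; exact ol) fun z hz => by
      simp only [hW, syT, mem_Rc] at hz ⊢; omega
  have k2 : Conn ω (MP_6c8efb_pr.Rc (m - 3 * r) (m - r) r (m + 3 * r)) ((syT m m).v l)
      ((syT m m).v l') :=
    Conn.map (syT m m) (by rw [e]; exact l4) fun z hz => by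
      simp only [syT, mem_Rc] at hz ⊢; omega
  have k3 : Conn ω (MP_6c8efb_pr.Rc (-m) (2 * m) (-m) (2 * m)) ((syT m m).v l) t :=
    X (x0 := m - 3 * r) (x1 := m - r) (by omega) (by omega) (sub (by omega)) (sub (by omega))
      iny inx (sub (by omega)) t4 t1 (by omega) (by omega) k2
      (by simp only [syT, mem_Rc] at l1 ⊢; omega) (by simp only [syT]; omega)
      (by simp only [syT]; omega)
  have k4 : (syT m m).v 0 = (m, m) := by simp [syT]
  rw [k4] at k1
  exact ((ot.mono_set (sub (by omega))).trans' k3.symm').trans' k1.symm'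

end Pool.Agent.P.MP_6c8efb_pr.One

end GlueDS
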