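import Pool.Agent.P.MP_6c8efb_pr.One.Iface

section ResetS

/-! Step Reset. -/

namespace Pool.Agent.P.MP_6c8efb_pr.One

namespace ResetA

theorem shift (x : St) (n : ℕ) : rowS (fun i => decide (Odd i)) 0 (n + 2) x =
    cup 1 (rowS (fun i => decide (Odd i)) 0 n (cap 1 x)) := by
  induction n with
  | zero => simp [rowS, ee]
  | succ n ih =>
    rw [rowS, ih, rowS]
    by_cases h : Odd n
    · have h2 : Odd (n + 2) := h.add_even even_two
      simp only [h, h2, decide_true, if_true, zero_add]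
      exact ee_cup_far h.pos _
    · have h2 : ¬ Odd (n + 2) := fun e => h ((Nat.odd_add.1 e).2 even_two)
      simp [h, h2]

end ResetA

theorem p_Reset : S_Reset := by
  intro L
  induction L using Nat.twoStepInduction with
  | zero => intro p r hp hr; rw [hp.eq_nil, hr.eq_nil]
  | one => intro p r hp; exact absurd hp.even (by decide)
  | more L ih _ =>
    intro p r hp hr
    rw [ResetA.shift, ResetA.shift, cap_cupS (Nat.zero_le L), cap_cupS (Nat.zero_le L),
      ih _ _ (hp.cap (Nat.zero_le L)) (hr.cap (Nat.zero_le L))]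

end Pool.Agent.P.MP_6c8efb_pr.One

end ResetS

section ContrS

/-! Step Contr. -/

namespace Pool.Agent.P.MP_6c8efb_pr.One

open Polynomial Filter Topology
open Arm (q ah ac Nz Gen Near LPd LP1 TC Pt TConn q_eq q_cube q_ne_zero)

namespace ContrA

theorem n1_nonneg (v : W) : 0 ≤ n1 v := Finset.sum_nonneg fun _ _ => norm_nonneg _

theorem n1_eq_sum {v : W} {s : Finset St} (h : v.support ⊆ s) : n1 v = ∑ p ∈ s, ‖v p‖ :=
  Finsupp.sum_of_support_subset v h _ (by simp)

@[simp] theorem n1_zero : n1 0 = 0 := by simp [n1]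

@[simp] theorem n1_single (p : St) (c : ℂ) : n1 (Finsupp.single p c) = ‖c‖ := by
  unfold n1
  rw [Finsupp.sum_single_index (by simp)]

theorem n1_add (v w : W) : n1 (v + w) ≤ n1 v + n1 w := by
  classical
  rw [n1_eq_sum (Finsupp.support_add (g₁ := v) (g₂ := w)),
    n1_eq_sum (v := v) (s := v.support ∪ w.support) Finset.subset_union_left,
    n1_eq_sum (v := w) (s := v.support ∪ w.support) Finset.subset_union_right,
    ← Finset.sum_add_distrib]
  exact Finset.sum_le_sum fun p _ => norm_add_le _ _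

theorem n1_smul (c : ℂ) (v : W) : n1 (c • v) = ‖c‖ * n1 v := by
  rw [n1_eq_sum (Finsupp.support_smul (b := c) (g := v)), n1_eq_sum (v := v) subset_rfl,
    Finset.mul_sum]
  exact Finset.sum_congr rfl fun p _ => by simp

theorem n1_eq_zero {v : W} (h : n1 v = 0) : v = 0 := by
  rw [n1_eq_sum (v := v) subset_rfl,
    Finset.sum_eq_zero_iff_of_nonneg fun _ _ => norm_nonneg _] at h
  ext p
  by_contra e
  exact e (norm_eq_zero.1 (h p (Finsupp.mem_support_iff.2 e)))

theorem n1_sum_le {ι : Type*} (s : Finset ι) (f : ι → W) :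
    n1 (∑ i ∈ s, f i) ≤ ∑ i ∈ s, n1 (f i) :=
  Finset.le_sum_of_subadditive n1 n1_zero.le n1_add s f

theorem n1_lm (f : St → St) (v : W) : n1 (lm f v) ≤ n1 v := by
  conv_lhs => rw [← Finsupp.sum_single v, Finsupp.sum, map_sum]
  refine (n1_sum_le _ _).trans (le_of_eq ?_)
  simp [n1_eq_sum (v := v) subset_rfl]

/-- bounded endomorphisms -/
def Bdd (A : Module.End ℂ W) (u : ℝ) : Prop := ∀ v, n1 (A v) ≤ u * n1 v

theorem bdd_lm (f : St → St) : Bdd (lm f) 1 := fun v => by simpa using n1_lm f v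

theorem bdd_one : Bdd 1 1 := fun v => by simp

theorem Bdd.mul {A B : Module.End ℂ W} {u w : ℝ} (hA : Bdd A u) (hB : Bdd B w) (hu : 0 ≤ u) :
    Bdd (A * B) (u * w) := fun v => by
  rw [mul_assoc]
  exact (hA _).trans (mul_le_mul_of_nonneg_left (hB v) hu)

theorem Bdd.add {A B : Module.End ℂ W} {u w : ℝ} (hA : Bdd A u) (hB : Bdd B w) :
    Bdd (A + B) (u + w) := fun v => by
  rw [add_mul]
  exact (n1_add _ _).trans (add_le_add (hA v) (hB v))

theorem Bdd.smul {A : Module.End ℂ W} {u w : ℝ} {c : ℂ} (hA : Bdd A u) (hc : ‖c‖ ≤ w) :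
    Bdd (c • A) (w * u) := fun v => by
  rw [LinearMap.smul_apply, n1_smul, mul_assoc]
  exact mul_le_mul hc (hA v) (n1_nonneg _) ((norm_nonneg _).trans hc)

theorem Bdd.congr {A : Module.End ℂ W} {u w : ℝ} (hA : Bdd A u) (h : u = w) : Bdd A w := h ▸ hA

theorem bdd_R {u : ℝ} {x : ℂ} (i : ℕ) (h1 : ‖ah x‖ ≤ u) (h2 : ‖ac x‖ ≤ u) : Bdd (R i x) (2 * u) :=
  ((bdd_one.smul h1).add ((bdd_lm (ee i)).smul h2)).congr (by ring)

theorem row_snoc (a : ℕ) (l : List ℂ) (x : ℂ) :
    row a (l ++ [x]) = R (a + l.length) x * row a l := by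
  rw [row_append]; simp [row]

theorem row_split {u : ℝ} (hu : 0 ≤ u) (b : ℕ → Bool) (a : ℕ) (l : List ℂ)
    (h : ∀ x ∈ l, ‖ah x‖ ≤ u ∧ ‖ac x‖ ≤ u) :
    Bdd (row a l) ((2 * u) ^ l.length) ∧ ∃ c : ℂ, ‖c‖ ≤ u ^ l.length ∧
      Bdd (row a l - c • lm (rowS b a l.length)) ((2 * u) ^ l.length - u ^ l.length) := by
  induction l using List.reverseRecOn with
  | nil =>
    refine ⟨by simpa [row] using bdd_one, 1, by simp, fun v => ?_⟩
    have : rowS b a 0 = id := funext fun _ => rfl
    simp [row, this, lm_id]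
  | append_singleton l x ih =>
    obtain ⟨h1, c, hc, h2⟩ := ih fun y hy => h y (by simp [hy])
    obtain ⟨x1, x2⟩ := h x (by simp)
    have hR := bdd_R (a + l.length) x1 x2
    have h2u : 0 ≤ 2 * u := by linarith
    rw [row_snoc, List.length_append, List.length_singleton]
    refine ⟨(hR.mul h1 h2u).congr (by ring), ?_⟩
    cases hb : b l.length with
    | true =>
      have e : lm (rowS b a (l.length + 1)) = Ee (a + l.length) * lm (rowS b a l.length) := by
        rw [Ee, lm_mul]; exact lm_congr fun p => by simp [rowS, hb]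
      have n1 : ‖ac x * c‖ ≤ u * u ^ l.length := by
        rw [norm_mul]; exact mul_le_mul x2 hc (norm_nonneg _) hu
      have n2 : ‖ah x * c‖ ≤ u * u ^ l.length := by
        rw [norm_mul]; exact mul_le_mul x1 hc (norm_nonneg _) hu
      refine ⟨ac x * c, n1.trans_eq (by ring), ?_⟩
      have e2 : R (a + l.length) x * row a l - (ac x * c) • lm (rowS b a (l.length + 1)) =
          R (a + l.length) x * (row a l - c • lm (rowS b a l.length)) +
            (ah x * c) • lm (rowS b a l.length) := by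
        rw [e]
        refine LinearMap.ext fun v => ?_
        simp only [R, Module.End.mul_apply, LinearMap.sub_apply, LinearMap.add_apply,
          LinearMap.smul_apply, Module.End.one_apply, map_sub, map_smul]
        module
      rw [e2]
      exact ((hR.mul h2 h2u).add ((bdd_lm _).smul n2)).congr (by ring)
    | false =>
      have e : lm (rowS b a (l.length + 1)) = lm (rowS b a l.length) :=
        lm_congr fun p => by simp [rowS, hb]
      have n1 : ‖ah x * c‖ ≤ u * u ^ l.length := by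
        rw [norm_mul]; exact mul_le_mul x1 hc (norm_nonneg _) hu
      have n2 : ‖ac x * c‖ ≤ u * u ^ l.length := by
        rw [norm_mul]; exact mul_le_mul x2 hc (norm_nonneg _) hu
      refine ⟨ah x * c, n1.trans_eq (by ring), ?_⟩
      have e2 : R (a + l.length) x * row a l - (ah x * c) • lm (rowS b a (l.length + 1)) =
          R (a + l.length) x * (row a l - c • lm (rowS b a l.length)) +
            (ac x * c) • (Ee (a + l.length) * lm (rowS b a l.length)) := by
        rw [e]
        refine LinearMap.ext fun v => ?_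
        simp only [R, Module.End.mul_apply, LinearMap.sub_apply, LinearMap.add_apply,
          LinearMap.smul_apply, Module.End.one_apply, map_sub, map_smul]
        module
      rw [e2]
      exact ((hR.mul h2 h2u).add (((bdd_lm _).mul (bdd_lm _) zero_le_one).smul n2)).congr (by ring)

theorem reset (h : S_Reset) {L : ℕ} {v : W} (hv : Sup L v) (h0 : tot v = 0) :
    lm (rowS (fun i => decide (Odd i)) 0 L) (CupS L v) = 0 := by
  by_cases hL : Even L
  · have := Sup.ext (f := lm (rowS (fun i => decide (Odd i)) 0 L) ∘ₗ CupS L)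
      (g := tot.smulRight
        (Finsupp.single (rowS (fun i => decide (Odd i)) 0 L (cupS L (o L))) (1 : ℂ)))
      (fun p hp => by simp [CupS, h L p _ hp (bd_o hL)]) hv
    simpa [h0] using this
  · simp [hv.eq_zero_of_odd hL]

theorem norm_ah {x : ℂ} {ε : ℝ} (h : ‖x - 1‖ < ε) : ‖ah x‖ ≤ 1 + ε := by
  have : ah x = 1 - q ^ 2 * (x - 1) := by unfold ah; linear_combination (-1 : ℂ) * q_eq
  rw [this]
  refine (norm_sub_le _ _).trans ?_
  rw [norm_mul, norm_pow, Arm.norm_q]
  simp [h.le]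

theorem norm_ac {x : ℂ} {ε : ℝ} (h : ‖x - 1‖ < ε) : ‖ac x‖ ≤ 1 + ε := by
  have : ac x = 1 - q * (x - 1) := by unfold ac; linear_combination (-1 : ℂ) * q_eq
  rw [this]
  refine (norm_sub_le _ _).trans ?_
  rw [norm_mul, Arm.norm_q]
  simp [h.le]

theorem norm_nrm {ε : ℝ} (hε : ε ≤ 2) (l : List ℂ) (h : ∀ x ∈ l, ‖x - 1‖ < ε) :
    (2 - ε) ^ l.length ≤ ‖nrm l‖ := by
  induction l with
  | nil => simp
  | cons x l ih =>
    rw [nrm_cons, norm_mul, List.length_cons, pow_succ _ l.length, mul_comm]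
    have h1 : 2 - ε ≤ ‖1 + x‖ := by
      have e : (1 + x) = 2 - (1 - x) := by ring
      have := norm_sub_norm_le (2 : ℂ) (1 - x)
      rw [← e, norm_sub_rev] at this
      have h2 := h x (by simp)
      simp only [Complex.norm_ofNat] at this
      linarith
    exact mul_le_mul h1 (ih fun y hy => h y (by simp [hy]))
      (pow_nonneg (by linarith) _) (by positivity)

theorem exists_eps (L : ℕ) : ∃ ε : ℝ, 0 < ε ∧ ε ≤ 1 ∧
    (2 * (1 + ε)) ^ L - (1 + ε) ^ L ≤ (1 - (1 / 2) ^ L / 2) * (2 - ε) ^ L := by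
  have hc : ContinuousAt (fun ε : ℝ => (1 - (1 / 2) ^ L / 2) * (2 - ε) ^ L -
      ((2 * (1 + ε)) ^ L - (1 + ε) ^ L)) 0 := by fun_prop
  have h0 : 0 < (1 - (1 / 2 : ℝ) ^ L / 2) * (2 - 0) ^ L -
      ((2 * (1 + 0)) ^ L - (1 + 0) ^ L) := by
    have e2 : (1 / 2 : ℝ) ^ L * 2 ^ L = 1 := by rw [← mul_pow]; norm_num
    simp only [add_zero, mul_one, one_pow, sub_zero]
    linarith
  have h1 := (hc.eventually (lt_mem_nhds h0)).and (Iic_mem_nhds (zero_lt_one' ℝ))
  obtain ⟨ε, ⟨h2, h3⟩, h4⟩ := ((h1.filter_mono nhdsWithin_le_nhds).and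
    (self_mem_nhdsWithin (s := Set.Ioi (0 : ℝ)))).exists
  exact ⟨ε, h4, h3, by linarith⟩

end ContrA

open ContrA in
theorem p_Contr (hReset : S_Reset) :
    S_Contr := by
  intro L
  obtain ⟨ε, e0, e1, e2⟩ := exists_eps L
  have p1 : (0 : ℝ) < (1 / 2) ^ L := by positivity
  have p2 : (1 / 2 : ℝ) ^ L ≤ 1 := pow_le_one₀ (by norm_num) (by norm_num)
  refine ⟨ε, 1 - (1 / 2) ^ L / 2, e0, e1, by linarith, by linarith, fun l hl hx => ?_⟩
  subst hl
  have hu : 0 ≤ 1 + ε := by linarith
  have hb : ∀ x ∈ l, ‖ah x‖ ≤ 1 + ε ∧ ‖ac x‖ ≤ 1 + ε := fun x m =>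
    ⟨norm_ah (hx x m), norm_ac (hx x m)⟩
  obtain ⟨-, c, -, h2⟩ := row_split hu (fun i => decide (Odd i)) 0 l hb
  have hn := norm_nrm (by linarith) l hx
  have h3 : 0 < ‖nrm l‖ := lt_of_lt_of_le (pow_pos (by linarith) _) hn
  have hle : (1 + ε) ^ l.length ≤ (2 * (1 + ε)) ^ l.length :=
    pow_le_pow_left₀ hu (by linarith) _
  have key : ∀ v, Sup l.length v → tot v = 0 →
      n1 (TM l v) ≤ (1 - (1 / 2) ^ l.length / 2) * ‖nrm l‖ * n1 v := fun v hv h0 => by
    have e : TM l v = (Cap l.length *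
        ((row 0 l - c • lm (rowS (fun i => decide (Odd i)) 0 l.length)) * CupS l.length)) v := by
      simp only [TM, Module.End.mul_apply, LinearMap.sub_apply, LinearMap.smul_apply,
        reset hReset hv h0, smul_zero, sub_zero]
    have hB := (bdd_lm (cap l.length)).mul
      (h2.mul (bdd_lm (cupS l.length)) (by linarith)) zero_le_one v
    rw [e]
    refine hB.trans (mul_le_mul_of_nonneg_right ?_ (n1_nonneg v))
    rw [one_mul, mul_one]
    exact e2.trans (mul_le_mul_of_nonneg_left hn (by linarith))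
  refine ⟨norm_pos_iff.1 h3, fun v hv h0 => ?_, key⟩
  have h1 := key v hv.1 h0
  rw [hv.2, n1_smul] at h1
  refine n1_eq_zero (le_antisymm ?_ (n1_nonneg v))
  by_contra hn'
  have := mul_pos (mul_pos p1 h3) (not_le.1 hn')
  linarith

end Pool.Agent.P.MP_6c8efb_pr.One

end ContrS

section TMS

/-! Step TM. -/

namespace Pool.Agent.P.MP_6c8efb_pr.One

open Polynomial Filter Topology
open Arm (q ah ac Nz Gen Near LPd LP1 TC Pt TConn q_eq q_cube q_ne_zero)

namespace TMA

theorem tot_R (i : ℕ) (x : ℂ) (v : W) : tot (R i x v) = (1 + x) * tot v := by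
  simp only [R, Ee, LinearMap.add_apply, LinearMap.smul_apply, Module.End.one_apply, map_add,
    map_smul, tot_lm, smul_eq_mul]
  rw [← Arm.ah_add_ac]; ring

theorem tot_row (l : List ℂ) : ∀ (a : ℕ) (v : W), tot (row a l v) = nrm l * tot v := by
  induction l with
  | nil => intro a v; simp [row]
  | cons x l ih => intro a v; rw [row, Module.End.mul_apply, ih, tot_R, nrm_cons]; ring

theorem sup_row {M : ℕ} (l : List ℂ) : ∀ (a : ℕ) {v : W}, a + l.length + 1 ≤ M → Sup M v →
    Sup M (row a l v) := by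
  induction l with
  | nil => intro a v _ hv; simpa [row] using hv
  | cons x l ih =>
    intro a v h hv
    rw [List.length_cons] at h
    rw [row, Module.End.mul_apply]
    exact ih _ (by omega) ((hv.smul _).add ((hv.Ee (by omega)).smul _))

end TMA

open TMA

theorem p_TM :
    S_TM := by
  have ht : ∀ l v, tot (TM l v) = nrm l * tot v := fun l v => by
    simp only [TM, Cap, CupS, Module.End.mul_apply, tot_lm, tot_row]
  have hs : ∀ (l : List ℂ) (v : W), Sup l.length v → Sup l.length (TM l v) := fun l v hv =>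
    (sup_row l 0 (by omega) (hv.lm fun p hp => hp.cupS)).lm fun p hp => hp.cap le_rfl
  refine ⟨ht, hs, fun l hl => ?_⟩
  let V : Submodule ℂ W := Finsupp.supported ℂ ℂ {p | Bd l.length p}
  have hV : ∀ v, v ∈ V ↔ Sup l.length v := fun v => by
    simp only [V, Finsupp.mem_supported', Sup, Set.mem_ofPred_eq]
    exact forall_congr' fun p => not_imp_comm
  have : Finite {p | Bd l.length p} := (finite_bd _).to_subtype
  have : Module.Finite ℂ V :=
    Module.Finite.equiv (Finsupp.supportedEquivFinsupp (M := ℂ) (R := ℂ) {p | Bd l.length p}).symm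
  let f : V →ₗ[ℂ] V := (TM l - nrm l • (1 : Module.End ℂ W)).restrict fun v hv =>
    (hV _).2 ((hs l v ((hV _).1 hv)).sub (((hV _).1 hv).smul _))
  have hf : ∀ v : V, (f v : W) = TM l v - nrm l • (v : W) := fun v => rfl
  have hn : ¬ Function.Injective f := fun h => by
    have hsurj : Function.Surjective f := LinearMap.surjective_of_injective (K := ℂ) (V := V) h
    obtain ⟨v, hv⟩ := hsurj
      ⟨Finsupp.single (o l.length) 1, (hV _).2 (sup_single (bd_o hl) 1)⟩
    have := congrArg (fun w : V => tot (w : W)) hv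
    simp only [hf, map_sub, map_smul, ht, smul_eq_mul, sub_self, tot_single] at this
    exact zero_ne_one this
  rw [injective_iff_map_eq_zero] at hn
  push Not at hn
  obtain ⟨v, h0, h1⟩ := hn
  refine ⟨v, fun e => h1 (Subtype.ext e), (hV _).1 v.2, ?_⟩
  have := hf v
  rw [h0] at this
  exact sub_eq_zero.1 this.symm

end Pool.Agent.P.MP_6c8efb_pr.One

end TMS

section YbeS

/-! Step Ybe. -/

namespace Pool.Agent.P.MP_6c8efb_pr.One

open Polynomial Filter Topology
open Arm (q ah ac Nz Gen Near LPd LP1 TC Pt TConn q_eq q_cube q_ne_zero)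

namespace YbeA

/-- moving an operator through a product -/
theorem pass {A B C X X' Y Y' : Module.End ℂ W} (h1 : A * X = X' * B) (h2 : B * Y = Y' * C) :
    A * (X * Y) = X' * Y' * C := by
  rw [← mul_assoc, h1, mul_assoc, h2, mul_assoc]

theorem lin {A E E' : Module.End ℂ W} (h : E * A = A * E') (a b : ℂ) :
    (a • 1 + b • E) * A = A * (a • 1 + b • E') := by
  simp only [add_mul, mul_add, smul_mul_assoc, mul_smul_comm, one_mul, mul_one, h]

theorem row_itw (A : Module.End ℂ W) (d : ℕ) (l : List ℂ) :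
    ∀ a, (∀ n, n < l.length → Ee (a + n + d) * A = A * Ee (a + n)) →
      row (a + d) l * A = A * row a l := by
  induction l with
  | nil => intro a _; simp [row]
  | cons x l ih =>
    intro a h
    have h1 : R (a + d) x * A = A * R a x := lin (h 0 (by simp)) _ _
    have h2 := ih (a + 1) fun n hn => by
      have := h (n + 1) (by simpa using hn)
      rwa [show a + (n + 1) = a + 1 + n by omega] at this
    rw [row, row, show a + d + 1 = a + 1 + d by omega]
    exact (pass h2.symm h1.symm).symm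

theorem row_comm (A : Module.End ℂ W) (l : List ℂ) (a : ℕ)
    (h : ∀ n, n < l.length → Ee (a + n) * A = A * Ee (a + n)) : row a l * A = A * row a l :=
  row_itw A 0 l a h

theorem ybe (i : ℕ) (x y : ℂ) :
    Rc i x y * (R (i + 1) y * R i x) = R (i + 1) x * R i y * Rc (i + 1) x y := by
  simp only [Rc, R, mul_add, add_mul, smul_mul_assoc, mul_smul_comm, smul_smul, mul_assoc, one_mul,
    mul_one, E_E, braid, braid', smul_add, ah, ac]
  match_scalars
  all_goals (have hq := q_eq; grind)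

theorem Rc_row (a : ℕ) (l₁ : List ℂ) (x y : ℂ) (l₂ : List ℂ) :
    Rc (a + l₁.length) x y * row a (l₁ ++ x :: y :: l₂) =
      row a (l₁ ++ y :: x :: l₂) * Rc (a + l₁.length + 1) x y := by
  rw [row_append, row_append, row, row, row, row, mul_assoc (row _ l₂) (R _ y),
    mul_assoc (row _ l₂) (R _ x)]
  refine pass (pass (B := Rc (a + l₁.length) x y) ?_ (ybe _ x y)) ?_
  · exact (row_comm _ _ _ fun n _ => (lin (E_comm (by omega)) _ _).symm).symm
  · exact (row_comm _ _ _ fun n hn => (lin (E_comm (by omega)).symm _ _).symm).symm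

theorem Cap_CupS (n : ℕ) : Cap (n + 1) * CupS (n + 1) = Rot (n + 1) :=
  lm_mul_eq' fun p => cap_last_cupS p

theorem Cap_CupS_Rot (n : ℕ) : Cap 0 * (CupS (n + 1) * Rot (n + 1)) = 1 := by
  rw [CupS, Rot, lm_mul]
  exact lm_mul_eq_one fun p => cap_zero_cupS_rot p

theorem term_h (l : List ℂ) :
    Rot (l.length + 1) * (Cap (l.length + 1) * (row 0 l * CupS (l.length + 1))) =
      Cap (l.length + 1) * (row 1 l * (CupS (l.length + 1) * Rot (l.length + 1))) := by
  have h1 : row 0 l * Cap (l.length + 1) = Cap (l.length + 1) * row 0 l :=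
    row_comm _ _ _ fun n hn => (Cap_E_far' (by omega)).symm
  have h2 : row (0 + 1) l * CupS (l.length + 1) = CupS (l.length + 1) * row 0 l :=
    row_itw _ 1 _ _ fun n hn => E_CupS (by omega)
  rw [zero_add] at h2
  rw [← mul_assoc (Cap _) (row 0 l), ← h1, mul_assoc, Cap_CupS, ← mul_assoc (row 1 l), h2,
    mul_assoc, ← mul_assoc (Cap _), Cap_CupS]

theorem term_c (l : List ℂ) :
    Rot (l.length + 1) * (Cap (l.length + 1) * (Ee l.length * (row 0 l * CupS (l.length + 1)))) =
      Cap (l.length + 1) * (row 1 l * (Ee 0 * (CupS (l.length + 1) * Rot (l.length + 1)))) := by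
  have h2 : row (0 + 1) l * Rot (l.length + 1 + 2) = Rot (l.length + 1 + 2) * row 0 l :=
    row_itw _ 1 _ _ fun n hn => (Rot_E (by omega)).symm
  rw [zero_add] at h2
  rw [← mul_assoc (Cap _) (Ee _), Cap_succ_E, ← mul_assoc (Rot _), ← Cap_Rot le_rfl, mul_assoc,
    ← mul_assoc (Rot _), ← h2, mul_assoc, Rot_CupS, Ee_eq, mul_assoc (Cup 0), Cap_CupS_Rot, mul_one]

end YbeA

open YbeA in
theorem p_Ybe :
    S_Ybe := by
  refine ⟨fun l₁ x y l₂ => ?_, fun x l => ?_⟩
  · have h0 := Rc_row 0 l₁ x y l₂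
    rw [zero_add] at h0
    have e : (l₁ ++ y :: x :: l₂).length = (l₁ ++ x :: y :: l₂).length := by simp
    have hL : l₁.length + 2 ≤ (l₁ ++ x :: y :: l₂).length := by simp
    rw [TM, TM, e]
    exact pass (pass (lin (Cap_E_far' hL).symm _ _) h0) (lin (E_CupS hL) _ _)
  · have e : (l ++ [x]).length = l.length + 1 := by simp
    rw [TM, TM, e, row_append, List.length_cons]
    simp only [row, R, zero_add, one_mul, mul_add, add_mul, smul_mul_assoc, mul_smul_comm,
      mul_assoc, mul_one, term_h, term_c]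

end Pool.Agent.P.MP_6c8efb_pr.One

end YbeS

section LocS

/-! Step Loc. -/

namespace Pool.Agent.P.MP_6c8efb_pr.One

open Polynomial Filter Topology
open Arm (q ah ac Nz Gen Near LPd LP1 TC Pt TConn q_eq q_cube q_ne_zero)

namespace LocA

theorem fix_smul {l : List ℂ} {v : W} (h : Fix l v) (c : ℂ) : Fix l (c • v) :=
  ⟨h.1.smul c, by rw [map_smul, h.2, smul_comm]⟩

theorem fix_sub {l : List ℂ} {v w : W} (hv : Fix l v) (hw : Fix l w) : Fix l (v - w) :=
  ⟨hv.1.sub hw.1, by rw [map_sub, hv.2, hw.2, smul_sub]⟩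

end LocA

open LocA in
theorem p_Loc (hContr : S_Contr) (hTM : S_TM) (hYbe : S_Ybe) :
    S_Loc := by
  intro L hL
  obtain ⟨ε, θ, hε, -, -, -, hC⟩ := hContr L
  have hU : ∀ l : List ℂ, l.length = L → (∀ x ∈ l, ‖x - 1‖ < ε) → ∀ v, Fix l v → tot v = 0 → v = 0 :=
    fun l hl h => (hC l hl h).2.1
  choose! v hv0 hv using hTM.ex
  have hn : ∀ l : List ℂ, (∀ x ∈ l, Near (min ε (1 / 10)) x) → ∀ x ∈ l, ‖x - 1‖ < ε :=
    fun l h x hx => (h x hx).2.1.trans_le (min_le_left _ _)
  have uq : ∀ l : List ℂ, l.length = L → (∀ x ∈ l, Near (min ε (1 / 10)) x) → ∀ a b, Fix l a →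
      Fix l b → tot a = tot b → a = b := fun l hl h a b ha hb e =>
    sub_eq_zero.1 (hU l hl (hn l h) _ (fix_sub ha hb) (by rw [map_sub, e, sub_self]))
  have fx : ∀ l : List ℂ, l.length = L → (∀ x ∈ l, Near (min ε (1 / 10)) x) →
      Fix l ((tot (v l))⁻¹ • v l) ∧ tot ((tot (v l))⁻¹ • v l) = 1 := fun l hl h =>
    ⟨fix_smul (hv l (hl ▸ hL)) _, by
      rw [map_smul, smul_eq_mul, inv_mul_cancel₀ fun e =>
        hv0 l (hl ▸ hL) (hU l hl (hn l h) _ (hv l (hl ▸ hL)) e)]⟩
  refine ⟨min ε (1 / 10), fun l => (tot (v l))⁻¹ • v l, lt_min hε (by norm_num), min_le_right _ _,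
    fx, fun l₁ x y l₂ hl h => ?_, fun x l hl h => ?_⟩
  · have pm : (l₁ ++ x :: y :: l₂).Perm (l₁ ++ y :: x :: l₂) :=
      (List.Perm.swap y x l₂).append_left l₁
    have hl' : (l₁ ++ y :: x :: l₂).length = L := pm.length_eq ▸ hl
    have h' : ∀ z ∈ l₁ ++ y :: x :: l₂, Near (min ε (1 / 10)) z := fun z hz =>
      h z (pm.symm.subset hz)
    obtain ⟨a1, a2⟩ := fx _ hl h
    obtain ⟨b1, b2⟩ := fx _ hl' h'
    refine uq _ hl' h' _ _ (fix_smul b1 _) ⟨?_, ?_⟩ ?_
    · rw [← pm.length_eq]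
      exact a1.1.Rc x y (by simp)
    · rw [← Module.End.mul_apply, ← hYbe.exch, Module.End.mul_apply, a1.2, map_smul, nrm_perm pm]
    · rw [tot_Rc, map_smul, a2, b2, smul_eq_mul]
  · have pm : (l ++ [x]).Perm (x :: l) := List.perm_append_singleton x l
    have hl' : (l ++ [x]).length = L := pm.length_eq ▸ hl
    have h' : ∀ z ∈ l ++ [x], Near (min ε (1 / 10)) z := fun z hz => h z (pm.subset hz)
    obtain ⟨a1, a2⟩ := fx _ hl h
    obtain ⟨b1, b2⟩ := fx _ hl' h'
    have e : L = l.length + 1 := hl.symm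
    refine uq _ hl h _ _ a1 ⟨?_, ?_⟩ ?_
    · rw [hl]
      exact (hl' ▸ b1.1 : Sup L _).Rot
    · rw [e, ← Module.End.mul_apply, ← hYbe.cyc, Module.End.mul_apply, b1.2, map_smul, nrm_perm pm]
    · rw [Rot, tot_lm, a2, b2]

end Pool.Agent.P.MP_6c8efb_pr.One

end LocS
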