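import Pool.Agent.P.MP_6c8efb_pr.One.Iface
import Pool.Agent.P.MP_6c8efb_pr.Arm.Cmp

section EvFarS

/-! Step EvFar. -/

namespace Pool.Agent.P.MP_6c8efb_pr.One

open Polynomial Filter Topology
open Arm (q ah ac Nz Gen Near LPd LP1 TC Pt TConn q_eq q_cube q_ne_zero)

namespace EvFarA

theorem mem_of (hCol : S_Col) {L n : ℕ} (hL : Even L) {τ : TC} (χ : ℕ → ℕ → K)
    (ht : ∀ s t : ℕ, s < L → τ (s, t) = true → χ s t = χ (s + 1) (t + 1))
    (hf : ∀ s t : ℕ, s < L → τ (s, t) = false → χ (s + 1) t = χ s (t + 1))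
    (h3 : ∀ t, χ L t = -χ 0 t) (h4 : ∀ s, χ s n = 0) :
    (fun i => if i < L then (-1) ^ i * (χ i 0 - χ (i + 1) 0) else 0) ∈ top L τ 0 n := by
  refine (hCol L τ n _ hL).2 ⟨fun i hi => if_neg (by omega),
    fun s t => (-1) ^ (s + t) * (χ s t - χ (s + 1) t),
    fun s t => (-1) ^ (s + t) * (χ s t - χ s (t + 1)),
    ⟨fun s t a _ c => ?_, fun s t a _ c => ?_, fun t _ => ?_, fun k _ => ?_⟩,
    fun i hi => (if_pos hi).symm⟩
  · rw [ht s t a c]
    constructor <;> ring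
  · rw [hf s t a c]
    constructor <;> ring
  · rw [h3, h3, pow_add, hL.neg_one_pow]
    ring
  · simp only [h4, sub_self, mul_zero]

end EvFarA

theorem p_EvFar (hCol : S_Col) :
    S_EvFar := by
  classical
  intro m n hm τ hτ
  by_contra hno
  set C : ℤ × ℤ → Prop := fun b => TConn (per (2 * m) τ) Set.univ (0, 0) b with hC
  have hin : ∀ a b : ℤ, C (a, b) → |a| < m ∧ |b| < n := fun a b h => by
    by_contra h1
    exact hno ⟨(a, b), by dsimp only; omega, h⟩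
  have hl : ∀ x y, Arm.link (per (2 * m) τ) Set.univ x y → (C x ↔ C y) := fun x y h =>
    ⟨fun h1 => h1.snoc h, fun h1 => h1.snoc h.symm⟩
  set Φ : ℤ → ℤ → K := fun a b =>
    (if C (a, b) then 1 else 0) - (if C (a - 2 * m, b) then 1 else 0) with hΦ
  have p1 : ∀ (s : ℕ) (t : ℤ), s < 2 * m → per (2 * m) τ (s, t) = τ (s, t) := fun s t hs => by
    unfold per
    rw [Int.emod_eq_of_lt (by omega) (by omega)]
  have p2 : ∀ (s : ℕ) (t : ℤ), s < 2 * m → per (2 * m) τ (s - 2 * m, t) = τ (s, t) :=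
    fun s t hs => by
      rw [← p1 s t hs]
      unfold per
      dsimp only
      push_cast
      rw [Int.sub_emod_right]
  have hT : ∀ (s : ℕ) (t : ℤ), s < 2 * m → τ (s, t) = true → Φ s t = Φ (s + 1) (t + 1) := by
    intro s t hs h
    have e1 := hl _ _ (Arm.link_iff.2 ⟨_, _, trivial,
      Or.inl ⟨(p1 s t hs).trans h, Or.inl ⟨rfl, rfl⟩⟩⟩)
    have e2 := hl _ _ (Arm.link_iff.2 ⟨_, _, trivial,
      Or.inl ⟨(p2 s t hs).trans h, Or.inl ⟨rfl, rfl⟩⟩⟩)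
    simp only [hΦ, e1, e2, show (s : ℤ) + 1 - 2 * m = s - 2 * m + 1 by ring]
  have hF : ∀ (s : ℕ) (t : ℤ), s < 2 * m → τ (s, t) = false → Φ (s + 1) t = Φ s (t + 1) := by
    intro s t hs h
    have e1 := hl _ _ (Arm.link_iff.2 ⟨_, _, trivial,
      Or.inr ⟨(p1 s t hs).trans h, Or.inl ⟨rfl, rfl⟩⟩⟩)
    have e2 := hl _ _ (Arm.link_iff.2 ⟨_, _, trivial,
      Or.inr ⟨(p2 s t hs).trans h, Or.inl ⟨rfl, rfl⟩⟩⟩)
    simp only [hΦ, e1, e2, show (s : ℤ) + 1 - 2 * m = s - 2 * m + 1 by ring]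
  have hS : ∀ t : ℤ, Φ (2 * m : ℕ) t = -Φ (0 : ℕ) t := fun t => by
    have e1 : ¬ C ((2 * m : ℕ), t) := fun h => by
      have := (hin _ _ h).1
      rw [abs_lt] at this
      omega
    have e2 : ¬ C (((0 : ℕ) : ℤ) - 2 * m, t) := fun h => by
      have := (hin _ _ h).1
      rw [abs_lt] at this
      omega
    simp only [hΦ, if_neg e1, if_neg e2]
    simp
  have hR : ∀ a b : ℤ, |b| = n → Φ a b = 0 := fun a b hb => by
    have e : ∀ a, ¬ C (a, b) := fun a h => by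
      have := (hin _ _ h).2
      omega
    simp only [hΦ, if_neg (e _), sub_self]
  have hev : Even (2 * m) := even_two_mul m
  have c1 := EvFarA.mem_of hCol (n := n) hev (τ := τ) (fun s t => Φ s t)
    (fun s t a c => by push_cast; exact hT s t a c)
    (fun s t a c => by push_cast; exact hF s t a c) (fun t => hS t)
    (fun s => hR _ _ (by simp))
  have c2 := EvFarA.mem_of hCol (n := n) hev (τ := flp τ) (fun s t => Φ s (-t))
    (fun s t a c => by
      have := hF s (-1 - t) a (by simpa [flp] using c)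
      push_cast
      rw [show -((t : ℤ) + 1) = -1 - t by ring, this]
      congr 1
      ring)
    (fun s t a c => by
      have := hT s (-1 - t) a (by simpa [flp] using c)
      push_cast
      rw [show -((t : ℤ) + 1) = -1 - t by ring, this]
      congr 1
      ring) (fun t => hS _) (fun s => hR _ _ (by simp))
  simp only [Nat.cast_zero, neg_zero] at c1 c2
  have h := hτ _ c1 c2
  rw [Finset.sum_congr rfl (g := fun i => Φ (i : ℕ) 0 - Φ (i + 1 : ℕ) 0) (fun i hi => by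
    rw [if_pos (Finset.mem_range.1 hi), ← mul_assoc, ← mul_pow]
    simp), Finset.sum_range_sub' (fun i : ℕ => Φ i 0), hS] at h
  have e1 : C (0, 0) := Relation.ReflTransGen.refl
  have e2 : ¬ C (0 - 2 * (m : ℤ), 0) := fun h => by
    have := (hin _ _ h).1
    rw [abs_lt] at this
    omega
  simp only [hΦ, Nat.cast_zero, if_pos e1, if_neg e2] at h
  exact absurd h (by decide)

end Pool.Agent.P.MP_6c8efb_pr.One

end EvFarS

section ReixS

/-! Step Reix. -/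

namespace Pool.Agent.P.MP_6c8efb_pr.One

theorem p_Reix : S_Reix := by
  intro ι A S φ hS hA hφ
  have := hS.to_subtype
  obtain ⟨σ, hσ⟩ := Equiv.Perm.exists_extending_pair (f := (Subtype.val : S → ι))
    (g := fun i : S => φ i) Subtype.val_injective fun a b e => Subtype.ext (hφ a.2 b.2 e)
  have e : {ω : ι → Bool | (fun i => ω (φ i)) ∈ A} = {ω | (fun i => ω (σ i)) ∈ A} :=
    Set.ext fun ω => hA.iff fun i hi => by rw [← hσ ⟨i, hi⟩]
  rw [e]
  exact Pr_comp_inj _ σ.injective (hA.loc hS)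

end Pool.Agent.P.MP_6c8efb_pr.One

end ReixS

section UpS

/-! Step Up. -/

namespace Pool.Agent.P.MP_6c8efb_pr.One

open Polynomial Filter Topology
open Arm (q ah ac Nz Gen Near LPd LP1 TC Pt TConn q_eq q_cube q_ne_zero)

namespace UpA

open Arm Arm.CmpA

theorem toC {τ : TC} {ω : Cfg} (hR : Rel 0 τ ω) {S : Set (ℤ × ℤ)} {x : V} {b : ℤ × ℤ}
    (h : TConn τ S (co 0 x) b) : ∃ y, b = co 0 y ∧ Conn ω Set.univ x y := by
  refine h.ind (P := fun b => ∃ y, b = co 0 y ∧ Conn ω Set.univ x y) ⟨x, rfl, Conn.rfl'⟩ ?_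
  rintro _ b - hl ⟨⟨p, q⟩, rfl, hc⟩
  obtain ⟨s, t, -, h2⟩ := link_iff.1 hl
  simp only [co, Prod.mk.injEq] at h2
  rcases h2 with ⟨h2, ⟨⟨rfl, rfl⟩, rfl⟩ | ⟨rfl, e1, e2⟩⟩ | ⟨h2, ⟨⟨e1, rfl⟩, rfl⟩ | ⟨rfl, rfl, e2⟩⟩
  · refine ⟨_, ?_, hc.snoc (d := 1) trivial trivial ((hR p q).1 ▸ h2)⟩
    simp [co, Prod.ext_iff]; omega
  · have := (hR p (q - 1)).1
    rw [show p + (q - 1) + 0 = s by omega, show q - 1 - p = t by omega, h2] at this
    refine ⟨_, ?_, hc.snoc (d := 3) trivial trivial (by simpa using this.symm)⟩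
    simp [co, Prod.ext_iff]; omega
  · have := (hR (p - 1) q).2
    rw [show p - 1 + q + 0 = s by omega, show q - (p - 1) - 1 = q - p by omega, h2] at this
    refine ⟨_, ?_, hc.snoc (d := 2) trivial trivial (by simpa using this.symm)⟩
    simp [co, Prod.ext_iff]; omega
  · have := (hR p q).2
    rw [show q - p - 1 = t by omega, h2] at this
    refine ⟨_, ?_, hc.snoc (d := 0) trivial trivial (by simpa using this.symm)⟩
    simp [co, Prod.ext_iff]; omega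

/-- the box of tiles -/
def Bx (k : ℕ) : Set (ℤ × ℤ) := {z | -(2 * k : ℤ) ≤ z.1 ∧ z.1 < 2 * k ∧ -(2 * k : ℤ) ≤ z.2 ∧ z.2 < 2 * k}

/-- the origin is joined to the boundary of the box -/
def A (k : ℕ) : Set TC :=
  {τ | ∃ a b : ℤ × ℤ, (a = (0, 0) ∧ ((2 * k : ℤ) ≤ |b.1| ∨ (2 * k : ℤ) ≤ |b.2|)) ∧ TConn τ (Bx k) a b}

theorem far_sub {k m n : ℕ} (hk : 1 ≤ k) (hm : 2 * k ≤ m) (hn : 2 * k ≤ n) :
    Far m n ⊆ {τ | per (2 * m) τ ∈ A k} := by
  rintro τ ⟨b, h1, h2⟩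
  obtain ⟨x, y, -, hy, h3, h4⟩ := h2.exit (A := {z | |z.1| < 2 * k ∧ |z.2| < 2 * k}) (S' := Bx k)
    (by simp only [Set.mem_ofPred_eq, abs_zero]; omega) (by simp only [Set.mem_ofPred_eq]; omega)
    (fun c _ e => by
      simp only [Bx, ends, Set.mem_ofPred_eq, abs_lt] at e ⊢
      split_ifs at e <;> simp only [] at e <;> omega)
  simp only [Set.mem_ofPred_eq] at hy
  exact ⟨_, y, ⟨rfl, by omega⟩, h3.snoc h4⟩

theorem inj {k m : ℕ} (hm : 2 * k ≤ m) :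
    Set.InjOn (fun c : ℤ × ℤ => (c.1 % ((2 * m : ℕ) : ℤ), c.2)) (Bx k) := by
  rintro ⟨a, b⟩ h1 ⟨c, d⟩ h2 e
  simp only [Bx, Set.mem_ofPred_eq, Prod.mk.injEq] at h1 h2 e ⊢
  refine ⟨?_, e.2⟩
  have h3 : ((2 * m : ℕ) : ℤ) ∣ a - c := (Int.ModEq.dvd e.1.symm)
  have := Int.eq_zero_of_abs_lt_dvd h3 (by rw [abs_lt]; omega)
  omega

end UpA

open UpA in
theorem p_Up (hReix : S_Reix) :
    S_Up := by
  intro k m n hk hm hn
  have hd : Dep (A k) (Bx k) := Arm.dep_tconn _ _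
  have hf' : (Bx k).Finite := Arm.rect_finite _ _ _ _
  refine (Arm.Pt_mono (far_sub hk hm hn)).trans ((hReix _ _ _ _ hf' hd (inj hm)).le.trans ?_)
  refine (Arm.CmpA.Pt_tm (hd.loc hf')).ge.trans ?_
  rw [arm, crit_real]
  refine Pr_mono ?_
  rintro ω ⟨_, b, ⟨rfl, h1⟩, h2⟩
  obtain ⟨y, rfl, h3⟩ := toC (x := 0) (Arm.CmpA.rel0 ω) h2
  refine ⟨y, ?_, h3⟩
  simp only [Arm.CmpA.co, le_abs] at h1
  rw [le_max_iff, le_abs, le_abs]
  omega

end Pool.Agent.P.MP_6c8efb_pr.One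

end UpS

section WrapES

/-! Step WrapE. -/

namespace Pool.Agent.P.MP_6c8efb_pr.One

open Polynomial Filter Topology
open Arm (q ah ac Nz Gen Near LPd LP1 TC Pt TConn q_eq q_cube q_ne_zero)

namespace WrapEA

open Arm (tm link_iff)
open Arm.CmpA (Rel co tm_even tm_odd)

theorem rel_per (m : ℕ) (ω : Cfg) : Rel 0 (per (2 * m) (tm ω)) fun e => ω (perE m e) := by
  intro x y
  have h : (x + y + 0) % ((2 * m : ℕ) : ℤ) =
      x - (x + y) / (2 * m) * m + (y - (x + y) / (2 * m) * m) := by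
    rw [add_zero, Int.emod_def]; push_cast; ring
  exact ⟨tm_even ω _ _ h (by ring), tm_odd ω _ _ h (by ring)⟩

theorem ofConn {τ : TC} {ω : Cfg} (hR : Rel 0 τ ω) {m n : ℤ} (hn : 3 * m < n) {x y : V}
    (h : Conn ω (MP_6c8efb_pr.Rc (-m) (2 * m) (-m) (2 * m)) x y) :
    TConn τ {c | -n ≤ c.2 ∧ c.2 < n} (co 0 x) (co 0 y) := by
  refine h.ind (p := fun y => TConn τ {c | -n ≤ c.2 ∧ c.2 < n} (co 0 x) (co 0 y)) .refl' ?_
  rintro ⟨p, r⟩ d - ha hb ho ih
  refine ih.snoc (link_iff.2 ?_)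
  rcases cases4 d with rfl | rfl | rfl | rfl <;> simp [MP_6c8efb_pr.Rc] at ha hb ho
  · refine ⟨p + r + 0, r - p - 1, (by omega : -n ≤ r - p - 1 ∧ r - p - 1 < n),
      Or.inr ⟨by rw [(hR p r).2, ho]; rfl, Or.inr ⟨?_, ?_⟩⟩⟩ <;> simp [co] <;> omega
  · refine ⟨p + r + 0, r - p, (by omega : -n ≤ r - p ∧ r - p < n),
      Or.inl ⟨by rw [(hR p r).1, ho], Or.inl ⟨?_, ?_⟩⟩⟩ <;> simp [co] <;> omega
  · refine ⟨p - 1 + r + 0, r - (p - 1) - 1, (by omega : -n ≤ r - (p - 1) - 1 ∧ r - (p - 1) - 1 < n),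
      Or.inr ⟨by rw [(hR (p - 1) r).2, ho]; rfl, Or.inl ⟨?_, ?_⟩⟩⟩ <;> simp [co] <;> omega
  · refine ⟨p + (r - 1) + 0, r - 1 - p, (by omega : -n ≤ r - 1 - p ∧ r - 1 - p < n),
      Or.inl ⟨by rw [(hR p (r - 1)).1, ho], Or.inr ⟨?_, ?_⟩⟩⟩ <;> simp [co] <;> omega

theorem loc_wrap {L : ℕ} (hL : 0 < L) (n : ℕ) : Loc (Wrap L n) :=
  ⟨_, Arm.rect_finite 0 L (-n) n, fun _ _ hτ h => TConn.mono h subset_rfl fun c hc =>
    hτ _ ⟨Int.emod_nonneg _ (by omega), Int.emod_lt_of_pos _ (by omega), hc⟩⟩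

end WrapEA

open WrapEA

theorem p_WrapE :
    S_WrapE := by
  intro m n hm hn
  rw [← Arm.CmpA.Pt_tm (loc_wrap (by omega) n)]
  refine Pr_mono fun ω hω => ?_
  have h := ofConn (rel_per m ω) (n := n) (by omega) hω
  rwa [show Arm.CmpA.co 0 ((m : ℤ), (m : ℤ)) = (((2 * m : ℕ) : ℤ), 0) by
    simp only [Arm.CmpA.co, Prod.mk.injEq]; omega] at h

end Pool.Agent.P.MP_6c8efb_pr.One

end WrapES

section GluePS

/-! Step GlueP. -/

namespace Pool.Agent.P.MP_6c8efb_pr.One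

open Polynomial Filter Topology
open Arm (q ah ac Nz Gen Near LPd LP1 TC Pt TConn q_eq q_cube q_ne_zero)

namespace GluePA

/-- the pull back of an event along the periodic extension -/
def pull (m : ℕ) (A : Set Cfg) : Set Cfg := {ω | (fun e => ω (perE m e)) ∈ A}

theorem pull_inter (m : ℕ) (A B : Set Cfg) : pull m (A ∩ B) = pull m A ∩ pull m B := rfl

theorem loc_pull (m : ℕ) {A : Set Cfg} (h : Loc A) : Loc (pull m A) := h.comp (perE m)

theorem up_pull (m : ℕ) {A : Set Cfg} (h : IsUpperSet A) : IsUpperSet (pull m A) :=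
  fun _ _ hω h1 => h (fun e => hω (perE m e)) h1

theorem perE_per {m : ℕ} (hm : 1 ≤ m) (e : E) :
    perE m (e.1 + ((m : ℤ), (m : ℤ)), e.2) = perE m e := by
  obtain ⟨⟨x, y⟩, b⟩ := e
  have h0 : (2 * (m : ℤ)) ≠ 0 := by omega
  have h1 : (x + m + (y + m)) / (2 * (m : ℤ)) = (x + y) / (2 * m) + 1 := by
    rw [show x + m + (y + m) = (x + y) + 1 * (2 * (m : ℤ)) by ring, Int.add_mul_ediv_right _ _ h0]
  simp only [perE, Prod.mk_add_mk, h1, Prod.mk.injEq, and_true]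
  constructor <;> ring

theorem small_mul {k m : ℤ} (hm : 0 < m) (h1 : k * m < m) (h2 : -m < k * m) : k = 0 := by
  have a1 : k < 1 := by
    by_contra h
    have : 1 * m ≤ k * m := mul_le_mul_of_nonneg_right (by omega) hm.le
    omega
  have a2 : -1 < k := by
    by_contra h
    have : k * m ≤ -1 * m := mul_le_mul_of_nonneg_right (by omega) hm.le
    omega
  omega

theorem injOn {m : ℕ} (hm : 1 ≤ m) {S : Set V}
    (hS : ∀ z ∈ S, ∀ z' ∈ S, (z.1 - z'.1 < m ∧ z'.1 - z.1 < m) ∨ (z.2 - z'.2 < m ∧ z'.2 - z.2 < m)) :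
    Set.InjOn (perE m) (In S) := by
  rintro ⟨⟨x, y⟩, b⟩ h ⟨⟨x', y'⟩, b'⟩ h' he
  have h2 := hS _ h.1 _ h'.1
  simp only [perE, Prod.mk.injEq] at he h2
  obtain ⟨⟨e1, e2⟩, e3⟩ := he
  generalize (x + y) / (2 * (m : ℤ)) = k at e1 e2
  generalize (x' + y') / (2 * (m : ℤ)) = k' at e1 e2
  have e4 : (k - k') * (m : ℤ) = k * m - k' * m := by ring
  have e5 : k - k' = 0 := small_mul (m := m) (by omega) (by omega) (by omega)
  rw [e5] at e4
  simp only [Prod.mk.injEq]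
  exact ⟨⟨by omega, by omega⟩, e3⟩

theorem Q_pull (hReix : S_Reix) {m : ℕ} (hm : 1 ≤ m) {A : Set Cfg} {S : Set V} (hf : S.Finite)
    (hA : Dep A (In S))
    (hS : ∀ z ∈ S, ∀ z' ∈ S, (z.1 - z'.1 < m ∧ z'.1 - z.1 < m) ∨ (z.2 - z'.2 < m ∧ z'.2 - z.2 < m)) :
    Q (pull m A) = Q A :=
  hReix E A (In S) (perE m) (In_finite hf) hA (injOn hm hS)

theorem hstep {m : ℕ} {A B : Set Cfg} {a c : ℝ} (hA : Loc A) (hB : Loc B) (uA : IsUpperSet A)
    (uB : IsUpperSet B) (hc : 0 ≤ c) (h1 : a ≤ Q (pull m A)) (h2 : c ≤ Q (pull m B)) :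
    a * c ≤ Q (pull m (A ∩ B)) := by
  rw [pull_inter]
  refine le_trans ?_ (harris_upper _ (loc_pull m hA) (loc_pull m hB) (up_pull m uA) (up_pull m uB))
  exact mul_le_mul h1 h2 hc (Pr_nonneg _ _)

end GluePA

open GluePA in
theorem p_GlueP (hGlueD : S_GlueD) (hReix : S_Reix) :
    S_GlueP := by
  obtain ⟨c, hc0, hc1⟩ := rsw 10
  refine ⟨c * c * c * c, by positivity, fun m hm => ?_⟩
  obtain ⟨r, r1, r2, r3⟩ : ∃ r : ℤ, 2 ≤ r ∧ 7 * r ≤ m ∧ (m : ℤ) ≤ 10 * r :=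
    ⟨(m : ℤ) / 7, by omega, by omega, by omega⟩
  have hm1 : 1 ≤ m := by omega
  have k0 : c ≤ hc (12 * r) (2 * r) := by
    have := hc1 r (by omega)
    push_cast at this
    exact this
  have k1 : ∀ w h : ℤ, 0 ≤ w → w ≤ 12 * r → 2 * r ≤ h → c ≤ hc w h :=
    fun w h a1 a2 a3 => k0.trans (hc_mono a1 a2 a3)
  have kH : ∀ a b a' b' : ℤ, a ≤ b → b - a ≤ 12 * r → b' - a' = 2 * r →
      c ≤ Q (pull m (HC a b a' b')) := by
    intro a b a' b' a1 a2 a3
    rw [Q_pull (A := HC a b a' b') hReix hm1 (Rc_finite a b a' b') (dep_conn _ _)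
      (fun z hz z' hz' => Or.inr (by simp only [mem_Rc] at hz hz'; omega)), Q_HC]
    exact k1 _ _ (by omega) a2 a3.ge
  have kV : ∀ a b a' b' : ℤ, a' ≤ b' → b' - a' ≤ 12 * r → b - a = 2 * r →
      c ≤ Q (pull m (VC a b a' b')) := by
    intro a b a' b' a1 a2 a3
    rw [Q_pull (A := VC a b a' b') hReix hm1 (Rc_finite a b a' b') (dep_conn _ _)
      (fun z hz z' hz' => Or.inl (by simp only [mem_Rc] at hz hz'; omega)), Q_VC]
    exact k1 _ _ (by omega) a2 a3.ge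
  have h3 : (0 : ℤ) ≤ 3 * r := by omega
  have kA : arm Set.univ m ≤ Q (pull m (AG 0 Set.univ (3 * r))) := by
    rw [Q_pull hReix hm1 (ball_finite 0 Set.univ (3 * r)) (dep_AG _ _ h3)
      (fun z hz z' hz' => Or.inl (by
        have b1 := hz.2
        have b2 := hz'.2
        simp only [nm, abs_eq_max_neg, Set.mem_ofPred_eq, Prod.fst_zero, Prod.snd_zero] at b1 b2
        omega)), arm_eq]
    exact AG_anti (by omega)
  have lA := loc_AG 0 Set.univ h3
  have uA := up_AG 0 Set.univ (3 * r)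
  have s1 := hstep lA (loc_HC ..) uA (up_HC ..) hc0.le kA
    (kH (-3 * r) (m - r) r (3 * r) (by omega) (by omega) (by omega))
  have s2 := hstep (lA.inter (loc_HC ..)) (loc_HC ..) (uA.inter (up_HC ..)) (up_HC ..) hc0.le s1
    (kH (-3 * r) (3 * r) (-3 * r) (-r) (by omega) (by omega) (by omega))
  have s3 := hstep ((lA.inter (loc_HC ..)).inter (loc_HC ..)) (loc_VC ..)
    ((uA.inter (up_HC ..)).inter (up_HC ..)) (up_VC ..) hc0.le s2
    (kV (-3 * r) (-r) (r - m) (3 * r) (by omega) (by omega) (by omega))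
  have s4 := hstep (((lA.inter (loc_HC ..)).inter (loc_HC ..)).inter (loc_VC ..)) (loc_VC ..)
    (((uA.inter (up_HC ..)).inter (up_HC ..)).inter (up_VC ..)) (up_VC ..) hc0.le s3
    (kV r (3 * r) (-3 * r) (3 * r) (by omega) (by omega) (by omega))
  have hsub : pull m (GE m r) ⊆ WrapE m := fun ω hω =>
    hGlueD m r (fun e => ω (perE m e)) (by omega) (by omega)
      (fun e => by rw [perE_per hm1]) hω
  calc c * c * c * c * arm Set.univ m = arm Set.univ m * c * c * c * c := by ring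
    _ ≤ Q (pull m (GE m r)) := s4
    _ ≤ Q (WrapE m) := Pr_mono hsub

end Pool.Agent.P.MP_6c8efb_pr.One

end GluePS

section FinS

/-! Step Fin. -/

namespace Pool.Agent.P.MP_6c8efb_pr.One

open Polynomial Filter Topology
open Arm (q ah ac Nz Gen Near LPd LP1 TC Pt TConn q_eq q_cube q_ne_zero Pt_mono Pt_nonneg)

theorem p_Fin (hSol : S_Sol) (hRatio : S_Ratio) (hAsym : S_Asym) (hLaw : S_Law) (hLim : S_Lim)
    (hWrapEv : S_WrapEv) (hEvFar : S_EvFar) (hUp : S_Up) (hWrapE : S_WrapE) (hGlueP : S_GlueP) :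
    S_Fin := by
  obtain ⟨F, hF⟩ := hSol
  obtain ⟨c, C, hc, hA⟩ := hAsym
  obtain ⟨g, hg, hG⟩ := hGlueP
  have lim : ∀ m : ℕ, Tendsto (fun n => Pt (EvN (2 * m) n)) atTop (𝓝 ‖PP F (2 * m)‖) := fun m => by
    refine (hLim F hF (2 * m) (even_two_mul m)).norm.congr fun n => ?_
    rw [← (hLaw _ n).2, Complex.norm_real, Real.norm_of_nonneg (Pt_nonneg _)]
  have hP : ∀ m : ℕ, 1 ≤ m → c ≤ (m : ℝ) ^ (5 / 48 : ℝ) * ‖PP F (2 * m)‖ ∧
      (m : ℝ) ^ (5 / 48 : ℝ) * ‖PP F (2 * m)‖ ≤ C := fun m hm => by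
    rw [hRatio F hF _ (even_two_mul m)]; exact hA m hm
  refine ⟨c / 2, max (C / g) 14, by positivity, fun n hn => ⟨?_, ?_⟩⟩
  · have h1 : ‖PP F (2 * (2 * n))‖ ≤ arm Set.univ n :=
      le_of_tendsto (lim (2 * n)) ((eventually_ge_atTop (2 * n)).mono fun k hk =>
        (Pt_mono (hEvFar (2 * n) k (by omega))).trans (hUp n (2 * n) k hn le_rfl hk))
    have h2 := (hP (2 * n) (by omega)).1
    have h3 : ((2 * n : ℕ) : ℝ) ^ (5 / 48 : ℝ) ≤ 2 * (n : ℝ) ^ (5 / 48 : ℝ) := by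
      push_cast
      rw [Real.mul_rpow (by norm_num) (by positivity)]
      refine mul_le_mul_of_nonneg_right ?_ (by positivity)
      simpa using Real.rpow_le_rpow_of_exponent_le (by norm_num : (1 : ℝ) ≤ 2)
        (by norm_num : (5 / 48 : ℝ) ≤ 1)
    have h4 := mul_le_mul h3 h1 (norm_nonneg _) (by positivity)
    linarith
  · rcases le_total 14 n with h | h
    · have h1 : g * arm Set.univ n ≤ ‖PP F (2 * n)‖ :=
        ge_of_tendsto (lim n) ((eventually_ge_atTop (4 * n)).mono fun k hk =>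
          ((hG n h).trans (hWrapE n k hn hk)).trans (Pt_mono (hWrapEv _ k (even_two_mul n))))
      refine le_trans ?_ (le_max_left _ _)
      rw [le_div_iff₀ hg]
      have h2 := mul_le_mul_of_nonneg_left h1 (by positivity : 0 ≤ (n : ℝ) ^ (5 / 48 : ℝ))
      linarith [(hP n hn).2]
    · refine le_trans ?_ (le_max_right _ _)
      have h1 : (n : ℝ) ^ (5 / 48 : ℝ) ≤ n := by
        simpa using Real.rpow_le_rpow_of_exponent_le (by exact_mod_cast hn : (1 : ℝ) ≤ n)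
          (by norm_num : (5 / 48 : ℝ) ≤ 1)
      have h2 : (n : ℝ) ≤ 14 := by exact_mod_cast h
      calc _ ≤ (14 : ℝ) * 1 :=
            mul_le_mul (h1.trans h2) (arm_le_one _ _) (arm_nonneg _ _) (by norm_num)
        _ = 14 := mul_one _

end Pool.Agent.P.MP_6c8efb_pr.One

end FinS
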