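import Pool.Agent.P.MP_6c8efb_pr.One.Iface

section PrefS

/-! Step Pref. -/

namespace Pool.Agent.P.MP_6c8efb_pr.One

open Polynomial Filter Topology
open Arm (q ah ac Nz Gen Near LPd LP1 TC Pt TConn q_eq q_cube q_ne_zero)

namespace PrefA

theorem qq_ne {x y : ℂ} (hx : Near (1 / 10) x) (hy : Near (1 / 10) y) : q ^ 2 * x - y ≠ 0 := by
  intro h
  have e : (3 : ℂ) = (q - 1) * ((y - 1) - q ^ 2 * (x - 1)) := by
    linear_combination (q - 1) * h + (-(q - 2)) * q_eq
  have h1 : ‖q - 1‖ ≤ 2 := by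
    have := norm_sub_le q 1
    rw [Arm.norm_q, norm_one] at this
    linarith
  have h2 : ‖(y - 1) - q ^ 2 * (x - 1)‖ ≤ 1 := by
    have := norm_sub_le (y - 1) (q ^ 2 * (x - 1))
    rw [norm_mul, norm_pow, Arm.norm_q] at this
    have := hx.2.1
    have := hy.2.1
    linarith
  have h3 := congrArg norm e
  rw [norm_mul] at h3
  have h4 := mul_le_mul h1 h2 (norm_nonneg _) (by norm_num)
  rw [← h3] at h4
  norm_num at h4

theorem append (l l' : List ℂ) : Pref (l ++ l') =
    Pref l * Pref l' * (l.map fun x => (l'.map fun y => q ^ 2 * x - y).prod).prod := by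
  induction l with
  | nil => simp [Pref]
  | cons a l ih =>
    simp only [List.cons_append, Pref, List.map_append, List.prod_append, List.map_cons,
      List.prod_cons, ih]
    ring

theorem two (x : List ℂ) (s t : ℂ) : Pref (x ++ [s, t]) =
    Pref x * (q ^ 2 * s - t) * (x.map fun y => (q ^ 2 * y - s) * (q ^ 2 * y - t)).prod := by
  simp [append, Pref]

theorem scale {u : ℂ} (hu : u ≠ 0) (x : List ℂ) :
    (x.map fun y => (q ^ 2 * y - u) * (q ^ 2 * y - u ^ 2)).prod = u ^ (3 * x.length) *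
      (x.map fun y => (q ^ 2 * y * u⁻¹ - 1) * (q ^ 2 * y * u⁻¹ ^ 2 - 1)).prod := by
  induction x with
  | nil => simp
  | cons a l ih =>
    simp only [List.map_cons, List.prod_cons, ih, List.length_cons, mul_add, pow_add]
    field_simp
    ring

theorem sq (x : List ℂ) : (x.map fun y => (q ^ 2 * y - 0) * (q ^ 2 * y - 0 ^ 2)).prod =
    q ^ x.length * x.prod ^ 2 := by
  induction x with
  | nil => simp
  | cons a l ih =>
    simp only [List.map_cons, List.prod_cons, ih, List.length_cons, pow_succ q l.length]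
    linear_combination (q * a ^ 2 * q ^ l.length * l.prod ^ 2) * q_cube

theorem inv0 : Tendsto (fun u : ℝ => (u : ℂ)⁻¹) atTop (𝓝 0) := by
  have := (Complex.continuous_ofReal.tendsto 0).comp tendsto_inv_atTop_zero
  simpa [Function.comp_def] using this

end PrefA

open PrefA in
theorem p_Pref :
    S_Pref := by
  refine ⟨fun l₁ x y l₂ => ?_, append, fun l hl => ?_, fun b x _ => ?_⟩
  · induction l₁ with
    | nil => simp only [List.nil_append, Pref, List.map_cons, List.prod_cons]; ring
    | cons a l ih =>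
      simp only [List.cons_append, Pref, List.map_append, List.prod_append, List.map_cons,
        List.prod_cons]
      linear_combination ((l.map fun z => q ^ 2 * a - z).prod * (q ^ 2 * a - x) * (q ^ 2 * a - y) *
        (l₂.map fun z => q ^ 2 * a - z).prod) * ih
  · induction l with
    | nil => simp [Pref]
    | cons a l ih =>
      refine mul_ne_zero (List.prod_ne_zero fun h => ?_) (ih fun x hx => hl x (by simp [hx]))
      obtain ⟨y, hy, e⟩ := List.mem_map.1 h
      exact qq_ne (hl a (by simp)) (hl y (by simp [hy])) e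
  · have hu : ∀ᶠ u : ℝ in atTop, (u : ℂ) ≠ 0 :=
      (eventually_ne_atTop 0).mono fun u h => Complex.ofReal_ne_zero.2 h
    cases b
    · have c : Continuous fun w : ℂ => Pref x * (q ^ 2 - w) *
          (x.map fun y => (q ^ 2 * y - w) * (q ^ 2 * y - w ^ 2)).prod :=
        (continuous_const.mul (by fun_prop)).mul (continuous_list_prod _ fun _ _ => by fun_prop)
      have h := (c.tendsto 0).comp inv0
      rw [sq] at h
      refine (h.congr' (hu.mono fun u hu => ?_)).trans_eq ?_
      · simp only [nu, sc, two, Bool.false_eq_true, if_false, Function.comp]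
        generalize (List.prod _ : ℂ) = A
        field_simp
      · simp only [ov, PR, Bool.false_eq_true, if_false]; congr 1; ring
    · have c : Continuous fun w : ℂ => Pref x * (q ^ 2 * w - 1) *
          (x.map fun y => (q ^ 2 * y * w - 1) * (q ^ 2 * y * w ^ 2 - 1)).prod :=
        (continuous_const.mul (by fun_prop)).mul (continuous_list_prod _ fun _ _ => by fun_prop)
      have h := (c.tendsto 0).comp inv0
      refine (h.congr' (hu.mono fun u hu => ?_)).trans_eq ?_
      · simp only [nu, sc, two, if_true, Function.comp, scale hu]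
        generalize (List.prod _ : ℂ) = A
        field_simp
        ring
      · simp [ov]

end Pool.Agent.P.MP_6c8efb_pr.One

end PrefS

section PmemS

/-! Step Pmem. -/

namespace Pool.Agent.P.MP_6c8efb_pr.One

open Polynomial Filter Topology
open Arm (q ah ac Nz Gen Near LPd LP1 TC Pt TConn q_eq q_cube q_ne_zero)

namespace PmemA

/-- combinations of the monomials with exponents in `A`, on the lists of length `L` -/
inductive In (L : ℕ) (A : List ℕ → Prop) : (List ℂ → ℂ) → Prop
  | mono (n : List ℕ) : n.length = L → A n → In L A (mono n)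
  | add {f g : List ℂ → ℂ} : In L A f → In L A g → In L A fun l => f l + g l
  | smul (c : ℂ) {f : List ℂ → ℂ} : In L A f → In L A fun l => c * f l
  | congr {f g : List ℂ → ℂ} : In L A f → (∀ l, l.length = L → f l = g l) → In L A g

theorem In.mul_comp {L L' : ℕ} {A A' : List ℕ → Prop} (c : List ℂ → ℂ) (τ : List ℂ → List ℂ)
    (hτ : ∀ l, l.length = L' → (τ l).length = L)
    (h : ∀ n, n.length = L → A n → In L' A' fun l => c l * One.mono n (τ l)) {f : List ℂ → ℂ}
    (hf : In L A f) : In L' A' fun l => c l * f (τ l) := by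
  induction hf with
  | mono n h1 h2 => exact h n h1 h2
  | add _ _ h1 h2 => exact (h1.add h2).congr fun l _ => by ring
  | smul a _ h1 => exact (h1.smul a).congr fun l _ => by ring
  | congr _ e h1 => exact h1.congr fun l hl => by rw [e _ (hτ l hl)]

theorem mono_cons (k : ℕ) (n : List ℕ) (x : ℂ) (l : List ℂ) :
    mono (k :: n) (x :: l) = x ^ k * mono n l := by simp [mono]

theorem mono_add : ∀ (e n : List ℕ) (l : List ℂ), e.length = n.length →
    mono (List.zipWith (· + ·) e n) l = mono e l * mono n l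
  | [], [], _, _ => by simp [mono]
  | _ :: _, _ :: _, [], _ => by simp [mono]
  | a :: e, b :: n, x :: l, h => by
    rw [List.zipWith_cons_cons, mono_cons, mono_cons, mono_cons, mono_add e n l (by simpa using h)]
    ring

/-- the exponents of the product of the linear factors -/
def A1 (n : List ℕ) : Prop := (∀ a ∈ n.tail, a ≤ 1) ∧ n.headI = n.tail.count 0

/-- the admissible exponents -/
def Adm (L : ℕ) (n : List ℕ) : Prop :=
  (∀ k ∈ n, k + 1 ≤ L) ∧ n.Pairwise fun a b => 1 ≤ a + b ∧ a + b + 3 ≤ 2 * L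

theorem in_prod : ∀ L, In (L + 1) A1 fun l => (l.tail.map fun y => q ^ 2 * l.headI - y).prod
  | 0 => (In.mono [0] rfl (by simp [A1])).congr fun l hl => by
      match l, hl with
      | [x], _ => simp [mono]
  | L + 1 => by
    refine (In.mul_comp (fun l => q ^ 2 * l.headI - l.tail.headI) (fun l => l.headI :: l.tail.tail)
      (fun l hl => by simp [hl]) (fun n h1 h2 => ?_) (in_prod L)).congr fun l hl => ?_
    · match n, h1, h2 with
      | k :: e, h1, h2 =>
        have h3 : k = e.count 0 := h2.2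
        have h4 : A1 ((k + 1) :: 0 :: e) := ⟨by simpa using h2.1, by simp [h3]⟩
        have h5 : A1 (k :: 1 :: e) := ⟨by simpa using h2.1, by simp [h3]⟩
        refine (((In.mono _ (by simpa using h1) h4).smul (q ^ 2)).add
          ((In.mono _ (by simpa using h1) h5).smul (-1))).congr fun l hl => ?_
        match l, hl with
        | x :: y :: l, _ =>
          simp only [mono_cons, List.headI_cons, List.tail_cons]
          ring
    · match l, hl with
      | x :: y :: l, _ => simp

theorem adm_step {L : ℕ} {e n : List ℕ} (he : e.length = L) (hn : n.length = L)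
    (h1 : ∀ a ∈ e, a ≤ 1) (h2 : Adm L n) :
    Adm (L + 1) (e.count 0 :: List.zipWith (· + ·) e n) := by
  have hc : e.count 0 ≤ L := he ▸ List.count_le_length
  have key : ∀ b ∈ List.zipWith (· + ·) e n, ∃ a ∈ e, ∃ c ∈ n, b = a + c := fun b hb => by
    obtain ⟨i, hi, rfl⟩ := List.getElem_of_mem hb
    rw [List.getElem_zipWith]
    exact ⟨_, List.getElem_mem _, _, List.getElem_mem _, rfl⟩
  refine ⟨fun b hb => ?_, List.pairwise_cons.2 ⟨fun b hb => ?_, ?_⟩⟩
  · rcases List.mem_cons.1 hb with rfl | hb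
    · omega
    · obtain ⟨a, ha, c, hc, rfl⟩ := key b hb
      have := h1 a ha
      have := h2.1 c hc
      omega
  · obtain ⟨a, ha, c, hc, rfl⟩ := key b hb
    have := h1 a ha
    have := h2.1 c hc
    rcases Nat.eq_zero_or_pos a with rfl | h0
    · have := List.count_pos_iff.2 ha
      omega
    · have : e.count 0 ≠ e.length := fun h => by
        have := List.count_eq_length.1 h a ha
        omega
      omega
  · refine List.pairwise_iff_getElem.2 fun i j hi hj hij => ?_
    simp only [List.length_zipWith, lt_min_iff] at hi hj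
    have := List.pairwise_iff_getElem.1 h2.2 i j hi.2 hj.2 hij
    have := h1 _ (List.getElem_mem hi.1)
    have := h1 _ (List.getElem_mem hj.1)
    simp only [List.getElem_zipWith]
    omega

theorem in_pref : ∀ L, In L (Adm L) Pref
  | 0 => (In.mono [] rfl (by simp [Adm])).congr fun l hl => by
      match l, hl with
      | [], _ => simp [mono, Pref]
  | L + 1 => by
    refine (In.mul_comp (fun l => (l.tail.map fun y => q ^ 2 * l.headI - y).prod) List.tail
      (fun l hl => by simp [hl]) (fun n h1 h2 => ?_) (in_pref L)).congr fun l hl => ?_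
    · refine (In.mul_comp (fun l => mono n l.tail) id (fun l hl => hl) (fun m h3 h4 => ?_)
        (in_prod L)).congr fun l _ => mul_comm _ _
      match m, h3, h4 with
      | k :: e, h3, h4 =>
        obtain rfl : k = e.count 0 := h4.2
        have he : e.length = L := by simpa using h3
        refine (In.mono _ (by simp [he, h1]) (adm_step he h1 h4.1 h2)).congr fun l hl => ?_
        match l, hl with
        | x :: l, _ =>
          simp only [mono_cons, List.tail_cons, id, mono_add e n l (he.trans h1.symm)]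
          ring
    · match l, hl with
      | x :: l, _ => rfl

theorem In.mem {L : ℕ} {F : List ℂ → ℂ} (h : In L (Adm L) F) :
    ∃ f ∈ LPs L, ∀ l, l.length = L → f l = F l := by
  induction h with
  | mono n h1 h2 => exact ⟨_, Submodule.subset_span ⟨n, h1, h2.1, h2.2, rfl⟩, fun _ _ => rfl⟩
  | add _ _ h1 h2 =>
    obtain ⟨f, hf, e⟩ := h1
    obtain ⟨g, hg, e'⟩ := h2
    exact ⟨f + g, add_mem hf hg, fun l hl => by rw [Pi.add_apply, e l hl, e' l hl]⟩
  | smul c _ h1 =>
    obtain ⟨f, hf, e⟩ := h1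
    exact ⟨c • f, Submodule.smul_mem _ c hf, fun l hl => by rw [Pi.smul_apply, e l hl, smul_eq_mul]⟩
  | congr _ e' h1 =>
    obtain ⟨f, hf, e⟩ := h1
    exact ⟨f, hf, fun l hl => (e l hl).trans (e' l hl)⟩

end PmemA

theorem p_Pmem :
    S_Pmem := fun L => (PmemA.in_pref L).mem

end Pool.Agent.P.MP_6c8efb_pr.One

end PmemS

section DdS

/-! Step Dd. -/

namespace Pool.Agent.P.MP_6c8efb_pr.One

open Polynomial Filter Topology
open Arm (q ah ac Nz Gen Near LPd LP1 TC Pt TConn q_eq q_cube q_ne_zero)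

namespace DdA

theorem mono_append {n₁ n₂ : List ℕ} {l₁ l₂ : List ℂ} (h : n₁.length = l₁.length) :
    mono (n₁ ++ n₂) (l₁ ++ l₂) = mono n₁ l₁ * mono n₂ l₂ := by
  simp only [mono]
  rw [List.zipWith_append h, List.prod_append]

theorem mono_cons (a : ℕ) (n : List ℕ) (x : ℂ) (l : List ℂ) :
    mono (a :: n) (x :: l) = x ^ a * mono n l := by
  simp [mono]

theorem mono_nil : mono [] [] = 1 := by simp [mono]

/-- admissible exponent lists -/
def Adm (L : ℕ) (n : List ℕ) : Prop :=
  n.length = L ∧ (∀ k ∈ n, k + 1 ≤ L) ∧ n.Pairwise fun a b => 1 ≤ a + b ∧ a + b + 3 ≤ 2 * L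

theorem mono_mem {L : ℕ} {n : List ℕ} (h : Adm L n) : mono n ∈ LPs L :=
  Submodule.subset_span ⟨n, h.1, h.2.1, h.2.2, rfl⟩

theorem split1 (n : List ℕ) (i : ℕ) (h : i + 1 ≤ n.length) :
    ∃ n₁ a n₂, n = n₁ ++ a :: n₂ ∧ n₁.length = i := by
  refine ⟨n.take i, n[i], n.drop (i + 1), ?_, by simp; omega⟩
  rw [← List.drop_eq_getElem_cons (by omega), List.take_append_drop]

theorem split2 (n : List ℕ) (i : ℕ) (h : i + 2 ≤ n.length) :
    ∃ n₁ a b n₂, n = n₁ ++ a :: b :: n₂ ∧ n₁.length = i := by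
  obtain ⟨n₁, a, n₂, rfl, h1⟩ := split1 n i (by omega)
  cases n₂ with
  | nil => simp at h; omega
  | cons b n₂ => exact ⟨n₁, a, b, n₂, rfl, h1⟩

/-- exponents between `a` and `b` with the same sum -/
def Btw (a b c d : ℕ) : Prop :=
  (a ≤ c ∨ b ≤ c) ∧ (c ≤ a ∨ c ≤ b) ∧ (a ≤ d ∨ b ≤ d) ∧ (d ≤ a ∨ d ≤ b) ∧ c + d = a + b

/-- two-variable polynomials with exponents between `a` and `b` -/
def S2 (a b : ℕ) : Submodule ℂ (ℂ → ℂ → ℂ) :=
  Submodule.span ℂ {h | ∃ c d : ℕ, Btw a b c d ∧ h = fun x y => x ^ c * y ^ d}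

theorem S2_comm (a b : ℕ) : S2 a b ≤ S2 b a :=
  Submodule.span_mono fun _ ⟨c, d, h, e⟩ => ⟨c, d, by unfold Btw at *; omega, e⟩

theorem Adm.swap {L a b c d : ℕ} {n₁ n₂ : List ℕ} (h : Adm L (n₁ ++ a :: b :: n₂))
    (hb : Btw a b c d) : Adm L (n₁ ++ c :: d :: n₂) := by
  obtain ⟨h1, h2, h3⟩ := h
  unfold Btw at hb
  have ha' := h2 a (by simp)
  have hb' := h2 b (by simp)
  refine ⟨by simpa using h1, fun k hk => ?_, ?_⟩
  · simp only [List.mem_append, List.mem_cons] at hk
    rcases hk with hk | rfl | rfl | hk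
    · exact h2 k (by simp [hk])
    · omega
    · omega
    · exact h2 k (by simp [hk])
  · rw [List.pairwise_append, List.pairwise_cons, List.pairwise_cons] at h3 ⊢
    obtain ⟨p1, ⟨p2, p3, p4⟩, p5⟩ := h3
    refine ⟨p1, ⟨fun k hk => ?_, fun k hk => ?_, p4⟩, fun k hk m hm => ?_⟩
    · rcases List.mem_cons.1 hk with rfl | hk
      · have := p2 b (by simp)
        omega
      · have := p2 k (by simp [hk])
        have := p3 k hk
        omega
    · have := p2 k (by simp [hk])
      have := p3 k hk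
      omega
    · have e1 := p5 k hk a (by simp)
      have e2 := p5 k hk b (by simp)
      simp only [List.mem_cons] at hm
      rcases hm with rfl | rfl | hm
      · omega
      · omega
      · exact p5 k hk m (by simp [hm])

theorem key2_ge (b k : ℕ) :
    ∃ h ∈ S2 (b + k) b, ∀ x y : ℂ,
      (q ^ 2 * x - y) * (y ^ (b + k) * x ^ b - x ^ (b + k) * y ^ b) = (x - y) * h x y := by
  set U : ℕ → ℂ → ℂ → ℂ := fun r x y => x ^ (b + r) * y ^ (b + (k - r)) with hU
  have mem : ∀ r, r ≤ k → U r ∈ S2 (b + k) b := fun r hr =>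
    Submodule.subset_span ⟨b + r, b + (k - r), by unfold Btw; omega, rfl⟩
  refine ⟨-∑ r ∈ Finset.range k, (q ^ 2 • U (r + 1) - U r), ?_, fun x y => ?_⟩
  · refine Submodule.neg_mem _ (Submodule.sum_mem _ fun r hr => ?_)
    have := Finset.mem_range.1 hr
    exact Submodule.sub_mem _ (Submodule.smul_mem _ _ (mem _ (by omega))) (mem _ (by omega))
  · set w : ℕ → ℂ := fun r => x ^ (b + r) * y ^ (b + (k - (r + 1))) with hw
    have e1 : ∀ r : ℕ, U (r + 1) x y = x * w r := fun r => by
      simp only [hU, hw]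
      rw [← Nat.add_assoc, pow_succ]
      ring
    have e2 : ∀ r : ℕ, r < k → U r x y = y * w r := fun r hr => by
      simp only [hU, hw]
      rw [show b + (k - r) = b + (k - (r + 1)) + 1 by omega, pow_succ]
      ring
    have tel := Finset.sum_range_sub (fun r => U r x y) k
    have s1 : ∑ r ∈ Finset.range k, (U (r + 1) x y - U r x y) =
        (x - y) * ∑ r ∈ Finset.range k, w r := by
      rw [Finset.mul_sum]
      exact Finset.sum_congr rfl fun r hr => by rw [e1 r, e2 r (Finset.mem_range.1 hr)]; ring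
    have s2 : (-∑ r ∈ Finset.range k, (q ^ 2 • U (r + 1) - U r)) x y =
        -((q ^ 2 * x - y) * ∑ r ∈ Finset.range k, w r) := by
      rw [Finset.mul_sum]
      simp only [Pi.neg_apply, Finset.sum_apply, Pi.sub_apply, Pi.smul_apply, smul_eq_mul]
      congr 1
      exact Finset.sum_congr rfl fun r hr => by rw [e1 r, e2 r (Finset.mem_range.1 hr)]; ring
    have uk : U k x y = x ^ (b + k) * y ^ b := by simp [hU]
    have u0 : U 0 x y = y ^ (b + k) * x ^ b := by simp [hU, mul_comm]
    rw [s1, uk, u0] at tel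
    rw [s2]
    linear_combination (q ^ 2 * x - y) * tel

theorem key2 (a b : ℕ) :
    ∃ h ∈ S2 a b, ∀ x y : ℂ,
      (q ^ 2 * x - y) * (y ^ a * x ^ b - x ^ a * y ^ b) = (x - y) * h x y := by
  rcases le_total b a with h | h
  · obtain ⟨k, rfl⟩ := Nat.exists_eq_add_of_le h
    exact key2_ge b k
  · obtain ⟨k, rfl⟩ := Nat.exists_eq_add_of_le h
    obtain ⟨h, h1, h2⟩ := key2_ge a k
    refine ⟨-h, Submodule.neg_mem _ (S2_comm _ _ h1), fun x y => ?_⟩
    simp only [Pi.neg_apply]
    linear_combination -h2 x y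

theorem lift2 {L a b : ℕ} {n₁ n₂ : List ℕ} (hA : Adm L (n₁ ++ a :: b :: n₂))
    {h : ℂ → ℂ → ℂ} (hh : h ∈ S2 a b) :
    ∃ g ∈ LPs L, ∀ l₁ x y l₂, l₁.length = n₁.length →
      g (l₁ ++ x :: y :: l₂) = mono n₁ l₁ * h x y * mono n₂ l₂ := by
  induction hh using Submodule.span_induction with
  | mem h hm =>
    obtain ⟨c, d, hb, rfl⟩ := hm
    refine ⟨mono (n₁ ++ c :: d :: n₂), mono_mem (hA.swap hb), fun l₁ x y l₂ hl => ?_⟩
    rw [mono_append hl.symm, mono_cons, mono_cons]; ring
  | zero => exact ⟨0, Submodule.zero_mem _, fun _ _ _ _ _ => by simp⟩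
  | add u v _ _ hu hv =>
    obtain ⟨g, g1, g2⟩ := hu
    obtain ⟨g', g3, g4⟩ := hv
    refine ⟨g + g', Submodule.add_mem _ g1 g3, fun l₁ x y l₂ hl => ?_⟩
    simp only [Pi.add_apply]
    rw [g2 _ _ _ _ hl, g4 _ _ _ _ hl]; ring
  | smul c u _ hu =>
    obtain ⟨g, g1, g2⟩ := hu
    refine ⟨c • g, Submodule.smul_mem _ _ g1, fun l₁ x y l₂ hl => ?_⟩
    simp only [Pi.smul_apply, smul_eq_mul]
    rw [g2 _ _ _ _ hl]; ring

theorem bulk (L : ℕ) (f : List ℂ → ℂ) (hf : f ∈ LPs L) (i : ℕ) (hi : i + 2 ≤ L) :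
    ∃ g ∈ LPs L, ∀ l₁ x y l₂, l₁.length = i → (l₁ ++ x :: y :: l₂).length = L →
    (q ^ 2 * x - y) * (f (l₁ ++ y :: x :: l₂) - f (l₁ ++ x :: y :: l₂)) =
      (x - y) * g (l₁ ++ x :: y :: l₂) := by
  induction hf using Submodule.span_induction with
  | mem f hm =>
    obtain ⟨n, hn, hd, hp, rfl⟩ := hm
    obtain ⟨n₁, a, b, n₂, rfl, h1⟩ := split2 n i (by omega)
    obtain ⟨h, hh, e⟩ := key2 a b
    obtain ⟨g, g1, g2⟩ := lift2 (L := L) ⟨hn, hd, hp⟩ hh
    refine ⟨g, g1, fun l₁ x y l₂ hl _ => ?_⟩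
    have hl' : l₁.length = n₁.length := by omega
    rw [g2 _ _ _ _ hl', mono_append hl'.symm, mono_append hl'.symm, mono_cons, mono_cons,
      mono_cons, mono_cons]
    linear_combination mono n₁ l₁ * mono n₂ l₂ * e x y
  | zero => exact ⟨0, Submodule.zero_mem _, fun _ _ _ _ _ _ => by simp⟩
  | add u v _ _ hu hv =>
    obtain ⟨g, g1, g2⟩ := hu
    obtain ⟨g', g3, g4⟩ := hv
    refine ⟨g + g', Submodule.add_mem _ g1 g3, fun l₁ x y l₂ hl hL => ?_⟩
    simp only [Pi.add_apply]
    linear_combination g2 _ _ _ _ hl hL + g4 _ _ _ _ hl hL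
  | smul c u _ hu =>
    obtain ⟨g, g1, g2⟩ := hu
    refine ⟨c • g, Submodule.smul_mem _ _ g1, fun l₁ x y l₂ hl hL => ?_⟩
    simp only [Pi.smul_apply, smul_eq_mul]
    linear_combination c * g2 _ _ _ _ hl hL

theorem cyc (L : ℕ) (f : List ℂ → ℂ) (hf : f ∈ LPs L) :
    ∃ g ∈ LPs L, ∀ x l, (x :: l).length = L → g (x :: l) = f (l ++ [x]) := by
  induction hf using Submodule.span_induction with
  | mem f hm =>
    obtain ⟨n, hn, hd, hp, rfl⟩ := hm
    rcases List.eq_nil_or_concat n with rfl | ⟨n', k, rfl⟩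
    · exact ⟨0, Submodule.zero_mem _, fun x l hl => by simp at hn hl; omega⟩
    · rw [List.concat_eq_append] at hn hd hp ⊢
      refine ⟨mono (k :: n'), mono_mem ⟨by simpa using hn, fun m hm => hd m ?_, ?_⟩,
        fun x l hl => ?_⟩
      · simpa [or_comm] using hm
      · rw [List.pairwise_append] at hp
        refine List.pairwise_cons.2 ⟨fun m hm => ?_, hp.1⟩
        have := hp.2.2 m hm k (by simp)
        omega
      · have e : n'.length = l.length := by simp at hn hl; omega
        rw [mono_append e, mono_cons, mono_cons, mono_nil]; ring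
  | zero => exact ⟨0, Submodule.zero_mem _, fun _ _ _ => by simp⟩
  | add u v _ _ hu hv =>
    obtain ⟨g, g1, g2⟩ := hu
    obtain ⟨g', g3, g4⟩ := hv
    refine ⟨g + g', Submodule.add_mem _ g1 g3, fun x l hl => ?_⟩
    simp only [Pi.add_apply]
    rw [g2 _ _ hl, g4 _ _ hl]
  | smul c u _ hu =>
    obtain ⟨g, g1, g2⟩ := hu
    refine ⟨c • g, Submodule.smul_mem _ _ g1, fun x l hl => ?_⟩
    simp only [Pi.smul_apply, smul_eq_mul]
    rw [g2 _ _ hl]

end DdA

theorem p_Dd :
    S_Dd := by
  exact ⟨DdA.bulk, DdA.cyc⟩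

end Pool.Agent.P.MP_6c8efb_pr.One

end DdS
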