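import Pool.Agent.P.MP_6c8efb_pr.One.Iface
import Pool.Agent.P.MP_6c8efb_pr.Arm.Dd

section PolyS

/-! Step Poly. -/

namespace Pool.Agent.P.MP_6c8efb_pr.One

open Polynomial Filter Topology
open Arm (q ah ac Nz Gen Near LPd LP1 TC Pt TConn q_eq q_cube q_ne_zero)

namespace PolyA

open Arm (norm_q gen_cons)

theorem near_mono {ε δ : ℝ} {x : ℂ} (h : Near ε x) (e : ε ≤ δ) : Near δ x :=
  ⟨h.1, h.2.1.trans_le e, h.2.2.trans_le e⟩

theorem qq_ne {x y : ℂ} (hx : Near (1 / 10) x) (hy : Near (1 / 10) y) : q ^ 2 * x - y ≠ 0 := by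
  intro h
  have e : (3 : ℂ) = (q - 1) * ((y - 1) - q ^ 2 * (x - 1)) := by
    linear_combination (q - 1) * h + (-(q - 2)) * q_eq
  have h1 : ‖q - 1‖ ≤ 2 := by
    have := norm_sub_le q 1
    rw [norm_q, norm_one] at this
    linarith
  have h2 : ‖(y - 1) - q ^ 2 * (x - 1)‖ ≤ 1 := by
    have := norm_sub_le (y - 1) (q ^ 2 * (x - 1))
    rw [norm_mul, norm_pow, norm_q] at this
    have := hx.2.1
    have := hy.2.1
    linarith
  have h3 := congrArg norm e
  rw [norm_mul] at h3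
  have h4 := mul_le_mul h1 h2 (norm_nonneg _) (by norm_num)
  rw [← h3] at h4
  norm_num at h4

theorem ne_of_gen {l₁ l₂ : List ℂ} {x y : ℂ} (h : Gen (l₁ ++ x :: y :: l₂)) : x - y ≠ 0 := by
  have h1 : Gen (x :: y :: l₂) := h.sublist (List.sublist_append_right _ _)
  intro e
  exact ((gen_cons.1 h1).2.1 y (by simp)).1 (by rw [sub_eq_zero.1 e])

theorem swap_perm (l₁ l₂ : List ℂ) (x y : ℂ) :
    (l₁ ++ x :: y :: l₂).Perm (l₁ ++ y :: x :: l₂) :=
  (List.Perm.swap y x l₂).append_left l₁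

variable {L : ℕ} {ε : ℝ} {Ψ : List ℂ → W}

/-- the scalar factor -/
noncomputable def rh (L : ℕ) (Ψ : List ℂ → W) (l : List ℂ) : ℂ := Ψ l (o L) / Pref l

theorem exch_apply (H : Loc1 L ε Ψ) {l₁ l₂ : List ℂ} {x y : ℂ}
    (h1 : (l₁ ++ x :: y :: l₂).length = L) (h2 : ∀ z ∈ l₁ ++ x :: y :: l₂, Near ε z) (b : St) :
    (q ^ 2 * x - y) * Ψ (l₁ ++ y :: x :: l₂) b = (q ^ 2 * y - x) * Ψ (l₁ ++ x :: y :: l₂) b +
      (-q * (x - y)) * Ee l₁.length (Ψ (l₁ ++ x :: y :: l₂)) b := by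
  have := congrArg (fun v : W => v b) (H.exch l₁ x y l₂ h1 h2)
  simpa only [Rc_apply, Finsupp.add_apply, Finsupp.smul_apply, smul_eq_mul] using this

theorem pref_ne (h2 : S_Pref) (H : Loc1 L ε Ψ) {l : List ℂ} (h : ∀ z ∈ l, Near ε z) :
    Pref l ≠ 0 := h2.ne l fun z hz => near_mono (h z hz) H.small

theorem rh_swap (h2 : S_Pref) (hL : Even L) (H : Loc1 L ε Ψ) {l₁ l₂ : List ℂ} {x y : ℂ}
    (h1 : (l₁ ++ x :: y :: l₂).length = L) (h : ∀ z ∈ l₁ ++ x :: y :: l₂, Near ε z) :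
    rh L Ψ (l₁ ++ x :: y :: l₂) = rh L Ψ (l₁ ++ y :: x :: l₂) := by
  have e1 := exch_apply H h1 h (o L)
  rw [Ee_apply_o hL (by rw [← h1]; simp), mul_zero, add_zero] at e1
  have e2 := h2.exch l₁ x y l₂
  have n1 := pref_ne h2 H h
  have n2 := pref_ne h2 H (l := l₁ ++ y :: x :: l₂)
    fun z hz => h z ((swap_perm l₁ l₂ x y).symm.subset hz)
  have n3 := qq_ne (near_mono (h x (by simp)) H.small) (near_mono (h y (by simp)) H.small)
  rw [rh, rh, div_eq_div_iff n1 n2]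
  refine mul_left_cancel₀ n3 ?_
  linear_combination Ψ (l₁ ++ x :: y :: l₂) (o L) * e2 - Pref (l₁ ++ x :: y :: l₂) * e1

theorem rh_perm_aux (h2 : S_Pref) (hL : Even L) (H : Loc1 L ε Ψ) {l l' : List ℂ} (e : l.Perm l') :
    ∀ pre : List ℂ, (pre ++ l).length = L → (∀ z ∈ pre ++ l, Near ε z) →
      rh L Ψ (pre ++ l) = rh L Ψ (pre ++ l') := by
  induction e with
  | nil => intro _ _ _; rfl
  | cons x _ ih =>
    intro pre h1 h
    have := ih (pre ++ [x]) (by simpa using h1) (by simpa using h)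
    simpa using this
  | swap x y l => intro pre h1 h; exact rh_swap h2 hL H h1 h
  | trans e1 _ ih1 ih2 =>
    intro pre h1 h
    have e := e1.append_left pre
    rw [ih1 pre h1 h, ih2 pre (e.length_eq ▸ h1) fun z hz => h z (e.symm.subset hz)]

theorem rh_perm (h2 : S_Pref) (hL : Even L) (H : Loc1 L ε Ψ) {l l' : List ℂ} (h1 : l.length = L)
    (h : ∀ z ∈ l, Near ε z) (e : l.Perm l') : rh L Ψ l = rh L Ψ l' :=
  rh_perm_aux h2 hL H e [] h1 h

/-- `u` is the scalar factor times a polynomial -/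
def Good (L : ℕ) (ε : ℝ) (Ψ : List ℂ → W) (u : List ℂ → ℂ) : Prop :=
  ∃ f ∈ LPs L, ∀ l, l.length = L → (∀ x ∈ l, Near ε x) → Gen l → u l = rh L Ψ l * f l

theorem good_sum (S : Finset St) (h : ∀ c ∈ S, Good L ε Ψ fun l => Ψ l c) :
    Good L ε Ψ fun l => ∑ c ∈ S, Ψ l c := by
  classical
  induction S using Finset.induction_on with
  | empty => exact ⟨0, zero_mem _, fun l _ _ _ => by simp⟩
  | insert a S ha ih =>
    obtain ⟨f, hf, e⟩ := h a (by simp)
    obtain ⟨g, hg, e'⟩ := ih fun c hc => h c (by simp [hc])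
    refine ⟨f + g, add_mem hf hg, fun l h1 h2 h3 => ?_⟩
    have := e l h1 h2 h3
    have := e' l h1 h2 h3
    simp only [Finset.sum_insert ha, Pi.add_apply] at *
    rw [mul_add]
    congr 1

theorem good_of_lm (H : Loc1 L ε Ψ) {φ : St → St} {a b : St} (ha : Bd L a) (hab : φ a = b)
    (h1 : Good L ε Ψ fun l => lm φ (Ψ l) b)
    (h2 : ∀ c, Bd L c → φ c = b → c ≠ a → Good L ε Ψ fun l => Ψ l c) :
    Good L ε Ψ fun l => Ψ l a := by
  classical
  obtain ⟨f, hf, e⟩ := h1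
  obtain ⟨g, hg, e'⟩ := good_sum (L := L) (ε := ε) (Ψ := Ψ)
    (((SL L).filter fun p => φ p = b).erase a) fun c hc => by
      rw [Finset.mem_erase, Finset.mem_filter, mem_SL] at hc
      exact h2 c hc.2.1 hc.2.2 hc.1
  refine ⟨f - g, sub_mem hf hg, fun l k1 k2 k3 => ?_⟩
  have s : Sup L (Ψ l) := k1 ▸ (H.fix l k1 k2).1.1
  have e1 := e l k1 k2 k3
  have e2 := e' l k1 k2 k3
  have e3 := s.lm_apply φ b
  have e4 := Finset.add_sum_erase ((SL L).filter fun p => φ p = b) (fun c => Ψ l c) (a := a)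
    (by rw [Finset.mem_filter, mem_SL]; exact ⟨ha, hab⟩)
  simp only [Pi.sub_apply] at *
  linear_combination e4 - e3 + e1 - e2

theorem good_ee (h2 : S_Pref) (h3 : S_Dd) (hL : Even L) (H : Loc1 L ε Ψ) {i : ℕ} (hi : i + 2 ≤ L) {b : St}
    (hb : Good L ε Ψ fun l => Ψ l b) : Good L ε Ψ fun l => lm (ee i) (Ψ l) b := by
  obtain ⟨f, hf, e⟩ := hb
  obtain ⟨g, hg, eg⟩ := h3.bulk L f hf i hi
  refine ⟨f - q ^ 2 • g, sub_mem hf (Submodule.smul_mem _ _ hg), fun l k1 k2 k3 => ?_⟩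
  obtain ⟨l₁, x, y, l₂, rfl, rfl⟩ : ∃ l₁ x y l₂, l = l₁ ++ x :: y :: l₂ ∧ i = l₁.length := by
    refine ⟨l.take i, l[i], l[i + 1], l.drop (i + 2), ?_, by simp; omega⟩
    rw [← List.drop_eq_getElem_cons, ← List.drop_eq_getElem_cons, List.take_append_drop]
  have p := swap_perm l₁ l₂ x y
  have e1 := e _ k1 k2 k3
  have e2 := e _ (p.length_eq ▸ k1) (fun z hz => k2 z (p.symm.subset hz)) (k3.perm p)
  rw [← rh_swap h2 hL H k1 k2] at e2
  have e3 := eg l₁ x y l₂ rfl k1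
  have e4 := exch_apply H k1 k2 b
  rw [Ee] at e4
  simp only [Pi.sub_apply, Pi.smul_apply, smul_eq_mul] at *
  refine mul_left_cancel₀ (mul_ne_zero q_ne_zero (ne_of_gen k3)) ?_
  rw [e1, e2] at e4
  linear_combination e4 - rh L Ψ (l₁ ++ x :: y :: l₂) * e3 +
    (-(rh L Ψ (l₁ ++ x :: y :: l₂) * (x - y) * f (l₁ ++ x :: y :: l₂))) * q_eq +
    (rh L Ψ (l₁ ++ x :: y :: l₂) * (x - y) * g (l₁ ++ x :: y :: l₂)) * q_cube

theorem good_rot (h2 : S_Pref) (h3 : S_Dd) (hL : Even L) (H : Loc1 L ε Ψ) {a : St}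
    (ha : Good L ε Ψ fun l => Ψ l a) : Good L ε Ψ fun l => Ψ l (rot L a) := by
  rcases Nat.eq_zero_or_pos L with rfl | hpos
  · rwa [rot_zero]
  obtain ⟨f, hf, e⟩ := ha
  obtain ⟨g, hg, eg⟩ := h3.cyc L f hf
  refine ⟨g, hg, fun l k1 k2 k3 => ?_⟩
  obtain _ | ⟨x, l⟩ := l
  · exact absurd k1 hpos.ne
  have p := (List.perm_append_singleton x l).symm
  have e1 := e _ (p.length_eq ▸ k1) (fun z hz => k2 z (p.symm.subset hz)) (k3.perm p)
  simp only at e1 ⊢
  rw [H.cyc x l k1 k2, Rot_apply, e1, eg x l k1, rh_perm h2 hL H k1 k2 p]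

theorem good_all (h1 : S_Tri) (h2 : S_Pref) (h4 : S_Pmem) (h3 : S_Dd) (hL : Even L)
    (H : Loc1 L ε Ψ) : ∀ a, Bd L a → Good L ε Ψ fun l => Ψ l a := by
  refine h1 L (fun a => Good L ε Ψ fun l => Ψ l a) ?_ (fun a _ h => good_rot h2 h3 hL H h)
    fun a i hi ha gb hc => good_of_lm H ha rfl (good_ee h2 h3 hL H hi gb) hc
  obtain ⟨f, hf, e⟩ := h4 L
  refine ⟨f, hf, fun l k1 k2 _ => ?_⟩
  rw [e l k1, rh, div_mul_cancel₀ _ (pref_ne h2 H k2)]

end PolyA

open PolyA in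
theorem p_Poly (hTri : S_Tri) (hPref : S_Pref) (hPmem : S_Pmem) (hDd : S_Dd) :
    S_Poly := by
  classical
  intro L ε Ψ hL H
  have key : ∀ p : St, ∃ f ∈ LPs L, (¬ Bd L p → f = 0) ∧
      (p = o L → ∀ l, l.length = L → f l = Pref l) ∧
      ∀ l, l.length = L → (∀ x ∈ l, Near ε x) → Gen l → Ψ l p = rh L Ψ l * f l := by
    intro p
    by_cases hp : Bd L p
    · by_cases hpo : p = o L
      · subst hpo
        obtain ⟨f, hf, e⟩ := hPmem L
        refine ⟨f, hf, fun h => absurd hp h, fun _ => e, fun l k1 k2 _ => ?_⟩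
        rw [e l k1, rh, div_mul_cancel₀ _ (pref_ne hPref H k2)]
      · obtain ⟨f, hf, e⟩ := good_all hTri hPref hPmem hDd hL H p hp
        exact ⟨f, hf, fun h => absurd hp h, fun h => absurd h hpo, e⟩
    · refine ⟨0, zero_mem _, fun _ => rfl, fun h => absurd (h ▸ bd_o hL) hp, fun l k1 k2 _ => ?_⟩
      have s : Sup L (Ψ l) := k1 ▸ (H.fix l k1 k2).1.1
      rw [Pi.zero_apply, mul_zero]
      by_contra hh
      exact hp (s p hh)
  choose f hf h0 ho hΨ using key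
  have hs : ∀ l p, f p l ≠ 0 → p ∈ SL L := fun l p h => by
    by_contra hh
    exact h (by rw [h0 p (fun e => hh (mem_SL.2 e))]; rfl)
  refine ⟨fun l => Finsupp.onFinset (SL L) (fun p => f p l) (hs l), rh L Ψ,
    fun l p h => mem_SL.1 (hs l p h), fun p => ⟨f p, hf p, fun _ => rfl⟩,
    fun l l' k1 k2 e => rh_perm hPref hL H k1 k2 e,
    fun l k1 => ho (o L) rfl l k1, fun l k1 k2 k3 => ?_⟩
  ext p
  rw [Finsupp.smul_apply, smul_eq_mul, Finsupp.onFinset_apply]
  exact hΨ p l k1 k2 k3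

end Pool.Agent.P.MP_6c8efb_pr.One

end PolyS

section LpsS

/-! Step Lps. -/

namespace Pool.Agent.P.MP_6c8efb_pr.One

open Polynomial Filter Topology
open Arm (q ah ac Nz Gen Near LPd LP1 TC Pt TConn q_eq q_cube q_ne_zero)

namespace LpsA

lemma mono_app (n₁ n₂ : List ℕ) (l₁ l₂ : List ℂ) (h : n₁.length = l₁.length) :
    mono (n₁ ++ n₂) (l₁ ++ l₂) = mono n₁ l₁ * mono n₂ l₂ := by
  simp only [mono, List.zipWith_append h, List.prod_append]

lemma mono_cons (k : ℕ) (n : List ℕ) (t : ℂ) (l : List ℂ) :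
    mono (k :: n) (t :: l) = t ^ k * mono n l := by simp [mono]

lemma split (n : List ℕ) (a b : ℕ) (h : n.length = a + b) :
    ∃ n₁ n₂, n = n₁ ++ n₂ ∧ n₁.length = a ∧ n₂.length = b :=
  ⟨n.take a, n.drop a, by simp, by simp [h], by simp [h]⟩

lemma cont : ∀ (L : ℕ) (n : List ℕ), Continuous fun v : Fin L → ℂ => mono n (List.ofFn v)
  | _, [] => by simpa [mono] using continuous_const
  | 0, _ => continuous_of_discreteTopology
  | L + 1, k :: n => by
    simp only [List.ofFn_succ, mono_cons]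
    exact ((continuous_apply 0).pow k).mul ((cont L n).comp (by fun_prop))

lemma lim (d : ℕ) (c : ℂ) {f : ℝ → ℂ} (h : ∀ u : ℝ, (u : ℂ) ≠ 0 → f u = c * (u : ℂ)⁻¹ ^ d) :
    ∃ c, Tendsto f atTop (𝓝 c) := by
  have h0 : Tendsto (fun u : ℝ => (u : ℂ)⁻¹) atTop (𝓝 0) := by
    simpa [Function.comp_def] using
      (Complex.continuous_ofReal.tendsto 0).comp (tendsto_inv_atTop_zero (𝕜 := ℝ))
  refine ⟨_, ((h0.pow d).const_mul c).congr' ?_⟩
  filter_upwards [eventually_gt_atTop 0] with u hu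
  exact (h u (by exact_mod_cast hu.ne')).symm

end LpsA

theorem p_Lps :
    S_Lps := by
  refine ⟨fun L f hf l₁ l₂ hl => ?_, fun n f hf b x hx => ?_, fun L f hf => ?_⟩
  · induction hf using Submodule.span_induction with
    | mem f hf =>
      obtain ⟨n, h1, h2, -, rfl⟩ := hf
      obtain ⟨n₁, n₂, rfl, e1, e2⟩ := LpsA.split n l₁.length (l₂.length + 1) (by omega)
      obtain _ | ⟨k, n₂⟩ := n₂
      · simp at e2
      have := h2 k (by simp)
      refine ⟨C (mono n₁ l₁ * mono n₂ l₂) * X ^ k, (natDegree_C_mul_X_pow_le _ _).trans (by omega),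
        fun t => ?_⟩
      simp only [LpsA.mono_app _ _ _ _ e1, LpsA.mono_cons, eval_mul, eval_C, eval_pow, eval_X]
      ring
    | zero => exact ⟨0, by simp, by simp⟩
    | add f g _ _ h1 h2 =>
      obtain ⟨P, p1, p2⟩ := h1
      obtain ⟨Q, q1, q2⟩ := h2
      exact ⟨P + Q, (natDegree_add_le _ _).trans (max_le p1 q1), fun t => by simp [p2, q2]⟩
    | smul c f _ h1 =>
      obtain ⟨P, p1, p2⟩ := h1
      exact ⟨c • P, (natDegree_smul_le _ _).trans p1, fun t => by simp [p2]⟩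
  · induction hf using Submodule.span_induction with
    | mem f hf =>
      obtain ⟨m, h1, h2, h3, rfl⟩ := hf
      obtain ⟨n₁, n₂, rfl, e1, e2⟩ := LpsA.split m n 2 h1
      obtain ⟨a, c, rfl⟩ := List.length_eq_two.1 e2
      have k1 := h2 c (by simp)
      have k2 := List.pairwise_pair.1 (List.pairwise_append.1 h3).2.1
      have e : ∀ s : ℂ, mono (n₁ ++ [a, c]) (x ++ [s, s ^ 2]) = mono n₁ x * s ^ (a + 2 * c) := by
        intro s
        rw [LpsA.mono_app _ _ _ _ (e1.trans hx.symm)]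
        simp [mono, pow_add, pow_mul]
      simp only [e]
      cases b
      · obtain ⟨d, hd⟩ : ∃ d, a + 2 * c = d + 1 := ⟨a + 2 * c - 1, by omega⟩
        refine LpsA.lim d (mono n₁ x) fun u hu => ?_
        simp only [nu, sc, hd, Bool.false_eq_true, if_false, inv_pow, pow_succ]
        field_simp
      · obtain ⟨d, hd⟩ : ∃ d, 3 * n + 2 = a + 2 * c + d := ⟨3 * n + 2 - (a + 2 * c), by omega⟩
        refine LpsA.lim d (mono n₁ x) fun u hu => ?_
        simp only [nu, sc, if_true, inv_pow]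
        rw [hd, pow_add _ _ d]
        field_simp
    | zero => exact ⟨0, by simp⟩
    | add f g _ _ h1 h2 =>
      obtain ⟨c, p⟩ := h1
      obtain ⟨d, r⟩ := h2
      exact ⟨_, (p.add r).congr fun u => by simp [mul_add]⟩
    | smul c f _ h1 =>
      obtain ⟨d, p⟩ := h1
      exact ⟨_, (p.const_mul c).congr fun u => by simp [mul_left_comm]⟩
  · induction hf using Submodule.span_induction with
    | mem f hf =>
      obtain ⟨n, -, -, -, rfl⟩ := hf
      exact LpsA.cont L n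
    | zero => exact continuous_const
    | add f g _ _ h1 h2 => exact h1.add h2
    | smul c f _ h1 => exact h1.const_smul c

end Pool.Agent.P.MP_6c8efb_pr.One

end LpsS

section SolS

/-! Step Sol. -/

namespace Pool.Agent.P.MP_6c8efb_pr.One

open Polynomial Filter Topology
open Arm (q ah ac Nz Gen Near LPd LP1 TC Pt TConn q_eq q_cube q_ne_zero)

namespace SolA

open Arm (lp1_const lp1_id)

/-- vector valued Laurent polynomial functions -/
def WL (g : ℂ → W) : Prop := ∀ φ : W →ₗ[ℂ] ℂ, LP1 fun t => φ (g t)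

theorem WL.map {g : ℂ → W} (h : WL g) (A : Module.End ℂ W) : WL fun t => A (g t) :=
  fun φ => h (φ ∘ₗ A)

theorem WL.add {g g' : ℂ → W} (h : WL g) (h' : WL g') : WL fun t => g t + g' t :=
  fun φ => by simpa using (h φ).add (h' φ)

theorem WL.sub {g g' : ℂ → W} (h : WL g) (h' : WL g') : WL fun t => g t - g' t :=
  fun φ => by simpa using (h φ).sub (h' φ)

theorem WL.smul {g : ℂ → W} {c : ℂ → ℂ} (h : WL g) (hc : LP1 c) : WL fun t => c t • g t :=
  fun φ => by simpa using hc.mul (h φ)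

theorem WL.comb {g : ℂ → W} {a b : ℂ → ℂ} (h : WL g) (ha : LP1 a) (hb : LP1 b)
    (A : Module.End ℂ W) : WL fun t => (a t • (1 : Module.End ℂ W) + b t • A) (g t) :=
  (h.smul ha).add ((h.map A).smul hb)

theorem WL.R {g : ℂ → W} (h : WL g) (i : ℕ) : WL fun t => R i t (g t) :=
  h.comb ((lp1_const _).mul ((lp1_const _).add ((lp1_const _).mul lp1_id)))
    ((lp1_const _).mul ((lp1_const _).add lp1_id)) _

theorem WL.row {g : ℂ → W} (h : WL g) (a : ℕ) (l₁ l₂ : List ℂ) :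
    WL fun t => row a (l₁ ++ t :: l₂) (g t) := by
  simp only [row_append, One.row, Module.End.mul_apply]
  exact ((h.map _).R _).map _

theorem WL.TM {g : ℂ → W} (h : WL g) (l₁ l₂ : List ℂ) : WL fun t => TM (l₁ ++ t :: l₂) (g t) := by
  simp only [One.TM, Module.End.mul_apply, List.length_append, List.length_cons]
  exact ((h.map _).row _ _ _).map _

theorem WL.Rc {g : ℂ → W} {x y : ℂ → ℂ} (h : WL g) (hx : LP1 x) (hy : LP1 y) (i : ℕ) :
    WL fun t => Rc i (x t) (y t) (g t) :=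
  h.comb (((lp1_const _).mul hy).sub hx) ((lp1_const _).mul (hx.sub hy)) _

theorem near_infinite {ε : ℝ} (h : 0 < ε) : {x | Near ε x}.Infinite := by
  refine Set.infinite_of_injOn_mapsTo (f := fun s : ℝ => ((1 + s : ℝ) : ℂ))
    (fun a _ b _ e => add_left_cancel (Complex.ofReal_injective e)) (fun s hs => ?_)
    (Set.Ioo_infinite h)
  have h1 : 0 < 1 + s := by linarith [hs.1]
  refine ⟨Complex.ofReal_ne_zero.2 h1.ne', ?_, ?_⟩
  · simpa [abs_of_pos hs.1] using hs.2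
  · rw [← Complex.ofReal_inv, ← Complex.ofReal_one, ← Complex.ofReal_sub, Complex.norm_real,
      Real.norm_eq_abs, abs_lt]
    have h2 : (1 + s)⁻¹ * (1 + s) = 1 := inv_mul_cancel₀ h1.ne'
    have h3 := inv_pos.2 h1
    constructor <;> nlinarith [hs.1, hs.2]

theorem ext1 (Φ : List ℂ → W) (L : ℕ) {U : Set ℂ} (hU : U.Infinite)
    (h1 : ∀ l₁ l₂ : List ℂ, l₁.length + l₂.length + 1 = L → WL fun t => Φ (l₁ ++ t :: l₂))
    (h2 : ∀ l, l.length = L → (∀ x ∈ l, x ∈ U) → Gen l → Φ l = 0) (l : List ℂ)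
    (hl : l.length = L) (hn : Nz l) : Φ l = 0 :=
  Finsupp.ext fun p => Arm.s_Ext (fun l => Φ l p) L U hU
    (fun l₁ l₂ h _ _ => h1 l₁ l₂ h (Finsupp.lapply p))
    (fun l h h' h'' => by rw [h2 l h h' h'']; rfl) l hl hn

theorem ext2 (Φ : List ℂ → List ℂ → W) (a b : ℕ) {U : Set ℂ} (hU : U.Infinite)
    (h1 : ∀ l₁ l₂ r : List ℂ, WL fun t => Φ (l₁ ++ t :: l₂) r)
    (h2 : ∀ l r₁ r₂ : List ℂ, r₁.length + r₂.length + 1 = b → WL fun t => Φ l (r₁ ++ t :: r₂))
    (h3 : ∀ l r, l.length = a → r.length = b → (∀ x ∈ l ++ r, x ∈ U) → Gen (l ++ r) → Φ l r = 0)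
    (l r : List ℂ) (hl : l.length = a) (hr : r.length = b) (hn : Nz (l ++ r)) : Φ l r = 0 := by
  have h := ext1 (fun l => Φ (l.take a) (l.drop a)) (a + b) hU (fun l₁ l₂ h => ?_)
    (fun l h h' h'' => h3 _ _ (by simp [h]) (by simp [h]) (by simpa using h') (by simpa using h''))
    (l ++ r) (by simp [hl, hr]) hn
  · simpa [← hl] using h
  rcases lt_or_ge l₁.length a with h5 | h5
  · obtain ⟨k, rfl⟩ : ∃ k, a = l₁.length + (k + 1) := ⟨a - l₁.length - 1, by omega⟩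
    simpa [List.take_append, List.drop_append, List.take_of_length_le, List.drop_of_length_le] using
      h1 l₁ (l₂.take k) (l₂.drop k)
  · simpa [List.take_append_of_le_length h5, List.drop_append_of_le_length h5] using
      h2 (l₁.take a) (l₁.drop a) l₂ (by simp; omega)

/-- the defect in the exchange relation -/
noncomputable def dE (F : List ℂ → W) (i : ℕ) (l : List ℂ) : List ℂ → W
  | x :: y :: r => (q ^ 2 * x - y) • F (l ++ y :: x :: r) - Rc i x y (F (l ++ x :: y :: r))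
  | _ => 0

theorem wl_zero : WL fun _ => 0 := fun φ => lp1_const (φ 0)

variable {F : List ℂ → W} (hF : ∀ l₁ l₂, WL fun t => F (l₁ ++ t :: l₂))
include hF

theorem dE_left (i : ℕ) (l₁ l₂ r : List ℂ) : WL fun t => dE F i (l₁ ++ t :: l₂) r := by
  rcases r with _ | ⟨x, _ | ⟨y, r⟩⟩
  · exact wl_zero
  · exact wl_zero
  · simp only [dE, List.append_assoc, List.cons_append]
    exact ((hF _ _).smul (lp1_const _)).sub ((hF _ _).map _)

theorem dE_right (i : ℕ) (l r₁ r₂ : List ℂ) : WL fun t => dE F i l (r₁ ++ t :: r₂) := by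
  rcases r₁ with _ | ⟨x, _ | ⟨y, r⟩⟩
  · rcases r₂ with _ | ⟨y, r⟩
    · exact wl_zero
    · have h := hF (l ++ [y]) r
      simp only [List.append_assoc, List.cons_append, List.nil_append] at h
      exact (h.smul (((lp1_const _).mul lp1_id).sub (lp1_const _))).sub
        ((hF _ _).Rc lp1_id (lp1_const _) _)
  · have h := hF (l ++ [x]) r₂
    simp only [List.append_assoc, List.cons_append, List.nil_append] at h
    exact ((hF _ _).smul ((lp1_const _).sub lp1_id)).sub (h.Rc (lp1_const _) lp1_id _)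
  · have h := hF (l ++ x :: y :: r) r₂
    have h' := hF (l ++ y :: x :: r) r₂
    simp only [List.append_assoc, List.cons_append] at h h'
    exact (h'.smul (lp1_const _)).sub (h.map _)

/-- the defect in the cyclic relation -/
noncomputable def dC (F : List ℂ → W) (i : ℕ) : List ℂ → List ℂ → W
  | [x], r => F (x :: r) - Rot i (F (r ++ [x]))
  | _, _ => 0

theorem dC_left (i : ℕ) (l₁ l₂ r : List ℂ) : WL fun t => dC F i (l₁ ++ t :: l₂) r := by
  rcases l₁ with _ | ⟨x, _ | ⟨y, l⟩⟩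
  · rcases l₂ with _ | ⟨y, l⟩
    · exact (hF [] r).sub ((hF r []).map _)
    · exact wl_zero
  · exact wl_zero
  · exact wl_zero

theorem dC_right (i : ℕ) (l r₁ r₂ : List ℂ) : WL fun t => dC F i l (r₁ ++ t :: r₂) := by
  rcases l with _ | ⟨x, _ | ⟨y, l⟩⟩
  · exact wl_zero
  · simp only [dC, List.append_assoc, List.cons_append]
    exact (hF (x :: r₁) r₂).sub ((hF _ _).map _)
  · exact wl_zero

omit hF in
/-- the relations on generic lists near the homogeneous point -/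
theorem loc (hLoc : S_Loc) (hPoly : S_Poly) (L : ℕ) : ∃ (ε : ℝ) (G : List ℂ → W), 0 < ε ∧
    (∀ l, Sup L (G l)) ∧ (∀ p, ∃ f ∈ LPs L, ∀ l, G l p = f l) ∧
    (∀ l, Even L → l.length = L → G l (o L) = Pref l) ∧
    (∀ l, l.length = L → (∀ x ∈ l, Near ε x) → Gen l → TM l (G l) = nrm l • G l) ∧
    (∀ l₁ x y l₂, (l₁ ++ x :: y :: l₂).length = L → (∀ z ∈ l₁ ++ x :: y :: l₂, Near ε z) →
      Gen (l₁ ++ x :: y :: l₂) →
      (q ^ 2 * x - y) • G (l₁ ++ y :: x :: l₂) = Rc l₁.length x y (G (l₁ ++ x :: y :: l₂))) ∧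
    ∀ x l, (x :: l).length = L → (∀ z ∈ x :: l, Near ε z) → Gen (x :: l) →
      G (x :: l) = Rot L (G (l ++ [x])) := by
  by_cases hL : Even L
  swap
  · exact ⟨1, fun _ => 0, one_pos, fun _ => sup_zero L, fun _ => ⟨0, zero_mem _, fun _ => rfl⟩,
      fun _ h => absurd h hL, by simp, by simp, by simp⟩
  obtain ⟨ε, Ψ, hΨ⟩ := hLoc L hL
  obtain ⟨G, ρ, g1, g2, g3, g5, he⟩ := hPoly L ε Ψ hL hΨ
  have hρ : ∀ l, l.length = L → (∀ x ∈ l, Near ε x) → Gen l → ρ l ≠ 0 := fun l e1 e2 e3 e => by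
    have := (hΨ.fix l e1 e2).2
    rw [he l e1 e2 e3, e, zero_smul, map_zero] at this
    exact zero_ne_one this
  refine ⟨ε, G, hΨ.pos, g1, g2, fun l _ => g5 l, fun l e1 e2 e3 => ?_,
    fun l x y r e5 e3 e4 => ?_, fun x l e5 e3 e4 => ?_⟩
  · have := (hΨ.fix l e1 e2).1.2
    rw [he l e1 e2 e3, map_smul, smul_comm] at this
    exact smul_right_injective W (hρ l e1 e2 e3) this
  · have e6 : (l ++ x :: y :: r).Perm (l ++ y :: x :: r) := (List.Perm.swap y x r).append_left l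
    have := hΨ.exch l x y r e5 e3
    rw [he _ e5 e3 e4, he _ (e6.length_eq ▸ e5) (fun z hz => e3 z (e6.symm.subset hz))
      (e4.perm e6), ← g3 _ _ e5 e3 e6, map_smul, smul_comm] at this
    exact smul_right_injective W (hρ _ e5 e3 e4) this
  · have e6 : (x :: l).Perm (l ++ [x]) := (List.perm_append_singleton x l).symm
    have := hΨ.cyc x l e5 e3
    rw [he _ e5 e3 e4, he _ (e6.length_eq ▸ e5) (fun z hz => e3 z (e6.symm.subset hz))
      (e4.perm e6), ← g3 _ _ e5 e3 e6, map_smul] at this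
    exact smul_right_injective W (hρ _ e5 e3 e4) this

end SolA

open Arm (lp1_const lp1_id) in
open SolA in
theorem p_Sol (hLoc : S_Loc) (hPoly : S_Poly) (hLps : S_Lps) :
    S_Sol := by
  choose ε G g0 g1 g2 g3 g4 g5 g6 using loc hLoc hPoly
  obtain ⟨F, hFG⟩ : ∃ F : List ℂ → W, ∀ L l, l.length = L → F l = G L l :=
    ⟨fun l => G l.length l, fun L l h => h ▸ rfl⟩
  have hU := fun L => near_infinite (g0 L)
  have hd : ∀ l₁ l₂ p, LP1 fun t => F (l₁ ++ t :: l₂) p := fun l₁ l₂ p => by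
    obtain ⟨f, f1, f2⟩ := g2 (l₁.length + l₂.length + 1) p
    obtain ⟨P, -, hP⟩ := hLps.slice _ f f1 l₁ l₂ rfl
    refine (lp1_id.eval P).congr fun t _ => ?_
    rw [hFG (l₁.length + l₂.length + 1) _ (by simp [add_assoc]), f2, hP]
  have hs : ∀ l, Sup l.length (F l) := fun l => hFG _ l rfl ▸ g1 _ l
  have hF : ∀ l₁ l₂, WL fun t => F (l₁ ++ t :: l₂) := fun l₁ l₂ φ => by
    refine (Arm.LP1.sum (SL (l₁.length + l₂.length + 1)) fun p _ =>
      (hd l₁ l₂ p).mul (lp1_const (φ (Finsupp.single p 1)))).congr fun t _ => ?_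
    have := hs (l₁ ++ t :: l₂)
    rw [List.length_append, List.length_cons, ← add_assoc] at this
    exact (this.map_eq φ).symm
  refine ⟨F, hs, fun l hl => sub_eq_zero.1 ?_, fun l he _ => ?_, fun l₁ x y l₂ hl => ?_,
    fun x l hl => ?_, fun L p => ?_⟩
  · refine ext1 (fun l => TM l (F l) - nrm l • F l) _ (hU l.length) (fun l₁ l₂ _ => ?_)
      (fun l' e1 e2 e3 => ?_) l rfl hl
    · refine ((hF l₁ l₂).TM l₁ l₂).sub ((hF l₁ l₂).smul ?_)
      simp only [nrm_append, nrm_cons]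
      exact (lp1_const _).mul (((lp1_const _).add lp1_id).mul (lp1_const _))
    · rw [hFG _ l' e1]
      exact sub_eq_zero.2 (g4 _ l' e1 e2 e3)
  · rw [hFG _ l rfl, g3 _ l he rfl]
  · refine sub_eq_zero.1 (ext2 (dE F l₁.length) l₁.length (l₂.length + 2)
      (hU (l₁.length + (l₂.length + 2))) (dE_left hF _) (fun l r₁ r₂ _ => dE_right hF _ l r₁ r₂)
      ?_ l₁ (x :: y :: l₂) rfl rfl hl)
    rintro l (_ | ⟨x, _ | ⟨y, r⟩⟩) e1 e2 e3 e4
    · rfl
    · rfl
    have e5 : (l ++ x :: y :: r).length = l₁.length + (l₂.length + 2) := by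
      rw [List.length_append, e1, e2]
    have e6 : (l ++ y :: x :: r).length = l₁.length + (l₂.length + 2) := by simpa using e5
    have := g5 _ l x y r e5 e3 e4
    rw [← hFG _ _ e5, ← hFG _ _ e6, e1] at this
    exact sub_eq_zero.2 this
  · refine sub_eq_zero.1 (ext2 (dC F (l.length + 1)) 1 l.length (hU (l.length + 1)) (dC_left hF _)
      (fun l' r₁ r₂ _ => dC_right hF _ l' r₁ r₂) ?_ [x] l rfl rfl hl)
    rintro (_ | ⟨x, _ | ⟨y, l'⟩⟩) r e1 e2 e3 e4
    · rfl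
    swap
    · rfl
    have e5 : (x :: r).length = l.length + 1 := by simp [e2]
    have e6 : (r ++ [x]).length = l.length + 1 := by simp [e2]
    have := g6 _ x r e5 e3 e4
    rw [← hFG _ _ e5, ← hFG _ _ e6] at this
    exact sub_eq_zero.2 this
  · obtain ⟨f, f1, f2⟩ := g2 L p
    exact ⟨f, f1, fun l hl => by rw [hFG L l hl, f2]⟩

end Pool.Agent.P.MP_6c8efb_pr.One

end SolS
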