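import Pool.Agent.P.MP_6c8efb_pr.One.Iface

section FrmS

/-! Step Frm. -/

namespace Pool.Agent.P.MP_6c8efb_pr.One

open Polynomial Filter Topology
open Arm (q ah ac Nz Gen Near LPd LP1 TC Pt TConn q_eq q_cube q_ne_zero)

namespace FrmA

open Arm (up up_of_lt up_of_le)

theorem sum_up {i L : ℕ} (h : i ≤ L) {f : ℕ → K} (hf : f i = f (i + 1)) :
    ∑ j ∈ Finset.range (L + 2), (-1) ^ j * f j = ∑ j ∈ Finset.range L, (-1) ^ j * f (up i j) := by
  induction L, h using Nat.le_induction with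
  | base =>
    rw [Finset.sum_range_succ, Finset.sum_range_succ, ← hf, add_assoc, pow_succ]
    simp only [mul_neg, mul_one, neg_mul, add_neg_cancel, add_zero]
    exact Finset.sum_congr rfl fun j hj => by rw [up_of_lt (Finset.mem_range.1 hj)]
  | succ L h ih =>
    rw [show L + 1 + 2 = L + 2 + 1 from rfl, Finset.sum_range_succ, ih, Finset.sum_range_succ,
      up_of_le h]
    ring

theorem ev_symm (L : ℕ) (p r : St) : Ev L p r ↔ Ev L r p :=
  ⟨fun h f a b => h f b a, fun h f a b => h f b a⟩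

theorem ev_adj {i L : ℕ} (h : i ≤ L) (p r : St) : Ev (L + 2) (cup i p) r ↔ Ev L p (cap i r) := by
  constructor
  · rintro H g hg ⟨f, hf, h1, e⟩
    have := H f ⟨h1, (mem_congr e).2 hg⟩ hf
    rw [sum_up h h1] at this
    simpa only [e] using this
  · rintro H f ⟨h1, hf⟩ hr
    rw [sum_up h h1]
    exact H _ hf ⟨f, hr, h1, fun _ => rfl⟩

theorem not_ev {L : ℕ} {p r : St} (hp : Bd L p) (hr : Bd L r) :
    ¬ Ev (L + 2) (cupS L p) (cupS L r) := fun H => by
  let f : ℕ → K := fun j => if j = 0 then 1 else if j = L + 1 then -1 else 0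
  have hm : ∀ {s : St}, Bd L s → f ∈ cupS L s := fun hs => by
    refine mem_cupS.2 ⟨by simp [f], (mem_congr fun j => ?_).2 hs.zero_mem⟩
    simp only [f]
    split_ifs <;> first | omega | rfl | contradiction
  have := H f (hm hp) (hm hr)
  rw [Finset.sum_range_succ, Finset.sum_range_succ', Finset.sum_eq_zero fun j hj => by
    have := Finset.mem_range.1 hj
    simp only [f]
    rw [if_neg (by omega), if_neg (by omega), mul_zero], pow_succ, hp.even.neg_one_pow] at this
  simp only [f] at this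
  revert this
  simp
  decide

end FrmA

open FrmA in
theorem p_Frm :
    S_Frm := by
  refine ⟨⟨fun L u v => ?_, fun L i u v h => ?_, fun L u v hu hv => ?_, ?_⟩,
    ⟨fun L u v => ?_, fun L i u v h => ?_, fun L u v hu hv => ?_, ?_⟩⟩
  · have : Bil L = (Bil L).flip := Finsupp.lhom_ext fun p c => Finsupp.lhom_ext fun r d => by
      rw [LinearMap.flip_apply, Bil_single, Bil_single, propext (ev_symm L p r), mul_comm]
    exact LinearMap.congr_fun₂ this u v
  · have : Bil (L + 2) ∘ₗ Cup i = (Bil L).compl₂ (Cap i) :=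
      Finsupp.lhom_ext fun p c => Finsupp.lhom_ext fun r d => by
        rw [LinearMap.comp_apply, LinearMap.compl₂_apply, Cup, Cap, lm_single, lm_single,
          Bil_single, Bil_single, propext (ev_adj h p r)]
    exact LinearMap.congr_fun₂ this u v
  · rw [zero_mul]
    refine Sup.ext (f := (Bil (L + 2)).flip (CupS L v) ∘ₗ CupS L) (g := 0) (fun p hp => ?_) hu
    refine Sup.ext (f := Bil (L + 2) (CupS L (Finsupp.single p 1)) ∘ₗ CupS L) (g := 0)
      (fun r hr => ?_) hv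
    simp [CupS, not_ev hp hr]
  · simp [Ev]
  · rw [Bt_apply, Bt_apply, mul_comm]
  · simp [Bt_apply, Cup, Cap]
  · simp [Bt_apply, CupS]
  · simp [Bt_apply]

end Pool.Agent.P.MP_6c8efb_pr.One

end FrmS

section NsymS

/-! Step Nsym. -/

namespace Pool.Agent.P.MP_6c8efb_pr.One

open Polynomial Filter Topology
open Arm (q ah ac Nz Gen Near LPd LP1 TC Pt TConn q_eq q_cube q_ne_zero)

namespace NsymA

open Arm (nz_cons nz_nil nz_append nz_map_inv)

variable {a : ℂ} {B : ℕ → W →ₗ[ℂ] W →ₗ[ℂ] ℂ} {F : List ℂ → W}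

theorem adjE (hB : Frm a B) {L i : ℕ} (hi : i + 2 ≤ L) (u v : W) :
    B L (Ee i u) v = B L u (Ee i v) := by
  obtain ⟨M, rfl⟩ : ∃ M, L = M + 2 := ⟨L - 2, by omega⟩
  have hi' : i ≤ M := by omega
  rw [hB.symm (M + 2) u, Ee_eq, Module.End.mul_apply, Module.End.mul_apply, hB.adj M i _ _ hi',
    hB.adj M i _ _ hi', hB.symm]

theorem adjR (hB : Frm a B) {L i : ℕ} (hi : i + 2 ≤ L) (x y : ℂ) (u v : W) :
    B L (Rc i x y u) v = B L u (Rc i x y v) := by
  simp only [Rc_apply, LinearMap.add_apply, LinearMap.smul_apply, map_add, map_smul, adjE hB hi]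

/-- linear functionals of the solution are polynomials in each variable -/
theorem comp (hL : S_Lps) (h : Sol F) (φ : W →ₗ[ℂ] ℂ) (l₁ l₂ : List ℂ) :
    ∃ P : ℂ[X], P.natDegree ≤ l₁.length + l₂.length ∧ ∀ t, φ (F (l₁ ++ t :: l₂)) = P.eval t := by
  have key : ∀ p, ∃ P : ℂ[X], P.natDegree ≤ l₁.length + l₂.length ∧
      ∀ t, F (l₁ ++ t :: l₂) p = P.eval t := fun p => by
    obtain ⟨f, hf, e⟩ := h.mem (l₁.length + l₂.length + 1) p
    obtain ⟨P, h1, h2⟩ := hL.slice _ f hf l₁ l₂ rfl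
    exact ⟨P, h1, fun t => by rw [e _ (by simp; omega), h2]⟩
  choose P h1 h2 using key
  refine ⟨∑ p ∈ SL (l₁.length + l₂.length + 1), P p * C (φ (Finsupp.single p 1)),
    natDegree_sum_le_of_forall_le _ _ fun p _ => (natDegree_mul_C_le _ _).trans (h1 p), fun t => ?_⟩
  have s := h.sup (l₁ ++ t :: l₂)
  rw [List.length_append, List.length_cons, ← add_assoc] at s
  rw [s.map_eq φ, eval_finsetSum]
  exact Finset.sum_congr rfl fun p _ => by rw [eval_mul, eval_C, h2]

theorem lpd_inv_mul {d : ℕ} {P Q : ℂ[X]} (hP : P.natDegree ≤ d) (hQ : Q.natDegree ≤ d) :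
    LPd d fun t => P.eval t⁻¹ * Q.eval t := by
  refine ⟨P.reflect d * Q, natDegree_mul_le.trans ?_, fun t ht => ?_⟩
  · have : (P.reflect d).natDegree ≤ d := natDegree_reflect_le.trans (by simp [hP])
    omega
  · have hi : Invertible t⁻¹ := invertibleOfNonzero (inv_ne_zero ht)
    have := eval₂_reflect_mul_pow (RingHom.id ℂ) t⁻¹ d P hP
    simp only [eval₂_id, invOf_eq_inv, inv_inv] at this
    have e : t⁻¹ ^ d * t ^ d = 1 := by rw [← mul_pow, inv_mul_cancel₀ ht, one_pow]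
    show P.eval t⁻¹ * Q.eval t * t ^ d = _
    rw [eval_mul, ← this]
    linear_combination (eval t (reflect d P) * eval t Q) * e

theorem lpx (hL : S_Lps) (h : Sol F) (x₁ x₂ : List ℂ) :
    LPd (x₁.length + x₂.length) fun t => NN B F (x₁ ++ t :: x₂) := by
  have key : ∀ p : St, LPd (x₁.length + x₂.length) fun t =>
      F (x₁.map (·⁻¹) ++ t⁻¹ :: x₂.map (·⁻¹)) p *
        B (x₁.length + x₂.length + 1) (Finsupp.single p 1) (F (x₁ ++ t :: x₂)) := fun p => by
    obtain ⟨P, h1, h2⟩ := comp hL h (Finsupp.lapply p) (x₁.map (·⁻¹)) (x₂.map (·⁻¹))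
    obtain ⟨Q, h3, h4⟩ := comp hL h (B (x₁.length + x₂.length + 1) (Finsupp.single p 1)) x₁ x₂
    rw [List.length_map, List.length_map] at h1
    refine (lpd_inv_mul h1 h3).congr fun t _ => ?_
    rw [← h2, ← h4, Finsupp.lapply_apply]
  refine (Arm.LPd.sum (SL (x₁.length + x₂.length + 1)) fun p _ => key p).congr fun t _ => ?_
  have a5 := h.sup (x₁.map (·⁻¹) ++ t⁻¹ :: x₂.map (·⁻¹))
  have e : (x₁.map (·⁻¹) ++ t⁻¹ :: x₂.map (·⁻¹)).length = x₁.length + x₂.length + 1 := by
    simp; omega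
  have e' : (x₁ ++ t :: x₂).length = x₁.length + x₂.length + 1 := by simp; omega
  rw [e] at a5
  have a6 := a5.map_eq ((B (x₁.length + x₂.length + 1)).flip (F (x₁ ++ t :: x₂)))
  simp only [LinearMap.flip_apply] at a6
  rw [← a6, NN, e']
  simp only [List.map_append, List.map_cons]

theorem adj (hL : S_Lps) (hB : Frm a B) (h : Sol F) (x₁ x₂ : List ℂ) (s t : ℂ)
    (hx1 : Nz x₁) (hx2 : Nz x₂) (hs : s ≠ 0) (ht : t ≠ 0) :
    NN B F (x₁ ++ t :: s :: x₂) = NN B F (x₁ ++ s :: t :: x₂) := by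
  have l1 := (lpx (B := B) hL h (x₁ ++ [t]) x₂).lp1
  have l2 := (lpx (B := B) hL h x₁ (t :: x₂)).lp1
  simp only [List.append_assoc, List.cons_append, List.nil_append] at l1
  rw [← sub_eq_zero]
  refine (l1.sub l2).eq_zero' (B := {q ^ 2 * t, q * t}) (Set.toFinite _) (fun s hS hs => ?_) hs
  simp only [Set.mem_insert_iff, Set.mem_singleton_iff, not_or] at hS
  have n1 : q ^ 2 * t - s ≠ 0 := fun e => hS.1 (by linear_combination -e)
  have n2 : q ^ 2 * s - t ≠ 0 := fun e => hS.2 (by linear_combination q * e - s * q_cube)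
  have e1 := h.exch (x₁.map (·⁻¹)) s⁻¹ t⁻¹ (x₂.map (·⁻¹)) (by simp [hx1, hx2, hs, ht])
  have e2 := h.exch x₁ s t x₂ (by simp [hx1, hx2, hs, ht])
  have e3 : ∀ i, (s * t) • Rc i s⁻¹ t⁻¹ = Rc i t s := fun i => by
    simp only [Rc, smul_add, smul_smul]
    congr 2 <;> field_simp
  have e4 : (q ^ 2 * t - s) • F (x₁.map (·⁻¹) ++ t⁻¹ :: s⁻¹ :: x₂.map (·⁻¹)) =
      Rc x₁.length t s (F (x₁.map (·⁻¹) ++ s⁻¹ :: t⁻¹ :: x₂.map (·⁻¹))) := by
    rw [← e3, LinearMap.smul_apply]
    rw [List.length_map] at e1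
    rw [← e1, smul_smul]
    congr 1
    field_simp
  have e5 := adjR hB (L := x₁.length + (x₂.length + 1 + 1)) (i := x₁.length) (by omega) t s
    (F (x₁.map (·⁻¹) ++ s⁻¹ :: t⁻¹ :: x₂.map (·⁻¹)))
    (Rc x₁.length s t (F (x₁ ++ s :: t :: x₂)))
  rw [← Module.End.mul_apply (Rc _ t s) (Rc _ s t), Rc_unit, ← e4, ← e2] at e5
  simp only [map_smul, LinearMap.smul_apply, Module.End.one_apply, smul_eq_mul] at e5
  simp only [NN, List.map_append, List.map_cons, List.length_append, List.length_cons]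
  refine mul_left_cancel₀ (mul_ne_zero n2 n1) ?_
  linear_combination e5

theorem perm (hL : S_Lps) (hB : Frm a B) (h : Sol F) {x x' : List ℂ} (e : x.Perm x') :
    ∀ y, Nz y → Nz x → NN B F (y ++ x) = NN B F (y ++ x') := by
  induction e with
  | nil => intro _ _ _; rfl
  | cons c _ ih =>
    intro y hy hx
    rw [nz_cons] at hx
    simpa using ih (y ++ [c]) (by simp [hy, hx.1]) hx.2
  | swap c d l =>
    intro y hy hx
    rw [nz_cons, nz_cons] at hx
    exact adj hL hB h y l c d hy hx.2.2 hx.2.1 hx.1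
  | trans p1 _ ih1 ih2 =>
    intro y hy hx
    rw [ih1 y hy hx, ih2 y hy (hx.perm p1)]

theorem F_nil (h : Sol F) : F [] = Finsupp.single nil 1 := by
  classical
  have h0 : F [] nil = 1 := h.zero [] (by simp) nz_nil
  refine Finsupp.ext fun p => ?_
  rw [Finsupp.single_apply]
  split_ifs with e
  · rw [← e, h0]
  · by_contra c
    exact e (h.sup [] p c).eq_nil.symm

theorem contF (hL : S_Lps) (h : Sol F) (L : ℕ) (φ : W →ₗ[ℂ] ℂ) :
    Continuous fun v : Fin L → ℂ => φ (F (List.ofFn v)) := by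
  have key : ∀ p, Continuous fun v : Fin L → ℂ => F (List.ofFn v) p := fun p => by
    obtain ⟨f, hf, e⟩ := h.mem L p
    exact (hL.cont L f hf).congr fun v => (e _ List.length_ofFn).symm
  refine (continuous_finsetSum (SL L) fun p _ =>
    (key p).mul (continuous_const (y := φ (Finsupp.single p 1)))).congr fun v => ?_
  have s := h.sup (List.ofFn v)
  rw [List.length_ofFn] at s
  exact (s.map_eq φ).symm

theorem contN (hL : S_Lps) (h : Sol F) (L : ℕ) : Continuous fun ε => NN B F (pts L ε) := by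
  have c1 : Continuous fun ε : ℝ => fun j : Fin L =>
      Complex.exp ((ε * ((j : ℕ) + 1) : ℝ) : ℂ) := continuous_pi fun j => by fun_prop
  have c2 : Continuous fun ε : ℝ => fun j : Fin L =>
      (Complex.exp ((ε * ((j : ℕ) + 1) : ℝ) : ℂ))⁻¹ :=
    continuous_pi fun j => Continuous.inv₀ (by fun_prop) fun _ => Complex.exp_ne_zero _
  refine (continuous_finsetSum (SL L) fun p _ =>
    ((contF hL h L (Finsupp.lapply p)).comp c2).mul
      ((contF hL h L (B L (Finsupp.single p 1))).comp c1)).congr fun ε => ?_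
  have s := h.sup (List.ofFn fun j : Fin L => (Complex.exp ((ε * ((j : ℕ) + 1) : ℝ) : ℂ))⁻¹)
  rw [List.length_ofFn] at s
  have a6 := s.map_eq ((B L).flip (F (pts L ε)))
  simp only [LinearMap.flip_apply] at a6
  have e : (pts L ε).length = L := List.length_ofFn
  have e' : (pts L ε).map (·⁻¹) =
      List.ofFn fun j : Fin L => (Complex.exp ((ε * ((j : ℕ) + 1) : ℝ) : ℂ))⁻¹ := List.map_ofFn
  rw [NN, e, e', a6]
  rfl

theorem pts_zero (L : ℕ) : pts L 0 = List.replicate L 1 := by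
  simp [pts, List.ofFn_const]

end NsymA

theorem p_Nsym (hLps : S_Lps) :
    S_Nsym := by
  intro a B F hB h
  refine ⟨fun l l' hl e => NsymA.perm hLps hB h e [] Arm.nz_nil hl, fun l _ => ?_, ?_, fun L => ?_⟩
  · simpa using NsymA.lpx (B := B) hLps h [] l
  · rw [NN, List.map_nil, NsymA.F_nil h]
    exact hB.base
  · rw [← NsymA.pts_zero]
    exact (NsymA.contN hLps h L).tendsto 0

end Pool.Agent.P.MP_6c8efb_pr.One

end NsymS

section UqS

/-! Step Uq. -/

namespace Pool.Agent.P.MP_6c8efb_pr.One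

open Polynomial Filter Topology
open Arm (q ah ac Nz Gen Near LPd LP1 TC Pt TConn q_eq q_cube q_ne_zero)

namespace UqA

theorem split (l : List ℂ) (i : ℕ) (h : i + 2 ≤ l.length) :
    ∃ l₁ x y l₂, l = l₁ ++ x :: y :: l₂ ∧ l₁.length = i := by
  refine ⟨l.take i, l[i], l[i + 1], l.drop (i + 2), ?_, by simp; omega⟩
  rw [← List.drop_eq_getElem_cons, ← List.drop_eq_getElem_cons, List.take_append_drop]

end UqA

theorem p_Uq (hTri : S_Tri) :
    S_Uq := by
  classical
  intro n U G hG h0 l hl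
  have key := hTri n (fun a => ∀ l, Dom n U l → G l a = 0) h0 (fun a _ ha l hl => ?_)
    fun a i hi hb h1 h2 l hl => ?_
  · exact Finsupp.ext fun a => by_contra fun e => e (key a (hG.sup l hl a e) l hl)
  · cases l with
    | nil =>
      obtain rfl : n = 0 := hl.1.symm
      rw [rot_zero]; exact ha _ hl
    | cons x l =>
      rw [hG.cyc x l hl, Rot_apply]
      exact ha _ (hl.perm (List.perm_append_singleton x l).symm)
  · obtain ⟨l₁, x, y, l₂, rfl, rfl⟩ := UqA.split l i (hl.1 ▸ hi)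
    have e := DFunLike.congr_fun (hG.exch l₁ x y l₂ hl) (ee l₁.length a)
    have hxy : x - y ≠ 0 := sub_ne_zero.2 fun e =>
      (List.rel_of_pairwise_cons (List.pairwise_append.1 hl.2.2.2).2.1 List.mem_cons_self).1
        (by rw [e])
    rw [Rc_apply, Finsupp.add_apply, Finsupp.smul_apply, Finsupp.smul_apply, Finsupp.smul_apply,
      h1 _ hl, h1 _ (hl.perm ((List.Perm.swap y x l₂).append_left l₁)), smul_zero, smul_zero,
      zero_add, eq_comm, smul_eq_zero, Ee, (hG.sup _ hl).lm_apply,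
      Finset.sum_eq_single_of_mem a (by simpa using hb) fun c hc hca => by
        rw [Finset.mem_filter] at hc
        exact h2 c (mem_SL.1 hc.1) hc.2 hca _ hl] at e
    exact e.resolve_left (mul_ne_zero (neg_ne_zero.2 q_ne_zero) hxy)

end Pool.Agent.P.MP_6c8efb_pr.One

end UqS

section ArcS

/-! Step Arc. -/

namespace Pool.Agent.P.MP_6c8efb_pr.One

open Polynomial Filter Topology
open Arm (q ah ac Nz Gen Near LPd LP1 TC Pt TConn q_eq q_cube q_ne_zero)

namespace ArcA

open Arm (nz_cons nz_append nz_nil q_sq_ne)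

variable {F : List ℂ → W} {y : ℂ}

theorem cupB (h : Sol F) (hy : y ≠ 0) {l : List ℂ} (hl : Nz l) :
    F (l ++ [q * y, y]) = Cup l.length (Cap l.length (F (l ++ [q * y, y]))) := by
  have h1 := h.exch l y (q * y) [] (by simp [hl, hy, q_ne_zero])
  have e1 : q ^ 2 * (q * y) - y = 0 := by linear_combination y * q_cube
  have e2 : -q * (y - q * y) = q ^ 2 * y - q * y := by ring
  have e3 : q ^ 2 * y - q * y ≠ 0 := by
    rw [← sub_mul]; exact mul_ne_zero (sub_ne_zero.2 q_sq_ne) hy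
  rw [Rc_apply, e1, zero_smul, zero_add, e2] at h1
  rw [smul_right_injective W e3 h1, ← Module.End.mul_apply (Cap _), Cap_E, Ee_eq]
  rfl

theorem fusion (i : ℕ) (x y : ℂ) (w : W) : Rc (i + 1) x y (Rc i x (q * y) (Cup (i + 1) w)) =
    ((q ^ 2 * x - q * y) * (q ^ 2 * x - y)) • Cup i w := by
  have e1 : Ee i (Cup (i + 1) w) = Cup i w := LinearMap.congr_fun (E_Cup_succ i) w
  have e2 : Ee (i + 1) (Cup i w) = Cup (i + 1) w := LinearMap.congr_fun (E_succ_Cup i) w
  have e3 : Ee (i + 1) (Cup (i + 1) w) = Cup (i + 1) w := LinearMap.congr_fun (E_Cup _) w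
  simp only [Rc_apply, map_add, map_smul, e1, e2, e3]
  have h := q_eq
  match_scalars
  · linear_combination (x ^ 2 - q * (q + 1) * x * y + q ^ 3 * y ^ 2) * h
  · linear_combination (-(q * (q - 1)) * x ^ 2 + (q ^ 2 - q) * y ^ 2) * h

theorem cycB (h : Sol F) (hy : y ≠ 0) {x : ℂ} {l : List ℂ} (hl : Nz (x :: l)) (hx : x ^ 3 ≠ y ^ 3) :
    Cap (l.length + 1) (F (x :: l ++ [q * y, y])) =
      Rot (l.length + 1) (Cap (l.length + 1) (F (l ++ [x] ++ [q * y, y]))) := by
  obtain ⟨hx0, hl⟩ := nz_cons.1 hl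
  have h1 := h.exch l x (q * y) [y] (by simp [hl, hy, hx0, q_ne_zero])
  have h2 := h.exch (l ++ [q * y]) x y [] (by simp [hl, hy, hx0, q_ne_zero])
  have h3 := cupB h hy (l := l ++ [x]) (by simp [hl, hx0])
  have h4 := h.cyc x (l ++ [q * y, y]) (by simp [hl, hy, hx0, q_ne_zero])
  simp only [List.append_assoc, List.cons_append, List.nil_append, List.length_append,
    List.length_cons, List.length_nil, zero_add] at h1 h2 h3 h4 ⊢
  have e1 : q ^ 2 * x - q * y ≠ 0 := fun e => hx (by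
    have : q ^ 2 * x = q * y := sub_eq_zero.1 e
    linear_combination (congrArg (· ^ 3) this) + (y ^ 3 - (q ^ 3 + 1) * x ^ 3) * q_cube)
  have e2 : q ^ 2 * x - y ≠ 0 := fun e => hx (by
    have : q ^ 2 * x = y := sub_eq_zero.1 e
    linear_combination (congrArg (· ^ 3) this) - (q ^ 3 + 1) * x ^ 3 * q_cube)
  have h5 : F (l ++ [q * y, y, x]) =
      Cup l.length (Cap (l.length + 1) (F (l ++ [x, q * y, y]))) := by
    refine smul_right_injective W (mul_ne_zero e1 e2) ?_
    simp only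
    rw [← fusion, ← h3, ← h1, map_smul, ← h2, mul_smul]
  rw [h4, h5, ← Module.End.mul_apply (Rot _), show l.length + (1 + 1) + 1 = l.length + 1 + 2 from rfl,
    Rot_Cup le_rfl, Module.End.mul_apply, ← Module.End.mul_apply (Cap _), Cap_Cup]
  rfl

theorem cA_perm (y : ℂ) {l l' : List ℂ} (e : l.Perm l') : cA y l = cA y l' := by
  rw [cA, cA, (e.map _).prod_eq]

theorem zeroB (hP : S_Pref) (h : Sol F) (hy : y ≠ 0) {l : List ℂ} (hl : Nz l) (he : Even l.length) :
    Cap l.length (F (l ++ [q * y, y])) (o l.length) = cA y l * Pref l := by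
  have hz : Nz (y :: (l ++ [q * y])) := by simp [hl, hy, q_ne_zero]
  have h1 := h.cyc y (l ++ [q * y]) hz
  have h2 := h.zero _ (by simpa [Nat.even_add_one, parity_simps] using he) hz
  simp only [List.append_assoc, List.cons_append, List.nil_append, List.length_append,
    List.length_cons, List.length_nil, zero_add] at h1 h2
  rw [h1, cupB h hy hl, ← Module.End.mul_apply, ← CupS_eq, CupS_apply_o] at h2
  rw [h2, Pref, hP.append, cA, List.prod_map_mul]
  simp [Pref]
  ring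

end ArcA

theorem p_Arc (hUq : S_Uq) (hPref : S_Pref) :
    S_Arc := by
  intro F h y l hg he
  obtain ⟨⟨hy, -⟩, h1, h2⟩ := Arm.gen_cons.1 hg
  have key := hUq l.length {x | x ^ 3 ≠ y ^ 3}
    (fun l' => Cap l.length (F (l' ++ [q * y, y])) - cA y l' • F l') ⟨?_, ?_, ?_⟩ ?_ l
    ⟨rfl, fun x hx => (h1 x hx).1.symm, h2⟩
  · rw [ArcA.cupB h hy h2.nz, sub_eq_zero.1 key, map_smul]
  · intro l' hl
    have h3 := h.sup (l' ++ [q * y, y])
    have h4 := h.sup l'
    rw [List.length_append, hl.1] at h3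
    rw [hl.1] at h4
    exact (Sup.Cap h3 le_rfl).sub (h4.smul _)
  · intro l₁ x x' l₂ hl
    have h3 := h.exch l₁ x x' (l₂ ++ [q * y, y]) (by
      simpa [hy, q_ne_zero, and_assoc] using hl.2.2.nz)
    have h4 := h.exch l₁ x x' l₂ hl.2.2.nz
    have h5 : l₁.length + 2 ≤ l.length := by rw [← hl.1]; simp
    have h6 : ∀ v, Cap l.length (Rc l₁.length x x' v) = Rc l₁.length x x' (Cap l.length v) := by
      intro v
      have := LinearMap.congr_fun (Cap_E_far' h5) v
      simp only [Module.End.mul_apply] at this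
      simp only [Rc_apply, map_add, map_smul, this]
    simp only [List.append_assoc, List.cons_append]
    rw [smul_sub, ← map_smul, h3, h6, smul_comm, h4, map_sub, map_smul,
      ArcA.cA_perm y ((List.Perm.swap x x' l₂).append_left l₁)]
  · intro x l' hl
    have h3 := ArcA.cycB h hy hl.2.2.nz (hl.2.1 x (by simp))
    have h4 := h.cyc x l' hl.2.2.nz
    rw [show l'.length + 1 = l.length from hl.1] at h3 h4
    rw [h3, h4, map_sub, map_smul, ArcA.cA_perm y (List.perm_append_singleton x l')]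
  · intro l' hl
    have h3 := ArcA.zeroB hPref h hy hl.2.2.nz (hl.1 ▸ he)
    have h4 := h.zero l' (hl.1 ▸ he) hl.2.2.nz
    rw [hl.1] at h3 h4
    simp only [Finsupp.sub_apply, Finsupp.smul_apply, h3, h4, smul_eq_mul, sub_self]

end Pool.Agent.P.MP_6c8efb_pr.One

end ArcS

section NarcS

/-! Step Narc. -/

namespace Pool.Agent.P.MP_6c8efb_pr.One

open Polynomial Filter Topology
open Arm (q ah ac Nz Gen Near LPd LP1 TC Pt TConn q_eq q_cube q_ne_zero)

namespace NarcA

theorem cap_Rc (i : ℕ) (x y : ℂ) (v : W) : Cap i (Rc i x y v) = (q ^ 2 * x - y) • Cap i v := by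
  have e : Cap i (Ee i v) = Cap i v := LinearMap.congr_fun (Cap_E i) v
  rw [Rc_apply, map_add, map_smul, map_smul, e, ← add_smul]
  congr 1
  linear_combination (y - x) * q_eq

theorem fac {x y : ℂ} (hx : x ≠ 0) (hy : y ≠ 0) :
    (q ^ 2 * y - x) * (q ^ 2 * x - q * y) *
      ((q ^ 2 * (q ^ 2 * y⁻¹) - x⁻¹) * (q ^ 2 * x⁻¹ - q * (q ^ 2 * y⁻¹))) =
      (x - q ^ 2 * y) ^ 4 / (x * y) ^ 2 := by
  have e1 : q ^ 2 * x - q * y = q ^ 2 * (x - q ^ 2 * y) := by linear_combination q * y * q_cube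
  have e2 : q ^ 2 * (q ^ 2 * y⁻¹) - x⁻¹ = q * (x - q ^ 2 * y) / (x * y) := by
    field_simp
    linear_combination (q * x + y) * q_cube
  have e3 : q ^ 2 * x⁻¹ - q * (q ^ 2 * y⁻¹) = (q ^ 2 * y - x) / (x * y) := by
    field_simp
    linear_combination (-x) * q_cube
  rw [e1, e2, e3]
  linear_combination (x - q ^ 2 * y) ^ 4 / (x * y) ^ 2 * q_cube

theorem scal {y : ℂ} (hy : y ≠ 0) {l : List ℂ} (hl : Nz l) :
    cA y l * cA (q ^ 2 * y⁻¹) (l.map (·⁻¹)) = -3 * q ^ 2 * fA y l := by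
  induction l with
  | nil =>
    simp only [cA, fA, List.map_nil, List.prod_nil, mul_one]
    field_simp
    linear_combination q ^ 2 * (q ^ 2 - 3 * q + 3) * q_eq
  | cons x l ih =>
    have h := ih (Arm.nz_cons.1 hl).2
    simp only [cA, fA, List.map_cons, List.prod_cons] at h ⊢
    rw [← fac (Arm.nz_cons.1 hl).1 hy]
    linear_combination (q ^ 2 * y - x) * (q ^ 2 * x - q * y) *
      ((q ^ 2 * (q ^ 2 * y⁻¹) - x⁻¹) * (q ^ 2 * x⁻¹ - q * (q ^ 2 * y⁻¹))) * h

end NarcA

open NarcA in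
theorem p_Narc (hArc : S_Arc) :
    S_Narc := by
  intro a B F hB hF y l hg he
  have hy : y ≠ 0 := (Arm.nz_cons.1 hg.nz).1
  have hl : Nz l := (Arm.nz_cons.1 hg.nz).2
  have hw : y⁻¹ ≠ 0 := inv_ne_zero hy
  have hz : q ^ 2 * y⁻¹ ≠ 0 := mul_ne_zero (pow_ne_zero _ q_ne_zero) hw
  have g2 : Gen (q ^ 2 * y⁻¹ :: l.map (·⁻¹)) :=
    Arm.Gen.replace (x := y⁻¹) (gen_map_inv hg)
      (Or.inl (by linear_combination (q ^ 3 + 1) * y⁻¹ ^ 3 * q_cube))
  have e1 := hArc F hF _ _ g2 (by simpa using he)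
  have e2 := congrArg (Cap l.length)
    (hF.exch (l.map (·⁻¹)) (q ^ 2 * y⁻¹) y⁻¹ [] (by simp [hl, hz, hw]))
  have e3 : q * (q ^ 2 * y⁻¹) = y⁻¹ := by linear_combination y⁻¹ * q_cube
  have e4 : q ^ 2 * (q ^ 2 * y⁻¹) - y⁻¹ ≠ 0 := fun h =>
    mul_ne_zero (sub_ne_zero.2 Arm.q_ne_one) hw (by linear_combination h - q * y⁻¹ * q_cube)
  have e5 : Cap l.length (Cup l.length (F (l.map (·⁻¹)))) = F (l.map (·⁻¹)) :=
    LinearMap.congr_fun (Cap_Cup _) _
  rw [e3, List.length_map] at e1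
  rw [List.length_map, cap_Rc, map_smul, e1, map_smul, e5] at e2
  have e6 := smul_right_injective W e4 e2
  have e7 : (l ++ [q * y, y]).map (·⁻¹) = l.map (·⁻¹) ++ [q ^ 2 * y⁻¹, y⁻¹] := by
    simp only [List.map_append, List.map_cons, List.map_nil, mul_inv, Arm.q_inv]
  have e8 : (l ++ [q * y, y]).length = l.length + 2 := by simp
  rw [NN, NN, e7, e8, hArc F hF y l hg he, map_smul, hB.symm, hB.adj _ _ _ _ le_rfl, ← e6, map_smul,
    hB.symm, ← scal hy hl, smul_eq_mul, smul_eq_mul, mul_assoc]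

end Pool.Agent.P.MP_6c8efb_pr.One

end NarcS
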