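import Pool.Agent.P.MP_6c8efb_pr.One.Iface

section MoveS

/-! Step Move. -/

namespace Pool.Agent.P.MP_6c8efb_pr.One

open Polynomial Filter Topology
open Arm (q ah ac Nz Gen Near LPd LP1 TC Pt TConn q_eq q_cube q_ne_zero)

namespace MoveA

theorem key {G G' : ℝ → W} {X : W} {a b c : ℝ → ℂ} {a0 b0 c0 β γ : ℂ} (A : Module.End ℂ W)
    (h0 : a0 ≠ 0) (ha : Tendsto a atTop (𝓝 a0)) (hb : Tendsto b atTop (𝓝 b0))
    (hc : Tendsto c atTop (𝓝 c0)) (hβ : b0 = β * a0) (hγ : c0 = γ * a0)
    (e : ∀ᶠ u in atTop, a u • G' u = b u • G u + c u • A (G u)) (h : Lim G X) :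
    Lim G' (β • X + γ • A X) := by
  have h1 := h.smul (hb.div ha h0)
  have h2 := (h.map A).smul (hc.div ha h0)
  rw [hβ, mul_div_cancel_right₀ _ h0] at h1
  rw [hγ, mul_div_cancel_right₀ _ h0] at h2
  refine (h1.add h2).congr ?_
  filter_upwards [e, ha.eventually_ne h0] with u e1 e2
  have : G' u = (a u)⁻¹ • (a u • G' u) := by rw [smul_smul, inv_mul_cancel₀ e2, one_smul]
  rw [this, e1, smul_add, smul_smul, smul_smul]
  simp only [Pi.div_apply, div_eq_inv_mul]

theorem scale {v w z : W} {a b c t a' b' c' ν : ℂ} (ht : t ≠ 0) (e : a • v = b • w + c • z)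
    (ha : a = t * a') (hb : b = t * b') (hc : c = t * c') :
    a' • ν • v = b' • ν • w + c' • ν • z := by
  have : t • (a' • v) = t • (b' • w + c' • z) := by
    rw [smul_add, smul_smul, smul_smul, smul_smul, ← ha, ← hb, ← hc, e]
  have h2 : a' • v = b' • w + c' • z := smul_right_injective W ht this
  rw [smul_comm a' ν, h2, smul_add, smul_comm ν b', smul_comm ν c']

end MoveA

open MoveA in
theorem p_Move :
    S_Move := by
  intro F hF b ν s y l₁ l₂ i X he hρ hX
  rw [gg_apply]
  cases b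
  · simp only [Bool.false_eq_true, if_false] at hρ
    refine key (a := fun u => q ^ 2 - s u / y u) (b := fun u => q ^ 2 * (s u / y u) - 1)
      (c := fun u => -q * (1 - s u / y u)) (a0 := q ^ 2 - 0) (b0 := q ^ 2 * 0 - 1)
      (c0 := -q * (1 - 0)) (Ee i) (by simpa using q_ne_zero) (tendsto_const_nhds.sub hρ)
      ((hρ.const_mul _).sub_const _) ((tendsto_const_nhds.sub hρ).const_mul _) ?_ ?_ ?_ hX
    · show _ = -(q ^ 2) ^ 2 * _
      linear_combination (q ^ 3 + 1) * q_cube
    · show _ = -(q ^ 2) * _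
      linear_combination q * q_cube
    · filter_upwards [he] with u hu
      have hy : y u ≠ 0 := hu.2 _ (by simp)
      have e := hF.exch _ _ _ _ hu.2
      rw [Rc_apply, hu.1] at e
      rw [map_smul]
      refine scale hy e ?_ ?_ ?_ <;> field_simp
  · simp only [if_true] at hρ
    refine key (a := fun u => q ^ 2 * (y u / s u) - 1) (b := fun u => q ^ 2 - y u / s u)
      (c := fun u => -q * (y u / s u - 1)) (a0 := q ^ 2 * 0 - 1) (b0 := q ^ 2 - 0)
      (c0 := -q * (0 - 1)) (Ee i) (by simp) ((hρ.const_mul _).sub_const _)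
      (tendsto_const_nhds.sub hρ) ((hρ.sub_const _).const_mul _) ?_ ?_ ?_ hX
    · show _ = -q ^ 2 * _
      ring
    · show _ = -q * _
      ring
    · filter_upwards [he] with u hu
      have hs : s u ≠ 0 := hu.2 _ (by simp)
      have e := hF.exch _ _ _ _ hu.2
      rw [Rc_apply, hu.1] at e
      rw [map_smul]
      refine scale hs e ?_ ?_ ?_ <;> field_simp

end Pool.Agent.P.MP_6c8efb_pr.One

end MoveS

section FamS

/-! Step Fam. -/

namespace Pool.Agent.P.MP_6c8efb_pr.One

open Polynomial Filter Topology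
open Arm (q ah ac Nz Gen Near LPd LP1 TC Pt TConn q_eq q_cube q_ne_zero)

namespace FamA

theorem sc_ne (b : Bool) : ∀ᶠ u : ℝ in atTop, sc b u ≠ 0 := by
  filter_upwards [eventually_gt_atTop (0 : ℝ)] with u hu
  have : (u : ℂ) ≠ 0 := Complex.ofReal_ne_zero.2 hu.ne'
  cases b <;> simp [sc, this]

theorem inv_lim : Tendsto (fun u : ℝ => (u : ℂ)⁻¹) atTop (𝓝 0) := by
  have := (Complex.continuous_ofReal.tendsto 0).comp (tendsto_inv_atTop_zero (𝕜 := ℝ))
  simpa [Function.comp_def] using this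

/-- `z` is much larger (or much smaller) than every non zero constant -/
def Big (b : Bool) (z : ℝ → ℂ) : Prop :=
  ∀ y : ℂ, Tendsto (fun u => if b then y / z u else z u / y) atTop (𝓝 0)

theorem big_s (b : Bool) : Big b (sc b) := by
  intro y
  cases b
  · simpa [sc, div_eq_mul_inv] using inv_lim.mul_const y⁻¹
  · simpa [sc, div_eq_mul_inv] using inv_lim.const_mul y

theorem big_t (b : Bool) : Big b (fun u => sc b u ^ 2) := by
  intro y
  cases b
  · simpa [sc, div_eq_mul_inv] using (inv_lim.pow 2).mul_const y⁻¹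
  · simpa [sc, div_eq_mul_inv] using (inv_lim.pow 2).const_mul y

theorem big_st (b : Bool) :
    Tendsto (fun u => if b then sc b u / sc b u ^ 2 else sc b u ^ 2 / sc b u) atTop (𝓝 0) := by
  refine inv_lim.congr' ?_
  filter_upwards [eventually_gt_atTop (0 : ℝ)] with u hu
  have : (u : ℂ) ≠ 0 := Complex.ofReal_ne_zero.2 hu.ne'
  cases b
  · simp only [sc, Bool.false_eq_true, if_false]; field_simp
  · simp only [sc, if_true]; field_simp

theorem pass (hMove : S_Move) {F : List ℂ → W} (hF : Sol F) {b : Bool} {ν z : ℝ → ℂ}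
    (hz : Big b z) (x : List ℂ) : ∀ (rest : ℝ → List ℂ) (Y : W),
    (∀ᶠ u in atTop, Nz (x ++ z u :: rest u)) →
    Lim (fun u => ν u • F (x ++ z u :: rest u)) Y →
    Lim (fun u => ν u • F (z u :: (x ++ rest u))) (bdn (rb b) x.length Y) := by
  induction x using List.reverseRecOn with
  | nil => intro rest Y _ h; simpa [bdn] using h
  | append_singleton x y ih =>
    intro rest Y hn h
    simp only [List.append_assoc, List.singleton_append] at hn h ⊢
    have h1 := hMove F hF b ν z (fun _ => y) (fun _ => x) rest x.length Y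
      (hn.mono fun u hu => ⟨rfl, hu⟩) (hz y) h
    have h2 := ih (fun u => y :: rest u) _ (hn.mono fun u hu a ha => hu a (by
      simp only [List.mem_append, List.mem_cons] at ha ⊢; tauto)) h1
    simpa [bdn] using h2

theorem ex (hLps : S_Lps) {F : List ℂ → W} (hF : Sol F) (b : Bool) (n : ℕ) (x : List ℂ) :
    ∃ X : W, x.length = n → Sup (n + 2) X ∧
      Lim (fun u => nu b n u • F (x ++ [sc b u, sc b u ^ 2])) X := by
  by_cases hx : x.length = n
  swap
  · exact ⟨0, fun h => absurd h hx⟩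
  have hl : ∀ u : ℝ, (x ++ [sc b u, sc b u ^ 2]).length = n + 2 := fun u => by simp [hx]
  have : ∀ p, ∃ c, Tendsto (fun u : ℝ => nu b n u * F (x ++ [sc b u, sc b u ^ 2]) p) atTop
      (𝓝 c) := by
    intro p
    obtain ⟨f, hf, e⟩ := hF.mem (n + 2) p
    simpa only [e _ (hl _)] using hLps.lim n f hf b x hx
  choose c hc using this
  refine ⟨∑ p ∈ SL (n + 2), c p • Finsupp.single p 1, fun _ => ⟨?_, fun φ => ?_⟩⟩
  · exact Finset.sum_induction _ (Sup (n + 2)) (fun _ _ h h' => h.add h') (sup_zero _)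
      fun p hp => (sup_single (mem_SL.1 hp) 1).smul _
  · have e : ∀ u : ℝ, φ (nu b n u • F (x ++ [sc b u, sc b u ^ 2])) = ∑ p ∈ SL (n + 2),
        nu b n u * F (x ++ [sc b u, sc b u ^ 2]) p * φ (Finsupp.single p 1) := fun u => by
      have h := (hF.sup (x ++ [sc b u, sc b u ^ 2])).smul (nu b n u)
      rw [hl] at h
      rw [h.map_eq φ]; rfl
    simp only [e, map_sum, map_smul, smul_eq_mul]
    exact tendsto_finsetSum _ fun p _ => (hc p).mul_const _

theorem nz_ev (b : Bool) {x : List ℂ} (hx : Nz x) :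
    ∀ᶠ u : ℝ in atTop, ∀ a, a ∈ x ∨ a = sc b u ∨ a = sc b u ^ 2 → a ≠ 0 := by
  filter_upwards [sc_ne b] with u hu a ha
  rcases ha with ha | rfl | rfl
  · exact hx a ha
  · exact hu
  · exact pow_ne_zero _ hu

end FamA

open FamA in
theorem p_Fam (hMove : S_Move) (hLps : S_Lps) (hPref : S_Pref) :
    S_Fam := by
  intro F hF b n hn
  choose X hX using ex hLps hF b n
  have swap : ∀ x, x.length = n → Nz x →
      Lim (fun u => nu b n u • F (x ++ [sc b u ^ 2, sc b u])) (gg (rb b) n (X x)) :=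
    fun x hx hz => hMove F hF b _ (fun u => sc b u ^ 2) (sc b) (fun _ => x) (fun _ => []) n _
      ((nz_ev b hz).mono fun u hu => ⟨hx, fun a ha => hu a (by simpa using ha)⟩) (big_st b)
      (hX x hx).2
  refine ⟨X, fun x hx _ => (hX x hx).2, fun x hx _ => (hX x hx).1, ?_, ?_, ?_, ?_, ?_⟩
  · intro l₁ x y l₂ hx hz
    have h1 := ((hX _ hx).2).map (Rc l₁.length x y)
    have h2 := ((hX (l₁ ++ y :: x :: l₂) (by simpa using hx)).2).smul
      (tendsto_const_nhds (x := q ^ 2 * x - y))
    refine h2.unique (h1.congr ((nz_ev b hz).mono fun u hu => ?_))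
    have := hF.exch l₁ x y (l₂ ++ [sc b u, sc b u ^ 2]) fun a ha => hu a (by
      simp only [List.mem_append, List.mem_cons, List.not_mem_nil] at ha ⊢; tauto)
    simp only [List.append_assoc, List.cons_append, map_smul]
    rw [← this, smul_comm]
  · intro x hx hz
    have h1 := pass hMove hF (big_t b) x (fun u => [sc b u]) _ ((nz_ev b hz).mono fun u hu a ha =>
      hu a (by simp only [List.mem_append, List.mem_cons, List.not_mem_nil] at ha ⊢; tauto))
      (swap x hx hz)
    rw [hx] at h1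
    refine (((hX x hx).2.map (Rot (n + 2))).congr ((nz_ev b hz).mono fun u hu => ?_)).unique h1
    have := hF.cyc (sc b u ^ 2) (x ++ [sc b u]) fun a ha => hu a (by
      simp only [List.mem_append, List.mem_cons, List.not_mem_nil] at ha ⊢; tauto)
    rw [this, map_smul]
    simp [hx]
  · intro x hx hz
    have h1 := pass hMove hF (big_s b) x (fun u => [sc b u ^ 2]) _
      ((nz_ev b hz).mono fun u hu a ha => hu a (by simpa using ha)) (hX x hx).2
    rw [hx] at h1
    refine h1.unique (((swap x hx hz).map (Rot (n + 2))).congr ((nz_ev b hz).mono fun u hu => ?_))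
    have := hF.cyc (sc b u) (x ++ [sc b u ^ 2]) fun a ha => hu a (by
      simp only [List.mem_append, List.mem_cons, List.not_mem_nil] at ha ⊢; tauto)
    rw [this, map_smul]
    simp [hx]
  · intro y x hx hz
    have h0 := (hX (x ++ [y]) (by simpa using hx)).2
    simp only [List.append_assoc, List.singleton_append] at h0
    have h1 := hMove F hF b _ (sc b) (fun _ => y) (fun _ => x) (fun u => [sc b u ^ 2]) x.length _
      ((nz_ev b hz).mono fun u hu => ⟨rfl, fun a ha => hu a (by
        simp only [List.mem_append, List.mem_cons, List.not_mem_nil] at ha ⊢; tauto)⟩)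
      (big_s b y) h0
    have h2 := hMove F hF b (nu b n) (fun u => sc b u ^ 2) (fun _ => y) (fun u => x ++ [sc b u])
      (fun _ => []) n _
      ((nz_ev b hz).mono fun u hu => ⟨by simpa using hx, fun a ha => hu a (by
        simp only [List.mem_append, List.mem_cons, List.not_mem_nil] at ha ⊢; tauto)⟩)
      (big_t b y) (by simpa only [List.append_assoc, List.singleton_append] using h1)
    refine (hX _ hx).2.unique ((h2.map (Rot (n + 2))).congr ((nz_ev b hz).mono fun u hu => ?_))
    have := hF.cyc y (x ++ [sc b u, sc b u ^ 2]) fun a ha => hu a (by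
      simp only [List.mem_append, List.mem_cons, List.not_mem_nil] at ha ⊢; tauto)
    rw [List.cons_append, this, map_smul]
    simp [← hx]
  · intro x hx hz
    have h1 := (hX x hx).2 (Finsupp.lapply (o (n + 2)))
    have h2 := hPref.lim b x (hx ▸ hn)
    refine tendsto_nhds_unique h1 (h2.congr' ((nz_ev b hz).mono fun u hu => ?_))
    have hl : (x ++ [sc b u, sc b u ^ 2]).length = n + 2 := by simp [hx]
    have := hF.zero (x ++ [sc b u, sc b u ^ 2]) (by rw [hl]; exact hn.add even_two)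
      fun a ha => hu a (by simpa using ha)
    rw [hl] at this
    simp [this, hx]

end Pool.Agent.P.MP_6c8efb_pr.One

end FamS

section JmS

/-! Step Jm. -/

namespace Pool.Agent.P.MP_6c8efb_pr.One

open Polynomial Filter Topology
open Arm (q ah ac Nz Gen Near LPd LP1 TC Pt TConn q_eq q_cube q_ne_zero)

namespace JmA

/-- the product `gg s k * ... * gg s 1` -/
noncomputable def sh (s : ℂ) : ℕ → Module.End ℂ W
  | 0 => 1
  | k + 1 => gg s (k + 1) * sh s k

theorem Rot_gg (s : ℂ) {L i : ℕ} (h : i + 3 ≤ L) : Rot L * gg s i = gg s (i + 1) * Rot L := by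
  simp only [gg, mul_add, add_mul, mul_smul_comm, smul_mul_assoc, mul_one, one_mul, Rot_E h]

theorem Rot_bup (s : ℂ) {n : ℕ} : ∀ k, k ≤ n → Rot (n + 2) * bup s k = sh s k * Rot (n + 2)
  | 0, _ => by simp [bup, sh]
  | k + 1, h => by
    rw [bup, sh, ← mul_assoc, Rot_gg s (by omega), mul_assoc, Rot_bup s k (by omega), mul_assoc]

theorem gg_comm (r s : ℂ) {i j : ℕ} (h : i + 2 ≤ j) : gg r i * gg s j = gg s j * gg r i := by
  simp only [gg, mul_add, add_mul, mul_smul_comm, smul_mul_assoc, mul_one, one_mul, E_comm h]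
  module

theorem bdn_comm (r s : ℂ) {j : ℕ} : ∀ k, k < j → bdn r k * gg s j = gg s j * bdn r k
  | 0, _ => by simp [bdn]
  | k + 1, h => by
    rw [bdn, mul_assoc, gg_comm r s (by omega), ← mul_assoc, bdn_comm r s k (by omega), mul_assoc]

theorem gg_Cup {r : ℂ} (h : r ^ 2 + r + 1 = 0) (j : ℕ) :
    gg r j * Cup (j + 1) = gg (r ^ 2) (j + 1) * Cup j := by
  have e : (r ^ 2) ^ 2 = r := by linear_combination (r ^ 2 - r) * h
  simp only [gg, add_mul, smul_mul_assoc, one_mul, E_Cup_succ, E_succ_Cup, e]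
  exact add_comm _ _

theorem bdn_Cup {r : ℂ} (h : r ^ 2 + r + 1 = 0) : ∀ n, bdn r n * Cup n = sh (r ^ 2) n * Cup 0
  | 0 => rfl
  | n + 1 => by
    rw [bdn, sh, mul_assoc, gg_Cup h, ← mul_assoc, bdn_comm _ _ n (by omega), mul_assoc,
      bdn_Cup h n, mul_assoc]

theorem key {r : ℂ} (h : r ^ 2 + r + 1 = 0) (n : ℕ) :
    bdn r n * Cup n = Rot (n + 2) * Hh r n := by
  rw [Hh, ← mul_assoc, Rot_bup _ n le_rfl, mul_assoc, Rot_CupS, bdn_Cup h]

end JmA

theorem p_Jm :
    S_Jm := by
  intro r n X h h1 h2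
  have e : Ee n X = Cup n (Cap n X) := LinearMap.congr_fun (Ee_eq n) X
  have k : bdn r n (Cup n (Cap n X)) = Rot (n + 2) (Hh r n (Cap n X)) :=
    LinearMap.congr_fun (JmA.key h n) _
  rw [gg_apply, map_add, map_smul, map_smul, h2, e, k, ← map_smul (Rot (n + 2)),
    ← map_smul (Rot (n + 2)), ← map_add] at h1
  have h3 := Rot_injective _ h1
  rw [gg_apply, e] at h3
  have h4 : r ^ 3 = 1 := by linear_combination (r - 1) * h
  have h5 : (-r ^ 2) • ((-r ^ 2) • X + (-r) • Cup n (Cap n X)) = r • X + Cup n (Cap n X) := by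
    match_scalars
    · linear_combination r * h4
    · linear_combination h4
  rw [h5] at h3
  rw [sub_smul, one_smul, sub_eq_iff_eq_add]
  refine h3.trans ?_
  module

end Pool.Agent.P.MP_6c8efb_pr.One

end JmS

section TopS

/-! Step Top. -/

namespace Pool.Agent.P.MP_6c8efb_pr.One

open Polynomial Filter Topology
open Arm (q ah ac Nz Gen Near LPd LP1 TC Pt TConn q_eq q_cube q_ne_zero)

namespace TopA

theorem cap_gg {r : ℂ} (h : r ^ 2 + r + 1 = 0) (j : ℕ) (v : W) :
    Cap j (gg r (j + 1) (gg r j v)) = Cap (j + 1) v := by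
  have e : ∀ w : W, Cap j (gg r (j + 1) w) = Cap (j + 1) (gg (r ^ 2) j w) := fun w => by
    have e1 : Cap j (Ee (j + 1) w) = Cap (j + 1) w := LinearMap.congr_fun (Cap_E_succ j) w
    have e2 : Cap (j + 1) (Ee j w) = Cap j w := LinearMap.congr_fun (Cap_succ_E j) w
    simp only [gg_apply, map_add, map_smul, e1, e2]
    match_scalars
    · ring
    · linear_combination (r ^ 2 - r) * h
  have e3 : gg (r ^ 2) j (gg r j v) = v := LinearMap.congr_fun (gg_inv h j) v
  rw [e, e3]

theorem bup_o {r : ℂ} (h : r ^ 2 + r + 1 = 0) {L : ℕ} (hL : Even L) (v : W) :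
    ∀ k, k + 1 ≤ L → bup (r ^ 2) k v (o L) = (-r) ^ k * v (o L)
  | 0, _ => by simp [bup]
  | k + 1, hk => by
    rw [bup, Module.End.mul_apply, gg_apply, Finsupp.add_apply, Finsupp.smul_apply,
      Finsupp.smul_apply, Ee_apply_o hL (by omega), bup_o h hL v k (by omega), smul_eq_mul,
      smul_zero, add_zero]
    linear_combination (-(r ^ 2 - r) * (-r) ^ k * v (o L)) * h

theorem bc_perm (b : Bool) {l l' : List ℂ} (e : l.Perm l') : bc b l = bc b l' := by
  simp only [bc, PR, e.length_eq, e.prod_eq]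

theorem cap_Rc {n i : ℕ} (h : i + 2 ≤ n) (x y : ℂ) (v : W) :
    Cap n (Rc i x y v) = Rc i x y (Cap n v) := by
  have e : Cap n (Ee i v) = Ee i (Cap n v) := LinearMap.congr_fun (Cap_E_far' h) v
  simp only [Rc_apply, map_add, map_smul, e]

theorem bc_ov (b : Bool) (x : List ℂ) (c : ℂ)
    (h : (1 - rb b) * ov b x = -(rb b * (rb b ^ x.length * c))) : c = bc b x * Pref x := by
  have hq : q ^ x.length ≠ 0 := pow_ne_zero _ q_ne_zero
  have hq' : q ≠ 0 := q_ne_zero
  cases b
  · simp only [rb, ov, bc, Bool.false_eq_true, if_false] at h ⊢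
    rw [← pow_mul, mul_comm 2, pow_mul] at h
    field_simp
    refine mul_left_cancel₀ (mul_ne_zero (pow_ne_zero 2 hq') hq) ?_
    linear_combination h
  · simp only [rb, ov, bc, if_true] at h ⊢
    field_simp
    linear_combination h

end TopA

open TopA in
theorem p_Top (hFam : S_Fam) (hJm : S_Jm) (hUq : S_Uq) (hPref : S_Pref) :
    S_Top := by
  intro F hF b x hx he
  obtain ⟨X, hX⟩ := hFam F hF b x.length he
  have hr := rb_eq b
  have hJ : ∀ l : List ℂ, l.length = x.length → Nz l → (1 - rb b) • X l =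
      Cup x.length (Cap x.length (X l)) - rb b • Hh (rb b) x.length (Cap x.length (X l)) :=
    fun l hl hn => hJm _ _ _ hr (hX.rot1 l hl hn) (hX.rot2 l hl hn)
  refine ⟨X x, hX.lim x rfl hx.nz, hX.sup x rfl hx.nz, ?_, hJ x rfl hx.nz⟩
  have hQ : Qkz x.length Set.univ fun l => Cap x.length (X l) - bc b l • F l := by
    refine ⟨fun l hl => ?_, fun l₁ a c l₂ hl => ?_, fun y l hl => ?_⟩
    · exact ((hX.sup l hl.1 hl.2.2.nz).Cap le_rfl).sub ((hl.1 ▸ hF.sup l).smul _)
    · have h1 := hX.exch l₁ a c l₂ hl.1 hl.2.2.nz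
      have h2 := hF.exch l₁ a c l₂ hl.2.2.nz
      have hi : l₁.length + 2 ≤ x.length := by
        have := hl.1
        simp only [List.length_append, List.length_cons] at this
        omega
      have hp : bc b (l₁ ++ c :: a :: l₂) = bc b (l₁ ++ a :: c :: l₂) :=
        bc_perm b ((List.Perm.swap a c l₂).append_left l₁)
      rw [smul_sub, ← map_smul, h1, cap_Rc hi, hp, smul_comm, h2, map_sub, map_smul]
    · have h1 := hX.cyc y l hl.1 hl.2.2.nz
      have h2 := hF.cyc y l hl.2.2.nz
      have hn : x.length = l.length + 1 := hl.1.symm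
      have hp : bc b (y :: l) = bc b (l ++ [y]) :=
        bc_perm b (List.perm_append_singleton y l).symm
      have e : ∀ w : W, Cap (l.length + 1) (Rot (l.length + 1 + 2) w) =
          Rot (l.length + 1) (Cap l.length w) := fun w => LinearMap.congr_fun (Cap_Rot le_rfl) w
      rw [h1, h2, hp, hn, e, cap_gg hr, map_sub, map_smul]
  have h0 := hUq _ _ _ hQ (fun l hl => ?_) x ⟨rfl, fun _ _ => trivial, hx⟩
  · exact sub_eq_zero.1 h0
  · have h1 := congrArg (fun v : W => v (o (x.length + 2))) (hJ l hl.1 hl.2.2.nz)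
    have he2 : Even (x.length + 2) := he.add even_two
    simp only [Finsupp.smul_apply, Finsupp.sub_apply, smul_eq_mul, Hh, Module.End.mul_apply] at h1
    rw [hX.zero l hl.1 hl.2.2.nz, Cup_apply_o he2 le_rfl, bup_o hr he2 _ _ (by omega),
      CupS_apply_o, he.neg_pow, zero_sub] at h1
    have h2 := hF.zero l (hl.1 ▸ he) hl.2.2.nz
    rw [hl.1] at h2
    rw [Finsupp.sub_apply, Finsupp.smul_apply, smul_eq_mul, h2, sub_eq_zero]
    refine bc_ov b l _ ?_
    rw [hl.1]
    exact h1

end Pool.Agent.P.MP_6c8efb_pr.One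

end TopS

section NtopS

/-! Step Ntop. -/

namespace Pool.Agent.P.MP_6c8efb_pr.One

open Polynomial Filter Topology
open Arm (q ah ac Nz Gen Near LPd LP1 TC Pt TConn q_eq q_cube q_ne_zero)

namespace NtopA

variable {a : ℂ} {B : ℕ → W →ₗ[ℂ] W →ₗ[ℂ] ℂ}

theorem gg_adj (h : Frm a B) {n i : ℕ} (hi : i ≤ n) (r : ℂ) (u v : W) :
    B (n + 2) (gg r i u) v = B (n + 2) u (gg r i v) := by
  have e : ∀ u v, B (n + 2) (Ee i u) v = B n (Cap i u) (Cap i v) := fun u v => by
    rw [Ee_eq, Module.End.mul_apply, h.adj n i _ _ hi]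
  simp only [gg_apply, map_add, map_smul, LinearMap.add_apply, LinearMap.smul_apply]
  rw [e, h.symm _ u (Ee i v), e, h.symm n]

theorem bup_adj (h : Frm a B) {n : ℕ} {r : ℂ} (hr : r ^ 2 + r + 1 = 0) (u v : W) :
    ∀ k, k ≤ n → B (n + 2) (bup (r ^ 2) k u) (bup r k v) = B (n + 2) u v
  | 0, _ => rfl
  | k + 1, hk => by
    rw [bup, bup, Module.End.mul_apply, Module.End.mul_apply, gg_adj h (by omega),
      ← Module.End.mul_apply (gg _ k), gg_inv hr, Module.End.one_apply, bup_adj h hr u v k (by omega)]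

theorem cap_Hh {n : ℕ} {r : ℂ} (hr : r ≠ 0) {X : W}
    (e : (1 - r) • X = Cup n (Cap n X) - r • Hh r n (Cap n X)) :
    Cap n (Hh r n (Cap n X)) = Cap n X := by
  have := congrArg (Cap n) e
  rw [map_smul, map_sub, map_smul, ← Module.End.mul_apply (Cap n) (Cup n), Cap_Cup,
    Module.End.one_apply, sub_smul, one_smul, sub_right_inj] at this
  exact (smul_right_injective _ hr this).symm

theorem key (h : Frm a B) {n : ℕ} {X Y : W} (hX : Sup (n + 2) X) (hY : Sup (n + 2) Y)
    (eX : (1 - q) • X = Cup n (Cap n X) - q • Hh q n (Cap n X))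
    (eY : (1 - q ^ 2) • Y = Cup n (Cap n Y) - q ^ 2 • Hh (q ^ 2) n (Cap n Y)) :
    3 * B (n + 2) Y X = (2 + a) * B n (Cap n Y) (Cap n X) := by
  have h1 : B (n + 2) ((1 - q ^ 2) • Y) ((1 - q) • X) = 3 * B (n + 2) Y X := by
    simp only [map_smul, LinearMap.smul_apply, smul_eq_mul]
    linear_combination (q - 2) * B (n + 2) Y X * q_eq
  have h2 : B (n + 2) (Hh (q ^ 2) n (Cap n Y)) (Hh q n (Cap n X)) =
      a * B n (Cap n Y) (Cap n X) := by
    rw [Hh, Hh, Module.End.mul_apply, Module.End.mul_apply,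
      bup_adj h (r := q ^ 2) (rb_eq false) _ _ n le_rfl,
      h.seam n _ _ (hY.Cap le_rfl) (hX.Cap le_rfl)]
  have h3 : Cap n (Cup n (Cap n X)) = Cap n X := by
    rw [← Module.End.mul_apply (Cap n) (Cup n), Cap_Cup, Module.End.one_apply]
  rw [← h1, eX, eY]
  simp only [map_sub, map_smul, LinearMap.sub_apply, LinearMap.smul_apply, smul_eq_mul]
  rw [h2, h.adj n n _ _ le_rfl, h.adj n n _ _ le_rfl, h.symm _ (Hh _ _ _), h.adj n n _ _ le_rfl,
    cap_Hh q_ne_zero eX, cap_Hh (pow_ne_zero 2 q_ne_zero) eY, h3, h.symm n (Cap n X)]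
  linear_combination (a * (q - 1) - 1) * B n (Cap n Y) (Cap n X) * q_eq

theorem PR_inv (x : List ℂ) : PR (x.map (·⁻¹)) = (PR x)⁻¹ := by
  induction x with
  | nil => simp [PR]
  | cons y l ih => simp only [PR, List.map_cons, List.prod_cons, mul_inv] at ih ⊢; rw [ih]

theorem bc_mul (x : List ℂ) :
    bc false (x.map (·⁻¹)) * bc true x = -3 * q ^ (x.length + 2) * (PR x ^ 2)⁻¹ := by
  have e : q ^ (x.length + 2) = (q ^ x.length)⁻¹ * (q ^ (x.length + 1))⁻¹ := by
    rw [← mul_inv]
    refine eq_inv_of_mul_eq_one_left ?_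
    rw [← pow_add, ← pow_add, show x.length + 2 + (x.length + (x.length + 1)) = 3 * (x.length + 1) by
      ring, pow_mul, q_cube, one_pow]
  simp only [bc, PR_inv, List.length_map, e, inv_pow, if_true, Bool.false_eq_true, if_false]
  linear_combination (2 - q) * (q ^ x.length)⁻¹ * (q ^ (x.length + 1))⁻¹ * (PR x ^ 2)⁻¹ * q_eq

end NtopA

theorem p_Ntop (hTop : S_Top) :
    S_Ntop := by
  intro a B F h hF x hx he
  obtain ⟨X, lX, sX, cX, eX⟩ := hTop F hF true x hx he
  obtain ⟨Y, lY, sY, cY, eY⟩ := hTop F hF false _ (gen_map_inv hx) (by simpa using he)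
  rw [List.length_map] at lY sY cY eY
  have k := NtopA.key h sX sY eX eY
  have l := lY.bil lX (L := x.length + 2)
    (fun u => (by simpa using hF.sup (x.map (·⁻¹) ++ [sc false u, sc false u ^ 2]) :
      Sup (x.length + 2) _).smul _) sY (B (x.length + 2))
  have v : B (x.length + 2) Y X = -(2 + a) * q ^ (x.length + 2) * (PR x ^ 2)⁻¹ * NN B F x := by
    rw [cX, cY] at k
    simp only [map_smul, LinearMap.smul_apply, smul_eq_mul] at k
    rw [NN]
    linear_combination (1 / 3) * k +
      (1 / 3) * (2 + a) * B x.length (F (x.map (·⁻¹))) (F x) * NtopA.bc_mul x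
  rw [v] at l
  refine l.congr' ((eventually_gt_atTop 0).mono fun u hu => ?_)
  have hu' : (u : ℂ) ≠ 0 := by exact_mod_cast hu.ne'
  simp only [map_smul, LinearMap.smul_apply, smul_eq_mul, NN, nu, sc, List.map_append,
    List.map_cons, List.map_nil, List.length_append, List.length_cons, List.length_nil, inv_pow,
    if_true, Bool.false_eq_true, if_false]
  field_simp
  ring

end Pool.Agent.P.MP_6c8efb_pr.One

end NtopS
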