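import Pool.Agent.P.MP_6c8efb_pr.One.Iface
import Pool.Agent.P.MP_6c8efb_pr.Arm.Qperm

section DpermS

/-! Step Dperm. -/

namespace Pool.Agent.P.MP_6c8efb_pr.One

open Polynomial Filter Topology
open Arm (q ah ac Nz Gen Near LPd LP1 TC Pt TConn q_eq q_cube q_ne_zero)

namespace DpermA

theorem pq {l l' : List ℂ} (h : l.Perm l') : PQ l = PQ l' := by
  induction h with
  | nil => rfl
  | cons x h ih => rw [PQ, PQ, ih, (h.map _).prod_eq]
  | swap x y l => simp only [PQ, List.map_cons, List.prod_cons]; ring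
  | trans _ _ h1 h2 => exact h1.trans h2

theorem vd {l l' : List ℂ} (h : l.Perm l') : VD l ^ 2 = VD l' ^ 2 := by
  induction h with
  | nil => rfl
  | cons x h ih => rw [VD, VD, mul_pow, mul_pow, ih, (h.map _).prod_eq]
  | swap x y l => simp only [VD, List.map_cons, List.prod_cons]; ring
  | trans _ _ h1 h2 => exact h1.trans h2

theorem dphi_ofFn (α β : ℂ) {n : ℕ} (f : Fin n → ℂ) :
    dphi α β (List.ofFn f) = Matrix.det (Matrix.of fun i j : Fin n => phi α β (f i) (f j)) := by
  rw [dphi, ← Matrix.det_submatrix_equiv_self (finCongr (List.length_ofFn (f := f)).symm)]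
  congr 1
  ext i j
  simp only [Matrix.submatrix_apply, Matrix.of_apply, finCongr_apply, Fin.val_cast,
    Fin.getElem_fin, List.getElem_ofFn]

theorem dp (α β : ℂ) {l l' : List ℂ} (h : l.Perm l') : dphi α β l = dphi α β l' := by
  classical
  have hl := h.length_eq
  obtain ⟨n, f, rfl⟩ : ∃ (n : ℕ) (f : Fin n → ℂ), l = List.ofFn f :=
    ⟨_, l.get, (List.ofFn_get l).symm⟩
  obtain ⟨n', g, rfl⟩ : ∃ (n : ℕ) (f : Fin n → ℂ), l' = List.ofFn f :=
    ⟨_, l'.get, (List.ofFn_get l').symm⟩
  simp only [List.length_ofFn] at hl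
  subst hl
  obtain ⟨σ, rfl⟩ := Arm.QpermA.exists_perm f g h
  rw [dphi_ofFn, dphi_ofFn, ← Matrix.det_submatrix_equiv_self σ]
  rfl

end DpermA

theorem p_Dperm :
    S_Dperm := by
  intro α β l l' h
  have h1 : PR l = PR l' := h.prod_eq
  refine ⟨?_, DpermA.pq h, h1⟩
  rw [DD, DD, DpermA.pq h, DpermA.vd h, DpermA.dp α β h, h1, h.length_eq]

end Pool.Agent.P.MP_6c8efb_pr.One

end DpermS

section DarcS

/-! Step Darc. -/

namespace Pool.Agent.P.MP_6c8efb_pr.One

open Polynomial Filter Topology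
open Arm (q ah ac Nz Gen Near LPd LP1 TC Pt TConn q_eq q_cube q_ne_zero)

namespace DarcA

theorem fin_pow (n : ℕ) (hn : n ≠ 0) (c : ℂ) : {t : ℂ | t ^ n = c}.Finite := by
  refine (Polynomial.nthRoots n c).toFinset.finite_toSet.subset fun t ht => ?_
  simpa [Polynomial.mem_nthRoots (Nat.pos_of_ne_zero hn)] using ht

theorem ev_gen {l : List ℂ} (h : Gen l) (t₀ : ℂ) : ∀ᶠ t in 𝓝[≠] t₀, Gen (t :: l) := by
  have hf : {t : ℂ | ¬Gen (t :: l)}.Finite := by
    refine (((fin_pow 6 (by norm_num) 1).insert 0).union ((List.finite_toSet l).biUnion fun y _ =>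
      (fin_pow 3 (by norm_num) (y ^ 3)).union (fin_pow 3 (by norm_num) (y ^ 3)⁻¹))).subset
      fun t ht => by_contra fun hn => ht (Arm.gen_cons.2 ⟨⟨fun e => hn (Or.inl (Or.inl e)),
        fun e => hn (Or.inl (Or.inr e))⟩, fun y hy => ⟨fun e => ?_, fun e => ?_⟩, h⟩)
    · exact hn (Or.inr (Set.mem_biUnion hy (Or.inl e)))
    · exact hn (Or.inr (Set.mem_biUnion hy (Or.inr (eq_inv_of_mul_eq_one_left e))))
  exact nhdsNE_le_cofinite t₀ (eventually_cofinite.2 hf)

/-- the limit of the rescaled matrix -/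
def S0 {n : ℕ} (A B : ℂ) (M : Fin (n + 1) → Fin (n + 1) → ℂ) :
    Matrix (Fin (n + 2)) (Fin (n + 2)) ℂ :=
  Matrix.of (Fin.cons (Fin.cons 0 (Fin.cons A fun _ => 0))
    fun i => Fin.cons ((Fin.cons B fun _ => 0 : Fin (n + 1) → ℂ) i) (M i))

theorem det_S0 {n : ℕ} (A B : ℂ) (M : Fin (n + 1) → Fin (n + 1) → ℂ) :
    (S0 A B M).det = -(A * B) * (Matrix.of fun i j : Fin n => M i.succ j.succ).det := by
  have e : ((S0 A B M).submatrix Fin.succ (Fin.succAbove 1)).det =
      B * (Matrix.of fun i j : Fin n => M i.succ j.succ).det := by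
    rw [Matrix.det_succ_column_zero, Fin.sum_univ_succ]
    have : ((S0 A B M).submatrix Fin.succ (Fin.succAbove 1)).submatrix (Fin.succAbove 0) Fin.succ =
        Matrix.of fun i j : Fin n => M i.succ j.succ := by
      ext i j; simp [S0]
    rw [this]; simp [S0]
  rw [Matrix.det_succ_row_zero, Fin.sum_univ_succ, Fin.sum_univ_succ]
  have e1 : (Fin.succ (0 : Fin (n + 1))) = 1 := rfl
  have e2 : S0 A B M 0 1 = A := rfl
  have e3 : S0 A B M 0 0 = 0 := rfl
  have e4 : ∀ j : Fin n, S0 A B M 0 j.succ.succ = 0 := fun _ => rfl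
  rw [e1, e, e2, e3]
  simp only [e4]
  simp [mul_assoc]

theorem lim_det {α β A B r y : ℂ} {l : List ℂ} (hr : r ^ 2 + r + 1 = 0)
    (hp : ∀ x y, phi α β x y = A / (x - r * y) + B / (x - r ^ 2 * y)) (h : Gen (y :: l)) :
    Tendsto (fun t => (t - r * y) ^ 2 * dphi α β (t :: y :: l)) (𝓝[≠] (r * y))
      (𝓝 (A * B * r * dphi α β l)) := by
  have r3 : r ^ 3 = 1 := by linear_combination (r - 1) * hr
  have r0 : r ≠ 0 := fun e => by simp [e] at hr
  have r1 : r - 1 ≠ 0 := fun e => by
    have : (3 : ℂ) = 0 := by linear_combination hr - (r + 2) * e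
    norm_num at this
  have r2 : r ^ 2 - 1 ≠ 0 := fun e => r1 (by linear_combination r3 - r * e)
  obtain ⟨⟨y0, -⟩, hl, -⟩ := Arm.gen_cons.1 h
  have nz : ∀ x ∈ l, ∀ k m : ℕ, r ^ k * y - r ^ m * x ≠ 0 := fun x hx k m e => (hl x hx).1 (by
    have := congrArg (· ^ 3) (sub_eq_zero.1 e)
    simpa only [mul_pow, pow_right_comm r _ 3, r3, one_pow, one_mul] using this)
  have key : ∀ g : ℂ → ℂ, ContinuousAt g (r * y) →
      Tendsto (fun t => (t - r * y) * g t) (𝓝[≠] (r * y)) (𝓝 0) := fun g hg => by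
    have : Tendsto (fun t => (t - r * y) * g t) (𝓝 (r * y)) (𝓝 ((r * y - r * y) * g (r * y))) :=
      ((continuous_id.sub continuous_const).tendsto _).mul hg
    rw [sub_self, zero_mul] at this
    exact this.mono_left nhdsWithin_le_nhds
  let w : Fin (l.length + 1) → ℂ := Fin.cons y fun i => l[i]
  let v : ℂ → Fin (l.length + 2) → ℂ := fun t => Fin.cons t w
  let d : ℂ → Fin (l.length + 2) → ℂ := fun t => Fin.cons (t - r * y) fun _ => 1
  have hd : ∀ t, (t - r * y) ^ 2 * dphi α β (t :: y :: l) = (Matrix.of fun i j : Fin (l.length + 2) =>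
      d t i * (d t j * phi α β (v t i) (v t j))).det := fun t => by
    have hv : ∀ i : Fin (l.length + 2), (t :: y :: l)[i] = v t i := fun i =>
      Fin.cases rfl (fun i => Fin.cases rfl (fun _ => rfl) i) i
    have h1 : dphi α β (t :: y :: l) =
        (Matrix.of fun i j : Fin (l.length + 2) => phi α β (v t i) (v t j)).det := by
      simp only [← hv]; rfl
    have h2 := Matrix.det_mul_column (d t) (Matrix.of fun i j : Fin (l.length + 2) =>
      d t j * phi α β (v t i) (v t j))
    have h3 := Matrix.det_mul_row (d t) (Matrix.of fun i j : Fin (l.length + 2) =>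
      phi α β (v t i) (v t j))
    have h4 : ∏ i, d t i = t - r * y := by simp [d, Fin.prod_univ_succ]
    simp only [Matrix.of_apply, h4] at h2 h3
    rw [h2, h3, h1]; ring
  have e : A * B * r * dphi α β l = (S0 A (-(B * r)) fun i j => phi α β (w i) (w j)).det := by
    rw [det_S0, dphi]; simp [w, mul_assoc]
  simp only [hd, e]
  refine (continuous_id.matrix_det.tendsto _).comp (tendsto_pi_nhds.2 fun i =>
    tendsto_pi_nhds.2 fun j => ?_)
  have c1 : r * y - r * (r * y) ≠ 0 := fun e =>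
    mul_ne_zero (mul_ne_zero r0 y0) r1 (by linear_combination -e)
  have c2 : r * y - r ^ 2 * (r * y) ≠ 0 := fun e =>
    mul_ne_zero (mul_ne_zero r0 y0) r2 (by linear_combination -e)
  have c3 : r * y - r ^ 2 * y ≠ 0 := fun e => c1 (by linear_combination e)
  have c4 : y - r * (r * y) ≠ 0 := fun e => mul_ne_zero y0 r2 (by linear_combination -e)
  simp only [Matrix.of_apply, hp]
  rcases i.eq_zero_or_eq_succ with rfl | ⟨i, rfl⟩ <;> rcases j.eq_zero_or_eq_succ with rfl | ⟨j, rfl⟩
  · exact key (fun t => (t - r * y) * (A / (t - r * t) + B / (t - r ^ 2 * t)))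
      (by fun_prop (disch := assumption))
  · rcases j.eq_zero_or_eq_succ with rfl | ⟨j, rfl⟩
    · have := (key (fun t => B / (t - r ^ 2 * y)) (by fun_prop (disch := assumption))).const_add A
      rw [add_zero] at this
      refine this.congr' (eventually_nhdsWithin_of_forall fun t ht => ?_)
      have : t - r * y ≠ 0 := sub_ne_zero.2 ht
      show _ = (t - r * y) * (1 * (A / (t - r * y) + B / (t - r ^ 2 * y)))
      field_simp
    · have h1 := nz l[j] (List.getElem_mem _) 1 1
      have h2 := nz l[j] (List.getElem_mem _) 1 2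
      simp only [pow_one] at h1 h2
      exact key (fun t => 1 * (A / (t - r * l[j]) + B / (t - r ^ 2 * l[j])))
        (by fun_prop (disch := assumption))
  · rcases i.eq_zero_or_eq_succ with rfl | ⟨i, rfl⟩
    · have := (key (fun t => A / (y - r * t)) (by fun_prop (disch := assumption))).add_const
        (-(B * r))
      rw [zero_add] at this
      refine this.congr' (eventually_nhdsWithin_of_forall fun t ht => ?_)
      have h1 : t - r * y ≠ 0 := sub_ne_zero.2 ht
      have h2 : y - r ^ 2 * t = -r ^ 2 * (t - r * y) := by linear_combination -y * r3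
      have h3 : (t - r * y) * (B / (-r ^ 2 * (t - r * y))) = -(B * r) := by
        field_simp; linear_combination B * r3
      show _ = 1 * ((t - r * y) * (A / (y - r * t) + B / (y - r ^ 2 * t)))
      rw [h2, mul_add, h3, one_mul]
    · have h1 : l[i] - r * (r * y) ≠ 0 := fun e =>
        nz l[i] (List.getElem_mem _) 2 0 (by linear_combination -e)
      have h2 : l[i] - r ^ 2 * (r * y) ≠ 0 := fun e =>
        nz l[i] (List.getElem_mem _) 3 0 (by linear_combination -e)
      refine (key (fun t => A / (l[i] - r * t) + B / (l[i] - r ^ 2 * t))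
        (by fun_prop (disch := assumption))).congr fun t => (one_mul _).symm
  · simp [d, v]

theorem cont_prod (l : List ℂ) (f : ℂ → ℂ → ℂ) (hf : ∀ x, Continuous fun t => f t x) :
    Continuous fun t => (l.map (f t)).prod := continuous_list_prod l fun x _ => hf x

theorem prod_ne {l : List ℂ} {f : ℂ → ℂ} (h : ∀ x ∈ l, f x ≠ 0) : (l.map f).prod ≠ 0 :=
  List.prod_ne_zero fun e => by
    obtain ⟨x, hx, e⟩ := List.mem_map.1 e
    exact h x hx e

theorem VD_ne {l : List ℂ} (h : Gen l) : VD l ≠ 0 := by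
  induction l with
  | nil => simp [VD]
  | cons x l ih =>
    obtain ⟨-, h1, h2⟩ := Arm.gen_cons.1 h
    exact mul_ne_zero (prod_ne fun y hy e => (h1 y hy).1 (by rw [sub_eq_zero.1 e])) (ih h2)

theorem prod1 {r : ℂ} (hr : r ^ 2 + r + 1 = 0) (y : ℂ) (l : List ℂ) :
    (l.map fun x => (r * y) ^ 2 + r * y * x + x ^ 2).prod * (l.map fun x => y ^ 2 + y * x + x ^ 2).prod =
      (l.map fun x => (x - r ^ 2 * y) ^ 2).prod * ((l.map fun x => r * y - x).prod *
        (l.map fun x => y - x).prod) := by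
  simp only [← List.prod_map_mul]
  refine congrArg _ (List.map_congr_left fun x _ => ?_)
  have h1 : (r * y) ^ 2 + r * y * x + x ^ 2 = (x - r ^ 2 * y) * (x - y) := by
    linear_combination x * y * hr
  have h2 : y ^ 2 + y * x + x ^ 2 = (x - r ^ 2 * y) * (x - r * y) := by
    linear_combination (x * y - (r - 1) * y ^ 2) * hr
  rw [h1, h2]; ring

theorem prod2 (c y : ℂ) (l : List ℂ) : (l.map fun x => (x - c) ^ 4 / (x * y) ^ 2).prod =
    (l.map fun x => (x - c) ^ 2).prod ^ 2 / (l.prod ^ 2 * (y ^ l.length) ^ 2) := by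
  induction l with
  | nil => simp
  | cons x l ih =>
    simp only [List.map_cons, List.prod_cons, ih, List.length_cons, div_mul_div_comm]
    congr 1 <;> ring

theorem main {α β A B r y : ℂ} {l : List ℂ} {P : ℂ[X]} (hr : r ^ 2 + r + 1 = 0) (hAB : A * B = 1)
    (hp : ∀ x y, phi α β x y = A / (x - r * y) + B / (x - r ^ 2 * y)) (h : Gen (y :: l))
    (hP : ∀ t, Gen (t :: y :: l) → DD α β (t :: y :: l) * t ^ (l.length + 1) = P.eval t) :
    P.eval (r * y) = (r * y) ^ (l.length + 1) * (r ^ l.length)⁻¹ *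
      ((l.map fun x => (x - r ^ 2 * y) ^ 2).prod ^ 2 / (l.prod ^ 2 * (y ^ l.length) ^ 2)) *
        DD α β l := by
  have r3 : r ^ 3 = 1 := by linear_combination (r - 1) * hr
  have r0 : r ≠ 0 := fun e => by simp [e] at hr
  have r1 : r - 1 ≠ 0 := fun e => by
    have : (3 : ℂ) = 0 := by linear_combination hr - (r + 2) * e
    norm_num at this
  obtain ⟨⟨y0, -⟩, hl, hg⟩ := Arm.gen_cons.1 h
  have p0 : l.prod ≠ 0 := List.prod_ne_zero fun e => hg.nz 0 e rfl
  have v0 := VD_ne hg
  have v1 : (l.map fun x => y - x).prod ≠ 0 :=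
    prod_ne fun x hx e => (hl x hx).1 (by rw [sub_eq_zero.1 e])
  have v2 : (l.map fun x => r * y - x).prod ≠ 0 :=
    prod_ne fun x hx e => (hl x hx).1 (by rw [← sub_eq_zero.1 e, mul_pow, r3, one_mul])
  have v3 : r * y - y ≠ 0 := fun e => mul_ne_zero r1 y0 (by linear_combination e)
  let g : ℂ → ℂ := fun t => ((t - r ^ 2 * y) * (l.map fun x => t ^ 2 + t * x + x ^ 2).prod *
    PQ (y :: l)) ^ 2 * (t * (y * l.prod)) ^ 2 * t ^ (l.length + 1) /
      (((t - y) * (l.map fun x => t - x).prod * VD (y :: l)) ^ 2 * (t * (y * l.prod)) ^ (l.length + 2))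
  have c1 := cont_prod l (fun t x => t ^ 2 + t * x + x ^ 2) fun x => by fun_prop
  have c2 := cont_prod l (fun t x => t - x) fun x => by fun_prop
  have hg' : ContinuousAt g (r * y) := by
    refine ContinuousAt.div (by fun_prop) (by fun_prop) ?_
    have := VD_ne h
    positivity
  have L1 := (hg'.tendsto.mono_left nhdsWithin_le_nhds).mul (lim_det hr hp h)
  have L2 : Tendsto (fun t => P.eval t) (𝓝[≠] (r * y)) (𝓝 (P.eval (r * y))) :=
    (P.continuous.tendsto _).mono_left nhdsWithin_le_nhds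
  rw [tendsto_nhds_unique L2 (L1.congr' ((ev_gen h _).mono fun t ht => ?_))]
  · have e := prod1 hr y l
    have e1 : r * y - r ^ 2 * y = -r * (r * y - y) := by ring
    simp only [g, PQ, VD, DD, PR, hAB, e1]
    rw [show ∀ a b c d : ℂ, a * b * (c * d) = a * (b * c) * d from fun a b c d => by ring, e]
    generalize (l.map fun x => (x - r ^ 2 * y) ^ 2).prod = u
    simp only [mul_pow, pow_succ _ (l.length + 1), pow_succ _ l.length]
    have := pow_ne_zero l.length r0
    have := pow_ne_zero l.length y0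
    have := pow_ne_zero l.length p0
    field_simp
    linear_combination (u ^ 2 * PQ l ^ 2 * dphi α β l) * r3
  · beta_reduce
    rw [← hP t ht]
    have e : t ^ 2 + t * y + y ^ 2 = (t - r * y) * (t - r ^ 2 * y) := by
      linear_combination (t * y - (r - 1) * y ^ 2) * hr
    simp only [g, DD, PR, List.prod_cons, List.length_cons]
    rw [show PQ (t :: y :: l) = (t ^ 2 + t * y + y ^ 2) * (l.map fun x => t ^ 2 + t * x + x ^ 2).prod *
      PQ (y :: l) from rfl, show VD (t :: y :: l) = (t - y) * (l.map fun x => t - x).prod *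
      VD (y :: l) from rfl, e]
    ring

end DarcA

theorem p_Darc :
    S_Darc := by
  intro α β y l P hab h hP
  have q4 : (q ^ 2) ^ 2 = q := by linear_combination q * q_cube
  refine ⟨?_, ?_⟩
  · rw [DarcA.main q_eq hab (fun _ _ => rfl) h hP, fA, DarcA.prod2]
  · rw [DarcA.main (A := β) (B := α) (r := q ^ 2) (by linear_combination q4 + q_eq)
      (by rw [mul_comm, hab]) (fun x y => by rw [phi, q4, add_comm]) h hP, fA, DarcA.prod2]
    have e : q ^ 2 * (q ^ 2 * y) = (q ^ 2) ^ 2 * y := by ring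
    have e2 : ((q ^ 2 * y) ^ l.length) ^ 2 = q ^ l.length * (y ^ l.length) ^ 2 := by
      rw [mul_pow, mul_pow, ← pow_mul, mul_comm l.length 2, pow_mul, q4]
    rw [e, e2, ← pow_mul q 2, two_mul, pow_add]
    ring

end Pool.Agent.P.MP_6c8efb_pr.One

end DarcS

section StepS

/-! Step Step. -/

namespace Pool.Agent.P.MP_6c8efb_pr.One

open Polynomial Filter Topology
open Arm (q ah ac Nz Gen Near LPd LP1 TC Pt TConn q_eq q_cube q_ne_zero)

namespace StepA

/-- the polynomial with the roots `q y`, `q ^ 2 y` -/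
noncomputable def GQ (l : List ℂ) : ℂ[X] := (l.map fun y => (X - C (q * y)) * (X - C (q ^ 2 * y))).prod

theorem GQ_cons (y : ℂ) (l : List ℂ) :
    GQ (y :: l) = (X - C (q * y)) * (X - C (q ^ 2 * y)) * GQ l := by simp [GQ]

theorem GQ_monic (l : List ℂ) : (GQ l).Monic ∧ (GQ l).natDegree = 2 * l.length := by
  induction l with
  | nil => simp [GQ]
  | cons y l ih =>
    have h := (monic_X_sub_C (q * y)).mul (monic_X_sub_C (q ^ 2 * y))
    rw [GQ_cons]
    refine ⟨h.mul ih.1, ?_⟩
    rw [h.natDegree_mul ih.1, (monic_X_sub_C _).natDegree_mul (monic_X_sub_C _), ih.2,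
      natDegree_X_sub_C, natDegree_X_sub_C, List.length_cons]
    ring

theorem GQ_eval (l : List ℂ) (t : ℂ) :
    (GQ l).eval t = (l.map fun y => t ^ 2 + t * y + y ^ 2).prod := by
  induction l with
  | nil => simp [GQ]
  | cons y l ih =>
    rw [GQ_cons, eval_mul, ih, List.map_cons, List.prod_cons]
    congr 1
    simp only [eval_mul, eval_sub, eval_X, eval_C]
    linear_combination (-t * y) * q_eq + y ^ 2 * q_cube

theorem GQ_root {l : List ℂ} {y t : ℂ} (hy : y ∈ l) (ht : t = q * y ∨ t = q ^ 2 * y) :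
    (GQ l).eval t = 0 := by
  rw [GQ_eval]
  refine List.prod_eq_zero (List.mem_map.2 ⟨y, hy, ?_⟩)
  rcases ht with rfl | rfl
  · linear_combination y ^ 2 * q_eq
  · linear_combination y ^ 2 * q_eq + y ^ 2 * q * q_cube

theorem cube_q (x : ℂ) : (q * x) ^ 3 = x ^ 3 := by rw [mul_pow, q_cube, one_mul]
theorem cube_qq (x : ℂ) : (q ^ 2 * x) ^ 3 = x ^ 3 := by rw [pow_two, mul_assoc, cube_q, cube_q]

theorem gen_inj {l : List ℂ} (h : Gen l) {a b : ℂ} (ha : a ∈ l) (hb : b ∈ l)
    (e : a ^ 3 = b ^ 3) : a = b := by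
  by_contra hn
  have : Std.Symm fun x y : ℂ => x ^ 3 ≠ y ^ 3 ∧ x ^ 3 * y ^ 3 ≠ 1 :=
    ⟨fun _ _ h1 => ⟨h1.1.symm, by rw [mul_comm]; exact h1.2⟩⟩
  exact (h.2.forall ha hb hn).1 e

theorem roots_nodup {l : List ℂ} (h : Gen l) :
    ((l.map fun y => q * y) ++ l.map fun y => q ^ 2 * y).Nodup := by
  have hn : l.Nodup := h.2.imp fun e e' => e.1 (by rw [e'])
  refine List.nodup_append.2 ⟨hn.map (mul_right_injective₀ q_ne_zero),
    hn.map (mul_right_injective₀ (pow_ne_zero _ q_ne_zero)), fun s hs s' hs' e => ?_⟩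
  obtain ⟨a, ha, rfl⟩ := List.mem_map.1 hs
  obtain ⟨b, hb, rfl⟩ := List.mem_map.1 hs'
  obtain rfl := gen_inj h ha hb (by rw [← cube_q a, e, cube_qq])
  exact Arm.q_sq_ne (mul_right_cancel₀ (h.nz a ha) e).symm

/-- a polynomial of degree at most `2 d` with the `2 d` roots is a multiple of `GQ` -/
theorem interp {l : List ℂ} (h : Gen l) {R : ℂ[X]} (hd : R.natDegree ≤ 2 * l.length)
    (hr : ∀ y ∈ l, R.eval (q * y) = 0 ∧ R.eval (q ^ 2 * y) = 0) : ∃ c, R = C c * GQ l := by
  refine ⟨R.coeff (2 * l.length), sub_eq_zero.1 ?_⟩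
  refine eq_zero_of_degree_lt_of_eval_finset_eq_zero
    ((l.map fun y => q * y) ++ l.map fun y => q ^ 2 * y).toFinset ?_ fun s hs => ?_
  · rw [List.toFinset_card_of_nodup (roots_nodup h), degree_lt_iff_coeff_zero]
    intro m hm
    simp only [List.length_append, List.length_map] at hm
    rw [coeff_sub, coeff_C_mul]
    rcases (show 2 * l.length ≤ m by omega).eq_or_lt with rfl | hlt
    · have := (GQ_monic l).1.coeff_natDegree
      rw [(GQ_monic l).2] at this
      rw [this, mul_one, sub_self]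
    · rw [coeff_eq_zero_of_natDegree_lt (hd.trans_lt hlt),
        coeff_eq_zero_of_natDegree_lt ((GQ_monic l).2.trans_lt hlt), mul_zero, sub_self]
  · simp only [List.mem_toFinset, List.mem_append, List.mem_map] at hs
    rw [eval_sub, eval_mul]
    rcases hs with ⟨y, hy, rfl⟩ | ⟨y, hy, rfl⟩
    · rw [(hr y hy).1, GQ_root hy (Or.inl rfl), mul_zero, sub_self]
    · rw [(hr y hy).2, GQ_root hy (Or.inr rfl), mul_zero, sub_self]

end StepA

open StepA in
theorem p_Step (hDperm : S_Dperm) (hDpoly : S_Dpoly) (hDarc : S_Darc) :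
    S_Step := by
  intro a α β N n hN hαβ hn ih l s t hl hs ht
  have hg : Gen l := (Arm.gen_cons.1 hs).2.2
  obtain ⟨PN, dN, eN⟩ := hN.lpd l hg.nz
  beta_reduce at eN
  obtain ⟨PD, dD, eD⟩ := hDpoly α β l hg
  have hd : (PN - C (cc (n + 2)) * PD).natDegree ≤ 2 * l.length :=
    (natDegree_sub_le _ _).trans (max_le dN ((natDegree_C_mul_le _ _).trans dD))
  obtain ⟨c, hc⟩ := interp hg hd fun y hy => by
    have pm := List.perm_cons_erase hy
    set l' := l.erase y
    have hl' : l'.length = n := by have := pm.length_eq; simp only [List.length_cons] at this; omega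
    have gy : Gen (y :: l') := hg.perm pm
    have gl' : Gen l' := (Arm.gen_cons.1 gy).2.2
    have y0 : y ≠ 0 := hg.nz y hy
    obtain ⟨e1, e2⟩ := hDarc α β y l' PD hαβ gy fun u hu => by
      rw [← eD u (hu.perm (pm.symm.cons u)), (hDperm α β _ _ (pm.cons u)).1, hl, hl']
    have key : ∀ z w : ℂ, z ≠ 0 → Gen (w :: l') → (z :: y :: l').Perm (l' ++ [q * w, w]) →
        PD.eval z = z ^ (l'.length + 1) * (q ^ l'.length)⁻¹ * fA w l' * DD α β l' →
        (PN - C (cc (n + 2)) * PD).eval z = 0 := by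
      intro z w z0 gw pz e
      have hq : q ^ n ≠ 0 := pow_ne_zero _ q_ne_zero
      rw [eval_sub, eval_mul, eval_C, ← eN z z0, e,
        hN.perm _ _ (Arm.nz_cons.2 ⟨z0, hg.nz⟩) ((pm.cons z).trans pz),
        hN.arc w l' gw (hl' ▸ hn), ih l' hl' gl', hl, hl', cc]
      field_simp
      ring
    refine ⟨key _ y (mul_ne_zero q_ne_zero y0) gy ?_ e1,
      key _ (q ^ 2 * y) (mul_ne_zero (pow_ne_zero _ q_ne_zero) y0)
        (gy.replace (Or.inl (cube_qq y))) ?_ e2⟩
    · exact List.perm_append_comm (l₁ := [q * y, y]) (l₂ := l')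
    · rw [show q * (q ^ 2 * y) = y by linear_combination y * q_cube]
      exact (List.Perm.swap _ _ _).trans (List.perm_append_comm (l₁ := [y, q ^ 2 * y]) (l₂ := l'))
  have fin : ∀ u, Gen (u :: l) →
      (N (u :: l) - cc (n + 2) * DD α β (u :: l)) * PR (u :: l) ^ (n + 1) / PQ (u :: l) =
        c * PR l ^ (n + 1) / PQ l := by
    intro u hu
    have g := Arm.gen_cons.1 hu
    have hp : (l.map fun y => u ^ 2 + u * y + y ^ 2).prod ≠ 0 := List.prod_ne_zero fun e => by
      obtain ⟨y, hy, e⟩ := List.mem_map.1 e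
      exact (g.2.1 y hy).1 (by linear_combination (u - y) * e)
    have e := congrArg (eval u) hc
    rw [eval_sub, eval_mul, eval_mul, eval_C, eval_C, ← eN u g.1.1, ← eD u hu, GQ_eval, hl] at e
    rw [PQ, show PR (u :: l) = u * PR l from List.prod_cons, mul_pow,
      ← mul_div_mul_left (c * PR l ^ (n + 1)) (PQ l) hp]
    congr 1
    linear_combination PR l ^ (n + 1) * e
  rw [fin s hs, fin t ht]

end Pool.Agent.P.MP_6c8efb_pr.One

end StepS
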