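import Pool.Agent.P.MP_6c8efb_pr.One.Iface
import Pool.Agent.P.MP_6c8efb_pr.Arm.Law

section KerS

/-! Step Ker. -/

namespace Pool.Agent.P.MP_6c8efb_pr.One

open Polynomial Filter Topology
open Arm (q ah ac Nz Gen Near LPd LP1 TC Pt TConn q_eq q_cube q_ne_zero)

namespace KerA

open Complex MeasureTheory
open scoped Real

theorem den {ψ : ℝ} (h0 : 0 ≤ ψ) (h1 : ψ < π / 2) (y : ℝ) : Complex.cosh (y + ψ * I) ≠ 0 := by
  intro h
  have h2 := congrArg Complex.re h
  rw [Complex.cosh_add, cosh_mul_I, sinh_mul_I, ← ofReal_cosh, ← ofReal_sinh, ← ofReal_cos,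
    ← ofReal_sin] at h2
  simp only [add_re, mul_re, ofReal_re, ofReal_im, mul_im, I_re, I_im, mul_zero, zero_mul, sub_zero,
    add_zero, zero_re, mul_one] at h2
  have h3 := Real.cos_pos_of_mem_Ioo (x := ψ) ⟨by linarith [Real.pi_pos], h1⟩
  exact (mul_pos (Real.cosh_pos y) h3).ne' h2

theorem two (s t θ : ℂ) : Complex.exp s + Complex.exp (-θ * I) * Complex.exp t =
    2 * Complex.cos ((I * (t - s) + θ) / 2) * Complex.exp ((s + t) / 2 - θ * I / 2) := by
  rw [two_cos, add_mul, ← Complex.exp_add, ← Complex.exp_add, ← Complex.exp_add]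
  congr 2
  · linear_combination (s - t) / 2 * I_sq
  · linear_combination (t - s) / 2 * I_sq

theorem term {D B A P E : ℂ} (c : ℂ) (h : D = B + A + P + E) :
    Complex.exp D / (2 * c * Complex.exp B) =
      Complex.exp A * (1 / 2) * (Complex.exp P * (Complex.exp E / c)) := by
  have := Complex.exp_ne_zero B
  rw [h, Complex.exp_add, Complex.exp_add, Complex.exp_add]
  by_cases hc : c = 0
  · simp [hc]
  · field_simp

theorem q1 : Complex.exp (-((π / 3 : ℝ) : ℂ) * I) = -q := by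
  rw [← ofReal_neg, exp_mul_I, ← ofReal_cos, ← ofReal_sin, Real.cos_neg, Real.sin_neg,
    Real.cos_pi_div_three, Real.sin_pi_div_three]
  apply Complex.ext <;> simp [q, neg_div]

theorem q2 : Complex.exp (-((-(π / 3) : ℝ) : ℂ) * I) = -q ^ 2 := by
  rw [← ofReal_neg, neg_neg, exp_mul_I, ← ofReal_cos, ← ofReal_sin,
    Real.cos_pi_div_three, Real.sin_pi_div_three, show -q ^ 2 = q + 1 by linear_combination -q_eq]
  apply Complex.ext
  · simp [q]; norm_num
  · simp [q]

/-- the integrand after the substitution -/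
noncomputable def gg (ψ ξ v : ℝ) : ℂ :=
  Complex.exp (ψ * I) * (Complex.exp ((I * ξ + (π / 3 : ℝ)) * v) /
    Complex.cosh ((π * v : ℝ) + ψ * I)) +
  Complex.exp (-(ψ * I)) * (Complex.exp ((I * ξ + (-(π / 3) : ℝ)) * v) /
    Complex.cosh ((π * v : ℝ) + ψ * I))

theorem pt {ψ : ℝ} (h0 : 0 ≤ ψ) (h1 : ψ < π / 2) (ξ x : ℝ) :
    rr ψ x * Complex.exp (I * (3 / 2 * ξ * x : ℝ)) * (wt0 x : ℂ) = gg ψ ξ (3 / 2 * x) := by
  have hd := den h0 h1 (3 * π * x / 2)
  have hw : Complex.cosh ((π * x : ℝ) : ℂ) ≠ 0 := by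
    rw [← ofReal_cosh]; exact ofReal_ne_zero.2 (Real.cosh_pos _).ne'
  have e0 : π * (3 / 2 * x) = 3 * π * x / 2 := by ring
  have e1 : Complex.cosh ((3 * π * x / 2 : ℝ) + ψ * I) + Complex.cosh ((π * x / 2 : ℝ) - ψ * I) =
      Complex.cosh ((π * x : ℝ) : ℂ) * (Complex.exp ((π * x / 2 : ℝ) + ψ * I) +
        Complex.exp (-((π * x / 2 : ℝ) + ψ * I))) := by
    rw [← two_cosh,
      show ((3 * π * x / 2 : ℝ) + ψ * I : ℂ) = (π * x : ℝ) + ((π * x / 2 : ℝ) + ψ * I) by
        push_cast; ring,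
      show ((π * x / 2 : ℝ) - ψ * I : ℂ) = (π * x : ℝ) - ((π * x / 2 : ℝ) + ψ * I) by
        push_cast; ring, Complex.cosh_add (π * x : ℝ), Complex.cosh_sub (π * x : ℝ)]
    ring
  have e2 : Complex.exp (ψ * I) * Complex.exp ((I * ξ + (π / 3 : ℝ)) * (3 / 2 * x : ℝ)) =
      Complex.exp (I * (3 / 2 * ξ * x : ℝ)) * Complex.exp ((π * x / 2 : ℝ) + ψ * I) := by
    rw [← Complex.exp_add, ← Complex.exp_add]; congr 1; push_cast; ring
  have e3 : Complex.exp (-(ψ * I)) * Complex.exp ((I * ξ + (-(π / 3) : ℝ)) * (3 / 2 * x : ℝ)) =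
      Complex.exp (I * (3 / 2 * ξ * x : ℝ)) * Complex.exp (-((π * x / 2 : ℝ) + ψ * I)) := by
    rw [← Complex.exp_add, ← Complex.exp_add]; congr 1; push_cast; ring
  rw [gg, e0, ← mul_div_assoc, ← mul_div_assoc, e2, e3, ← add_div, ← mul_add, rr, wt0, ofReal_div 1,
    ofReal_cosh, ofReal_one, one_add_div hd, e1]
  field_simp

end KerA

theorem p_Ker (hSech : S_Sech) :
    S_Ker := by
  intro ψ s t h0 h1
  have hp := Real.pi_pos
  have hpc : (Real.pi : ℂ) ≠ 0 := Complex.ofReal_ne_zero.2 hp.ne'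
  obtain ⟨i1, j1⟩ := hSech (Complex.I * (t - s : ℝ) + (Real.pi / 3 : ℝ)) ψ
    (by simp; rw [abs_of_pos (by positivity)]; linarith) h0 h1
  obtain ⟨i2, j2⟩ := hSech (Complex.I * (t - s : ℝ) + (-(Real.pi / 3) : ℝ)) ψ
    (by simp; rw [abs_of_pos (by positivity)]; linarith) h0 h1
  simp only [KerA.pt h0 h1]
  rw [MeasureTheory.Measure.integral_comp_mul_left (KerA.gg ψ (t - s))]
  unfold KerA.gg
  rw [MeasureTheory.integral_add (i1.const_mul _) (i2.const_mul _),
    MeasureTheory.integral_const_mul, MeasureTheory.integral_const_mul, j1, j2]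
  have a1 := KerA.two s t (Real.pi / 3 : ℝ)
  have a2 := KerA.two s t (-(Real.pi / 3) : ℝ)
  rw [KerA.q1, neg_mul, ← sub_eq_add_neg] at a1
  rw [KerA.q2, neg_mul, ← sub_eq_add_neg] at a2
  rw [phi, a1, a2, al, ← Complex.exp_neg,
    KerA.term (A := ((-(s + t) / 2 - (t - s) * ψ / Real.pi : ℝ) : ℂ)) (P := ψ * Complex.I)
      (E := -((Complex.I * (t - s : ℝ) + (Real.pi / 3 : ℝ)) * Complex.I * ψ / Real.pi)),
    KerA.term (A := ((-(s + t) / 2 - (t - s) * ψ / Real.pi : ℝ) : ℂ)) (P := -(ψ * Complex.I))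
      (E := -((Complex.I * (t - s : ℝ) + (-(Real.pi / 3) : ℝ)) * Complex.I * ψ / Real.pi))]
  · rw [abs_of_pos (by norm_num), Complex.real_smul]
    push_cast
    ring
  · push_cast
    linear_combination ((t - s) * ψ / Real.pi : ℂ) * Complex.I_sq -
      (ψ * Complex.I / 3) * mul_inv_cancel₀ hpc
  · push_cast
    linear_combination ((t - s) * ψ / Real.pi : ℂ) * Complex.I_sq +
      (ψ * Complex.I / 3) * mul_inv_cancel₀ hpc

end Pool.Agent.P.MP_6c8efb_pr.One

end KerS

section HomS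

/-! Step Hom. -/

namespace Pool.Agent.P.MP_6c8efb_pr.One

open Polynomial Filter Topology
open Arm (q ah ac Nz Gen Near LPd LP1 TC Pt TConn q_eq q_cube q_ne_zero)

namespace HomA

noncomputable def ex (ε r : ℝ) : ℂ := Complex.exp ((ε * r : ℝ) : ℂ)

theorem ex_der (r : ℝ) : HasDerivAt (fun ε => ex ε r) (r : ℂ) 0 := by
  simpa [ex] using (((hasDerivAt_id (0 : ℝ)).mul_const r).ofReal_comp).cexp

theorem ex_lim (r : ℝ) : Tendsto (fun ε => ex ε r) (𝓝[>] 0) (𝓝 1) := by
  simpa [ex] using (ex_der r).continuousAt.tendsto.mono_left nhdsWithin_le_nhds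

theorem ex_slope (x y : ℝ) :
    Tendsto (fun ε : ℝ => (ex ε x - ex ε y) / (ε : ℂ)) (𝓝[>] 0) (𝓝 ((x : ℂ) - y)) := by
  refine ((ex_der x).fun_sub (ex_der y)).tendsto_slope_zero_right.congr fun ε => ?_
  simp [ex, div_eq_inv_mul]

theorem PR_lim (l : List ℝ) : Tendsto (fun ε => PR (l.map (ex ε))) (𝓝[>] 0) (𝓝 1) := by
  simpa [PR] using tendsto_list_prod l fun r _ => ex_lim r

theorem PQ_lim (l : List ℝ) :
    ∃ c : ℂ, c ≠ 0 ∧ Tendsto (fun ε => PQ (l.map (ex ε))) (𝓝[>] 0) (𝓝 c) := by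
  induction l with
  | nil => exact ⟨1, one_ne_zero, tendsto_const_nhds⟩
  | cons x l ih =>
    obtain ⟨c, hc, h⟩ := ih
    have h1 := tendsto_list_prod l fun y _ =>
      (((ex_lim x).pow 2).add ((ex_lim x).mul (ex_lim y))).add ((ex_lim y).pow 2)
    refine ⟨_, mul_ne_zero ?_ hc, (h1.mul h).congr fun ε => ?_⟩
    · norm_num
    · simp [PQ, Function.comp_def]

theorem prod_div (l : List ℝ) (f : ℝ → ℂ) (c : ℂ) :
    (l.map fun y => f y / c).prod = (l.map f).prod / c ^ l.length := by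
  induction l with
  | nil => simp
  | cons x l ih => simp only [List.map_cons, List.prod_cons, ih, List.length_cons]; ring

theorem VD_lim (l : List ℝ) (hl : l.Nodup) : ∃ c : ℂ, c ≠ 0 ∧ Tendsto
    (fun ε : ℝ => VD (l.map (ex ε)) ^ 2 / (ε : ℂ) ^ (l.length * (l.length - 1))) (𝓝[>] 0) (𝓝 c) := by
  induction l with
  | nil => exact ⟨1, one_ne_zero, by simp [VD]⟩
  | cons x l ih =>
    obtain ⟨c, hc, h⟩ := ih hl.of_cons
    have h1 := (tendsto_list_prod l fun y _ => ex_slope x y).pow 2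
    refine ⟨_, mul_ne_zero (pow_ne_zero 2 (List.prod_ne_zero fun h0 => ?_)) hc,
      (h1.mul h).congr fun ε => ?_⟩
    · obtain ⟨y, hy, e⟩ := List.mem_map.1 h0
      have : x = y := by exact_mod_cast sub_eq_zero.1 e
      exact (List.nodup_cons.1 hl).1 (this ▸ hy)
    · have e : (l.length + 1) * (l.length + 1 - 1) = l.length * 2 + l.length * (l.length - 1) := by
        rcases l.length with _ | n
        · rfl
        · simp only [Nat.add_sub_cancel]; ring
      simp only [prod_div, List.map_cons, VD, List.map_map, Function.comp_def, List.length_cons, e]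
      ring

theorem dphi_ofFn (α β : ℂ) {L : ℕ} (f : Fin L → ℂ) :
    dphi α β (List.ofFn f) = Matrix.det (Matrix.of fun i j => phi α β (f i) (f j)) := by
  rw [← Matrix.det_submatrix_equiv_self (finCongr (List.length_ofFn (f := f))), dphi]
  congr 1
  ext i j
  simp [Fin.cast]

theorem pts_eq (L : ℕ) (ε : ℝ) :
    pts L ε = (List.ofFn fun j : Fin L => ((j : ℕ) : ℝ) + 1).map (ex ε) := by
  rw [List.map_ofFn]; rfl

theorem gen_pts (L : ℕ) {ε : ℝ} (h : 0 < ε) : Gen (pts L ε) := by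
  have k : ∀ r s : ℝ, Complex.exp (r : ℂ) = Complex.exp (s : ℂ) → r = s := fun r s e =>
    Real.exp_injective (by exact_mod_cast e)
  have p : ∀ (r : ℝ) (n : ℕ), Complex.exp (r : ℂ) ^ n = Complex.exp ((n * r : ℝ) : ℂ) := fun r n => by
    rw [← Complex.exp_nat_mul]; push_cast; rfl
  have o : (1 : ℂ) = Complex.exp ((0 : ℝ) : ℂ) := by simp
  refine ⟨fun x hx => ?_, List.pairwise_ofFn.2 fun i j hij => ⟨fun e => ?_, fun e => ?_⟩⟩
  · obtain ⟨j, rfl⟩ := List.mem_ofFn.1 hx
    refine ⟨Complex.exp_ne_zero _, fun e => ?_⟩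
    rw [p, o] at e
    exact (k _ _ e).not_gt (by positivity)
  · rw [p, p] at e
    have e1 := k _ _ e
    have e2 : ((i : ℕ) : ℝ) < (j : ℕ) := by exact_mod_cast hij
    push_cast at e1
    nlinarith
  · rw [p, p, ← Complex.exp_add, ← Complex.ofReal_add, o] at e
    exact (k _ _ e).not_gt (by positivity)

end HomA

open HomA in
theorem p_Hom (hKer : S_Ker) (hToep : S_Toep) (hNice : S_Nice) :
    S_Hom := by
  intro L
  obtain ⟨c, hc, hT⟩ := hToep L
  obtain ⟨c₁, hc₁, h₁⟩ := PQ_lim (List.ofFn fun j : Fin L => ((j : ℕ) : ℝ) + 1)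
  obtain ⟨c₂, hc₂, h₂⟩ := VD_lim (List.ofFn fun j : Fin L => ((j : ℕ) : ℝ) + 1)
    (List.nodup_ofFn.2 fun i j e => Fin.ext (by exact_mod_cast add_right_cancel e))
  have h₃ := PR_lim (List.ofFn fun j : Fin L => ((j : ℕ) : ℝ) + 1)
  simp only [← pts_eq, List.length_ofFn] at h₁ h₂ h₃
  refine ⟨c₁ ^ 2 * ((3 / 4) ^ L * (3 / 2) ^ (L * (L - 1)) * c) / c₂, by simp [hc, hc₁, hc₂], fun ψ p0 p1 =>
    ⟨fun ε => gen_pts L, ?_⟩⟩
  obtain ⟨-, C, -, -, hB, -⟩ := hNice ψ p0 p1
  have s : Tendsto (fun ε : ℝ => 3 / 2 * ε) (𝓝[>] 0) (𝓝[>] 0) := by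
    refine tendsto_nhdsWithin_iff.2 ⟨?_, eventually_mem_nhdsWithin.mono fun ε h => ?_⟩
    · simpa using ((tendsto_id (x := 𝓝 (0 : ℝ))).const_mul (3 / 2)).mono_left nhdsWithin_le_nhds
    · exact mul_pos (by norm_num : (0 : ℝ) < 3 / 2) h
  have hu := tendsto_finsetProd Finset.univ fun (j : Fin L) _ =>
    ex_lim ((((j : ℕ) : ℝ) + 1) * (-1 / 2 + ψ / Real.pi))
  have hv := tendsto_finsetProd Finset.univ fun (j : Fin L) _ =>
    (ex_lim ((((j : ℕ) : ℝ) + 1) * (-1 / 2 - ψ / Real.pi))).mul_const (3 / 4)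
  have h := (((h₁.pow 2).mul ((hu.mul (hv.mul ((hT C _ hB).comp s))).mul_const
    ((3 / 2) ^ (L * (L - 1))))).mul (h₃.pow 2)).div (h₂.mul (h₃.pow L)) (by simpa using hc₂)
  refine (h.congr' (eventually_mem_nhdsWithin.mono fun ε hε => ?_)).trans_eq ?_
  · have e0 : (ε : ℂ) ≠ 0 := by exact_mod_cast (ne_of_gt hε)
    have e : dphi (al ψ) (al ψ)⁻¹ (pts L ε) =
        (∏ j : Fin L, ex ε ((((j : ℕ) : ℝ) + 1) * (-1 / 2 + ψ / Real.pi))) *
        ((∏ j : Fin L, ex ε ((((j : ℕ) : ℝ) + 1) * (-1 / 2 - ψ / Real.pi)) * (3 / 4)) *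
        Matrix.det (Matrix.of fun j k : Fin L => ∫ x : ℝ, rr ψ x *
          Complex.exp (Complex.I * (3 / 2 * ε * ((k : ℕ) - (j : ℕ)) * x : ℝ)) * (wt0 x : ℂ))) := by
      rw [← Matrix.det_mul_row, ← Matrix.det_mul_column, pts, dphi_ofFn]
      congr 1
      ext j k
      simp only [Matrix.of_apply]
      rw [hKer ψ _ _ p0 p1, ← mul_assoc, ← mul_assoc, ex, ex, ← Complex.exp_add,
        ← Complex.ofReal_add]
      congr 4
      · ring_nf
      · ext x
        congr 4
        ring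
    have k : ∀ A U V D R W R' : ℂ, A * (U * (V * (D / ((3 / 2 * ε : ℝ) : ℂ) ^ (L * (L - 1)))) *
        (3 / 2) ^ (L * (L - 1))) * R / (W / (ε : ℂ) ^ (L * (L - 1)) * R') =
        A * (U * (V * D)) * R / (W * R') := fun A U V D R W R' => by
      push_cast
      rw [mul_pow (3 / 2 : ℂ)]
      field_simp
    simp only [DD, e, Pi.div_apply, Function.comp_apply, show (pts L ε).length = L by simp [pts], k]
  · congr 1
    simp only [Finset.prod_const, one_pow, one_mul, Finset.card_univ, Fintype.card_fin]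
    ring

end Pool.Agent.P.MP_6c8efb_pr.One

end HomS

section RatioS

/-! Step Ratio. -/

namespace Pool.Agent.P.MP_6c8efb_pr.One

open Polynomial Filter Topology

theorem p_Ratio (hFrm : S_Frm) (hNsym : S_Nsym) (hNarc : S_Narc) (hNtop : S_Ntop) (hMain : S_Main)
    (hKap : S_Kap) (hHom : S_Hom) : S_Ratio := by
  intro F hF L hL
  obtain ⟨c, hc, hH⟩ := hHom L
  have pi0 := Real.pi_pos
  have key : ∀ (a : ℂ) (B : ℕ → W →ₗ[ℂ] W →ₗ[ℂ] ℂ) (ψ : ℝ), Frm a B → 0 ≤ ψ → ψ < Real.pi / 2 →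
      3 * kap (al ψ) (al ψ)⁻¹ ^ 2 = 2 + a →
      NN B F (List.replicate L 1) = cc L * (c * HD L (rr ψ)) := by
    intro a B ψ hB h0 h1 hk
    obtain ⟨n1, n2, n3, n4⟩ := hNsym a B F hB hF
    have hN : Nprop a (NN B F) := ⟨n1, n2, hNarc a B F hB hF, hNtop a B F hB hF, n3⟩
    obtain ⟨g1, g2⟩ := hH ψ h0 h1
    refine tendsto_nhds_unique ((n4 L).mono_left (nhdsWithin_le_nhds (s := Set.Ioi 0)))
      ((g2.const_mul (cc L)).congr' (eventually_mem_nhdsWithin.mono fun ε hε => ?_))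
    have e : (pts L ε).length = L := by simp [pts]
    have := hMain a (al ψ) (al ψ)⁻¹ _ hN (mul_inv_cancel₀ (Complex.exp_ne_zero _)) hk _ (g1 ε hε)
      (e.symm ▸ hL)
    rw [e] at this
    exact this.symm
  rw [PP, key 0 Bil _ hFrm.1 (by positivity) (by linarith) hKap.1,
    key 1 Bt _ hFrm.2 (by positivity) (by linarith) hKap.2,
    mul_div_mul_left _ _ (cc_ne_zero L), mul_div_mul_left _ _ hc]

end Pool.Agent.P.MP_6c8efb_pr.One

end RatioS

section LawS

/-! Step Law. -/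

namespace Pool.Agent.P.MP_6c8efb_pr.One

open Polynomial Filter Topology
open Arm (q ah ac Nz Gen Near LPd LP1 TC Pt TConn q_eq q_cube q_ne_zero)

namespace LawA

open Arm (ah_one ac_one notE wt_hf)
open Arm.LawA (Ex fub locF_eval)

/-- `v` is the law of `X` -/
def Law (X : TC → St) (v : W) : Prop :=
  ∀ h : St → ℝ, (Ex (fun τ => h (X τ)) : ℂ) = Finsupp.linearCombination ℂ (fun p => (h p : ℂ)) v

theorem law_const (p : St) : Law (fun _ => p) (Finsupp.single p 1) := fun h => by simp [Ex]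

theorem Law.map {X : TC → St} {v : W} (h : Law X v) (f : St → St) :
    Law (fun τ => f (X τ)) (lm f v) := fun g => by
  rw [h (fun p => g (f p)), lm, Finsupp.lmapDomain_apply, Finsupp.linearCombination_mapDomain]
  rfl

theorem Law.bit {X : TC → St} {v : W} {S : Set (ℤ × ℤ)} (h : Law X v) (hX : LocF X)
    (hS : DependsOn X S) {c : ℤ × ℤ} (hc : c ∉ S) (i : ℕ) :
    Law (fun τ => if τ c then ee i (X τ) else X τ) ((2 : ℂ)⁻¹ • R i 1 v) := fun g => by
  have h1 := fub (locF_eval c) hX (S := {c}) (fun _ _ h => h c rfl) hS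
    (Set.disjoint_singleton_left.2 hc) (fun b p => g (if b then ee i p else p))
    (s := Finset.univ) fun _ => Finset.mem_univ _
  have h2 := h.map (ee i) g
  have h3 := h g
  simp only [Fintype.sum_bool, Pt, Pr_eval, wt_hf, if_true, Bool.false_eq_true, if_false] at h1
  rw [h1, R, ah_one, ac_one, one_smul, one_smul, LinearMap.add_apply, map_smul, map_add, Ee,
    ← h2, Module.End.one_apply, ← h3]
  push_cast
  simp only [smul_eq_mul]
  ring

theorem row_law {X : TC → St} {v : W} {t : ℤ} (h : Law X v) (hX : LocF X)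
    (hS : DependsOn X {c | t < c.2}) (a n : ℕ) :
    LocF (fun τ : TC => rowS (fun s => τ (s, t)) a n (X τ)) ∧
    DependsOn (fun τ : TC => rowS (fun s => τ (s, t)) a n (X τ))
      {c | t < c.2 ∨ (c.2 = t ∧ c.1 < n)} ∧
    Law (fun τ => rowS (fun s => τ (s, t)) a n (X τ))
      ((2 : ℂ)⁻¹ ^ n • row a (List.replicate n 1) v) := by
  induction n with
  | zero => exact ⟨hX, hS.mono fun _ h => Or.inl h, by simpa [row, rowS] using h⟩
  | succ n ih =>
    obtain ⟨i1, i2, i3⟩ := ih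
    refine ⟨(locF_eval ((n : ℤ), t)).comp₂ i1 fun b p => if b then ee (a + n) p else p,
      fun τ τ' e => ?_, ?_⟩
    · have e1 := i2 (x := τ) (y := τ') fun c hc => e c (hc.imp id fun h => ⟨h.1, by
        have := h.2
        push_cast
        omega⟩)
      have e2 := e ((n : ℤ), t) (Or.inr ⟨rfl, by push_cast; omega⟩)
      exact congrArg₂ (fun (b : Bool) p => if b then ee (a + n) p else p) e2 e1
    · have := i3.bit i1 i2 (c := ((n : ℤ), t)) (by simp) (a + n)
      rw [List.replicate_succ', row_append, List.length_replicate, pow_succ', mul_smul]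
      simpa [row, rowS] using this

theorem top_law (L n r : ℕ) : LocF (fun τ => top L τ r n) ∧
    DependsOn (fun τ => top L τ r n) {c | (r : ℤ) ≤ c.2} ∧
    Law (fun τ => top L τ r n) ((TB L ^ n) (Finsupp.single (zz L) 1)) := by
  induction n generalizing r with
  | zero => exact ⟨locF_const (zz L), fun _ _ _ => rfl, law_const (zz L)⟩
  | succ n ih =>
    obtain ⟨i1, i2, i3⟩ := ih (r + 1)
    obtain ⟨b1, b2, b3⟩ := row_law (t := r) (i3.map (cupS L)) (i1.comp (cupS L))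
      (fun _ _ e => congrArg (cupS L) (i2 fun c hc => e c (by
        simp only [Set.mem_ofPred_eq] at hc ⊢
        push_cast at hc
        omega))) 0 L
    refine ⟨b1.comp (cap L), fun _ _ e => congrArg (cap L) (b2 fun c hc => e c (by
        simp only [Set.mem_ofPred_eq] at hc ⊢
        omega)), ?_⟩
    have h := b3.map (cap L)
    rw [pow_succ', Module.End.mul_apply]
    generalize (TB L ^ n) (Finsupp.single (zz L) 1) = v at h ⊢
    rw [TB, ← inv_pow, TM, List.length_replicate]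
    simp only [map_smul] at h
    exact h

theorem flip_inj : Function.Injective fun c : ℤ × ℤ => (c.1, -1 - c.2) :=
  fun c d e => by
    simp only [Prod.mk.injEq] at e
    exact Prod.ext (by omega) (by omega)

theorem bot_law (m n : ℕ) : LocF (fun τ => top m (flp τ) 0 n) ∧
    DependsOn (fun τ => top m (flp τ) 0 n) {c | c.2 < 0} ∧
    Law (fun τ => top m (flp τ) 0 n) ((TB m ^ n) (Finsupp.single (zz m) 1)) := by
  obtain ⟨h1, h2, h3⟩ := top_law m n 0
  have l : ∀ {β : Type} {f : TC → β}, LocF f →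
      LocF fun τ : TC => f fun c => τ (c.1, -1 - c.2) := fun ⟨S, hS, h⟩ =>
    ⟨_, hS.image fun c : ℤ × ℤ => (c.1, -1 - c.2), fun _ _ e => h fun c hc => e _ ⟨c, hc, rfl⟩⟩
  refine ⟨?_, fun _ _ e => h2 fun c hc => congrArg not (e _ ?_), fun g => ?_⟩
  · obtain ⟨S, hS, h⟩ := l h1
    exact ⟨S, hS, fun _ _ e => h (x := fun c => !_) (y := fun c => !_)
      fun c hc => congrArg not (e c hc)⟩
  · simp only [Set.mem_ofPred_eq] at hc ⊢
    omega
  · rw [← h3 g]
    exact congrArg _ ((integral_equiv (fun _ => notE) (l (h1.comp g))).trans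
      (integral_comp_inj _ flip_inj (h1.comp g)))

end LawA

open LawA Arm.LawA in
theorem p_Law :
    S_Law := by
  classical
  intro L n
  obtain ⟨a1, a2, a3⟩ := LawA.top_law L n 0
  obtain ⟨b1, b2, b3⟩ := LawA.bot_law L n
  have hl : Loc (EvN L n) := (a1.prod b1).loc {x | Ev L x.1 x.2}
  refine ⟨hl, ?_⟩
  have hs : ∀ τ, top L τ 0 n ∈ a1.finite_range.toFinset := fun τ => by simp
  have h1 := fub a1 b1 a2 b2 (Set.disjoint_left.2 fun c h h' => by
    simp only [Set.mem_ofPred_eq] at h h'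
    omega) (fun p r => if Ev L p r then 1 else 0) hs
  have h2 := fub a1 (locF_const ()) a2 (T := ∅) (fun _ _ _ => rfl) (Set.disjoint_empty _)
    (fun p _ => Ex fun τ => if Ev L p (top L (flp τ) 0 n) then 1 else 0) hs
  have h3 : Pt (EvN L n) = Ex fun τ =>
      if Ev L (top L τ 0 n) (top L (flp τ) 0 n) then 1 else 0 :=
    Pr_eq_integral _ hl
  have h4 : ∀ c : ℝ, (Ex fun _ => c) = c := fun c => by simp [Ex]
  simp only [h4] at h2
  rw [h3, h1, ← h2, a3 fun p => Ex fun τ => if Ev L p (top L (flp τ) 0 n) then 1 else 0]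
  refine LinearMap.congr_fun (g := (Bil L).flip _) (Finsupp.lhom_ext fun p c => ?_) _
  rw [Finsupp.linearCombination_single, b3 fun r => if Ev L p r then 1 else 0]
  simp [Bil, apply_ite Complex.ofReal]

end Pool.Agent.P.MP_6c8efb_pr.One

end LawS
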