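import Pool.Agent.P.MP_6c8efb_pr.One.Iface

section LimS

/-! Step Lim. -/

namespace Pool.Agent.P.MP_6c8efb_pr.One

open Polynomial Filter Topology
open Arm (q ah ac Nz Gen Near LPd LP1 TC Pt TConn q_eq q_cube q_ne_zero)

namespace LimA

theorem n1_nonneg (v : W) : 0 ≤ n1 v := Finset.sum_nonneg fun _ _ => norm_nonneg _

theorem n1_eq_sum {v : W} {s : Finset St} (h : v.support ⊆ s) : n1 v = ∑ p ∈ s, ‖v p‖ :=
  Finsupp.sum_of_support_subset v h _ (by simp)

theorem n1_smul (c : ℂ) (v : W) : n1 (c • v) = ‖c‖ * n1 v := by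
  rw [n1_eq_sum (Finsupp.support_smul (b := c) (g := v)), n1_eq_sum (v := v) subset_rfl,
    Finset.mul_sum]
  exact Finset.sum_congr rfl fun p _ => by simp

theorem norm_le_n1 (v : W) (p : St) : ‖v p‖ ≤ n1 v := by
  by_cases h : v p = 0
  · rw [h, norm_zero]; exact n1_nonneg v
  · rw [n1_eq_sum (v := v) subset_rfl]
    exact Finset.single_le_sum (f := fun p => ‖v p‖) (fun _ _ => norm_nonneg _)
      (Finsupp.mem_support_iff.2 h)

theorem nz_rep (n : ℕ) : Nz (List.replicate n 1) := fun x h => by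
  rw [List.eq_of_mem_replicate h]; exact one_ne_zero

theorem nrm_rep (L : ℕ) : nrm (List.replicate L 1) = 2 ^ L := by
  induction L with
  | zero => simp
  | succ L ih => rw [List.replicate_succ, nrm_cons, ih]; ring

theorem TB_apply (L : ℕ) (v : W) : TB L v = ((2 : ℂ) ^ L)⁻¹ • TM (List.replicate L 1) v := rfl

theorem two_ne (L : ℕ) : (2 : ℂ) ^ L ≠ 0 := pow_ne_zero _ (by norm_num)

theorem TB_sup (h2 : S_TM) {L : ℕ} {v : W} (hv : Sup L v) : Sup L (TB L v) := by
  have := h2.sup (List.replicate L 1) v (by simpa using hv)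
  rw [List.length_replicate] at this
  exact this.smul _

theorem TB_tot (h2 : S_TM) (L : ℕ) (v : W) : tot (TB L v) = tot v := by
  rw [TB_apply, map_smul, h2.tot, nrm_rep, smul_eq_mul, inv_mul_cancel_left₀ (two_ne L)]

theorem TB_contr (h1 : S_Contr) (L : ℕ) : ∃ θ : ℝ, 0 ≤ θ ∧ θ < 1 ∧
    (∀ v, Fix (List.replicate L 1) v → tot v = 0 → v = 0) ∧
    ∀ v, Sup L v → tot v = 0 → n1 (TB L v) ≤ θ * n1 v := by
  obtain ⟨ε, θ, hε, -, h0, hθ, h⟩ := h1 L
  obtain ⟨-, ha, hb⟩ := h (List.replicate L 1) (by simp) (fun x hx => by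
    rw [List.eq_of_mem_replicate hx]; simpa using hε)
  refine ⟨θ, h0, hθ, ha, fun v hv ht => ?_⟩
  have := hb v hv ht
  rw [nrm_rep] at this
  have hp : 0 < ‖(2 : ℂ) ^ L‖ := norm_pos_iff.2 (two_ne L)
  rw [TB_apply, n1_smul, norm_inv, inv_mul_le_iff₀ hp]
  linarith

theorem pow_sup (h2 : S_TM) {L : ℕ} {v : W} (hv : Sup L v) (n : ℕ) : Sup L ((TB L ^ n) v) := by
  induction n with
  | zero => simpa using hv
  | succ n ih => rw [pow_succ', Module.End.mul_apply]; exact TB_sup h2 ih

theorem pow_tot (h2 : S_TM) (L : ℕ) (v : W) (n : ℕ) : tot ((TB L ^ n) v) = tot v := by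
  induction n with
  | zero => simp
  | succ n ih => rw [pow_succ', Module.End.mul_apply, TB_tot h2, ih]

theorem sol_sup {F : List ℂ → W} (hF : Sol F) (L : ℕ) : Sup L (F (List.replicate L 1)) := by
  simpa using hF.sup (List.replicate L 1)

/-- convergence to the normalised invariant vector -/
theorem comp_lim (h1 : S_Contr) (h2 : S_TM) (h3 : S_Pref) {F : List ℂ → W} (hF : Sol F) {L : ℕ}
    (hL : Even L) (p : St) : Tendsto (fun n => (TB L ^ n) (Finsupp.single (zz L) 1) p) atTop
      (𝓝 (((tot (F (List.replicate L 1)))⁻¹ • F (List.replicate L 1)) p)) := by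
  obtain ⟨θ, h0, hθ, hu, h⟩ := TB_contr h1 L
  have hf := hF.fix _ (nz_rep L)
  have hs := sol_sup hF L
  have hz : tot (F (List.replicate L 1)) ≠ 0 := by
    intro e
    have a1 := hu _ ⟨hF.sup _, hf⟩ e
    have a2 := hF.zero (List.replicate L 1) (by simpa using hL) (nz_rep L)
    rw [a1] at a2
    refine h3.ne _ (fun x hx => ?_) a2.symm
    rw [List.eq_of_mem_replicate hx]
    exact ⟨one_ne_zero, by norm_num, by norm_num⟩
  set v := F (List.replicate L 1) with hv
  have hfix : TB L v = v := by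
    rw [TB_apply, hf, nrm_rep, smul_smul, inv_mul_cancel₀ (two_ne L), one_smul]
  set Ψ : W := (tot v)⁻¹ • v with hΨ
  have hΨs : Sup L Ψ := hs.smul _
  have hΨt : tot Ψ = 1 := by rw [hΨ, map_smul, smul_eq_mul, inv_mul_cancel₀ hz]
  have hΨf : ∀ n, (TB L ^ n) Ψ = Ψ := by
    intro n
    induction n with
    | zero => simp
    | succ n ih => rw [pow_succ', Module.End.mul_apply, ih, hΨ, map_smul, hfix]
  set d : W := Finsupp.single (zz L) 1 - Ψ with hd
  have hds : Sup L d := (sup_single (bd_zz hL) 1).sub hΨs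
  have hdt : tot d = 0 := by rw [hd, map_sub, hΨt, tot_single, sub_self]
  have hb : ∀ n, n1 ((TB L ^ n) d) ≤ θ ^ n * n1 d := by
    intro n
    induction n with
    | zero => simp
    | succ n ih =>
      rw [pow_succ', Module.End.mul_apply]
      refine (h _ (pow_sup h2 hds n) (by rw [pow_tot h2, hdt])).trans ?_
      rw [pow_succ', mul_assoc]
      exact mul_le_mul_of_nonneg_left ih h0
  rw [tendsto_iff_norm_sub_tendsto_zero]
  have lim : Tendsto (fun n : ℕ => θ ^ n * n1 d) atTop (𝓝 0) := by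
    simpa using (tendsto_pow_atTop_nhds_zero_of_lt_one h0 hθ).mul_const (n1 d)
  refine squeeze_zero (fun _ => norm_nonneg _) (fun n => ?_) lim
  refine le_trans (le_of_eq ?_) ((norm_le_n1 _ p).trans (hb n))
  rw [hd, map_sub, hΨf, Finsupp.sub_apply]

theorem Bil_sum {L : ℕ} {u v : W} (hu : Sup L u) (hv : Sup L v) :
    Bil L u v = ∑ p ∈ SL L, u p * ∑ r ∈ SL L, v r *
      Bil L (Finsupp.single p 1) (Finsupp.single r 1) := by
  have e : Bil L u v = ∑ p ∈ SL L, u p * Bil L (Finsupp.single p 1) v := hu.map_eq ((Bil L).flip v)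
  rw [e]
  exact Finset.sum_congr rfl fun p _ => by rw [hv.map_eq]

end LimA

open LimA

theorem p_Lim (hContr : S_Contr) (hTM : S_TM) (hPref : S_Pref) :
    S_Lim := by
  intro F hF L hL
  have s1 := sol_sup hF L
  have e : PP F L = Bil L ((tot (F (List.replicate L 1)))⁻¹ • F (List.replicate L 1))
      ((tot (F (List.replicate L 1)))⁻¹ • F (List.replicate L 1)) := by
    unfold PP NN
    simp only [List.length_replicate, List.map_replicate, inv_one, Bt_apply, map_smul,
      LinearMap.smul_apply, smul_eq_mul]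
    ring
  rw [e, Bil_sum (s1.smul _) (s1.smul _)]
  simp only [fun n => Bil_sum (pow_sup hTM (sup_single (bd_zz hL) 1) n)
    (pow_sup hTM (sup_single (bd_zz hL) 1) n)]
  refine tendsto_finsetSum _ fun p _ => (comp_lim hContr hTM hPref hF hL p).mul ?_
  exact tendsto_finsetSum _ fun r _ => (comp_lim hContr hTM hPref hF hL r).mul_const _

end Pool.Agent.P.MP_6c8efb_pr.One

end LimS

section ColS

/-! Step Col. -/

namespace Pool.Agent.P.MP_6c8efb_pr.One

open Polynomial Filter Topology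
open Arm (q ah ac Nz Gen Near LPd LP1 TC Pt TConn q_eq q_cube q_ne_zero)

namespace ColA

theorem comp_ee {i : ℕ} {p : St} {g : ℕ → K} : g ∈ ee i p ↔ g i = g (i + 1) ∧
    ∃ f, f ∈ p ∧ f i = f (i + 1) ∧ ∀ j, j ≠ i → j ≠ i + 1 → f j = g j := by
  simp only [ee, mem_cup, mem_cap]
  refine and_congr_right fun _ => exists_congr fun f => and_congr_right fun _ =>
    and_congr_right fun _ => ⟨fun h j h1 h2 => ?_, fun h j => h _ (Arm.up_ne _ _) (Arm.up_ne' _ _)⟩
  rw [← Arm.up_dn h1 h2, h]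

/-- the conditions along a row of tiles: `f` above, `g` below, `V` on the vertical sides -/
def Tl (n : ℕ) (b : ℕ → Bool) (f g V : ℕ → K) : Prop :=
  ∀ s, s < n → (b s = true → V s = f s ∧ g s = V (s + 1)) ∧ (b s = false → V s = g s ∧ f s = V (s + 1))

theorem Tl.congr {n : ℕ} {b : ℕ → Bool} {f g V f' g' V' : ℕ → K} (h : Tl n b f g V)
    (hf : ∀ s, s < n → f s = f' s) (hg : ∀ s, s < n → g s = g' s) (hV : ∀ s, s ≤ n → V s = V' s) :
    Tl n b f' g' V' := fun s hs => by
  rw [← hf s hs, ← hg s hs, ← hV s hs.le, ← hV (s + 1) hs]; exact h s hs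

theorem tl_succ {n : ℕ} {b : ℕ → Bool} {f g V : ℕ → K} : Tl (n + 1) b f g V ↔ Tl n b f g V ∧
    (b n = true → V n = f n ∧ g n = V (n + 1)) ∧ (b n = false → V n = g n ∧ f n = V (n + 1)) :=
  ⟨fun h => ⟨fun s hs => h s (by omega), h n (by omega)⟩, fun h s hs => by
    rcases Nat.lt_succ_iff_lt_or_eq.1 hs with h' | rfl
    · exact h.1 s h'
    · exact h.2⟩

theorem comp_row (b : ℕ → Bool) (a : ℕ) (p : St) (n : ℕ) : ∀ g : ℕ → K,
    g ∈ rowS b a n p ↔ ∃ f V : ℕ → K, f ∈ p ∧ V 0 = f a ∧ V n = g (a + n) ∧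
      Tl n b (fun s => f (a + s + 1)) (fun s => g (a + s)) V ∧
      ∀ j, j < a ∨ a + n < j → f j = g j := by
  induction n with
  | zero =>
    intro g
    refine ⟨fun h => ⟨g, fun _ => g a, h, rfl, rfl, fun s hs => by omega, fun _ _ => rfl⟩, ?_⟩
    rintro ⟨f, V, h1, h2, h3, -, h5⟩
    refine (mem_congr fun j => ?_).1 h1
    by_cases hj : j = a
    · rw [hj, ← h2, h3]; rfl
    · exact h5 j (by omega)
  | succ n ih =>
    intro g
    have upd : ∀ (V : ℕ → K) (c : K), ∃ V' : ℕ → K, V' (n + 1) = c ∧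
        ∀ s, s ≤ n → V s = V' s := fun V c =>
      ⟨fun s => if s = n + 1 then c else V s, if_pos rfl, fun s hs => (if_neg (by omega)).symm⟩
    cases hb : b n with
    | true =>
      rw [rowS, if_pos hb, comp_ee]
      constructor
      · rintro ⟨h0, f', h1, h2, h3⟩
        obtain ⟨f, V, e1, e2, e3, e4, e5⟩ := (ih f').1 h1
        obtain ⟨V', v1, v2⟩ := upd V (g (a + n + 1))
        refine ⟨f, V', e1, by rw [← v2 0 (by omega), e2], v1, tl_succ.2 ⟨e4.congr (fun _ _ => rfl)
          (fun s hs => h3 _ (by omega) (by omega)) v2, fun _ => ⟨?_, ?_⟩, fun e => ?_⟩,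
          fun j hj => ?_⟩
        · rw [← v2 n le_rfl, e3, h2, e5 _ (by omega)]
        · rw [v1, h0]
        · rw [hb] at e; cases e
        · rw [e5 j (by omega), h3 j (by omega) (by omega)]
      · rintro ⟨f, V, e1, e2, e3, e4, e5⟩
        obtain ⟨e6, e7, -⟩ := tl_succ.1 e4
        obtain ⟨e8, e9⟩ := e7 hb
        refine ⟨e9.trans e3, fun j => if j = a + n ∨ j = a + n + 1 then V n else g j,
          (ih _).2 ⟨f, V, e1, e2, by simp, e6.congr (fun _ _ => rfl)
            (fun s hs => (if_neg (by omega)).symm) fun _ _ => rfl, fun j hj => ?_⟩, by simp,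
          fun j h1 h2 => if_neg (by omega)⟩
        by_cases h : j = a + n + 1
        · rw [if_pos (Or.inr h), e8, h]
        · rw [if_neg (by omega), e5 j (by omega)]
    | false =>
      rw [rowS, if_neg (by simp [hb]), ih]
      constructor
      · rintro ⟨f, V, e1, e2, e3, e4, e5⟩
        obtain ⟨V', v1, v2⟩ := upd V (g (a + n + 1))
        refine ⟨f, V', e1, by rw [← v2 0 (by omega), e2], v1, tl_succ.2 ⟨e4.congr (fun _ _ => rfl)
          (fun _ _ => rfl) v2, fun e => ?_, fun _ => ⟨?_, ?_⟩⟩, fun j hj => e5 j (by omega)⟩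
        · rw [hb] at e; cases e
        · rw [← v2 n le_rfl, e3]
        · rw [v1, e5 _ (by omega)]
      · rintro ⟨f, V, e1, e2, e3, e4, e5⟩
        obtain ⟨e6, -, e7⟩ := tl_succ.1 e4
        obtain ⟨e8, e9⟩ := e7 hb
        refine ⟨f, V, e1, e2, e8, e6, fun j hj => ?_⟩
        by_cases h : j = a + n + 1
        · rw [h]; exact e9.trans e3
        · exact e5 j (by omega)

theorem mem_rowT (L : ℕ) (b : ℕ → Bool) (p : St) (g : ℕ → K) : g ∈ rowT L b p ↔
    ∃ f V : ℕ → K, f ∈ p ∧ V L = -V 0 ∧ Tl L b f g V ∧ ∀ j, L ≤ j → f j = g j := by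
  rw [rowT, mem_cap]
  constructor
  · rintro ⟨h, hh, h1, h2⟩
    obtain ⟨f, V, e1, e2, e3, e4, e5⟩ := (comp_row _ _ _ _ _).1 hh
    obtain ⟨d1, d2⟩ := mem_cupS.1 e1
    refine ⟨_, V, d2, ?_, e4.congr (fun s hs => ?_) (fun s hs => ?_) fun _ _ => rfl, fun j hj => ?_⟩
    · rw [e3, e2, zero_add, h1, ← e5 _ (by omega), d1]
    · rw [if_pos hs, zero_add]
    · rw [zero_add, ← h2, Arm.up_of_lt hs]
    · rw [if_neg (by omega), ← h2, Arm.up_of_le hj, e5 _ (by omega)]
  · rintro ⟨f, V, e1, e2, e3, e4⟩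
    refine ⟨ins L (V L) g, (comp_row _ _ _ _ _).2 ⟨fun j => if j = 0 then V 0 else if j ≤ L then
      f (j - 1) else ins L (V L) g j, V, mem_cupS.2 ⟨?_, (mem_congr fun j => ?_).1 e1⟩, by simp,
      by simp, e3.congr (fun s hs => ?_) (fun s hs => ?_) fun _ _ => rfl, fun j hj => ?_⟩, by simp,
      by simp⟩
    all_goals beta_reduce
    · rw [if_neg (by omega), if_neg (by omega), if_pos rfl, ins_right, e2]
    · by_cases hj : j < L
      · rw [if_pos hj, if_neg (by omega), if_pos (by omega)]; rfl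
      · rw [if_neg hj, if_neg (by omega), if_neg (by omega), ins_add (by omega), e4 j (by omega)]
    · rw [if_neg (by omega), if_pos (by omega), zero_add]; rfl
    · rw [zero_add, ins_lt hs]
    · rw [if_neg (by omega), if_neg (by omega)]

theorem mem_zz (m : ℕ) : ∀ f : ℕ → K, f ∈ zz (2 * m) ↔
    (∀ i, 2 * m ≤ i → f i = 0) ∧ ∀ k, k < m → f (2 * k) = f (2 * k + 1) := by
  induction m with
  | zero => exact fun f => ⟨fun h => ⟨fun i _ => h i, fun _ hk => by omega⟩,
      fun h i => h.1 i (Nat.zero_le i)⟩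
  | succ m ih =>
    intro f
    rw [show 2 * (m + 1) = 2 * m + 2 from rfl, zz, mem_cup, ih]
    simp only [Arm.up_of_le (Nat.zero_le _)]
    refine ⟨fun ⟨h0, h1, h2⟩ => ⟨fun i hi => ?_, fun k hk => ?_⟩, fun ⟨h1, h2⟩ =>
      ⟨h2 0 (by omega), fun i hi => h1 _ (by omega), fun k hk => h2 (k + 1) (by omega)⟩⟩
    · obtain ⟨i, rfl⟩ : ∃ j, i = j + 2 := ⟨i - 2, by omega⟩
      exact h1 i (by omega)
    · rcases k with _ | k
      · exact h0
      · exact h2 k (by omega)

/-- the configuration one row higher -/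
def sh (τ : TC) : TC := fun c => τ (c.1, c.2 + 1)

theorem top_sh (L : ℕ) (τ : TC) (n : ℕ) : ∀ r, top L τ (r + 1) n = top L (sh τ) r n := by
  induction n with
  | zero => exact fun _ => rfl
  | succ n ih => intro r; rw [top, top, ih, Nat.cast_succ]; rfl

theorem sh_apply (τ : TC) (s t : ℕ) : sh τ (s, t) = τ (s, ((t + 1 : ℕ) : ℤ)) := by
  simp [sh]

end ColA

open ColA

theorem p_Col :
    S_Col := by
  rintro L τ n g hL
  obtain ⟨m, rfl⟩ := hL.two_dvd
  induction n generalizing τ g with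
  | zero =>
    rw [top, mem_zz]
    refine and_congr_right fun _ => ⟨fun h => ⟨fun i _ => g i, fun _ _ => 0,
      ⟨fun _ _ _ ht => by omega, fun _ _ _ ht => by omega, fun _ ht => by omega,
        fun k hk => h k (by omega)⟩, fun _ _ => rfl⟩, fun ⟨fH, fV, hc, e⟩ k hk => ?_⟩
    rw [← e _ (by omega), ← e _ (by omega)]
    exact hc.roof k (by omega)
  | succ n ih =>
    rw [top, mem_rowT, top_sh]
    constructor
    · rintro ⟨f, V, e1, e2, e3, e4⟩
      obtain ⟨h0, fH, fV, hc, e⟩ := (ih _ _).1 e1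
      refine ⟨fun i hi => by rw [← e4 i hi, h0 i hi], fun s t => Nat.casesOn t (g s) (fH s),
        fun s t => Nat.casesOn t (V s) (fV s), ⟨fun s t hs ht hτ => ?_, fun s t hs ht hτ => ?_,
          fun t ht => ?_, fun k hk => hc.roof k hk⟩, fun _ _ => rfl⟩
      · rcases t with _ | t
        · have := (e3 s hs).1 hτ
          rw [← e s hs] at this; exact this
        · exact hc.tt s t hs (by omega) ((sh_apply _ _ _).trans hτ)
      · rcases t with _ | t
        · have := (e3 s hs).2 hτ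
          rw [← e s hs] at this; exact this
        · exact hc.ff s t hs (by omega) ((sh_apply _ _ _).trans hτ)
      · rcases t with _ | t
        · exact e2
        · exact hc.seam t (by omega)
    · rintro ⟨h0, fH, fV, hc, e⟩
      refine ⟨fun i => if i < 2 * m then fH i 1 else 0, fun s => fV s 0, (ih _ _).2
        ⟨fun i hi => if_neg (by omega), fun s t => fH s (t + 1), fun s t => fV s (t + 1),
          ⟨fun s t hs ht hτ => ?_, fun s t hs ht hτ => ?_, fun t ht => hc.seam _ (by omega),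
            hc.roof⟩, fun i hi => (if_pos hi).symm⟩, hc.seam 0 (by omega), fun s hs => ?_,
        fun j hj => (if_neg (by omega)).trans (h0 j hj).symm⟩
      · exact hc.tt s (t + 1) hs (by omega) ((sh_apply _ _ _).symm.trans hτ)
      · exact hc.ff s (t + 1) hs (by omega) ((sh_apply _ _ _).symm.trans hτ)
      · simp only [if_pos hs]
        rw [← e s hs]
        exact ⟨hc.tt s 0 hs (by omega), hc.ff s 0 hs (by omega)⟩

end Pool.Agent.P.MP_6c8efb_pr.One

end ColS

section WrapEvS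

/-! Step WrapEv. -/

namespace Pool.Agent.P.MP_6c8efb_pr.One

open Polynomial Filter Topology
open Arm (q ah ac Nz Gen Near LPd LP1 TC Pt TConn q_eq q_cube q_ne_zero)

namespace WrapEvA

/-- the sign of an integer according to its parity -/
def e (k : ℤ) : K := if Even k then 1 else -1

theorem e_succ (k : ℤ) : e (k + 1) = -e k := by
  simp only [e, Int.even_add_one]
  by_cases h : Even k <;> simp [h]

theorem e_nat (i : ℕ) : e i = (-1) ^ i := by
  induction i with
  | zero => simp [e]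
  | succ i ih => rw [Nat.cast_succ, e_succ, ih, pow_succ]; ring

theorem prim (g : ℤ → K) : ∃ G : ℤ → K, G 0 = 0 ∧ ∀ i, G i - G (i + 1) = g i := by
  refine ⟨fun i => ∑ k ∈ Finset.range (-i).toNat, g (-1 - k) - ∑ k ∈ Finset.range i.toNat, g k,
    by simp, fun i => ?_⟩
  rcases Int.eq_nat_or_neg i with ⟨n, rfl | rfl⟩
  · have h1 : ((n : ℤ) + 1).toNat = n + 1 := by omega
    have h2 : (-((n : ℤ) + 1)).toNat = 0 := by omega
    have h3 : (-(n : ℤ)).toNat = 0 := by omega
    simp only [h1, h2, h3, Int.toNat_natCast, Finset.sum_range_succ]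
    ring
  · rcases n with _ | n
    · simp
    · have h1 : (-((n + 1 : ℕ) : ℤ) + 1).toNat = 0 := by omega
      have h2 : (-(-((n + 1 : ℕ) : ℤ) + 1)).toNat = n := by omega
      have h3 : (-((n + 1 : ℕ) : ℤ)).toNat = 0 := by omega
      have h4 : (-1 - (n : ℤ)) = -((n + 1 : ℕ) : ℤ) := by omega
      simp only [h1, h2, h3, neg_neg, Int.toNat_natCast, Finset.sum_range_succ, h4]
      ring

/-- the relations of a tile -/
def Tile (b : Bool) (h h' v v' : K) : Prop :=
  (b = true → v = h' ∧ h = v') ∧ (b = false → v = h ∧ h' = v')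

theorem Tile.mul {b : Bool} {h h' v v' : K} (H : Tile b h h' v v') (c : K) :
    Tile b (c * h) (c * h') (c * v) (c * v') :=
  ⟨fun e => by rw [(H.1 e).1, (H.1 e).2]; exact ⟨rfl, rfl⟩,
    fun e => by rw [(H.2 e).1, (H.2 e).2]; exact ⟨rfl, rfl⟩⟩

theorem Tile.closed {b : Bool} {h h' v v' : K} (H : Tile b h h' v v') : h + h' = v + v' := by
  cases b
  · rw [(H.2 rfl).1, (H.2 rfl).2]
  · rw [(H.1 rfl).1, (H.1 rfl).2, add_comm]

theorem plane {σ : TC} {n L : ℕ} {H V : ℤ → ℤ → K}
    (h : ∀ s t : ℤ, -(n : ℤ) ≤ t → t < n →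
      Tile (σ (s, t)) (H s t) (H s (t + 1)) (V s t) (V (s + 1) t))
    (hc : TConn σ {c | -(n : ℤ) ≤ c.2 ∧ c.2 < n} (0, 0) (L, 0)) :
    ∑ i ∈ Finset.range L, (-1) ^ i * H i 0 = 0 := by
  obtain ⟨A, -, hA⟩ := prim fun s => e s * H s 0
  choose B hB0 hB using fun s => prim fun t => e (s + t) * V s t
  have step : ∀ s t : ℤ, -(n : ℤ) ≤ t → t < n →
      (A s + B s t) - (A (s + 1) + B (s + 1) t) - e (s + t) * H s t =
        (A s + B s (t + 1)) - (A (s + 1) + B (s + 1) (t + 1)) - e (s + (t + 1)) * H s (t + 1) := by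
    intro s t h1 h2
    have h3 := hB s t
    have h4 := hB (s + 1) t
    rw [add_right_comm, e_succ] at h4
    rw [← add_assoc, e_succ]
    linear_combination h3 - h4 - e (s + t) * (h s t h1 h2).closed
  have hor : ∀ s t : ℤ, -(n : ℤ) ≤ t → t ≤ n →
      (A s + B s t) - (A (s + 1) + B (s + 1) t) - e (s + t) * H s t = 0 := by
    intro s t
    induction t using Int.induction_on with
    | zero => intro _ _; rw [hB0, hB0, add_zero s]; linear_combination hA s
    | succ t ih => intro h1 h2; rw [← step s t (by omega) (by omega)]; exact ih (by omega) (by omega)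
    | pred t ih =>
      intro h1 h2
      rw [step s _ h1 (by omega), sub_add_cancel]; exact ih (by omega) (by omega)
  have key := hc.ind (P := fun x => A x.1 + B x.1 x.2 = A 0 + B 0 0) rfl fun x y _ l ih => by
    obtain ⟨s, t, ⟨h1, h2⟩, hl⟩ := Arm.link_iff.1 l
    have h3 := hB s t
    rcases hl with ⟨b, hl⟩ | ⟨b, hl⟩
    · have h4 := hor s (t + 1) (by omega) (by omega)
      have h5 := ((h s t h1 h2).1 b).1
      rw [← add_assoc s, e_succ] at h4
      rcases hl with ⟨rfl, rfl⟩ | ⟨rfl, rfl⟩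
      · linear_combination ih - h3 - h4 - e (s + t) * h5
      · linear_combination ih + h3 + h4 + e (s + t) * h5
    · have h4 := hor s t h1 h2.le
      have h5 := ((h s t h1 h2).2 b).1
      rcases hl with ⟨rfl, rfl⟩ | ⟨rfl, rfl⟩
      · linear_combination ih - h3 + h4 - e (s + t) * h5
      · linear_combination ih + h3 - h4 + e (s + t) * h5
  have tel : ∀ m : ℕ, ∑ i ∈ Finset.range m, (-1) ^ i * H i 0 = A 0 - A m := by
    intro m
    induction m with
    | zero => simp
    | succ m ih =>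
      rw [Finset.sum_range_succ, ih, ← e_nat, Nat.cast_succ]
      linear_combination -hA m
  simp only [hB0] at key
  rw [tel]
  linear_combination -key

theorem cover {τ : TC} {n L : ℕ} (hL : 0 < L) {h v : ℕ → ℤ → K}
    (ht : ∀ (s : ℕ) (t : ℤ), s < L → -(n : ℤ) ≤ t → t < n →
      Tile (τ (s, t)) (h s t) (h s (t + 1)) (v s t) (v (s + 1) t))
    (hs : ∀ t : ℤ, -(n : ℤ) ≤ t → t < n → v L t = -v 0 t) (hc : τ ∈ Wrap L n) :
    ∑ i ∈ Finset.range L, (-1) ^ i * h i 0 = 0 := by
  have hL' : (0 : ℤ) < L := by exact_mod_cast hL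
  have dm : ∀ (k : ℤ) (r : ℕ), r < L → (r + L * k) / L = k ∧ (r + L * k) % L = r := fun k r hr =>
    (Int.ediv_emod_unique hL').2 ⟨rfl, by omega, by omega⟩
  have := plane (H := fun s t => e (s / L) * h (s % L).toNat t)
    (V := fun s t => e (s / L) * v (s % L).toNat t) (fun s t h1 h2 => ?_) hc
  · rw [← this]
    refine Finset.sum_congr rfl fun i hi => ?_
    have := dm 0 i (Finset.mem_range.1 hi)
    rw [mul_zero, add_zero] at this
    simp [this.1, this.2, e]
  · obtain ⟨k, r, hr, rfl⟩ : ∃ (k : ℤ) (r : ℕ), r < L ∧ s = r + L * k := by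
      have h3 := Int.emod_nonneg s hL'.ne'
      have h4 := Int.emod_lt_of_pos s hL'
      refine ⟨s / L, (s % L).toNat, by omega, ?_⟩
      rw [Int.toNat_of_nonneg h3, Int.emod_add_mul_ediv]
    have h3 : e ((r + L * k + 1) / L) * v ((r + L * k + 1) % (L : ℤ)).toNat t =
        e k * v (r + 1) t := by
      rcases (Nat.succ_le_of_lt hr).eq_or_lt with h4 | h4
      · have h5 := dm (k + 1) 0 hL
        rw [show ((0 : ℕ) : ℤ) + L * (k + 1) = r + L * k + 1 by rw [← h4]; push_cast; ring] at h5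
        rw [h5.1, h5.2, e_succ, show r + 1 = L from h4, hs t h1 h2]
        simp
      · have h5 := dm k (r + 1) h4
        rw [show ((r + 1 : ℕ) : ℤ) + L * k = r + L * k + 1 by push_cast; ring] at h5
        rw [h5.1, h5.2, Int.toNat_natCast]
    simp only [per, h3, (dm k r hr).1, (dm k r hr).2, Int.toNat_natCast]
    exact (ht r t hr h1 h2).mul _

end WrapEvA

theorem p_WrapEv (hCol : S_Col) :
    S_WrapEv := by
  intro L n hL τ hτ f h1 h2
  rcases L.eq_zero_or_pos with rfl | h0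
  · simp
  obtain ⟨-, fH, fV, c1, e1⟩ := (hCol L τ n f hL).1 h1
  obtain ⟨-, gH, gV, c2, e2⟩ := (hCol L (flp τ) n f hL).1 h2
  have := WrapEvA.cover h0 (h := fun s t => if 0 ≤ t then fH s t.toNat else gH s (-t).toNat)
    (v := fun s t => if 0 ≤ t then fV s t.toNat else gV s (-1 - t).toNat)
    (fun s t hs h3 h4 => ?_) (fun t h3 h4 => ?_) hτ
  · rw [← this]
    exact Finset.sum_congr rfl fun i hi => by simp [e1 i (Finset.mem_range.1 hi)]
  · rcases le_or_gt 0 t with ht | ht
    · obtain ⟨t, rfl⟩ := Int.eq_ofNat_of_zero_le ht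
      have h5 : ((t : ℤ) + 1).toNat = t + 1 := by omega
      simp only [if_pos ht, if_pos (show (0 : ℤ) ≤ t + 1 by omega), h5, Int.toNat_natCast]
      exact ⟨c1.tt s t hs (by omega), c1.ff s t hs (by omega)⟩
    · obtain ⟨u, rfl⟩ : ∃ u : ℕ, t = -1 - u := ⟨(-1 - t).toNat, by omega⟩
      have h5 : (if (0 : ℤ) ≤ -1 - u + 1 then fH s (-1 - u + 1 : ℤ).toNat
          else gH s (-(-1 - u + 1) : ℤ).toNat) = gH s u := by
        rcases u with _ | u
        · simp [e1 s hs, e2 s hs]
        · rw [if_neg (by omega)]; congr 1; omega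
      have h6 : (-(-1 - u) : ℤ).toNat = u + 1 := by omega
      have h7 : (-1 - (-1 - u) : ℤ).toNat = u := by omega
      simp only [if_neg ht.not_ge, h5, h6, h7]
      exact ⟨fun b => c2.ff s u hs (by omega) (by simp [flp, b]),
        fun b => c2.tt s u hs (by omega) (by simp [flp, b])⟩
  · split_ifs with ht
    · exact c1.seam _ (by omega)
    · exact c2.seam _ (by omega)

end Pool.Agent.P.MP_6c8efb_pr.One

end WrapEvS
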