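import Pool.Agent.P.MP_6c8efb_pr.One.E1
import Pool.Agent.P.MP_6c8efb_pr.One.E2
import Pool.Agent.P.MP_6c8efb_pr.One.E3
import Pool.Agent.P.MP_6c8efb_pr.One.E4
import Pool.Agent.P.MP_6c8efb_pr.One.E5
import Pool.Agent.P.MP_6c8efb_pr.One.M1
import Pool.Agent.P.MP_6c8efb_pr.One.M2
import Pool.Agent.P.MP_6c8efb_pr.One.M3
import Pool.Agent.P.MP_6c8efb_pr.One.M4
import Pool.Agent.P.MP_6c8efb_pr.One.M5
import Pool.Agent.P.MP_6c8efb_pr.One.M6
import Pool.Agent.P.MP_6c8efb_pr.One.M7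
import Pool.Agent.P.MP_6c8efb_pr.One.M8
import Pool.Agent.P.MP_6c8efb_pr.One.M9
import Pool.Agent.P.MP_6c8efb_pr.One.M10
import Pool.Agent.P.MP_6c8efb_pr.One.L1
import Pool.Agent.P.MP_6c8efb_pr.One.L2

/-! Assembly of all the steps. -/

namespace Pool.Agent.P.MP_6c8efb_pr.One

theorem a_Reset : S_Reset := p_Reset
theorem a_Contr : S_Contr := p_Contr a_Reset
theorem a_TM : S_TM := p_TM
theorem a_Ybe : S_Ybe := p_Ybe
theorem a_Loc : S_Loc := p_Loc a_Contr a_TM a_Ybe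
theorem a_Tri : S_Tri := p_Tri
theorem a_Pref : S_Pref := p_Pref
theorem a_Pmem : S_Pmem := p_Pmem
theorem a_Dd : S_Dd := p_Dd
theorem a_Poly : S_Poly := p_Poly a_Tri a_Pref a_Pmem a_Dd
theorem a_Lps : S_Lps := p_Lps
theorem a_Sol : S_Sol := p_Sol a_Loc a_Poly a_Lps
theorem a_Frm : S_Frm := p_Frm
theorem a_Nsym : S_Nsym := p_Nsym a_Lps
theorem a_Uq : S_Uq := p_Uq a_Tri
theorem a_Arc : S_Arc := p_Arc a_Uq a_Pref
theorem a_Narc : S_Narc := p_Narc a_Arc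
theorem a_Move : S_Move := p_Move
theorem a_Fam : S_Fam := p_Fam a_Move a_Lps a_Pref
theorem a_Jm : S_Jm := p_Jm
theorem a_Top : S_Top := p_Top a_Fam a_Jm a_Uq a_Pref
theorem a_Ntop : S_Ntop := p_Ntop a_Top
theorem a_Dperm : S_Dperm := p_Dperm
theorem a_Dpoly : S_Dpoly := p_Dpoly
theorem a_Darc : S_Darc := p_Darc
theorem a_Step : S_Step := p_Step a_Dperm a_Dpoly a_Darc
theorem a_Dtop : S_Dtop := p_Dtop
theorem a_Main : S_Main := p_Main a_Step a_Dperm a_Dtop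
theorem a_Kap : S_Kap := p_Kap
theorem a_Strip : S_Strip := p_Strip
theorem a_Shift : S_Shift := p_Shift a_Strip
theorem a_Sech : S_Sech := p_Sech a_Strip a_Shift
theorem a_Ker : S_Ker := p_Ker a_Sech
theorem a_Toep : S_Toep := p_Toep
theorem a_Lip : S_Lip := p_Lip
theorem a_Nice : S_Nice := p_Nice a_Lip
theorem a_Hom : S_Hom := p_Hom a_Ker a_Toep a_Nice
theorem a_Ratio : S_Ratio := p_Ratio a_Frm a_Nsym a_Narc a_Ntop a_Main a_Kap a_Hom
theorem a_Hank : S_Hank := p_Hank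
theorem a_Orth : S_Orth := p_Orth a_Shift
theorem a_Var1 : S_Var1 := p_Var1 a_Orth
theorem a_Cau : S_Cau := p_Cau a_Orth
theorem a_Var : S_Var := p_Var a_Var1 a_Cau
theorem a_Err : S_Err := p_Err a_Orth
theorem a_Sect : S_Sect := p_Sect a_Orth
theorem a_Jac : S_Jac := p_Jac
theorem a_Dint : S_Dint := p_Dint
theorem a_Logdet : S_Logdet := p_Logdet a_Orth a_Var a_Err a_Sect a_Jac a_Dint
theorem a_Irec : S_Irec := p_Irec a_Sech
theorem a_Ibd : S_Ibd := p_Ibd a_Irec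
theorem a_Jost : S_Jost := p_Jost a_Irec a_Ibd
theorem a_Pair : S_Pair := p_Pair a_Jost a_Orth a_Cau
theorem a_Trace : S_Trace := p_Trace a_Pair
theorem a_Lam : S_Lam := p_Lam
theorem a_Logint : S_Logint := p_Logint a_Lam
theorem a_Asym : S_Asym := p_Asym a_Hank a_Logdet a_Trace a_Nice a_Logint
theorem a_Law : S_Law := p_Law
theorem a_Lim : S_Lim := p_Lim a_Contr a_TM a_Pref
theorem a_Col : S_Col := p_Col
theorem a_WrapEv : S_WrapEv := p_WrapEv a_Col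
theorem a_EvFar : S_EvFar := p_EvFar a_Col
theorem a_Reix : S_Reix := p_Reix
theorem a_Up : S_Up := p_Up a_Reix
theorem a_WrapE : S_WrapE := p_WrapE
theorem a_GlueD : S_GlueD := p_GlueD
theorem a_GlueP : S_GlueP := p_GlueP a_GlueD a_Reix
theorem a_Fin : S_Fin := p_Fin a_Sol a_Ratio a_Asym a_Law a_Lim a_WrapEv a_EvFar a_Up a_WrapE a_GlueP

end Pool.Agent.P.MP_6c8efb_pr.One
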