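import Mathlib

/-! Meixner-Pollaczek polynomials and Hankel determinants: definitions and elementary facts. -/

open Polynomial MeasureTheory Real

namespace Pool.Agent.P.MP_6c8efb_pr.One

/-- the weight -/
noncomputable def wt0 (x : ℝ) : ℝ := 1 / cosh (π * x)

/-- the orthonormal polynomials -/
noncomputable def pp : ℕ → ℝ[X]
  | 0 => 1
  | 1 => 2 * X
  | n + 2 => C (1 / (n + 2 : ℝ)) * (2 * X * pp (n + 1) - C (n + 1 : ℝ) * pp n)

noncomputable def pf (n : ℕ) (x : ℝ) : ℝ := (pp n).eval x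

/-- the matrix of the multiplication by `g` -/
noncomputable def Mx (L : ℕ) (g : ℝ → ℂ) : Matrix (Fin L) (Fin L) ℂ :=
  Matrix.of fun j k => ∫ x, g x * ((pf j x * pf k x * wt0 x : ℝ) : ℂ)

/-- the Hankel determinant of the weight `g * wt0` -/
noncomputable def HD (L : ℕ) (g : ℝ → ℂ) : ℂ :=
  Matrix.det (Matrix.of fun j k : Fin L => ∫ x, g x * ((x ^ ((j : ℕ) + k) * wt0 x : ℝ) : ℂ))

/-- the reproducing kernel -/
noncomputable def KK (L : ℕ) (x y : ℝ) : ℝ := ∑ n ∈ Finset.range L, pf n x * pf n y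

/-- the part of `h * pf k` orthogonal to the polynomials of degree less than `L` -/
noncomputable def res (L : ℕ) (h : ℝ → ℂ) (k : Fin L) (x : ℝ) : ℂ :=
  h x * pf k x - ∑ j : Fin L, Mx L h j k * pf j x

noncomputable def VV (L : ℕ) (h : ℝ → ℂ) : ℝ := ∑ k : Fin L, ∫ x, ‖res L h k x‖ ^ 2 * wt0 x

/-- the symbol -/
noncomputable def rr (ψ x : ℝ) : ℂ :=
  1 + Complex.cosh ((π * x / 2 : ℝ) - ψ * Complex.I) / Complex.cosh ((3 * π * x / 2 : ℝ) + ψ * Complex.I)

/-- bounded continuous functions -/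
structure Bc (C : ℝ) (g : ℝ → ℂ) : Prop where
  cont : Continuous g
  bd : ∀ x, ‖g x‖ ≤ C

/-- a weighted Lipschitz condition -/
def Lw (C : ℝ) (g : ℝ → ℂ) : Prop :=
  ∀ x y, ‖g x - g y‖ ^ 2 * ((1 + 4 * x ^ 2) * (1 + 4 * y ^ 2)) ≤ C ^ 2 * (x - y) ^ 2

/-- `a` bounds the Euclidean operator norm -/
def Opb {L : ℕ} (A : Matrix (Fin L) (Fin L) ℂ) (a : ℝ) : Prop :=
  ∀ v : Fin L → ℂ, ∑ i, ‖A.mulVec v i‖ ^ 2 ≤ a ^ 2 * ∑ i, ‖v i‖ ^ 2

/-- a second solution of the recurrence relation -/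
noncomputable def II (n : ℕ) (x : ℝ) : ℂ :=
  ∫ v in Set.Ioi (0 : ℝ), ((tanh v ^ n / cosh v : ℝ) : ℂ) * Complex.exp (-2 * Complex.I * x * v)

@[simp] theorem pf_zero (x : ℝ) : pf 0 x = 1 := by simp [pf, pp]
@[simp] theorem pf_one (x : ℝ) : pf 1 x = 2 * x := by simp [pf, pp]

theorem pp_rec (n : ℕ) : C (n + 2 : ℝ) * pp (n + 2) = 2 * X * pp (n + 1) - C (n + 1 : ℝ) * pp n := by
  rw [pp, ← mul_assoc, ← C_mul, mul_one_div_cancel (by positivity), C_1, one_mul]

theorem pf_rec (n : ℕ) (x : ℝ) : (n + 2) * pf (n + 2) x = 2 * x * pf (n + 1) x - (n + 1) * pf n x := by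
  simpa [pf] using congrArg (eval x) (pp_rec n)

@[fun_prop] theorem continuous_pf (n : ℕ) : Continuous (pf n) := (pp n).continuous

theorem wt0_pos (x : ℝ) : 0 < wt0 x := one_div_pos.2 (cosh_pos _)

theorem wt0_le_one (x : ℝ) : wt0 x ≤ 1 := div_le_one_of_le₀ (one_le_cosh _) (cosh_pos _).le

@[fun_prop] theorem continuous_wt0 : Continuous wt0 :=
  continuous_const.div (by fun_prop) fun _ => (cosh_pos _).ne'

theorem exp_abs_le_cosh (t : ℝ) : exp |t| ≤ 2 * cosh t := by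
  rw [← cosh_abs, cosh_eq]; linarith [exp_pos (-|t|)]

theorem cosh_le_exp_abs (t : ℝ) : cosh t ≤ exp |t| := by
  rw [← cosh_abs, cosh_eq]; linarith [exp_le_exp.2 (neg_le_self (abs_nonneg t))]

theorem wt0_le (x : ℝ) : wt0 x ≤ 2 * exp (-(π * |x|)) := by
  have h := exp_abs_le_cosh (π * x)
  rw [abs_mul, abs_of_pos pi_pos] at h
  rw [wt0, exp_neg, ← div_eq_mul_inv, div_le_div_iff₀ (cosh_pos _) (exp_pos _)]
  linarith

theorem integrable_exp_neg_abs {c : ℝ} (hc : 0 < c) : Integrable fun x : ℝ => exp (-(c * |x|)) := by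
  have h : IntegrableOn (fun x : ℝ => exp (-(c * |x|))) (Set.Ioi 0) :=
    (exp_neg_integrableOn_Ioi 0 hc).congr_fun
      (fun x hx => by simp only [abs_of_pos (Set.mem_Ioi.1 hx), neg_mul]) measurableSet_Ioi
  rw [← integrableOn_univ, ← Set.Iic_union_Ioi (a := (0 : ℝ)), integrableOn_union,
    integrableOn_Iic_iff_integrableOn_Iio]
  refine ⟨?_, h⟩
  have := h.comp_neg
  simpa using this

/-- the basic integrability criterion -/
theorem integrable_of_exp {E : Type*} [NormedAddCommGroup E] {f : ℝ → E} (hf : Continuous f)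
    {C c : ℝ} (hc : 0 < c) (h : ∀ x, ‖f x‖ ≤ C * exp (-(c * |x|))) : Integrable f :=
  ((integrable_exp_neg_abs hc).const_mul C).mono' hf.aestronglyMeasurable (.of_forall h)

theorem integrable_wt0 {f : ℝ → ℂ} (hf : Continuous f) {C c : ℝ} (hc : c < π)
    (h : ∀ x, ‖f x‖ ≤ C * exp (c * |x|)) : Integrable fun x => f x * (wt0 x : ℂ) := by
  refine integrable_of_exp (by fun_prop) (C := 2 * C) (sub_pos.2 hc) fun x => ?_
  rw [norm_mul, Complex.norm_real, Real.norm_of_nonneg (wt0_pos x).le]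
  refine (mul_le_mul (h x) (wt0_le x) (wt0_pos x).le ((norm_nonneg _).trans (h x))).trans_eq ?_
  rw [show -((π - c) * |x|) = c * |x| + -(π * |x|) by ring, exp_add]; ring

theorem integrable_wt0' {f : ℝ → ℝ} (hf : Continuous f) {C c : ℝ} (hc : c < π)
    (h : ∀ x, |f x| ≤ C * exp (c * |x|)) : Integrable fun x => f x * wt0 x := by
  have := (integrable_wt0 (f := fun x => (f x : ℂ)) (by fun_prop) hc
    (fun x => by simpa using h x)).re
  simpa using this

theorem pow_le_exp (n : ℕ) {ε : ℝ} (hε : 0 < ε) : ∃ C, 0 < C ∧ ∀ t, 0 ≤ t → t ^ n ≤ C * exp (ε * t) := by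
  refine ⟨n.factorial / ε ^ n, by positivity, fun t ht => ?_⟩
  have h := pow_div_factorial_le_exp (ε * t) (by positivity) n
  rw [div_le_iff₀ (by positivity), mul_pow] at h
  rw [div_mul_eq_mul_div, le_div_iff₀ (by positivity)]
  linarith

/-- polynomials grow slower than exponentials -/
theorem poly_le_exp {𝕜 : Type*} [NormedField 𝕜] (P : 𝕜[X]) {ε : ℝ} (hε : 0 < ε) :
    ∃ C, 0 ≤ C ∧ ∀ z : 𝕜, ‖P.eval z‖ ≤ C * exp (ε * ‖z‖) := by
  induction P using Polynomial.induction_on' with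
  | add p r h1 h2 =>
    obtain ⟨C, c0, h1⟩ := h1
    obtain ⟨D, d0, h2⟩ := h2
    exact ⟨C + D, by positivity, fun z => by
      rw [eval_add, add_mul]; exact (norm_add_le _ _).trans (add_le_add (h1 z) (h2 z))⟩
  | monomial n a =>
    obtain ⟨C, c0, h⟩ := pow_le_exp n hε
    exact ⟨‖a‖ * C, by positivity, fun z => by
      rw [eval_monomial, norm_mul, norm_pow, mul_assoc]
      exact mul_le_mul_of_nonneg_left (h _ (norm_nonneg z)) (norm_nonneg a)⟩

theorem integrable_poly (P : ℝ[X]) : Integrable fun x => P.eval x * wt0 x := by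
  obtain ⟨C, -, h⟩ := poly_le_exp P one_pos
  exact integrable_wt0' P.continuous (by linarith [pi_gt_three] : 1 < π) h

theorem Bc.nonneg {C : ℝ} {g : ℝ → ℂ} (h : Bc C g) : 0 ≤ C := (norm_nonneg _).trans (h.bd 0)

theorem Bc.integrable_poly {C : ℝ} {g : ℝ → ℂ} (h : Bc C g) (P : ℝ[X]) :
    Integrable fun x => g x * ((P.eval x * wt0 x : ℝ) : ℂ) :=
  (One.integrable_poly P).ofReal.bdd_mul h.cont.aestronglyMeasurable (.of_forall h.bd)

theorem integrable_pf (j k : ℕ) : Integrable fun x => pf j x * pf k x * wt0 x := by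
  simpa [pf] using integrable_poly (pp j * pp k)

theorem Bc.integrable {C : ℝ} {g : ℝ → ℂ} (h : Bc C g) (j k : ℕ) :
    Integrable fun x => g x * ((pf j x * pf k x * wt0 x : ℝ) : ℂ) :=
  (integrable_pf j k).ofReal.bdd_mul h.cont.aestronglyMeasurable (.of_forall h.bd)

theorem Bc.mul {C D : ℝ} {g h : ℝ → ℂ} (hg : Bc C g) (hh : Bc D h) :
    Bc (C * D) fun x => g x * h x :=
  ⟨hg.cont.mul hh.cont, fun x => by
    rw [norm_mul]; exact mul_le_mul (hg.bd x) (hh.bd x) (norm_nonneg _) hg.nonneg⟩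

theorem Mx_apply (L : ℕ) (g : ℝ → ℂ) (j k : Fin L) :
    Mx L g j k = ∫ x, g x * ((pf j x * pf k x * wt0 x : ℝ) : ℂ) := rfl

theorem Mx_symm (L : ℕ) (g : ℝ → ℂ) (j k : Fin L) : Mx L g j k = Mx L g k j := by
  simp only [Mx_apply, mul_comm (pf j _)]

end Pool.Agent.P.MP_6c8efb_pr.One
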