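import Pool.Agent.P.MP_6c8efb_pr.One.Defs

/-! Elementary facts on the linear maps induced by maps of patterns. -/

open Polynomial Filter Topology

namespace Pool.Agent.P.MP_6c8efb_pr.One

open Arm (q ah ac Nz Gen Near LPd LP1 TC Pt TConn q_eq q_cube q_ne_zero)

@[simp] theorem lm_single (f : St → St) (p : St) (c : ℂ) :
    lm f (Finsupp.single p c) = Finsupp.single (f p) c := by
  simp [lm, Finsupp.mapDomain_single]

theorem lm_mul (f g : St → St) : lm f * lm g = lm (f ∘ g) :=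
  Finsupp.lhom_ext fun p c => by simp

theorem lm_id : lm id = 1 := Finsupp.lhom_ext fun p c => by simp

theorem lm_congr {f g : St → St} (h : ∀ p, f p = g p) : lm f = lm g := by rw [funext h]

/-- a relation between maps of patterns gives a relation between the linear maps -/
theorem lm_mul_eq {f g f' g' : St → St} (h : ∀ p, f (g p) = f' (g' p)) :
    lm f * lm g = lm f' * lm g' := by rw [lm_mul, lm_mul]; exact lm_congr h

theorem lm_mul_eq' {f g f' : St → St} (h : ∀ p, f (g p) = f' p) : lm f * lm g = lm f' := by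
  rw [lm_mul]; exact lm_congr h

theorem lm_mul_eq_one {f g : St → St} (h : ∀ p, f (g p) = p) : lm f * lm g = 1 :=
  (lm_mul_eq' (f' := id) h).trans lm_id

theorem lm_injective {f : St → St} (h : Function.Injective f) : Function.Injective (lm f) :=
  Finsupp.mapDomain_injective h

theorem lm_apply_inj {f : St → St} (h : Function.Injective f) (v : W) (p : St) :
    lm f v (f p) = v p := Finsupp.mapDomain_apply h v p

@[simp] theorem tot_single (p : St) (c : ℂ) : tot (Finsupp.single p c) = c := by simp [tot]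

@[simp] theorem tot_lm (f : St → St) (v : W) : tot (lm f v) = tot v := by
  have : tot ∘ₗ lm f = tot := Finsupp.lhom_ext fun p c => by simp
  exact LinearMap.congr_fun this v

theorem sup_zero (L : ℕ) : Sup L 0 := fun _ h => absurd rfl h

theorem Sup.add {L : ℕ} {v w : W} (hv : Sup L v) (hw : Sup L w) : Sup L (v + w) := fun p h => by
  by_cases e : v p = 0
  · exact hw p (by simpa [e] using h)
  · exact hv p e

theorem Sup.smul {L : ℕ} {v : W} (hv : Sup L v) (c : ℂ) : Sup L (c • v) :=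
  fun p h => hv p fun e => h (by simp [e])

theorem Sup.sub {L : ℕ} {v w : W} (hv : Sup L v) (hw : Sup L w) : Sup L (v - w) := by
  have := hv.add (hw.smul (-1))
  rwa [neg_one_smul, ← sub_eq_add_neg] at this

theorem sup_single {L : ℕ} {p : St} (h : Bd L p) (c : ℂ) : Sup L (Finsupp.single p c) := fun r e => by
  classical
  rw [Finsupp.single_apply] at e
  split_ifs at e with h'
  · exact h' ▸ h
  · exact absurd rfl e

theorem Sup.eq_zero_of_odd {L : ℕ} {v : W} (hv : Sup L v) (h : ¬ Even L) : v = 0 :=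
  Finsupp.ext fun p => by_contra fun e => h (hv p e).even

/-- induction for vectors supported on the patterns on `L` sites -/
theorem Sup.ind {L : ℕ} {P : W → Prop} (h0 : P 0) (h1 : ∀ p c, Bd L p → P (Finsupp.single p c))
    (h2 : ∀ v w, P v → P w → P (v + w)) {v : W} (hv : Sup L v) : P v := by
  rw [← Finsupp.sum_single v, Finsupp.sum]
  exact Finset.sum_induction _ P h2 h0 fun p hp => h1 p _ (hv p (Finsupp.mem_support_iff.1 hp))

/-- two linear maps that agree on the patterns on `L` sites -/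
theorem Sup.ext {L : ℕ} {M : Type*} [AddCommGroup M] [Module ℂ M] {f g : W →ₗ[ℂ] M}
    (h : ∀ p, Bd L p → f (Finsupp.single p 1) = g (Finsupp.single p 1)) {v : W} (hv : Sup L v) :
    f v = g v := by
  refine Sup.ind (P := fun v => f v = g v) (by simp) (fun p c hp => ?_)
    (fun v w h1 h2 => by simp [h1, h2]) hv
  have : (Finsupp.single p c : W) = c • Finsupp.single p 1 := by simp
  rw [this, map_smul, map_smul, h p hp]

theorem Sup.lm {L M : ℕ} {f : St → St} (h : ∀ p, Bd L p → Bd M (f p)) {v : W} (hv : Sup L v) :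
    Sup M (lm f v) :=
  Sup.ind (P := fun v => Sup M (One.lm f v)) (by simpa using sup_zero M)
    (fun p c hp => by simpa using sup_single (h p hp) c)
    (fun v w h1 h2 => by simpa using h1.add h2) hv

theorem Sup.lm_congr {L : ℕ} {f g : St → St} (h : ∀ p, Bd L p → f p = g p) {v : W} (hv : Sup L v) :
    One.lm f v = One.lm g v := Sup.ext (fun p hp => by simp [h p hp]) hv

theorem Sup.Cup {L i : ℕ} {v : W} (hv : Sup L v) (hi : i ≤ L) : Sup (L + 2) (Cup i v) :=
  hv.lm fun _ hp => hp.cup hi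
theorem Sup.Cap {L i : ℕ} {v : W} (hv : Sup (L + 2) v) (hi : i ≤ L) : Sup L (Cap i v) :=
  hv.lm fun _ hp => hp.cap hi
theorem Sup.Ee {L i : ℕ} {v : W} (hv : Sup L v) (hi : i + 2 ≤ L) : Sup L (Ee i v) :=
  hv.lm fun _ hp => hp.ee hi
theorem Sup.Rot {L : ℕ} {v : W} (hv : Sup L v) : Sup L (Rot L v) := hv.lm fun _ hp => hp.rot
theorem Sup.CupS {L : ℕ} {v : W} (hv : Sup L v) : Sup (L + 2) (CupS L v) := hv.lm fun _ hp => hp.cupS

/-- the finite set of the patterns on `L` sites -/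
noncomputable def SL (L : ℕ) : Finset St := (finite_bd L).toFinset

@[simp] theorem mem_SL {L : ℕ} {p : St} : p ∈ SL L ↔ Bd L p := by simp [SL]

theorem Sup.eq_sum {L : ℕ} {v : W} (hv : Sup L v) :
    v = ∑ p ∈ SL L, v p • Finsupp.single p (1 : ℂ) := by
  conv_lhs => rw [← Finsupp.sum_single v]
  rw [Finsupp.sum_of_support_subset v (s := SL L)
    (fun p hp => mem_SL.2 (hv p (Finsupp.mem_support_iff.1 hp))) _ (by simp)]
  simp

theorem Sup.map_eq {L : ℕ} {v : W} (hv : Sup L v) (φ : W →ₗ[ℂ] ℂ) :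
    φ v = ∑ p ∈ SL L, v p * φ (Finsupp.single p 1) := by
  conv_lhs => rw [hv.eq_sum]
  simp only [map_sum, map_smul, smul_eq_mul]

open Classical in
theorem Sup.lm_apply {L : ℕ} {v : W} (hv : Sup L v) (f : St → St) (r : St) :
    One.lm f v r = ∑ p ∈ (SL L).filter (fun p => f p = r), v p := by
  have := hv.map_eq (Finsupp.lapply r ∘ₗ One.lm f)
  simp only [LinearMap.comp_apply, Finsupp.lapply_apply, lm_single] at this
  rw [this, Finset.sum_filter]
  exact Finset.sum_congr rfl fun p _ => by rw [Finsupp.single_apply]; split_ifs <;> simp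

theorem lm_apply_of_notMem {f : St → St} {r : St} (h : ∀ p, f p ≠ r) (v : W) : lm f v r = 0 :=
  Finsupp.mapDomain_of_notMem_range _ _ fun ⟨p, e⟩ => h p e

theorem Ee_apply_o {L i : ℕ} (h : Even L) (hi : i + 2 ≤ L) (v : W) : Ee i v (o L) = 0 :=
  lm_apply_of_notMem (ee_ne_o h hi) v

theorem Cup_apply_o {L i : ℕ} (h : Even L) (hi : i + 2 ≤ L) (v : W) : Cup i v (o L) = 0 :=
  lm_apply_of_notMem (cup_ne_o h hi) v

theorem CupS_apply_o (L : ℕ) (v : W) : CupS L v (o (L + 2)) = v (o L) :=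
  lm_apply_inj (cupS_injective L) v _

theorem Rot_apply (L : ℕ) (v : W) (p : St) : Rot L v (rot L p) = v p :=
  lm_apply_inj (rot_injective L) v p

theorem Rot_injective (L : ℕ) : Function.Injective (Rot L) := lm_injective (rot_injective L)
theorem Cup_injective (i : ℕ) : Function.Injective (Cup i) := lm_injective (cup_injective i)

/-! ### the relations -/

theorem Ee_eq (i : ℕ) : Ee i = Cup i * Cap i := (lm_mul _ _).symm
theorem CupS_eq (L : ℕ) : CupS L = Rot (L + 2) * Cup L := (lm_mul _ _).symm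
theorem Cap_Cup (i : ℕ) : Cap i * Cup i = 1 := lm_mul_eq_one (cap_cup i)
theorem Cap_succ_Cup (i : ℕ) : Cap (i + 1) * Cup i = 1 := lm_mul_eq_one (cap_succ_cup i)
theorem Cap_Cup_succ (i : ℕ) : Cap i * Cup (i + 1) = 1 := lm_mul_eq_one (cap_cup_succ i)
theorem E_E (i : ℕ) : Ee i * Ee i = Ee i := lm_mul_eq' (ee_ee i)
theorem E_Cup (i : ℕ) : Ee i * Cup i = Cup i := lm_mul_eq' (ee_cup i)
theorem E_succ_Cup (i : ℕ) : Ee (i + 1) * Cup i = Cup (i + 1) := lm_mul_eq' (ee_succ_cup i)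
theorem E_Cup_succ (i : ℕ) : Ee i * Cup (i + 1) = Cup i := lm_mul_eq' (ee_cup_succ i)
theorem Cap_E (i : ℕ) : Cap i * Ee i = Cap i := lm_mul_eq' (cap_ee i)
theorem Cap_succ_E (i : ℕ) : Cap (i + 1) * Ee i = Cap i := lm_mul_eq' (cap_succ_ee i)
theorem Cap_E_succ (i : ℕ) : Cap i * Ee (i + 1) = Cap (i + 1) := lm_mul_eq' (cap_ee_succ i)
theorem E_comm {i j : ℕ} (h : i + 2 ≤ j) : Ee i * Ee j = Ee j * Ee i := lm_mul_eq (ee_comm h)
theorem E_Cup_far {i j : ℕ} (h : i ≤ j) : Ee (j + 2) * Cup i = Cup i * Ee j :=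
  lm_mul_eq (ee_cup_far h)
theorem E_Cup_far' {i j : ℕ} (h : i + 2 ≤ j) : Ee i * Cup j = Cup j * Ee i :=
  lm_mul_eq (ee_cup_far' h)
theorem Cap_E_far {i j : ℕ} (h : i ≤ j) : Cap i * Ee (j + 2) = Ee j * Cap i :=
  lm_mul_eq (cap_ee_far h)
theorem Cap_E_far' {i j : ℕ} (h : i + 2 ≤ j) : Cap j * Ee i = Ee i * Cap j :=
  lm_mul_eq (cap_ee_far' h)
theorem braid (i : ℕ) : Ee i * (Ee (i + 1) * Ee i) = Ee i := by
  rw [Ee, Ee, lm_mul]; exact lm_mul_eq' (ee_braid i)
theorem braid' (i : ℕ) : Ee (i + 1) * (Ee i * Ee (i + 1)) = Ee (i + 1) := by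
  rw [Ee, Ee, lm_mul]; exact lm_mul_eq' (ee_braid' i)
theorem Rot_Cup {L i : ℕ} (h : i + 1 ≤ L) : Rot (L + 2) * Cup i = Cup (i + 1) * Rot L :=
  lm_mul_eq (rot_cup h)
theorem Rot_CupS (L : ℕ) : Rot (L + 2) * CupS L = Cup 0 := lm_mul_eq' (rot_cupS L)
theorem Cap_Rot {L i : ℕ} (h : i + 1 ≤ L) : Cap (i + 1) * Rot (L + 2) = Rot L * Cap i :=
  lm_mul_eq (cap_rot h)
theorem Rot_E {L i : ℕ} (h : i + 3 ≤ L) : Rot L * Ee i = Ee (i + 1) * Rot L := lm_mul_eq (rot_ee h)
theorem E_CupS {L i : ℕ} (h : i + 2 ≤ L) : Ee (i + 1) * CupS L = CupS L * Ee i :=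
  lm_mul_eq (ee_cupS h)
theorem Rot_zero : Rot 0 = 1 := (lm_congr rot_zero).trans lm_id

theorem row_append (a : ℕ) (l₁ l₂ : List ℂ) :
    row a (l₁ ++ l₂) = row (a + l₁.length) l₂ * row a l₁ := by
  induction l₁ generalizing a with
  | nil => simp [row]
  | cons x l ih => simp only [List.cons_append, row, ih, List.length_cons, mul_assoc]; congr 2; omega

theorem nrm_append (l₁ l₂ : List ℂ) : nrm (l₁ ++ l₂) = nrm l₁ * nrm l₂ := by simp [nrm]
@[simp] theorem nrm_nil : nrm [] = 1 := rfl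
@[simp] theorem nrm_cons (x : ℂ) (l : List ℂ) : nrm (x :: l) = (1 + x) * nrm l := by simp [nrm]
theorem nrm_perm {l l' : List ℂ} (h : l.Perm l') : nrm l = nrm l' := (h.map _).prod_eq

theorem Rc_apply (i : ℕ) (x y : ℂ) (v : W) :
    Rc i x y v = (q ^ 2 * y - x) • v + (-q * (x - y)) • Ee i v := rfl
theorem gg_apply (r : ℂ) (i : ℕ) (v : W) : gg r i v = (-r ^ 2) • v + (-r) • Ee i v := rfl

theorem tot_Rc (i : ℕ) (x y : ℂ) (v : W) : tot (Rc i x y v) = (q ^ 2 * x - y) * tot v := by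
  rw [Rc_apply, map_add, map_smul, map_smul, Ee, tot_lm, smul_eq_mul, smul_eq_mul]
  linear_combination (y - x) * tot v * q_eq

theorem Sup.Rc {L i : ℕ} (x y : ℂ) {v : W} (hv : Sup L v) (hi : i + 2 ≤ L) : Sup L (Rc i x y v) :=
  (hv.smul _).add ((hv.Ee hi).smul _)

theorem Sup.gg {L i : ℕ} (r : ℂ) {v : W} (hv : Sup L v) (hi : i + 2 ≤ L) : Sup L (gg r i v) :=
  (hv.smul _).add ((hv.Ee hi).smul _)

theorem Rc_unit (i : ℕ) (x y : ℂ) :
    Rc i y x * Rc i x y = ((q ^ 2 * x - y) * (q ^ 2 * y - x)) • 1 := by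
  refine LinearMap.ext fun v => ?_
  have e : Ee i (Ee i v) = Ee i v := LinearMap.congr_fun (E_E i) v
  simp only [Module.End.mul_apply, Rc_apply, map_add, map_smul, e, LinearMap.smul_apply,
    Module.End.one_apply]
  have h := q_eq
  match_scalars
  · ring
  · linear_combination (-q * (x - y) ^ 2) * h

theorem rb_eq (b : Bool) : rb b ^ 2 + rb b + 1 = 0 := by
  cases b
  · show (q ^ 2) ^ 2 + q ^ 2 + 1 = 0
    linear_combination (q ^ 2 - q + 1) * q_eq
  · exact q_eq

theorem gg_inv {r : ℂ} (h : r ^ 2 + r + 1 = 0) (i : ℕ) : gg (r ^ 2) i * gg r i = 1 := by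
  refine LinearMap.ext fun v => ?_
  have e : Ee i (Ee i v) = Ee i v := LinearMap.congr_fun (E_E i) v
  simp only [Module.End.mul_apply, gg_apply, map_add, map_smul, e, Module.End.one_apply]
  match_scalars
  · linear_combination (r ^ 4 - r ^ 3 + r - 1) * h
  · linear_combination r ^ 3 * h

open Classical in
@[simp] theorem Bil_single (L : ℕ) (p r : St) (c d : ℂ) :
    Bil L (Finsupp.single p c) (Finsupp.single r d) = if Ev L p r then c * d else 0 := by
  simp only [Bil, Finsupp.linearCombination_single, LinearMap.smul_apply, smul_eq_mul]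
  split_ifs <;> simp

theorem Bt_apply (L : ℕ) (u v : W) : Bt L u v = tot u * tot v := rfl

/-! ### weak limits -/

theorem Lim.map {G : ℝ → W} {X : W} (h : Lim G X) (A : Module.End ℂ W) :
    Lim (fun u => A (G u)) (A X) := fun φ => h (φ ∘ₗ A)

theorem Lim.add {G G' : ℝ → W} {X X' : W} (h : Lim G X) (h' : Lim G' X') :
    Lim (fun u => G u + G' u) (X + X') := fun φ => by simpa using (h φ).add (h' φ)

theorem Lim.smul {G : ℝ → W} {X : W} {c : ℝ → ℂ} {a : ℂ} (h : Lim G X)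
    (hc : Tendsto c atTop (𝓝 a)) : Lim (fun u => c u • G u) (a • X) :=
  fun φ => by simpa using hc.mul (h φ)

theorem Lim.congr {G G' : ℝ → W} {X : W} (h : Lim G X) (e : ∀ᶠ u in atTop, G u = G' u) :
    Lim G' X := fun φ => (h φ).congr' (e.mono fun _ e => congrArg φ e)

theorem Lim.unique {G : ℝ → W} {X X' : W} (h : Lim G X) (h' : Lim G X') : X = X' :=
  Finsupp.ext fun p => tendsto_nhds_unique (h (Finsupp.lapply p)) (h' (Finsupp.lapply p))

theorem Lim.bil {L : ℕ} {G G' : ℝ → W} {X X' : W} (h : Lim G X) (h' : Lim G' X')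
    (hG : ∀ u, Sup L (G u)) (hX : Sup L X) (B : W →ₗ[ℂ] W →ₗ[ℂ] ℂ) :
    Tendsto (fun u => B (G u) (G' u)) atTop (𝓝 (B X X')) := by
  have e : ∀ {v : W} (_ : Sup L v) (w : W),
      B v w = ∑ p ∈ SL L, v p * B (Finsupp.single p 1) w := fun hv w => hv.map_eq (B.flip w)
  simp only [e (hG _), e hX]
  exact tendsto_finsetSum _ fun p _ => (h (Finsupp.lapply p)).mul (h' _)

/-! ### generic lists -/

theorem gen_map_inv {l : List ℂ} (h : Gen l) : Gen (l.map (·⁻¹)) := by
  refine ⟨fun x hx => ?_, List.pairwise_map.2 (h.2.imp fun {a b} e => ⟨fun e' => e.1 ?_, fun e' => e.2 ?_⟩)⟩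
  · obtain ⟨y, hy, rfl⟩ := List.mem_map.1 hx
    exact ⟨inv_ne_zero (h.1 y hy).1, by simpa using (h.1 y hy).2⟩
  · simpa using e'
  · rwa [inv_pow, inv_pow, ← mul_inv, inv_eq_one] at e'

theorem Dom.perm {n : ℕ} {U : Set ℂ} {l l' : List ℂ} (h : Dom n U l) (e : l.Perm l') : Dom n U l' :=
  ⟨e.length_eq ▸ h.1, fun x hx => h.2.1 x (e.symm.subset hx), h.2.2.perm e⟩

theorem cc_ne_zero : ∀ n, cc n ≠ 0
  | 0 => one_ne_zero
  | 1 => one_ne_zero
  | n + 2 => mul_ne_zero (mul_ne_zero (by norm_num) (pow_ne_zero _ q_ne_zero)) (cc_ne_zero n)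

end Pool.Agent.P.MP_6c8efb_pr.One
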