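import Pool.Agent.P.MP_6c8efb_pr.One.Link
import Pool.Agent.P.MP_6c8efb_pr.Glue

/-! Definitions for the exact solution of the one-arm event on the cylinder. -/

open Polynomial Filter Topology

namespace Pool.Agent.P.MP_6c8efb_pr.One

open Arm (q ah ac Nz Gen Near LPd LP1 TC Pt TConn)

/-! ### the loop model -/

/-- formal combinations of patterns -/
abbrev W := St →₀ ℂ

/-- the linear map induced by a map of patterns -/
noncomputable def lm (f : St → St) : Module.End ℂ W := Finsupp.lmapDomain ℂ ℂ f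

noncomputable def Cup (i : ℕ) : Module.End ℂ W := lm (cup i)
noncomputable def Cap (i : ℕ) : Module.End ℂ W := lm (cap i)
noncomputable def Ee (i : ℕ) : Module.End ℂ W := lm (ee i)
noncomputable def Rot (L : ℕ) : Module.End ℂ W := lm (rot L)
noncomputable def CupS (L : ℕ) : Module.End ℂ W := lm (cupS L)

/-- the sum of the coefficients -/
noncomputable def tot : W →ₗ[ℂ] ℂ := Finsupp.linearCombination ℂ fun _ => 1

/-- the sum of the norms of the coefficients -/
noncomputable def n1 (v : W) : ℝ := v.sum fun _ c => ‖c‖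

/-- supported on the planar patterns on `L` sites -/
def Sup (L : ℕ) (v : W) : Prop := ∀ p, v p ≠ 0 → Bd L p

/-- one tile of a row -/
noncomputable def R (i : ℕ) (x : ℂ) : Module.End ℂ W := ah x • 1 + ac x • Ee i

/-- a row of tiles, the first one acting at the sites `a, a + 1` -/
noncomputable def row : ℕ → List ℂ → Module.End ℂ W
  | _, [] => 1
  | a, x :: l => row (a + 1) l * R a x

/-- the transfer matrix -/
noncomputable def TM (l : List ℂ) : Module.End ℂ W := Cap l.length * row 0 l * CupS l.length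

/-- its column sums -/
noncomputable def nrm (l : List ℂ) : ℂ := (l.map fun x => 1 + x).prod

/-- invariant vectors -/
def Fix (l : List ℂ) (v : W) : Prop := Sup l.length v ∧ TM l v = nrm l • v

/-- exchange of two columns -/
noncomputable def Rc (i : ℕ) (x y : ℂ) : Module.End ℂ W :=
  (q ^ 2 * y - x) • 1 + (-q * (x - y)) • Ee i

/-- the weight of the pattern `o` -/
noncomputable def Pref : List ℂ → ℂ
  | [] => 1
  | x :: l => (l.map fun y => q ^ 2 * x - y).prod * Pref l

/-- a monomial in the entries of a list -/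
noncomputable def mono (n : List ℕ) (l : List ℂ) : ℂ := (List.zipWith (fun k x => x ^ k) n l).prod

/-- polynomials in `L` variables with all exponents at most `L - 1` and all sums of two exponents
between `1` and `2 L - 3` -/
def LPs (L : ℕ) : Submodule ℂ (List ℂ → ℂ) :=
  Submodule.span ℂ {f | ∃ n : List ℕ, n.length = L ∧ (∀ k ∈ n, k + 1 ≤ L) ∧
    (n.Pairwise fun a b => 1 ≤ a + b ∧ a + b + 3 ≤ 2 * L) ∧ f = mono n}

/-- the normalised invariant vector near the homogeneous point -/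
structure Loc1 (L : ℕ) (ε : ℝ) (Ψ : List ℂ → W) : Prop where
  pos : 0 < ε
  small : ε ≤ 1 / 10
  fix : ∀ l, l.length = L → (∀ x ∈ l, Near ε x) → Fix l (Ψ l) ∧ tot (Ψ l) = 1
  exch : ∀ l₁ x y l₂, (l₁ ++ x :: y :: l₂).length = L → (∀ z ∈ l₁ ++ x :: y :: l₂, Near ε z) →
    (q ^ 2 * x - y) • Ψ (l₁ ++ y :: x :: l₂) = Rc l₁.length x y (Ψ (l₁ ++ x :: y :: l₂))
  cyc : ∀ x l, (x :: l).length = L → (∀ z ∈ x :: l, Near ε z) → Ψ (x :: l) = Rot L (Ψ (l ++ [x]))

/-- the polynomial solution of the quantum Knizhnik-Zamolodchikov equations -/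
structure Sol (F : List ℂ → W) : Prop where
  sup : ∀ l, Sup l.length (F l)
  fix : ∀ l, Nz l → TM l (F l) = nrm l • F l
  zero : ∀ l, Even l.length → Nz l → F l (o l.length) = Pref l
  exch : ∀ l₁ x y l₂, Nz (l₁ ++ x :: y :: l₂) →
    (q ^ 2 * x - y) • F (l₁ ++ y :: x :: l₂) = Rc l₁.length x y (F (l₁ ++ x :: y :: l₂))
  cyc : ∀ x l, Nz (x :: l) → F (x :: l) = Rot (l.length + 1) (F (l ++ [x]))
  mem : ∀ L p, ∃ f ∈ LPs L, ∀ l, l.length = L → F l p = f l

/-- generic lists of length `n` with entries in `U` -/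
def Dom (n : ℕ) (U : Set ℂ) (l : List ℂ) : Prop := l.length = n ∧ (∀ x ∈ l, x ∈ U) ∧ Gen l

/-- solutions of the equations on generic lists -/
structure Qkz (n : ℕ) (U : Set ℂ) (G : List ℂ → W) : Prop where
  sup : ∀ l, Dom n U l → Sup n (G l)
  exch : ∀ l₁ x y l₂, Dom n U (l₁ ++ x :: y :: l₂) →
    (q ^ 2 * x - y) • G (l₁ ++ y :: x :: l₂) = Rc l₁.length x y (G (l₁ ++ x :: y :: l₂))
  cyc : ∀ x l, Dom n U (x :: l) → G (x :: l) = Rot n (G (l ++ [x]))

/-- the factor in the recursion for an arc -/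
noncomputable def cA (y : ℂ) (l : List ℂ) : ℂ :=
  (q ^ 2 - q) * y * (l.map fun x => (q ^ 2 * y - x) * (q ^ 2 * x - q * y)).prod

/-! ### braid limits -/

/-- a crossing -/
noncomputable def gg (r : ℂ) (i : ℕ) : Module.End ℂ W := (-r ^ 2) • 1 + (-r) • Ee i

/-- the product `gg r 0 * ... * gg r (n - 1)` -/
noncomputable def bdn (r : ℂ) : ℕ → Module.End ℂ W
  | 0 => 1
  | n + 1 => bdn r n * gg r n

/-- the product `gg r (n - 1) * ... * gg r 0` -/
noncomputable def bup (r : ℂ) : ℕ → Module.End ℂ W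
  | 0 => 1
  | n + 1 => gg r n * bup r n

/-- an arc around the cylinder -/
noncomputable def Hh (r : ℂ) (n : ℕ) : Module.End ℂ W := bup (r ^ 2) n * CupS n

/-- the product of the entries -/
noncomputable def PR (l : List ℂ) : ℂ := l.prod

noncomputable def sc (b : Bool) (u : ℝ) : ℂ := if b then u else (u : ℂ)⁻¹
noncomputable def rb (b : Bool) : ℂ := if b then q else q ^ 2
noncomputable def nu (b : Bool) (n : ℕ) (u : ℝ) : ℂ := if b then ((u : ℂ) ^ (3 * n + 2))⁻¹ else u
noncomputable def ov (b : Bool) (x : List ℂ) : ℂ :=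
  if b then -Pref x else q ^ (x.length + 2) * PR x ^ 2 * Pref x
noncomputable def bc (b : Bool) (x : List ℂ) : ℂ :=
  if b then (1 - q) * (q ^ (x.length + 1))⁻¹ else -(1 - q ^ 2) * (q ^ x.length)⁻¹ * PR x ^ 2

/-- weak convergence -/
def Lim (G : ℝ → W) (X : W) : Prop := ∀ φ : W →ₗ[ℂ] ℂ, Tendsto (fun u => φ (G u)) atTop (𝓝 (φ X))

/-- the leading coefficients when the last two variables tend to infinity or to zero -/
structure Fam (F : List ℂ → W) (b : Bool) (n : ℕ) (X : List ℂ → W) : Prop where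
  lim : ∀ x, x.length = n → Nz x → Lim (fun u => nu b n u • F (x ++ [sc b u, sc b u ^ 2])) (X x)
  sup : ∀ x, x.length = n → Nz x → Sup (n + 2) (X x)
  exch : ∀ l₁ x y l₂, (l₁ ++ x :: y :: l₂).length = n → Nz (l₁ ++ x :: y :: l₂) →
    (q ^ 2 * x - y) • X (l₁ ++ y :: x :: l₂) = Rc l₁.length x y (X (l₁ ++ x :: y :: l₂))
  rot1 : ∀ x, x.length = n → Nz x → Rot (n + 2) (X x) = bdn (rb b) n (gg (rb b) n (X x))
  rot2 : ∀ x, x.length = n → Nz x → bdn (rb b) n (X x) = Rot (n + 2) (gg (rb b) n (X x))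
  cyc : ∀ y x, (y :: x).length = n → Nz (y :: x) →
    X (y :: x) = Rot (n + 2) (gg (rb b) n (gg (rb b) x.length (X (x ++ [y]))))
  zero : ∀ x, x.length = n → Nz x → X x (o (n + 2)) = ov b x

/-! ### gluing two half cylinders -/

/-- no contractible loop surrounds the marked point on the seam -/
def Ev (L : ℕ) (p r : St) : Prop :=
  ∀ f, f ∈ p → f ∈ r → ∑ i ∈ Finset.range L, (-1) ^ i * f i = 0

open Classical in
/-- the bilinear form of the event `Ev` -/
noncomputable def Bil (L : ℕ) : W →ₗ[ℂ] W →ₗ[ℂ] ℂ :=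
  Finsupp.linearCombination ℂ fun p =>
    Finsupp.linearCombination ℂ fun r => if Ev L p r then (1 : ℂ) else 0

/-- the bilinear form of the sure event -/
noncomputable def Bt (_ : ℕ) : W →ₗ[ℂ] W →ₗ[ℂ] ℂ := tot.smulRight tot

/-- gluing forms which give the weight `a` to the loops around the marked point -/
structure Frm (a : ℂ) (B : ℕ → W →ₗ[ℂ] W →ₗ[ℂ] ℂ) : Prop where
  symm : ∀ L u v, B L u v = B L v u
  adj : ∀ L i u v, i ≤ L → B (L + 2) (Cup i u) v = B L u (Cap i v)
  seam : ∀ L u v, Sup L u → Sup L v → B (L + 2) (CupS L u) (CupS L v) = a * B L u v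
  base : B 0 (Finsupp.single nil 1) (Finsupp.single nil 1) = 1

/-- the glued weight -/
noncomputable def NN (B : ℕ → W →ₗ[ℂ] W →ₗ[ℂ] ℂ) (F : List ℂ → W) (l : List ℂ) : ℂ :=
  B l.length (F (l.map (·⁻¹))) (F l)

noncomputable def fA (y : ℂ) (l : List ℂ) : ℂ :=
  (l.map fun x => (x - q ^ 2 * y) ^ 4 / (x * y) ^ 2).prod

/-- points which tend to the homogeneous point -/
noncomputable def pts (L : ℕ) (ε : ℝ) : List ℂ :=
  List.ofFn fun j : Fin L => Complex.exp ((ε * ((j : ℕ) + 1) : ℝ) : ℂ)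

structure Nprop (a : ℂ) (N : List ℂ → ℂ) : Prop where
  perm : ∀ l l', Nz l → l.Perm l' → N l = N l'
  lpd : ∀ l, Nz l → LPd l.length fun t => N (t :: l)
  arc : ∀ y l, Gen (y :: l) → Even l.length → N (l ++ [q * y, y]) = -3 * q ^ 2 * fA y l * N l
  top : ∀ x, Gen x → Even x.length →
    Tendsto (fun u : ℝ => N (x ++ [(u : ℂ), (u : ℂ) ^ 2]) / (u : ℂ) ^ (3 * x.length + 1)) atTop
      (𝓝 (-(2 + a) * q ^ (x.length + 2) * (PR x ^ 2)⁻¹ * N x))
  nil : N [] = 1

/-! ### the determinant -/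

noncomputable def phi (α β x y : ℂ) : ℂ := α / (x - q * y) + β / (x - q ^ 2 * y)

noncomputable def kap (α β : ℂ) : ℂ := α / (1 - q) + β / (1 - q ^ 2)

noncomputable def PQ : List ℂ → ℂ
  | [] => 1
  | x :: l => (l.map fun y => x ^ 2 + x * y + y ^ 2).prod * PQ l

noncomputable def VD : List ℂ → ℂ
  | [] => 1
  | x :: l => (l.map fun y => x - y).prod * VD l

noncomputable def dphi (α β : ℂ) (l : List ℂ) : ℂ :=
  Matrix.det (Matrix.of fun i j : Fin l.length => phi α β l[i] l[j])

noncomputable def DD (α β : ℂ) (l : List ℂ) : ℂ :=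
  PQ l ^ 2 * dphi α β l * PR l ^ 2 / (VD l ^ 2 * PR l ^ l.length)

noncomputable def cc : ℕ → ℂ
  | 0 => 1
  | 1 => 1
  | n + 2 => -3 * q ^ (n + 2) * cc n

noncomputable def al (ψ : ℝ) : ℂ := Complex.exp (((2 * ψ / 3 - Real.pi / 6 : ℝ) : ℂ) * Complex.I)

/-! ### percolation on the cylinder -/

/-- the stochastic transfer matrix of critical percolation -/
noncomputable def TB (L : ℕ) : Module.End ℂ W := ((2 : ℂ) ^ L)⁻¹ • TM (List.replicate L 1)

/-- the exact probability -/
noncomputable def PP (F : List ℂ → W) (L : ℕ) : ℂ :=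
  NN Bil F (List.replicate L 1) / NN Bt F (List.replicate L 1)

/-- the first `n` tiles of a row acting on a pattern, the first one at the sites `a, a + 1` -/
def rowS (b : ℕ → Bool) (a : ℕ) : ℕ → St → St
  | 0, p => p
  | n + 1, p => if b n then ee (a + n) (rowS b a n p) else rowS b a n p

/-- a row of the cylinder acting on a pattern -/
def rowT (L : ℕ) (b : ℕ → Bool) (p : St) : St := cap L (rowS b 0 L (cupS L p))

/-- the pattern seen at height `r` from the `n` rows above it -/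
def top (L : ℕ) (τ : TC) : ℕ → ℕ → St
  | _, 0 => zz L
  | r, n + 1 => rowT L (fun s => τ (s, r)) (top L τ (r + 1) n)

/-- reflection of the lower half cylinder -/
def flp (τ : TC) : TC := fun c => !τ (c.1, -1 - c.2)

def EvN (L n : ℕ) : Set TC := {τ | Ev L (top L τ 0 n) (top L (flp τ) 0 n)}

/-- the periodic extension of the columns `0, ..., L - 1` -/
def per (L : ℕ) (τ : TC) : TC := fun c => τ (c.1 % L, c.2)

/-- colourings of the mid points of the sides of the tiles in the rows `0, ..., n - 1`, constant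
along the strands up to the sign at the seam: `fH s t` is the colour of the lower side and `fV s t`
of the left side of the tile `(s, t)` -/
structure Col (L : ℕ) (τ : TC) (n : ℕ) (fH fV : ℕ → ℕ → K) : Prop where
  tt : ∀ s t, s < L → t < n → τ (s, t) = true → fV s t = fH s (t + 1) ∧ fH s t = fV (s + 1) t
  ff : ∀ s t, s < L → t < n → τ (s, t) = false → fV s t = fH s t ∧ fH s (t + 1) = fV (s + 1) t
  seam : ∀ t, t < n → fV L t = -fV 0 t
  roof : ∀ k, 2 * k + 1 < L → fH (2 * k) n = fH (2 * k + 1) n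

/-- the origin is joined to its translate around the cylinder -/
def Wrap (L n : ℕ) : Set TC :=
  {τ | TConn (per L τ) {c | -(n : ℤ) ≤ c.2 ∧ c.2 < n} (0, 0) (L, 0)}

/-- the origin is joined to distance `m` horizontally or `n` vertically -/
def Far (m n : ℕ) : Set TC :=
  {τ | ∃ b : ℤ × ℤ, ((m : ℤ) ≤ |b.1| ∨ (n : ℤ) ≤ |b.2|) ∧ TConn (per (2 * m) τ) Set.univ (0, 0) b}

/-- the periodic extension of a bond configuration, with period `(m, m)` -/
def perE (m : ℕ) (e : E) : E :=
  ((e.1.1 - (e.1.1 + e.1.2) / (2 * m) * m, e.1.2 - (e.1.1 + e.1.2) / (2 * m) * m), e.2)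

/-- the origin is joined to `(m, m)` in the periodic bond configuration -/
def WrapE (m : ℕ) : Set Cfg :=
  {ω | Conn (fun e => ω (perE m e)) (MP_6c8efb_pr.Rc (-m) (2 * m) (-m) (2 * m)) (0, 0) (m, m)}

/-- an arm and four crossings -/
def GE (m r : ℤ) : Set Cfg :=
  AG 0 Set.univ (3 * r) ∩ HC (-3 * r) (m - r) r (3 * r) ∩ HC (-3 * r) (3 * r) (-3 * r) (-r) ∩
    VC (-3 * r) (-r) (r - m) (3 * r) ∩ VC r (3 * r) (-3 * r) (3 * r)

end Pool.Agent.P.MP_6c8efb_pr.One
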