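import Pool.Agent.P.MP_6c8efb_pr.One.IfE

section StripS

/-! Step Strip. -/

namespace Pool.Agent.P.MP_6c8efb_pr.One

open Polynomial MeasureTheory Real Filter Topology

namespace StripA

end StripA

theorem p_Strip :
    S_Strip := by
  intro F η c C hη hc H
  have hint : ∀ t : ℝ, 0 ≤ t → t ≤ η → Integrable fun x : ℝ => F (x + t * Complex.I) := by
    intro t h0 h1
    have hx : ∀ x : ℝ, DifferentiableAt ℂ F (x + t * Complex.I) ∧
        ‖F (x + t * Complex.I)‖ ≤ C * exp (-(c * |x|)) := fun x => by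
      simpa using H (x + t * Complex.I) (by simpa using h0) (by simpa using h1)
    refine integrable_of_exp (continuous_iff_continuousAt.2 fun x => ?_) hc fun x => (hx x).2
    exact ContinuousAt.comp (f := fun x : ℝ => (x : ℂ) + t * Complex.I) (hx x).1.continuousAt
      (by fun_prop)
  have h0 : Integrable fun x : ℝ => F x := by simpa using hint 0 le_rfl hη
  have hv : ∀ R : ℝ, ‖∫ y in (0 : ℝ)..η, F (R + y * Complex.I)‖ ≤ C * exp (-(c * |R|)) * |η - 0| :=
    fun R => intervalIntegral.norm_integral_le_of_norm_le_const fun y hy => by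
      rw [Set.uIoc_of_le hη] at hy
      simpa using (H (R + y * Complex.I) (by simpa using hy.1.le) (by simpa using hy.2)).2
  have hz : Tendsto (fun R : ℝ => C * exp (-(c * R)) * |η - 0|) atTop (𝓝 0) := by
    have := ((tendsto_exp_neg_atTop_nhds_zero.comp (tendsto_id.const_mul_atTop hc)).const_mul
      C).mul_const |η - 0|
    simpa using this
  have v1 : Tendsto (fun R : ℝ => ∫ y in (0 : ℝ)..η, F (R + y * Complex.I)) atTop (𝓝 0) :=
    squeeze_zero_norm' ((eventually_ge_atTop 0).mono fun R hR => by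
      simpa [abs_of_nonneg hR] using hv R) hz
  have v2 : Tendsto (fun R : ℝ => ∫ y in (0 : ℝ)..η, F ((-R : ℝ) + y * Complex.I)) atTop (𝓝 0) :=
    squeeze_zero_norm' ((eventually_ge_atTop 0).mono fun R hR => by
      simpa [abs_of_nonneg hR] using hv (-R)) hz
  have l0 := intervalIntegral_tendsto_integral h0 tendsto_neg_atTop_atBot tendsto_id
  have l1 := intervalIntegral_tendsto_integral (hint η hη le_rfl) tendsto_neg_atTop_atBot tendsto_id
  have key : ∀ R : ℝ, (∫ x in (-R)..R, F x) - (∫ x in (-R)..R, F (x + η * Complex.I)) +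
      Complex.I • (∫ y in (0 : ℝ)..η, F (R + y * Complex.I)) -
      Complex.I • (∫ y in (0 : ℝ)..η, F ((-R : ℝ) + y * Complex.I)) = 0 := fun R => by
    have := Complex.integral_boundary_rect_eq_zero_of_differentiableOn F (-R : ℝ)
      (R + η * Complex.I) fun z hz => by
        have h2 := (Complex.mem_reProdIm.1 hz).2
        simp only [Complex.ofReal_im, Complex.add_im, Complex.mul_im, Complex.ofReal_re,
          Complex.I_im, Complex.I_re, mul_one, mul_zero, add_zero, zero_add,
          Set.uIcc_of_le hη] at h2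
        exact (H z h2.1 h2.2).1.differentiableWithinAt
    simpa using this
  have lim := ((l0.sub l1).add (v1.const_smul Complex.I)).sub (v2.const_smul Complex.I)
  have := tendsto_nhds_unique lim (tendsto_const_nhds.congr fun R => (key R).symm)
  simp only [smul_zero, add_zero, sub_zero] at this
  exact (sub_eq_zero.1 this).symm

end Pool.Agent.P.MP_6c8efb_pr.One

end StripS

section ShiftS

/-! Step Shift. -/

namespace Pool.Agent.P.MP_6c8efb_pr.One

open Polynomial MeasureTheory Real Filter Topology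

namespace ShiftA

theorem integrable_one : Integrable wt0 := by
  simpa using integrable_poly 1

theorem int_wt0 : ∫ x, wt0 x = 1 := by
  have hd : ∀ x : ℝ, HasDerivAt (fun x => 2 / π * arctan (exp (π * x))) (wt0 x) x := fun x => by
    have h := (((hasDerivAt_id x).const_mul π).exp.arctan).const_mul (2 / π)
    refine h.congr_deriv ?_
    have := pi_pos
    have e := exp_pos (π * x)
    simp only [id, wt0, cosh_eq, exp_neg]
    field_simp
    ring
  have hb : Tendsto (fun x => 2 / π * arctan (exp (π * x))) atBot (𝓝 (2 / π * arctan 0)) :=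
    ((continuous_arctan.tendsto 0).comp
      (tendsto_exp_atBot.comp (tendsto_id.const_mul_atBot pi_pos))).const_mul _
  have ht : Tendsto (fun x => 2 / π * arctan (exp (π * x))) atTop (𝓝 (2 / π * (π / 2))) :=
    ((tendsto_arctan_atTop.mono_right nhdsWithin_le_nhds).comp
      (tendsto_exp_atTop.comp (tendsto_id.const_mul_atTop pi_pos))).const_mul _
  rw [integral_of_hasDerivAt_of_tendsto hd integrable_one hb ht, arctan_zero]
  field_simp
  ring

theorem sinh_le (z : ℂ) : sinh |z.re| ≤ ‖Complex.cosh z‖ := by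
  have h := abs_norm_sub_norm_le (Complex.exp z) (-Complex.exp (-z))
  rw [norm_neg, Complex.norm_exp, Complex.norm_exp, sub_neg_eq_add, Complex.neg_re] at h
  rw [← abs_sinh, sinh_eq, Complex.cosh, norm_div, abs_div]
  simp only [Complex.norm_ofNat, Nat.abs_ofNat]
  linarith

theorem ch_zero {z : ℂ} (h0 : 0 ≤ z.im) (h1 : z.im ≤ 1) (h : Complex.cosh (π * z) = 0) :
    z = Complex.I / 2 := by
  have h2 := sinh_le (π * z)
  rw [h, norm_zero, sinh_nonpos_iff, abs_nonpos_iff, Complex.re_ofReal_mul] at h2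
  have h3 : z.re = 0 := (mul_eq_zero.1 h2).resolve_left pi_ne_zero
  have h4 : (π : ℂ) * z = (π * z.im : ℝ) * Complex.I := by
    apply Complex.ext <;> simp [h3]
  rw [h4, Complex.cosh_mul_I, ← Complex.ofReal_cos, Complex.ofReal_eq_zero, ← cos_pi_div_two] at h
  have hp := pi_pos
  have h5 := injOn_cos ⟨by positivity, by nlinarith⟩ ⟨by positivity, by linarith⟩ h
  have h6 : z.im = 1 / 2 := mul_left_cancel₀ pi_ne_zero (by linarith)
  apply Complex.ext <;> simp [h3, h6]

theorem ch_half : Complex.cosh (π * (Complex.I / 2)) = 0 := by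
  rw [show (π : ℂ) * (Complex.I / 2) = π / 2 * Complex.I by ring, Complex.cosh_mul_I,
    Complex.cos_pi_div_two]

theorem ch_deriv : deriv (fun z : ℂ => Complex.cosh (π * z)) (Complex.I / 2) ≠ 0 := by
  have h := ((hasDerivAt_id (Complex.I / 2)).const_mul (π : ℂ)).ccosh
  simp only [id] at h
  rw [h.deriv, show (π : ℂ) * (Complex.I / 2) = π / 2 * Complex.I by ring, Complex.sinh_mul_I,
    Complex.sin_pi_div_two]
  simp [pi_ne_zero]

theorem exp_le_sinh {t : ℝ} (h : 1 ≤ t) : exp t ≤ 4 * sinh t := by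
  rw [sinh_eq]
  have h1 := add_one_le_exp t
  have h2 : exp (-t) ≤ 1 := exp_le_one_iff.2 (by linarith)
  linarith

/-- the quotient with the removable singularity filled in -/
theorem quot (G : ℂ → ℂ) (hG : Differentiable ℂ G) : ∃ F : ℂ → ℂ,
    ∀ z : ℂ, 0 ≤ z.im → z.im ≤ 1 → DifferentiableAt ℂ F z ∧
      (z ≠ Complex.I / 2 → F z = (G z - G (Complex.I / 2)) / Complex.cosh (π * z)) := by
  have hc : Differentiable ℂ fun z : ℂ => Complex.cosh (π * z) := by fun_prop
  have d : ∀ f : ℂ → ℂ, Differentiable ℂ f → Differentiable ℂ (dslope f (Complex.I / 2)) :=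
    fun f hf => differentiableOn_univ.1
      ((Complex.differentiableOn_dslope univ_mem).2 hf.differentiableOn)
  refine ⟨fun z => dslope G (Complex.I / 2) z /
    dslope (fun z : ℂ => Complex.cosh (π * z)) (Complex.I / 2) z, fun z h0 h1 => ?_⟩
  have e1 := sub_smul_dslope G (Complex.I / 2) z
  have e2 := sub_smul_dslope (fun z : ℂ => Complex.cosh (π * z)) (Complex.I / 2) z
  simp only [ch_half, sub_zero, smul_eq_mul] at e1 e2
  refine ⟨(d G hG z).div (d _ hc z) fun h => ?_, fun h => ?_⟩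
  · rw [h, mul_zero] at e2
    rw [ch_zero h0 h1 e2.symm, dslope_same] at h
    exact ch_deriv h
  · rw [← e1, ← e2, mul_div_mul_left _ _ (sub_ne_zero.2 h)]

end ShiftA

open ShiftA in
theorem p_Shift (hStrip : S_Strip) :
    S_Shift := by
  intro G c C hc hG hb
  have hp := pi_gt_three
  obtain ⟨F, hF⟩ := quot G hG
  set a : ℂ := Complex.I / 2 with ha
  have C0 : 0 ≤ C := by simpa using (norm_nonneg _).trans (hb 0 (by simp) (by simp))
  have hc' : max c 0 < π := max_lt hc pi_pos
  obtain ⟨M, hM⟩ := (isCompact_Icc.reProdIm isCompact_Icc :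
      IsCompact (Set.Icc (-1 : ℝ) 1 ×ℂ Set.Icc (0 : ℝ) 1)).exists_bound_of_continuousOn (f := F)
    fun z hz => (hF z hz.2.1 hz.2.2).1.continuousAt.continuousWithinAt
  have key := hStrip F 1 (π - max c 0) (|M| * exp π + 4 * (C + ‖G a‖)) zero_le_one (sub_pos.2 hc')
    fun z h0 h1 => ⟨(hF z h0 h1).1, by
      have m0 : 0 ≤ max c 0 := le_max_right _ _
      have x0 := abs_nonneg z.re
      have E0 := exp_pos (-((π - max c 0) * |z.re|))
      rcases le_total |z.re| 1 with hx | hx
      · have h2 := (hM z ⟨abs_le.1 hx, h0, h1⟩).trans (le_abs_self M)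
        have h3 : 1 ≤ exp π * exp (-((π - max c 0) * |z.re|)) := by
          rw [← exp_add]
          exact one_le_exp (by nlinarith)
        have h4 : 0 ≤ 4 * (C + ‖G a‖) * exp (-((π - max c 0) * |z.re|)) := by positivity
        nlinarith [abs_nonneg M]
      · have hz : z ≠ a := by
          rintro rfl
          simp [ha] at hx
          linarith
        have h2 := sinh_le (π * z)
        rw [Complex.re_ofReal_mul, abs_mul, abs_of_pos pi_pos] at h2
        have h3 := exp_le_sinh (t := π * |z.re|) (by nlinarith)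
        have h4 : 0 < ‖Complex.cosh (π * z)‖ := by linarith [exp_pos (π * |z.re|)]
        have h5 : exp (c * |z.re|) ≤ exp (max c 0 * |z.re|) :=
          exp_le_exp.2 (mul_le_mul_of_nonneg_right (le_max_left _ _) x0)
        have h6 : 1 ≤ exp (max c 0 * |z.re|) := one_le_exp (by positivity)
        have h7 : ‖G z - G a‖ ≤ (C + ‖G a‖) * exp (max c 0 * |z.re|) := by
          have := hb z h0 h1
          nlinarith [norm_sub_le (G z) (G a), norm_nonneg (G a)]
        have h8 : exp (max c 0 * |z.re|) = exp (-((π - max c 0) * |z.re|)) * exp (π * |z.re|) := by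
          rw [← exp_add]; congr 1; ring
        rw [(hF z h0 h1).2 hz, norm_div, div_le_iff₀ h4]
        have h9 : (C + ‖G a‖) * exp (-((π - max c 0) * |z.re|)) * exp (π * |z.re|) ≤
            (C + ‖G a‖) * exp (-((π - max c 0) * |z.re|)) * (4 * ‖Complex.cosh (π * z)‖) :=
          mul_le_mul_of_nonneg_left (by linarith) (by positivity)
        have h10 : 0 ≤ |M| * exp π * exp (-((π - max c 0) * |z.re|)) * ‖Complex.cosh (π * z)‖ := by
          positivity
        rw [h8] at h7
        nlinarith⟩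
  have w : ∀ x : ℝ, (wt0 x : ℂ) = (Complex.cosh (π * x))⁻¹ := fun x => by simp [wt0]
  have e0 : ∀ x : ℝ, F x = G x * (wt0 x : ℂ) - G a * (wt0 x : ℂ) := fun x => by
    rw [(hF x (by simp) (by simp)).2 fun h => by simpa [ha] using congrArg Complex.im h, w]
    ring
  have e1 : ∀ x : ℝ, F (x + (1 : ℝ) * Complex.I) =
      G a * (wt0 x : ℂ) - G (x + Complex.I) * (wt0 x : ℂ) := fun x => by
    rw [Complex.ofReal_one, one_mul, (hF (x + Complex.I) (by simp) (by simp)).2 fun h => by
      have := congrArg Complex.im h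
      norm_num [ha] at this, w, mul_add, Complex.cosh_add_pi_mul_I]
    ring
  have i0 : Integrable fun x : ℝ => G x * (wt0 x : ℂ) :=
    integrable_wt0 (hG.continuous.comp Complex.continuous_ofReal) hc
      fun x => by simpa using hb x (by simp) (by simp)
  have i1 : Integrable fun x : ℝ => G (x + Complex.I) * (wt0 x : ℂ) :=
    integrable_wt0 (hG.continuous.comp (by fun_prop)) hc
      fun x => by simpa using hb (x + Complex.I) (by simp) (by simp)
  have i2 : Integrable fun x : ℝ => G a * (wt0 x : ℂ) := integrable_one.ofReal.const_mul _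
  simp only [e0, e1] at key
  rw [integral_sub i2 i1, integral_sub i0 i2, integral_const_mul, integral_complex_ofReal, int_wt0] at key
  simp only [add_mul]
  rw [integral_add i1 i0]
  push_cast at key
  linear_combination -key

end Pool.Agent.P.MP_6c8efb_pr.One

end ShiftS

section SechS

/-! Step Sech. -/

namespace Pool.Agent.P.MP_6c8efb_pr.One

open Polynomial MeasureTheory Real Filter Topology

namespace SechA

theorem re_cosh (z : ℂ) : (Complex.cosh z).re = cosh z.re * cos z.im := by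
  conv_lhs => rw [← Complex.re_add_im z, Complex.cosh_add, Complex.cosh_mul_I, Complex.sinh_mul_I]
  simp [← Complex.ofReal_cosh, ← Complex.ofReal_sinh, ← Complex.ofReal_cos, ← Complex.ofReal_sin]

theorem low {ψ : ℝ} (h : ψ < π / 2) {z : ℂ} (h0 : 0 ≤ z.im) (h1 : z.im ≤ ψ) :
    cos ψ / 2 * exp |z.re| ≤ ‖Complex.cosh z‖ := by
  have hc : 0 ≤ cos ψ := cos_nonneg_of_mem_Icc ⟨by linarith [pi_pos], h.le⟩
  have h2 : cos ψ ≤ cos z.im := cos_le_cos_of_nonneg_of_le_pi h0 (by linarith [pi_pos]) h1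
  refine le_trans ?_ (Complex.re_le_norm _)
  rw [re_cosh]
  nlinarith [exp_abs_le_cosh z.re, cosh_pos z.re]

theorem up (s : ℂ) {z : ℂ} (h0 : 0 ≤ z.im) (h1 : z.im ≤ 1) :
    ‖Complex.exp (s * z)‖ ≤ exp |s.im| * exp (|s.re| * |z.re|) := by
  rw [Complex.norm_exp, ← exp_add, exp_le_exp, Complex.mul_re, ← abs_mul]
  nlinarith [le_abs_self (s.re * z.re), neg_abs_le s.im, abs_nonneg s.im]

theorem base (hShift : S_Shift) {s : ℂ} (hs : |s.re| < π) :
    ∫ x : ℝ, Complex.exp (s * x) / Complex.cosh (π * x) = 1 / Complex.cos (s / 2) := by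
  have h := hShift (fun z => Complex.exp (s * z)) _ _ hs (by fun_prop) fun z h0 h1 => up s h0 h1
  have hc : Complex.cos (s / 2) ≠ 0 := by
    rw [Ne, Complex.cos_eq_zero_iff]
    rintro ⟨k, hk⟩
    have e : s.re = (2 * k + 1) * π := by
      have := congrArg Complex.re hk
      simp at this
      linarith
    rw [e, abs_mul, abs_of_pos pi_pos] at hs
    have h1 : |(2 * k + 1 : ℝ)| < 1 := by nlinarith [pi_pos]
    have h2 : |(2 * k + 1 : ℤ)| < 1 := by exact_mod_cast h1
    rw [abs_lt] at h2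
    omega
  have e1 : ∀ x : ℝ, (Complex.exp (s * (x + Complex.I)) + Complex.exp (s * x)) * (wt0 x : ℂ) =
      (2 * Complex.exp (s * (Complex.I / 2)) * Complex.cos (s / 2)) *
        (Complex.exp (s * x) / Complex.cosh (π * x)) := fun x => by
    have e2 : Complex.exp (s * Complex.I) =
        Complex.exp (s * (Complex.I / 2)) * Complex.exp (s / 2 * Complex.I) := by
      rw [← Complex.exp_add]; congr 1; ring
    have e3 : Complex.exp (s * (Complex.I / 2)) * Complex.exp (-(s / 2) * Complex.I) = 1 := by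
      rw [← Complex.exp_add, ← Complex.exp_zero]; congr 1; ring
    rw [mul_add, Complex.exp_add, e2, Complex.cos, wt0]
    push_cast
    linear_combination (-(Complex.exp (s * x) / Complex.cosh (π * x))) * e3
  simp only [e1, integral_const_mul] at h
  rw [eq_div_iff hc, mul_comm]
  exact mul_left_cancel₀ (mul_ne_zero two_ne_zero (Complex.exp_ne_zero _))
    (by rw [← mul_assoc, h, mul_one])

end SechA

theorem p_Sech (hStrip : S_Strip) (hShift : S_Shift) :
    S_Sech := by
  intro s ψ hs h0 h1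
  have hc : 0 < cos ψ := cos_pos_of_mem_Ioo ⟨by linarith [pi_pos], h1⟩
  have hη : ψ / π ≤ 1 := by rw [div_le_one pi_pos]; linarith [pi_pos]
  have key : ∀ z : ℂ, 0 ≤ z.im → z.im ≤ ψ / π → Complex.cosh (π * z) ≠ 0 ∧
      ‖Complex.exp (s * z) / Complex.cosh (π * z)‖ ≤
        exp |s.im| / (cos ψ / 2) * exp (-((π - |s.re|) * |z.re|)) := fun z z0 z1 => by
    have h2 := SechA.low h1 (z := π * z) (by simpa using mul_nonneg pi_pos.le z0)
      (by simpa using (le_div_iff₀' pi_pos).1 z1)
    have h3 : 0 < cos ψ / 2 * exp |((π : ℂ) * z).re| := by positivity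
    refine ⟨norm_pos_iff.1 (h3.trans_le h2), ?_⟩
    rw [norm_div]
    refine (div_le_div₀ (by positivity) (SechA.up s z0 (z1.trans hη)) h3 h2).trans_eq ?_
    rw [Complex.re_ofReal_mul, abs_mul, abs_of_pos pi_pos, mul_div_mul_comm, ← exp_sub]
    congr 2; ring
  have h := hStrip (fun z => Complex.exp (s * z) / Complex.cosh (π * z)) (ψ / π) _ _
    (by positivity) (sub_pos.2 hs) fun z z0 z1 =>
      ⟨DifferentiableAt.div (by fun_prop) (by fun_prop) (key z z0 z1).1, (key z z0 z1).2⟩
  have hp : (π : ℂ) ≠ 0 := by exact_mod_cast pi_pos.ne'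
  have e0 : ∀ x : ℝ, (π : ℂ) * (x + (ψ / π : ℝ) * Complex.I) = (π * x : ℝ) + ψ * Complex.I :=
    fun x => by push_cast; field_simp
  have e1 : ∀ x : ℝ, Complex.exp (s * x) / Complex.cosh ((π * x : ℝ) + ψ * Complex.I) =
      Complex.exp (-(s * Complex.I * ψ / π)) * (Complex.exp (s * (x + (ψ / π : ℝ) * Complex.I)) /
        Complex.cosh (π * (x + (ψ / π : ℝ) * Complex.I))) := fun x => by
    rw [e0, ← mul_div_assoc, ← Complex.exp_add]
    congr 2; push_cast; ring
  have k2 := fun x : ℝ => key (x + (ψ / π : ℝ) * Complex.I) (by simp; positivity)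
    (by simp)
  simp only [e1]
  refine ⟨Integrable.const_mul (integrable_of_exp (Continuous.div (by fun_prop) (by fun_prop)
    fun x => (k2 x).1) (sub_pos.2 hs) fun x => (k2 x).2.trans_eq (by congr 5; simp)) _, ?_⟩
  rw [integral_const_mul, h, SechA.base hShift hs, mul_one_div]

end Pool.Agent.P.MP_6c8efb_pr.One

end SechS

section ToepS

/-! Step Toep. -/

namespace Pool.Agent.P.MP_6c8efb_pr.One

open Polynomial MeasureTheory Real Filter Topology

namespace ToepA

/-- difference quotient of the exponential -/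
noncomputable def q (ε x : ℝ) : ℂ := (Complex.exp (Complex.I * (ε * x : ℝ)) - 1) / ε

theorem q_norm (ε x : ℝ) : ‖q ε x‖ ≤ |x| := by
  rcases eq_or_ne ε 0 with rfl | h
  · simp [q]
  · rw [q, norm_div, Complex.norm_real, div_le_iff₀ (norm_pos_iff.2 h)]
    refine (Real.norm_exp_I_mul_ofReal_sub_one_le).trans_eq ?_
    rw [norm_mul, mul_comm]; rfl

theorem q_cont (ε : ℝ) : Continuous (q ε) := by
  unfold q; fun_prop

theorem q_lim (x : ℝ) : Tendsto (fun ε => q ε x) (𝓝[>] 0) (𝓝 (Complex.I * x)) := by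
  have h1 : HasDerivAt (fun ε : ℝ => Complex.I * ((ε * x : ℝ) : ℂ)) (Complex.I * x) 0 := by
    have := ((hasDerivAt_mul_const (x := (0 : ℝ)) x).ofReal_comp).const_mul Complex.I
    simpa using this
  have h2 := h1.cexp.tendsto_slope_zero_right
  simp only [zero_mul, Complex.ofReal_zero, mul_zero, Complex.exp_zero, one_mul, zero_add] at h2
  refine h2.congr fun ε => ?_
  rw [q, div_eq_inv_mul, Complex.real_smul, Complex.ofReal_inv]

/-- the change of basis -/
noncomputable def V (L : ℕ) (ε : ℝ) : Matrix (Fin L) (Fin L) ℂ :=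
  Matrix.of fun a j => ((ε : ℂ)⁻¹) ^ (j : ℕ) *
    (Matrix.of fun a j : Fin L => ((X - C 1 : ℂ[X]) ^ (j : ℕ)).coeff a) a j

theorem det_V (L : ℕ) (ε : ℝ) : (V L ε).det * (V L ε).det = ((ε : ℂ) ^ (L * (L - 1)))⁻¹ := by
  rw [V, Matrix.det_mul_row, Matrix.det_matrixOfPolynomials
    (fun j : Fin L => (X - C 1 : ℂ[X]) ^ (j : ℕ))
    (fun j => by rw [(monic_X_sub_C 1).natDegree_pow, natDegree_X_sub_C, mul_one])
    (fun j => (monic_X_sub_C 1).pow _), mul_one, Finset.prod_pow_eq_pow_sum, ← pow_add,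
    Fin.sum_univ_eq_sum_range (fun j => j) L, ← mul_two, Finset.sum_range_id_mul_two, inv_pow]

theorem sum_V {L : ℕ} (ε x : ℝ) (j : Fin L) :
    ∑ a : Fin L, V L ε a j * Complex.exp (Complex.I * (ε * x : ℝ)) ^ (a : ℕ) = q ε x ^ (j : ℕ) := by
  have h := eval_eq_sum_range' (p := (X - C 1 : ℂ[X]) ^ (j : ℕ)) (n := L)
    (by rw [(monic_X_sub_C 1).natDegree_pow, natDegree_X_sub_C, mul_one]; exact j.2)
    (Complex.exp (Complex.I * (ε * x : ℝ)))
  rw [← Fin.sum_univ_eq_sum_range (fun a => ((X - C 1 : ℂ[X]) ^ (j : ℕ)).coeff a *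
    Complex.exp (Complex.I * (ε * x : ℝ)) ^ a) L, eval_pow, eval_sub, eval_X, eval_C] at h
  simp only [V, Matrix.of_apply, mul_assoc]
  rw [← Finset.mul_sum, ← h, q, div_eq_inv_mul, mul_pow]

theorem entry {L : ℕ} {C : ℝ} {g : ℝ → ℂ} (hg : Bc C g) (ε : ℝ) (j k : Fin L) :
    ((V L ε).transpose * (Matrix.of fun j k : Fin L => ∫ x : ℝ, g x *
      Complex.exp (Complex.I * (ε * ((k : ℕ) - (j : ℕ)) * x : ℝ)) * (wt0 x : ℂ)) * V L ε) j k =
      ∫ x : ℝ, g x * (q ε (-x) ^ (j : ℕ) * q ε x ^ (k : ℕ)) * (wt0 x : ℂ) := by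
  have hc := hg.cont
  have hi : ∀ t : ℝ, Integrable fun x : ℝ =>
      g x * Complex.exp (Complex.I * (t * x : ℝ)) * (wt0 x : ℂ) := fun t =>
    integrable_wt0 (C := C) (c := 0) (by fun_prop) pi_pos fun x => by
      rw [norm_mul, Complex.norm_exp_I_mul_ofReal]; simpa using hg.bd x
  simp only [Matrix.mul_apply, Matrix.transpose_apply, Matrix.of_apply, Finset.sum_mul,
    ← integral_const_mul, ← integral_mul_const]
  rw [Finset.sum_congr rfl fun b _ => (integral_finsetSum _ fun a _ =>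
    ((hi _).const_mul _).mul_const _).symm, ← integral_finsetSum _ fun b _ =>
    integrable_finsetSum _ fun a _ => ((hi _).const_mul _).mul_const _]
  refine integral_congr_ae (.of_forall fun x => ?_)
  simp only [← sum_V, Finset.sum_mul, Finset.mul_sum]
  refine Finset.sum_congr rfl fun b _ => Finset.sum_congr rfl fun a _ => ?_
  have : Complex.exp (Complex.I * (ε * ((b : ℕ) - (a : ℕ)) * x : ℝ)) =
      Complex.exp (Complex.I * (ε * -x : ℝ)) ^ (a : ℕ) *
        Complex.exp (Complex.I * (ε * x : ℝ)) ^ (b : ℕ) := by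
    rw [← Complex.exp_nat_mul, ← Complex.exp_nat_mul, ← Complex.exp_add]
    congr 1; push_cast; ring
  rw [this]; ring

theorem entry_lim {C : ℝ} {g : ℝ → ℂ} (hg : Bc C g) (j k : ℕ) :
    Tendsto (fun ε : ℝ => ∫ x : ℝ, g x * (q ε (-x) ^ j * q ε x ^ k) * (wt0 x : ℂ)) (𝓝[>] 0)
      (𝓝 ((-Complex.I) ^ j * (Complex.I ^ k * ∫ x : ℝ, g x * ((x ^ (j + k) * wt0 x : ℝ) : ℂ)))) := by
  have hc := hg.cont
  have hb : Integrable fun x : ℝ => C * ‖x ^ (j + k) * wt0 x‖ := by
    have := (integrable_poly (X ^ (j + k))).norm.const_mul C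
    simpa only [eval_pow, eval_X] using this
  rw [← integral_const_mul, ← integral_const_mul]
  refine tendsto_integral_filter_of_dominated_convergence _ (.of_forall fun ε => ?_)
    (.of_forall fun ε => .of_forall fun x => ?_) hb (.of_forall fun x => ?_)
  · have := q_cont ε
    exact Continuous.aestronglyMeasurable (by fun_prop)
  · rw [norm_mul, norm_mul, norm_mul, norm_mul, norm_pow, norm_pow, norm_pow, Complex.norm_real,
      mul_assoc, pow_add]
    have h1 : ‖q ε (-x)‖ ≤ ‖x‖ := by simpa using q_norm ε (-x)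
    have h2 : ‖q ε x‖ ≤ ‖x‖ := q_norm ε x
    have := hg.bd x
    have := hg.nonneg
    gcongr
  · have := ((((q_lim (-x)).pow j).mul ((q_lim x).pow k)).const_mul (g x)).mul_const (wt0 x : ℂ)
    convert this using 2
    push_cast
    rw [mul_neg, ← neg_mul, mul_pow, mul_pow]; ring

end ToepA

theorem p_Toep :
    S_Toep := by
  intro L
  refine ⟨(∏ j : Fin L, (-Complex.I) ^ (j : ℕ)) * ∏ k : Fin L, Complex.I ^ (k : ℕ),
    mul_ne_zero (Finset.prod_ne_zero_iff.2 fun j _ => pow_ne_zero _ (neg_ne_zero.2 Complex.I_ne_zero))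
      (Finset.prod_ne_zero_iff.2 fun j _ => pow_ne_zero _ Complex.I_ne_zero), fun C g hg => ?_⟩
  have h : Tendsto (fun ε : ℝ => Matrix.of fun j k : Fin L =>
      ∫ x : ℝ, g x * (ToepA.q ε (-x) ^ (j : ℕ) * ToepA.q ε x ^ (k : ℕ)) * (wt0 x : ℂ)) (𝓝[>] 0)
      (𝓝 (Matrix.of fun j k : Fin L => (-Complex.I) ^ (j : ℕ) * (Matrix.of fun j k : Fin L =>
        Complex.I ^ (k : ℕ) * (Matrix.of fun j k : Fin L =>
          ∫ x : ℝ, g x * ((x ^ ((j : ℕ) + k) * wt0 x : ℝ) : ℂ)) j k) j k)) :=
    tendsto_pi_nhds.2 fun j => tendsto_pi_nhds.2 fun k => ToepA.entry_lim hg j k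
  have h2 := ((continuous_id.matrix_det).tendsto _).comp h
  simp only [id] at h2
  rw [Matrix.det_mul_column, Matrix.det_mul_row, ← mul_assoc] at h2
  refine h2.congr fun ε => ?_
  have h3 : _ = Matrix.of fun j k : Fin L =>
      ∫ x : ℝ, g x * (ToepA.q ε (-x) ^ (j : ℕ) * ToepA.q ε x ^ (k : ℕ)) * (wt0 x : ℂ) :=
    Matrix.ext fun j k => ToepA.entry hg ε j k
  rw [Function.comp_apply, ← h3, Matrix.det_mul,
    Matrix.det_mul, Matrix.det_transpose, div_eq_mul_inv, ← ToepA.det_V]
  ring

end Pool.Agent.P.MP_6c8efb_pr.One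

end ToepS

section LipS

/-! Step Lip. -/

namespace Pool.Agent.P.MP_6c8efb_pr.One

open Polynomial MeasureTheory Real Filter Topology

namespace LipA

theorem wt_le (t : ℝ) : exp (-|t|) * (1 + 4 * t ^ 2) ≤ 8 := by
  have h1 := quadratic_le_exp_of_nonneg (abs_nonneg t)
  rw [sq_abs] at h1
  rw [exp_neg, inv_mul_le_iff₀ (exp_pos _)]
  linarith [abs_nonneg t]

theorem fin_le {N M E u w d : ℝ} (hN : 0 ≤ N) (hE : 0 ≤ E) (hu : 0 ≤ u) (hw0 : 0 ≤ w)
    (h1 : N ≤ M * E) (h2 : E * u ≤ 8) (hw : w ≤ d * u ^ 2) (hd : 0 ≤ d) :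
    N ^ 2 * w ≤ 64 * M ^ 2 * d := by
  have h3 : N ^ 2 ≤ (M * E) ^ 2 := pow_le_pow_left₀ hN h1 2
  have h4 : (E * u) ^ 2 ≤ 8 ^ 2 := pow_le_pow_left₀ (mul_nonneg hE hu) h2 2
  calc N ^ 2 * w ≤ (M * E) ^ 2 * (d * u ^ 2) := mul_le_mul h3 hw hw0 (sq_nonneg _)
    _ = (E * u) ^ 2 * (M ^ 2 * d) := by ring
    _ ≤ 8 ^ 2 * (M ^ 2 * d) := mul_le_mul_of_nonneg_right h4 (by positivity)
    _ = _ := by ring

end LipA

theorem p_Lip :
    S_Lip := by
  intro f f' a C hf h0 h1
  have hC : 0 ≤ C := nonneg_of_mul_nonneg_left ((norm_nonneg _).trans (h0 0)) (exp_pos _)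
  refine ⟨48 * C, fun x y => ?_⟩
  wlog hxy : |y| ≤ |x| generalizing x y
  · have := this y x (le_of_not_ge hxy)
    rwa [norm_sub_rev, mul_comm (1 + 4 * y ^ 2), ← neg_sub x y, neg_sq] at this
  have hsq : y ^ 2 ≤ x ^ 2 := sq_le_sq.2 hxy
  rcases le_total |x - y| 1 with h | h
  · have h2 : ‖f x - f y‖ ≤ C * 3 * exp (-|x|) * ‖x - y‖ :=
      (convex_closedBall x 1).norm_image_sub_le_of_norm_hasDerivWithin_le (f' := f')
        (fun t _ => (hf t).hasDerivWithinAt) (fun t ht => by
          refine (h1 t).trans ?_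
          rw [mul_assoc]
          refine mul_le_mul_of_nonneg_left ?_ hC
          rw [Metric.mem_closedBall, Real.dist_eq] at ht
          have h3 := abs_sub_abs_le_abs_sub x t
          rw [abs_sub_comm] at h3
          calc exp (-|t|) ≤ exp (1 + -|x|) := exp_le_exp.2 (by linarith)
            _ ≤ 3 * exp (-|x|) := by
              rw [exp_add]
              exact mul_le_mul_of_nonneg_right exp_one_lt_three.le (exp_pos _).le)
        (by rw [Metric.mem_closedBall, Real.dist_eq, abs_sub_comm]; exact h)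
        (Metric.mem_closedBall_self zero_le_one)
    have h3 := LipA.fin_le (M := C * 3 * |x - y|) (d := 1)
      (w := (1 + 4 * x ^ 2) * (1 + 4 * y ^ 2)) (norm_nonneg (f x - f y)) (exp_pos _).le
      (by positivity) (by positivity) (h2.trans_eq (by rw [Real.norm_eq_abs]; ring))
      (LipA.wt_le x) (by nlinarith [sq_nonneg x]) zero_le_one
    rw [mul_pow, sq_abs] at h3
    nlinarith [mul_nonneg (sq_nonneg C) (sq_nonneg (x - y))]
  · have h2 : ‖f x - f y‖ ≤ 2 * C * exp (-|y|) := by
      have h3 := norm_sub_le (f x - a) (f y - a)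
      rw [sub_sub_sub_cancel_right] at h3
      have h4 := mul_le_mul_of_nonneg_left (exp_le_exp.2 (neg_le_neg hxy)) hC
      linarith [h0 x, h0 y]
    have h5 : 1 ≤ (x - y) ^ 2 := by
      rw [← sq_abs]
      exact one_le_pow₀ h
    have h6 : 1 + 4 * x ^ 2 ≤ 9 * (x - y) ^ 2 * (1 + 4 * y ^ 2) := by
      nlinarith [sq_nonneg (x - 2 * y), mul_le_mul_of_nonneg_right h5 (sq_nonneg y), sq_nonneg y]
    have h3 := LipA.fin_le (d := 9 * (x - y) ^ 2)
      (w := (1 + 4 * x ^ 2) * (1 + 4 * y ^ 2)) (norm_nonneg (f x - f y)) (exp_pos _).le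
      (by positivity) (by positivity) h2 (LipA.wt_le y)
      ((mul_le_mul_of_nonneg_right h6 (by positivity)).trans_eq (by ring)) (by positivity)
    exact h3.trans_eq (by ring)

end Pool.Agent.P.MP_6c8efb_pr.One

end LipS
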