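import Pool.Agent.P.MP_6c8efb_pr.One.Basic
import Pool.Agent.P.MP_6c8efb_pr.One.IfE

/-! The statements of the algebraic and probabilistic steps. -/

open Polynomial Filter Topology

namespace Pool.Agent.P.MP_6c8efb_pr.One

open Arm (q ah ac Nz Gen Near LPd LP1 TC Pt TConn)

/-! ### link patterns -/

-- deps:
def S_Tri : Prop := ∀ (L : ℕ) (P : St → Prop), P (o L) → (∀ a, Bd L a → P a → P (rot L a)) →
  (∀ a i, i + 2 ≤ L → Bd L a → P (ee i a) → (∀ c, Bd L c → ee i c = ee i a → c ≠ a → P c) → P a) →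
  ∀ a, Bd L a → P a

-- deps:
def S_Reset : Prop := ∀ L p r, Bd L p → Bd L r →
  rowS (fun i => decide (Odd i)) 0 L (cupS L p) = rowS (fun i => decide (Odd i)) 0 L (cupS L r)

-- deps:
def S_Frm : Prop := Frm 0 Bil ∧ Frm 1 Bt

/-! ### the transfer matrix -/

-- deps:
structure S_Ybe : Prop where
  exch : ∀ l₁ x y l₂, Rc l₁.length x y * TM (l₁ ++ x :: y :: l₂) =
    TM (l₁ ++ y :: x :: l₂) * Rc l₁.length x y
  cyc : ∀ x l, Rot (l.length + 1) * TM (l ++ [x]) = TM (x :: l) * Rot (l.length + 1)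

-- deps:
structure S_TM : Prop where
  tot : ∀ l v, tot (TM l v) = nrm l * tot v
  sup : ∀ (l : List ℂ) (v : W), Sup l.length v → Sup l.length (TM l v)
  ex : ∀ l : List ℂ, Even l.length → ∃ v, v ≠ 0 ∧ Fix l v

-- deps: Reset
def S_Contr : Prop := ∀ L : ℕ, ∃ ε θ : ℝ, 0 < ε ∧ ε ≤ 1 ∧ 0 ≤ θ ∧ θ < 1 ∧ ∀ l : List ℂ, l.length = L →
  (∀ x ∈ l, ‖x - 1‖ < ε) → nrm l ≠ 0 ∧ (∀ v, Fix l v → tot v = 0 → v = 0) ∧
    ∀ v, Sup L v → tot v = 0 → n1 (TM l v) ≤ θ * ‖nrm l‖ * n1 v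

-- deps: Contr TM Ybe
def S_Loc : Prop := ∀ L : ℕ, Even L → ∃ ε Ψ, Loc1 L ε Ψ

/-! ### the polynomial solution -/

-- deps:
structure S_Pref : Prop where
  exch : ∀ l₁ x y l₂,
    (q ^ 2 * x - y) * Pref (l₁ ++ y :: x :: l₂) = (q ^ 2 * y - x) * Pref (l₁ ++ x :: y :: l₂)
  append : ∀ l l', Pref (l ++ l') =
    Pref l * Pref l' * (l.map fun x => (l'.map fun y => q ^ 2 * x - y).prod).prod
  ne : ∀ l, (∀ x ∈ l, Near (1 / 10) x) → Pref l ≠ 0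
  lim : ∀ b x, Even (List.length x) → Tendsto
    (fun u : ℝ => nu b x.length u * Pref (x ++ [sc b u, sc b u ^ 2])) atTop (𝓝 (ov b x))

-- deps:
def S_Pmem : Prop := ∀ L, ∃ f ∈ LPs L, ∀ l, l.length = L → f l = Pref l

-- deps:
structure S_Dd : Prop where
  bulk : ∀ L, ∀ f ∈ LPs L, ∀ i, i + 2 ≤ L → ∃ g ∈ LPs L, ∀ l₁ x y l₂, l₁.length = i →
    (l₁ ++ x :: y :: l₂).length = L →
    (q ^ 2 * x - y) * (f (l₁ ++ y :: x :: l₂) - f (l₁ ++ x :: y :: l₂)) =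
      (x - y) * g (l₁ ++ x :: y :: l₂)
  cyc : ∀ L, ∀ f ∈ LPs L, ∃ g ∈ LPs L, ∀ x l, (x :: l).length = L → g (x :: l) = f (l ++ [x])

-- deps:
structure S_Lps : Prop where
  slice : ∀ L, ∀ f ∈ LPs L, ∀ l₁ l₂ : List ℂ, l₁.length + l₂.length + 1 = L →
    ∃ P : ℂ[X], P.natDegree ≤ l₁.length + l₂.length ∧ ∀ t, f (l₁ ++ t :: l₂) = P.eval t
  lim : ∀ n, ∀ f ∈ LPs (n + 2), ∀ b (x : List ℂ), x.length = n →
    ∃ c, Tendsto (fun u : ℝ => nu b n u * f (x ++ [sc b u, sc b u ^ 2])) atTop (𝓝 c)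
  cont : ∀ L, ∀ f ∈ LPs L, Continuous fun v : Fin L → ℂ => f (List.ofFn v)

-- deps: Tri Pref Pmem Dd
def S_Poly : Prop := ∀ L ε Ψ, Even L → Loc1 L ε Ψ → ∃ (F : List ℂ → W) (ρ : List ℂ → ℂ),
  (∀ l, Sup L (F l)) ∧ (∀ p, ∃ f ∈ LPs L, ∀ l, F l p = f l) ∧
  (∀ l l' : List ℂ, l.length = L → (∀ x ∈ l, Near ε x) → l.Perm l' → ρ l = ρ l') ∧
  (∀ l, l.length = L → F l (o L) = Pref l) ∧
  ∀ l, l.length = L → (∀ x ∈ l, Near ε x) → Gen l → Ψ l = ρ l • F l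

-- deps: Loc Poly Lps
def S_Sol : Prop := ∃ F, Sol F

-- deps: Tri
def S_Uq : Prop := ∀ n U G, Qkz n U G → (∀ l, Dom n U l → G l (o n) = 0) →
  ∀ l, Dom n U l → G l = 0

-- deps: Uq Pref
def S_Arc : Prop := ∀ F, Sol F → ∀ y l, Gen (y :: l) → Even l.length →
  F (l ++ [q * y, y]) = cA y l • Cup l.length (F l)

-- deps:
def S_Jm : Prop := ∀ (r : ℂ) (n : ℕ) (X : W), r ^ 2 + r + 1 = 0 →
  Rot (n + 2) X = bdn r n (gg r n X) → bdn r n X = Rot (n + 2) (gg r n X) →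
  (1 - r) • X = Cup n (Cap n X) - r • Hh r n (Cap n X)

-- deps:
def S_Move : Prop := ∀ F, Sol F → ∀ (b : Bool) (ν s : ℝ → ℂ) (y : ℝ → ℂ) (l₁ l₂ : ℝ → List ℂ) (i : ℕ)
  (X : W), (∀ᶠ u in atTop, (l₁ u).length = i ∧ Nz (l₁ u ++ y u :: s u :: l₂ u)) →
  Tendsto (fun u => if b then y u / s u else s u / y u) atTop (𝓝 0) →
  Lim (fun u => ν u • F (l₁ u ++ y u :: s u :: l₂ u)) X →
  Lim (fun u => ν u • F (l₁ u ++ s u :: y u :: l₂ u)) (gg (rb b) i X)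

-- deps: Move Lps Pref
def S_Fam : Prop := ∀ F, Sol F → ∀ b n, Even n → ∃ X, Fam F b n X

-- deps: Fam Jm Uq Pref
def S_Top : Prop := ∀ F, Sol F → ∀ b x, Gen x → Even (List.length x) → ∃ X,
  Lim (fun u => nu b x.length u • F (x ++ [sc b u, sc b u ^ 2])) X ∧ Sup (x.length + 2) X ∧
  Cap x.length X = bc b x • F x ∧
  (1 - rb b) • X = Cup x.length (Cap x.length X) - rb b • Hh (rb b) x.length (Cap x.length X)

/-! ### the glued weight -/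

-- deps: Lps
def S_Nsym : Prop := ∀ a B F, Frm a B → Sol F →
  (∀ l l', Nz l → l.Perm l' → NN B F l = NN B F l') ∧
  (∀ l, Nz l → LPd l.length fun t => NN B F (t :: l)) ∧ NN B F [] = 1 ∧
  ∀ L, Tendsto (fun ε => NN B F (pts L ε)) (𝓝 0) (𝓝 (NN B F (List.replicate L 1)))

-- deps: Arc
def S_Narc : Prop := ∀ a B F, Frm a B → Sol F → ∀ y l, Gen (y :: l) → Even l.length →
  NN B F (l ++ [q * y, y]) = -3 * q ^ 2 * fA y l * NN B F l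

-- deps: Top
def S_Ntop : Prop := ∀ a B F, Frm a B → Sol F → ∀ x, Gen x → Even (List.length x) →
  Tendsto (fun u : ℝ => NN B F (x ++ [(u : ℂ), (u : ℂ) ^ 2]) / (u : ℂ) ^ (3 * x.length + 1)) atTop
    (𝓝 (-(2 + a) * q ^ (x.length + 2) * (PR x ^ 2)⁻¹ * NN B F x))

/-! ### the determinant -/

-- deps:
def S_Dperm : Prop := ∀ (α β : ℂ) (l l' : List ℂ), l.Perm l' →
  DD α β l = DD α β l' ∧ PQ l = PQ l' ∧ PR l = PR l'

-- deps: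
def S_Dpoly : Prop := ∀ (α β : ℂ) (l : List ℂ), Gen l → ∃ P : ℂ[X], P.natDegree ≤ 2 * l.length ∧
  ∀ t, Gen (t :: l) → DD α β (t :: l) * t ^ l.length = P.eval t

-- deps:
def S_Darc : Prop := ∀ (α β y : ℂ) (l : List ℂ) (P : ℂ[X]), α * β = 1 → Gen (y :: l) →
  (∀ t, Gen (t :: y :: l) → DD α β (t :: y :: l) * t ^ (l.length + 1) = P.eval t) →
  P.eval (q * y) = (q * y) ^ (l.length + 1) * (q ^ l.length)⁻¹ * fA y l * DD α β l ∧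
    P.eval (q ^ 2 * y) =
      (q ^ 2 * y) ^ (l.length + 1) * (q ^ l.length)⁻¹ * fA (q ^ 2 * y) l * DD α β l

-- deps:
def S_Dtop : Prop := ∀ (α β : ℂ) (x : List ℂ), Gen x →
  Tendsto (fun u : ℝ => DD α β (x ++ [(u : ℂ), (u : ℂ) ^ 2]) / (u : ℂ) ^ (3 * x.length + 1)) atTop
    (𝓝 (kap α β ^ 2 * (PR x ^ 2)⁻¹ * DD α β x))

-- deps: Dperm Dpoly Darc
def S_Step : Prop := ∀ (a α β : ℂ) (N : List ℂ → ℂ) (n : ℕ), Nprop a N → α * β = 1 → Even n →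
  (∀ l, l.length = n → Gen l → N l = cc n * DD α β l) →
  ∀ (l : List ℂ) (s t : ℂ), l.length = n + 1 → Gen (s :: l) → Gen (t :: l) →
    (N (s :: l) - cc (n + 2) * DD α β (s :: l)) * PR (s :: l) ^ (n + 1) / PQ (s :: l) =
      (N (t :: l) - cc (n + 2) * DD α β (t :: l)) * PR (t :: l) ^ (n + 1) / PQ (t :: l)

-- deps: Step Dperm Dtop
def S_Main : Prop := ∀ (a α β : ℂ) (N : List ℂ → ℂ), Nprop a N → α * β = 1 →
  3 * kap α β ^ 2 = 2 + a → ∀ l, Gen l → Even l.length → N l = cc l.length * DD α β l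

-- deps:
def S_Kap : Prop := 3 * kap (al (3 * Real.pi / 8)) (al (3 * Real.pi / 8))⁻¹ ^ 2 = 2 + 0 ∧
  3 * kap (al (Real.pi / 4)) (al (Real.pi / 4))⁻¹ ^ 2 = 2 + 1

-- deps: Sech
def S_Ker : Prop := ∀ ψ s t : ℝ, 0 ≤ ψ → ψ < Real.pi / 2 →
  phi (al ψ) (al ψ)⁻¹ (Complex.exp s) (Complex.exp t) =
    Complex.exp ((-(s + t) / 2 - (t - s) * ψ / Real.pi : ℝ) : ℂ) * (3 / 4) *
      ∫ x : ℝ, rr ψ x * Complex.exp (Complex.I * (3 / 2 * (t - s) * x : ℝ)) * (wt0 x : ℂ)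

-- deps: Ker Toep Nice
def S_Hom : Prop := ∀ L : ℕ, ∃ c : ℂ, c ≠ 0 ∧ ∀ ψ : ℝ, 0 ≤ ψ → ψ < Real.pi / 2 →
  (∀ ε : ℝ, 0 < ε → Gen (pts L ε)) ∧
  Tendsto (fun ε => DD (al ψ) (al ψ)⁻¹ (pts L ε)) (𝓝[>] 0) (𝓝 (c * HD L (rr ψ)))

-- deps: Frm Nsym Narc Ntop Main Kap Hom
def S_Ratio : Prop := ∀ F, Sol F → ∀ L, Even L →
  PP F L = HD L (rr (3 * Real.pi / 8)) / HD L (rr (Real.pi / 4))

/-! ### percolation -/

-- deps:
def S_Law : Prop := ∀ L n, Loc (EvN L n) ∧ (Pt (EvN L n) : ℂ) =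
  Bil L ((TB L ^ n) (Finsupp.single (zz L) 1)) ((TB L ^ n) (Finsupp.single (zz L) 1))

-- deps: Contr TM Pref
def S_Lim : Prop := ∀ F, Sol F → ∀ L, Even L → Tendsto (fun n =>
  Bil L ((TB L ^ n) (Finsupp.single (zz L) 1)) ((TB L ^ n) (Finsupp.single (zz L) 1))) atTop
    (𝓝 (PP F L))

-- deps:
def S_Col : Prop := ∀ L τ n g, Even L → (g ∈ top L τ 0 n ↔
  (∀ i, L ≤ i → g i = 0) ∧ ∃ fH fV, Col L τ n fH fV ∧ ∀ i, i < L → fH i 0 = g i)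

-- deps: Col
def S_WrapEv : Prop := ∀ L n, Even L → Wrap L n ⊆ EvN L n

-- deps: Col
def S_EvFar : Prop := ∀ m n, 1 ≤ m → EvN (2 * m) n ⊆ Far m n

-- deps:
def S_Reix : Prop := ∀ (ι : Type) (A : Set (ι → Bool)) (S : Set ι) (φ : ι → ι), S.Finite → Dep A S →
  Set.InjOn φ S → Pr (fun _ => hf) {ω | (fun i => ω (φ i)) ∈ A} = Pr (fun _ => hf) A

-- deps: Reix
def S_Up : Prop := ∀ k m n : ℕ, 1 ≤ k → 2 * k ≤ m → 2 * k ≤ n → Pt (Far m n) ≤ arm Set.univ k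

-- deps:
def S_WrapE : Prop := ∀ m n : ℕ, 1 ≤ m → 4 * m ≤ n → Q (WrapE m) ≤ Pt (Wrap (2 * m) n)

-- deps:
def S_GlueD : Prop := ∀ (m r : ℤ) (ω : Cfg), 1 ≤ r → 6 * r ≤ m →
  (∀ e : E, ω (e.1 + (m, m), e.2) = ω e) → ω ∈ GE m r →
  Conn ω (MP_6c8efb_pr.Rc (-m) (2 * m) (-m) (2 * m)) (0, 0) (m, m)

-- deps: GlueD Reix
def S_GlueP : Prop := ∃ c : ℝ, 0 < c ∧ ∀ m : ℕ, 14 ≤ m → c * arm Set.univ m ≤ Q (WrapE m)

-- deps: Sol Ratio Asym Law Lim WrapEv EvFar Up WrapE GlueP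
def S_Fin : Prop := ∃ c C : ℝ, 0 < c ∧ ∀ n : ℕ, 1 ≤ n →
  c ≤ (n : ℝ) ^ (5 / 48 : ℝ) * arm Set.univ n ∧ (n : ℝ) ^ (5 / 48 : ℝ) * arm Set.univ n ≤ C

end Pool.Agent.P.MP_6c8efb_pr.One
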