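import Pool.Agent.P.MP_6c8efb_pr.Arm.PBasic

/-! Link patterns on the cylinder, described by the sets of their colourings. A colouring is
constant along an arc and changes sign each time the arc crosses the seam. -/

namespace Pool.Agent.P.MP_6c8efb_pr.One

open Arm (up dn dn_up up_dn up_ne up_ne' up_of_lt up_of_le up_up site_cases)

/-- colours -/
abbrev K := ZMod 3

/-- a pattern is the set of its colourings -/
abbrev St := Set (ℕ → K)

/-- the empty pattern -/
def nil : St := {f | ∀ i, f i = 0}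

/-- insert an arc at the sites `i, i + 1` -/
def cup (i : ℕ) (p : St) : St := {f | f i = f (i + 1) ∧ (fun j => f (up i j)) ∈ p}

/-- join the sites `i, i + 1` to each other and remove them -/
def cap (i : ℕ) (p : St) : St := {g | ∃ f ∈ p, f i = f (i + 1) ∧ ∀ j, f (up i j) = g j}

/-- the Temperley-Lieb generator -/
def ee (i : ℕ) (p : St) : St := cup i (cap i p)

/-- the old colouring in terms of the new one when the site `L - 1` moves to the front -/
def rotF (L : ℕ) (f : ℕ → K) (j : ℕ) : K :=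
  if j + 1 < L then f (j + 1) else if j + 1 = L then -f 0 else f j

/-- the inverse map -/
def rotG (L : ℕ) (f : ℕ → K) (j : ℕ) : K :=
  if L ≤ j then f j else if j = 0 then -f (L - 1) else f (j - 1)

/-- the site `L - 1` moves to the front through the seam -/
def rot (L : ℕ) (p : St) : St := {f | rotF L f ∈ p}

/-- the inverse rotation -/
def rotI (L : ℕ) (p : St) : St := {f | rotG L f ∈ p}

/-- insert an arc through the seam, from the new site `L + 1` to the new site `0` -/
def cupS (L : ℕ) (p : St) : St := rot (L + 2) (cup L p)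

theorem mem_cup {i : ℕ} {p : St} {f : ℕ → K} :
    f ∈ cup i p ↔ f i = f (i + 1) ∧ (fun j => f (up i j)) ∈ p := Iff.rfl
theorem mem_cap {i : ℕ} {p : St} {g : ℕ → K} :
    g ∈ cap i p ↔ ∃ f ∈ p, f i = f (i + 1) ∧ ∀ j, f (up i j) = g j := Iff.rfl
theorem mem_rot {L : ℕ} {p : St} {f : ℕ → K} : f ∈ rot L p ↔ rotF L f ∈ p := Iff.rfl
theorem mem_rotI {L : ℕ} {p : St} {f : ℕ → K} : f ∈ rotI L p ↔ rotG L f ∈ p := Iff.rfl

theorem mem_congr {p : St} {f g : ℕ → K} (h : ∀ j, f j = g j) : f ∈ p ↔ g ∈ p := by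
  rw [funext h]

/-- give the colour `c` to two new sites `i, i + 1` -/
def ins (i : ℕ) (c : K) (g : ℕ → K) (j : ℕ) : K := if j = i ∨ j = i + 1 then c else g (dn i j)

@[simp] theorem ins_left (i : ℕ) (c : K) (g : ℕ → K) : ins i c g i = c := by simp [ins]
@[simp] theorem ins_right (i : ℕ) (c : K) (g : ℕ → K) : ins i c g (i + 1) = c := by simp [ins]
@[simp] theorem ins_up (i : ℕ) (c : K) (g : ℕ → K) (j : ℕ) : ins i c g (up i j) = g j := by
  simp [ins, up_ne, up_ne']
theorem ins_lt {i j : ℕ} (h : j < i) (c : K) (g : ℕ → K) : ins i c g j = g j := by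
  conv_lhs => rw [← up_of_lt h, ins_up]
theorem ins_add {i j : ℕ} (h : i ≤ j) (c : K) (g : ℕ → K) : ins i c g (j + 2) = g j := by
  rw [← up_of_le h, ins_up]

/-! ### Temperley-Lieb relations -/

@[simp] theorem cap_cup (i : ℕ) (p : St) : cap i (cup i p) = p := by
  ext g
  simp only [mem_cap, mem_cup]
  exact ⟨fun ⟨f, ⟨_, h⟩, _, e⟩ => (mem_congr e).1 h,
    fun h => ⟨ins i 0 g, ⟨by simp, by simpa using h⟩, by simp, by simp⟩⟩

@[simp] theorem cap_succ_cup (i : ℕ) (p : St) : cap (i + 1) (cup i p) = p := by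
  ext g
  simp only [mem_cap, mem_cup]
  constructor
  · rintro ⟨f, ⟨h1, h⟩, h2, e⟩
    refine (mem_congr fun j => ?_).1 h
    rw [← e]
    rcases lt_trichotomy j i with hj | rfl | hj
    · rw [up_of_lt hj, up_of_lt (by omega)]
    · rw [up_of_le le_rfl, up_of_lt (by omega), h1, h2]
    · rw [up_of_le hj.le, up_of_le hj]
  · intro h
    refine ⟨ins i (g i) g, ⟨by simp, by simpa using h⟩, by rw [ins_right, ins_add le_rfl], fun j => ?_⟩
    rcases lt_trichotomy j i with hj | rfl | hj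
    · rw [up_of_lt (by omega), ins_lt hj]
    · rw [up_of_lt (by omega), ins_left]
    · rw [up_of_le hj, ins_add hj.le]

@[simp] theorem cap_cup_succ (i : ℕ) (p : St) : cap i (cup (i + 1) p) = p := by
  ext g
  simp only [mem_cap, mem_cup]
  constructor
  · rintro ⟨f, ⟨h1, h⟩, h2, e⟩
    refine (mem_congr fun j => ?_).1 h
    rw [← e]
    rcases lt_trichotomy j i with hj | rfl | hj
    · rw [up_of_lt hj, up_of_lt (by omega)]
    · rw [up_of_le le_rfl, up_of_lt (by omega), h2, h1]
    · rw [up_of_le hj.le, up_of_le hj]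
  · intro h
    refine ⟨ins (i + 1) (g i) g, ⟨by simp, by simpa using h⟩,
      by rw [ins_left, ins_lt (by omega)], fun j => ?_⟩
    rcases lt_trichotomy j i with hj | rfl | hj
    · rw [up_of_lt hj, ins_lt (by omega)]
    · rw [up_of_le le_rfl, ins_right]
    · rw [up_of_le hj.le, ins_add hj]

theorem cup_cup {i j : ℕ} (h : i ≤ j) (p : St) : cup (j + 2) (cup i p) = cup i (cup j p) := by
  ext g
  simp only [mem_cup, up_up h]
  rw [up_of_lt (by omega : i < j + 2), up_of_lt (by omega : i + 1 < j + 2), up_of_le h,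
    up_of_le (by omega : i ≤ j + 1)]
  tauto

theorem cap_cap {i j : ℕ} (h : i ≤ j) (p : St) : cap i (cap (j + 2) p) = cap j (cap i p) := by
  ext g
  simp only [mem_cap]
  constructor
  · rintro ⟨f1, ⟨f, hf, h1, e1⟩, h2, e2⟩
    refine ⟨fun k => f (up i k), ⟨f, hf, ?_, fun _ => rfl⟩, ?_, fun k => ?_⟩
    · rwa [← e1, ← e1, up_of_lt (by omega), up_of_lt (by omega)] at h2
    · simpa only [up_of_le h, up_of_le (by omega : i ≤ j + 1)] using h1
    · simp only [← up_up h, e1, e2]
  · rintro ⟨f1, ⟨f, hf, h1, e1⟩, h2, e2⟩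
    refine ⟨fun k => f (up (j + 2) k), ⟨f, hf, ?_, fun _ => rfl⟩, ?_, fun k => ?_⟩
    · rwa [← e1, ← e1, up_of_le h, up_of_le (by omega)] at h2
    · simpa only [up_of_lt (by omega : i < j + 2), up_of_lt (by omega : i + 1 < j + 2)] using h1
    · simp only [up_up h, e1, e2]

theorem cap_cup_far {i j : ℕ} (h : i ≤ j) (p : St) : cap (j + 2) (cup i p) = cup i (cap j p) := by
  ext g
  simp only [mem_cap, mem_cup]
  constructor
  · rintro ⟨f, ⟨h1, hf⟩, h2, e⟩
    refine ⟨?_, _, hf, ?_, fun k => ?_⟩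
    · rwa [← e, ← e, up_of_lt (by omega), up_of_lt (by omega)]
    · simpa only [up_of_le h, up_of_le (by omega : i ≤ j + 1)] using h2
    · simp only [← up_up h, e]
  · rintro ⟨h1, f, hf, h2, e⟩
    refine ⟨ins i (g i) f, ⟨by simp, by simpa using hf⟩, ?_, fun k => ?_⟩
    · rw [ins_add h, show j + 2 + 1 = j + 1 + 2 from rfl, ins_add (by omega), h2]
    · rcases site_cases i k with rfl | rfl | ⟨k, rfl⟩
      · rw [up_of_lt (by omega), ins_left]
      · rw [up_of_lt (by omega), ins_right, h1]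
      · rw [up_up h, ins_up, e]

theorem cap_cup_far' {i j : ℕ} (h : i ≤ j) (p : St) : cap i (cup (j + 2) p) = cup j (cap i p) := by
  ext g
  simp only [mem_cap, mem_cup]
  constructor
  · rintro ⟨f, ⟨h1, hf⟩, h2, e⟩
    refine ⟨?_, _, hf, ?_, fun k => ?_⟩
    · rwa [← e, ← e, up_of_le h, up_of_le (by omega)]
    · simpa only [up_of_lt (by omega : i < j + 2), up_of_lt (by omega : i + 1 < j + 2)] using h2
    · simp only [up_up h, e]
  · rintro ⟨h1, f, hf, h2, e⟩
    refine ⟨ins (j + 2) (g j) f, ⟨by simp, by simpa using hf⟩, ?_, fun k => ?_⟩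
    · rw [ins_lt (by omega), ins_lt (by omega), h2]
    · rcases site_cases j k with rfl | rfl | ⟨k, rfl⟩
      · rw [up_of_le h, ins_left]
      · rw [up_of_le (by omega), show j + 1 + 2 = j + 2 + 1 from rfl, ins_right, h1]
      · rw [← up_up h, ins_up, e]

theorem cup_injective (i : ℕ) : Function.Injective (cup i) := fun p r h => by
  rw [← cap_cup i p, h, cap_cup]

@[simp] theorem ee_cup (i : ℕ) (p : St) : ee i (cup i p) = cup i p := by simp [ee]
@[simp] theorem ee_succ_cup (i : ℕ) (p : St) : ee (i + 1) (cup i p) = cup (i + 1) p := by simp [ee]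
@[simp] theorem ee_cup_succ (i : ℕ) (p : St) : ee i (cup (i + 1) p) = cup i p := by simp [ee]
@[simp] theorem cap_ee (i : ℕ) (p : St) : cap i (ee i p) = cap i p := by simp [ee]
@[simp] theorem cap_succ_ee (i : ℕ) (p : St) : cap (i + 1) (ee i p) = cap i p := by simp [ee]
@[simp] theorem cap_ee_succ (i : ℕ) (p : St) : cap i (ee (i + 1) p) = cap (i + 1) p := by simp [ee]
@[simp] theorem ee_ee (i : ℕ) (p : St) : ee i (ee i p) = ee i p := by simp [ee]
@[simp] theorem ee_braid (i : ℕ) (p : St) : ee i (ee (i + 1) (ee i p)) = ee i p := by simp [ee]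
@[simp] theorem ee_braid' (i : ℕ) (p : St) : ee (i + 1) (ee i (ee (i + 1) p)) = ee (i + 1) p := by
  simp [ee]

theorem ee_cup_far {i j : ℕ} (h : i ≤ j) (p : St) : ee (j + 2) (cup i p) = cup i (ee j p) := by
  rw [ee, ee, cap_cup_far h, cup_cup h]

theorem ee_cup_far' {i j : ℕ} (h : i + 2 ≤ j) (p : St) : ee i (cup j p) = cup j (ee i p) := by
  obtain ⟨j, rfl⟩ : ∃ k, j = k + 2 := ⟨j - 2, by omega⟩
  rw [ee, ee, cap_cup_far' (by omega), cup_cup (by omega)]

theorem cap_ee_far {i j : ℕ} (h : i ≤ j) (p : St) : cap i (ee (j + 2) p) = ee j (cap i p) := by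
  rw [ee, ee, cap_cup_far' h, cap_cap h]

theorem cap_ee_far' {i j : ℕ} (h : i + 2 ≤ j) (p : St) : cap j (ee i p) = ee i (cap j p) := by
  obtain ⟨j, rfl⟩ : ∃ k, j = k + 2 := ⟨j - 2, by omega⟩
  rw [ee, ee, cap_cup_far (by omega), cap_cap (by omega)]

theorem ee_comm {i j : ℕ} (h : i + 2 ≤ j) (p : St) : ee i (ee j p) = ee j (ee i p) := by
  rw [ee.eq_1 j, ee_cup_far' h, ← cap_ee_far' h]; rfl

/-! ### rotations -/

@[simp] theorem rotF_rotG (L : ℕ) (f : ℕ → K) : rotF L (rotG L f) = f := by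
  funext j
  simp only [rotF, rotG]
  split_ifs <;> first | omega | rfl | contradiction | (simp; done) | (subst_vars; simp)

@[simp] theorem rotG_rotF (L : ℕ) (f : ℕ → K) : rotG L (rotF L f) = f := by
  funext j
  simp only [rotF, rotG]
  split_ifs <;> first | omega | rfl | (congr 1; omega) | (subst_vars; simp)

@[simp] theorem rot_rotI (L : ℕ) (p : St) : rot L (rotI L p) = p := by
  ext f; simp [mem_rot, mem_rotI]
@[simp] theorem rotI_rot (L : ℕ) (p : St) : rotI L (rot L p) = p := by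
  ext f; simp [mem_rot, mem_rotI]

theorem rot_injective (L : ℕ) : Function.Injective (rot L) := fun p r h => by
  rw [← rotI_rot L p, h, rotI_rot]

theorem rotF_lt {L j : ℕ} (h : j + 1 < L) (f : ℕ → K) : rotF L f j = f (j + 1) := if_pos h
theorem rotF_last (L : ℕ) (f : ℕ → K) : rotF (L + 1) f L = -f 0 := by simp [rotF]
theorem rotF_ge {L j : ℕ} (h : L ≤ j) (f : ℕ → K) : rotF L f j = f j := by
  rw [rotF, if_neg (by omega), if_neg (by omega)]

@[simp] theorem rot_zero (p : St) : rot 0 p = p := by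
  ext f; exact mem_congr fun j => rotF_ge (Nat.zero_le j) f

theorem rotF_up {L i : ℕ} (h : i + 1 ≤ L) (f : ℕ → K) (j : ℕ) :
    rotF (L + 2) f (up i j) = rotF L (fun k => f (up (i + 1) k)) j := by
  simp only [rotF, up]
  split_ifs <;> first | omega | rfl

theorem rot_cup {L i : ℕ} (h : i + 1 ≤ L) (p : St) :
    rot (L + 2) (cup i p) = cup (i + 1) (rot L p) := by
  ext f
  simp only [mem_rot, mem_cup, rotF_up h]
  rw [rotF_lt (by omega), rotF_lt (by omega)]

theorem rotF_rotF_up (L : ℕ) (f : ℕ → K) (j : ℕ) :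
    rotF (L + 2) (rotF (L + 2) f) (up L j) = f (up 0 j) := by
  simp only [rotF, up]
  split_ifs <;> first | omega | rfl

theorem rotF_rotF_pair (L : ℕ) (f : ℕ → K) :
    rotF (L + 2) (rotF (L + 2) f) L = rotF (L + 2) (rotF (L + 2) f) (L + 1) ↔ f 0 = f (0 + 1) := by
  rw [rotF_lt (by omega), rotF_last, rotF_last, rotF_lt (by omega), neg_inj]

theorem rot_cupS (L : ℕ) (p : St) : rot (L + 2) (cupS L p) = cup 0 p := by
  ext f
  simp only [cupS, mem_rot, mem_cup, rotF_rotF_up, rotF_rotF_pair]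

theorem cap_rot {L i : ℕ} (h : i + 1 ≤ L) (p : St) :
    cap (i + 1) (rot (L + 2) p) = rot L (cap i p) := by
  ext g
  simp only [mem_rot, mem_cap]
  constructor
  · rintro ⟨f, hf, h1, e⟩
    refine ⟨_, hf, by rwa [rotF_lt (by omega), rotF_lt (by omega)], fun j => ?_⟩
    rw [rotF_up h, funext e]
  · rintro ⟨f, hf, h1, e⟩
    obtain ⟨f, rfl⟩ : ∃ f', f = rotF (L + 2) f' := ⟨_, (rotF_rotG _ f).symm⟩
    refine ⟨f, hf, by rwa [rotF_lt (by omega), rotF_lt (by omega)] at h1, fun j => ?_⟩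
    have := congrArg (rotG L) (funext fun j => (rotF_up h f j).symm.trans (e j))
    rw [rotG_rotF, rotG_rotF] at this
    exact congrFun this j

theorem cap_rot_rot (L : ℕ) (p : St) : cap 0 (rot (L + 2) (rot (L + 2) p)) = cap L p := by
  ext g
  simp only [mem_rot, mem_cap]
  constructor
  · rintro ⟨f, hf, h1, e⟩
    exact ⟨_, hf, (rotF_rotF_pair L f).2 h1, fun j => by rw [rotF_rotF_up, e]⟩
  · rintro ⟨f, hf, h1, e⟩
    obtain ⟨f, rfl⟩ : ∃ f', f = rotF (L + 2) (rotF (L + 2) f') :=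
      ⟨rotG (L + 2) (rotG (L + 2) f), by rw [rotF_rotG, rotF_rotG]⟩
    exact ⟨f, hf, (rotF_rotF_pair L f).1 h1, fun j => by rw [← rotF_rotF_up L f, e]⟩

theorem rot_ee {L i : ℕ} (h : i + 3 ≤ L) (p : St) : rot L (ee i p) = ee (i + 1) (rot L p) := by
  obtain ⟨L, rfl⟩ : ∃ k, L = k + 2 := ⟨L - 2, by omega⟩
  rw [ee, ee, rot_cup (by omega), cap_rot (by omega)]

theorem cupS_injective (L : ℕ) : Function.Injective (cupS L) := fun _ _ h =>
  cup_injective L (rot_injective _ h)

theorem mem_cupS {L : ℕ} {p : St} {f : ℕ → K} :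
    f ∈ cupS L p ↔ f (L + 1) = -f 0 ∧ (fun j => if j < L then f (j + 1) else f (j + 2)) ∈ p := by
  rw [cupS, mem_rot, mem_cup, rotF_lt (by omega), rotF_last]
  refine and_congr_right fun _ => mem_congr fun j => ?_
  simp only [rotF, up]
  split_ifs <;> first | omega | rfl

theorem cupS_cup {L i : ℕ} (h : i ≤ L) (p : St) : cupS (L + 2) (cup i p) = cup (i + 1) (cupS L p) := by
  rw [cupS, cupS, cup_cup h, rot_cup (by omega)]

theorem cap_cupS {L i : ℕ} (h : i ≤ L) (p : St) :
    cap (i + 1) (cupS (L + 2) p) = cupS L (cap i p) := by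
  rw [cupS, cupS, cap_rot (by omega), cap_cup_far' h]

theorem ee_cupS {L i : ℕ} (h : i + 2 ≤ L) (p : St) : ee (i + 1) (cupS L p) = cupS L (ee i p) := by
  rw [cupS, cupS, ← rot_ee (by omega), ee_cup_far' h]

theorem cap_last_cupS {L : ℕ} (p : St) : cap (L + 1) (cupS (L + 1) p) = rot (L + 1) p := by
  rw [cupS, cap_rot le_rfl, cap_cup_succ]

theorem cap_zero_cupS_rot {L : ℕ} (p : St) : cap 0 (cupS (L + 1) (rot (L + 1) p)) = p := by
  rw [cupS, ← rot_cup le_rfl, cap_rot_rot, cap_succ_cup]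

theorem cap_zero_cupS {L : ℕ} (p : St) : cap 0 (cupS (L + 1) p) = rotI (L + 1) p := by
  conv_lhs => rw [← rot_rotI (L + 1) p, cap_zero_cupS_rot]

/-- a loop around the cylinder disappears -/
@[simp] theorem cap_cupS_zero (p : St) : cap 0 (cupS 0 p) = p := by
  ext g
  simp only [mem_cap, mem_cupS]
  constructor
  · rintro ⟨f, ⟨-, h⟩, -, e⟩
    exact (mem_congr fun j => by simpa [up] using e j).1 h
  · intro h
    refine ⟨ins 0 0 g, ⟨by rw [ins_left, ins_right, neg_zero], (mem_congr fun j => ?_).2 h⟩,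
      by simp, by simp⟩
    simpa using ins_add (Nat.zero_le j) 0 g

/-! ### the planar patterns on `L` sites -/

/-- the planar patterns on `L` sites -/
inductive Bd : ℕ → St → Prop
  | nil : Bd 0 nil
  | cup {L i : ℕ} {p : St} : Bd L p → i ≤ L → Bd (L + 2) (cup i p)
  | cupS {L : ℕ} {p : St} : Bd L p → Bd (L + 2) (cupS L p)

theorem Bd.even {L : ℕ} {p : St} (h : Bd L p) : Even L := by
  induction h with
  | nil => exact Even.zero
  | cup _ _ ih => exact ih.add even_two
  | cupS _ ih => exact ih.add even_two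

theorem Bd.eq_nil {p : St} (h : Bd 0 p) : p = One.nil := by cases h; rfl

theorem Bd.cases {L : ℕ} {a : St} (h : Bd (L + 2) a) :
    ∃ p, Bd L p ∧ (a = One.cupS L p ∨ ∃ i, i ≤ L ∧ a = One.cup i p) := by
  cases h with
  | cup hp hi => exact ⟨_, hp, Or.inr ⟨_, hi, rfl⟩⟩
  | cupS hp => exact ⟨_, hp, Or.inl rfl⟩

theorem Bd.zero_mem {L : ℕ} {p : St} (h : Bd L p) : (fun _ => 0) ∈ p := by
  induction h with
  | nil => exact fun _ => rfl
  | cup _ _ ih => exact ⟨rfl, ih⟩
  | cupS _ ih => exact mem_cupS.2 ⟨by simp, by simpa using ih⟩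

theorem Bd.eq_zero {L : ℕ} {p : St} (h : Bd L p) {f : ℕ → K} (hf : f ∈ p) {i : ℕ} (hi : L ≤ i) :
    f i = 0 := by
  induction h generalizing f i with
  | nil => exact hf i
  | @cup L j p _ hj ih =>
    obtain ⟨i, rfl⟩ : ∃ k, i = k + 2 := ⟨i - 2, by omega⟩
    have := ih hf.2 (i := i) (by omega)
    rwa [up_of_le (by omega)] at this
  | @cupS L p _ ih =>
    obtain ⟨i, rfl⟩ : ∃ k, i = k + 2 := ⟨i - 2, by omega⟩
    have := ih (mem_cupS.1 hf).2 (i := i) (by omega)
    rwa [if_neg (by omega)] at this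

theorem Bd.rot {L : ℕ} {p : St} (h : Bd L p) : Bd L (rot L p) := by
  induction h with
  | nil => rw [rot_zero]; exact .nil
  | @cup L i p hp hi ih =>
    rcases hi.eq_or_lt with rfl | hi
    · exact hp.cupS
    · rw [rot_cup hi]; exact ih.cup hi
  | cupS hp _ => rw [rot_cupS]; exact hp.cup (Nat.zero_le _)

theorem Bd.rotI {L : ℕ} {p : St} (h : Bd L p) : Bd L (rotI L p) := by
  induction h with
  | nil => rw [← rot_zero One.nil, rotI_rot]; exact .nil
  | @cup L i p hp hi ih =>
    rcases i with _ | i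
    · rw [← rot_cupS L, rotI_rot]; exact hp.cupS
    · rw [← rot_rotI L p, ← rot_cup hi, rotI_rot]; exact ih.cup (by omega)
  | cupS hp _ => rw [One.cupS, rotI_rot]; exact hp.cup le_rfl

theorem bd_rot {L : ℕ} {p : St} : Bd L (rot L p) ↔ Bd L p :=
  ⟨fun h => rotI_rot L p ▸ h.rotI, Bd.rot⟩

theorem Bd.cap {L : ℕ} : ∀ {i : ℕ} {a : St}, Bd (L + 2) a → i ≤ L → Bd L (cap i a) := by
  induction L using Nat.strong_induction_on with
  | _ L ih =>
    intro j a h hj
    obtain ⟨p, hp, rfl | ⟨i, hi, rfl⟩⟩ := h.cases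
    · rcases L with _ | L
      · obtain rfl : j = 0 := by omega
        rwa [cap_cupS_zero]
      rcases j with _ | j
      · rw [cap_zero_cupS]; exact hp.rotI
      rcases hj.eq_or_lt with e | e
      · obtain rfl : j = L := by omega
        rw [cap_last_cupS]; exact hp.rot
      · obtain ⟨L, rfl⟩ : ∃ k, L = k + 1 := ⟨L - 1, by omega⟩
        rw [cap_cupS (by omega)]
        exact (ih L (by omega) hp (by omega)).cupS
    · obtain rfl | rfl | rfl | e | e : j = i ∨ j = i + 1 ∨ i = j + 1 ∨ i + 2 ≤ j ∨ j + 2 ≤ i := by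
        omega
      · rwa [cap_cup]
      · rwa [cap_succ_cup]
      · rwa [cap_cup_succ]
      · obtain ⟨j, rfl⟩ : ∃ k, j = k + 2 := ⟨j - 2, by omega⟩
        obtain ⟨L, rfl⟩ : ∃ k, L = k + 2 := ⟨L - 2, by omega⟩
        rw [cap_cup_far (by omega)]
        exact (ih L (by omega) hp (by omega)).cup (by omega)
      · obtain ⟨i, rfl⟩ : ∃ k, i = k + 2 := ⟨i - 2, by omega⟩
        obtain ⟨L, rfl⟩ : ∃ k, L = k + 2 := ⟨L - 2, by omega⟩
        rw [cap_cup_far' (by omega)]
        exact (ih L (by omega) hp (by omega)).cup (by omega)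

theorem Bd.ee {L i : ℕ} {p : St} (h : Bd L p) (hi : i + 2 ≤ L) : Bd L (ee i p) := by
  obtain ⟨L, rfl⟩ : ∃ k, L = k + 2 := ⟨L - 2, by omega⟩
  exact (h.cap (by omega)).cup (by omega)

theorem finite_bd (L : ℕ) : {p : St | Bd L p}.Finite := by
  induction L using Nat.twoStepInduction with
  | zero => exact (Set.finite_singleton nil).subset fun p hp => Bd.eq_nil hp
  | one => exact Set.finite_empty.subset fun p hp => absurd (Bd.even hp) (by decide)
  | more L ih _ =>
    refine ((ih.image (cupS L)).union ((Set.finite_le_nat L).biUnion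
      fun i _ => ih.image (cup i))).subset fun a ha => ?_
    obtain ⟨p, hp, rfl | ⟨i, hi, rfl⟩⟩ := Bd.cases ha
    · exact Or.inl ⟨p, hp, rfl⟩
    · exact Or.inr (Set.mem_biUnion hi ⟨p, hp, rfl⟩)

/-- nested arcs through the seam -/
def o : ℕ → St
  | 0 => nil
  | 1 => nil
  | L + 2 => cupS L (o L)

/-- arcs between the sites `2 k` and `2 k + 1` -/
def zz : ℕ → St
  | 0 => nil
  | 1 => nil
  | L + 2 => cup 0 (zz L)

theorem bd_o {L : ℕ} (h : Even L) : Bd L (o L) := by
  induction L using Nat.twoStepInduction with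
  | zero => exact .nil
  | one => exact absurd h (by decide)
  | more L ih _ => exact (ih ((Nat.even_add.1 h).2 even_two)).cupS

theorem bd_zz {L : ℕ} (h : Even L) : Bd L (zz L) := by
  induction L using Nat.twoStepInduction with
  | zero => exact .nil
  | one => exact absurd h (by decide)
  | more L ih _ => exact (ih ((Nat.even_add.1 h).2 even_two)).cup (Nat.zero_le _)

/-- the pattern `o L` has no short arc -/
theorem exists_ne_of_o {L : ℕ} (h : Even L) : ∀ i, i + 2 ≤ L → ∃ f ∈ o L, f i ≠ f (i + 1) := by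
  induction L using Nat.twoStepInduction with
  | zero => intro i hi; omega
  | one => intro i hi; omega
  | more L ih _ =>
    have hL := (Nat.even_add.1 h).2 even_two
    intro i hi
    by_cases e : i = 0 ∨ i = L
    · refine ⟨fun j => if j = 0 then 1 else if j = L + 1 then -1 else 0, mem_cupS.2 ⟨by simp,
        (mem_congr fun j => ?_).2 (bd_o hL).zero_mem⟩, ?_⟩
      · split_ifs <;> first | omega | rfl | contradiction
      · rcases e with rfl | rfl
        · simp only [zero_add, if_true]; split_ifs <;> first | omega | contradiction | decide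
        · simp only [if_true]; split_ifs <;> first | omega | contradiction | decide
    · obtain ⟨i, rfl⟩ : ∃ k, i = k + 1 := ⟨i - 1, by omega⟩
      obtain ⟨f, hf, hn⟩ := ih hL i (by omega)
      refine ⟨fun j => if j = 0 ∨ L < j then 0 else f (j - 1), mem_cupS.2 ⟨by simp,
        (mem_congr fun j => ?_).2 hf⟩, ?_⟩
      · by_cases hj : j < L
        · rw [if_pos hj, if_neg (by omega)]; rfl
        · rw [if_neg hj, if_pos (by omega), (bd_o hL).eq_zero hf (by omega)]
      · simp only []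
        rw [if_neg (by omega), if_neg (by omega)]; exact hn

theorem cup_ne_o {L i : ℕ} (h : Even L) (hi : i + 2 ≤ L) (p : St) : cup i p ≠ o L := fun e => by
  obtain ⟨f, hf, hn⟩ := exists_ne_of_o h i hi
  rw [← e] at hf
  exact hn hf.1

theorem ee_ne_o {L i : ℕ} (h : Even L) (hi : i + 2 ≤ L) (p : St) : ee i p ≠ o L := cup_ne_o h hi _

/-- every other pattern has a short arc -/
theorem Bd.exists_cup {L : ℕ} {a : St} (h : Bd L a) (ha : a ≠ o L) :
    ∃ j b, j + 2 ≤ L ∧ a = One.cup j b := by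
  induction h with
  | nil => exact absurd rfl ha
  | cup _ hi _ => exact ⟨_, _, by omega, rfl⟩
  | @cupS L p _ ih =>
    obtain ⟨j, b, hj, rfl⟩ := ih fun e => ha (by rw [e]; rfl)
    obtain ⟨L, rfl⟩ : ∃ k, L = k + 2 := ⟨L - 2, by omega⟩
    exact ⟨j + 1, _, by omega, cupS_cup (by omega) b⟩

theorem rot_iterate_cup {L : ℕ} (p : St) : ∀ i, i ≤ L →
    (rot (L + 2))^[i] (cup 0 p) = cup i ((rot L)^[i] p)
  | 0, _ => rfl
  | i + 1, h => by
    rw [Function.iterate_succ_apply', Function.iterate_succ_apply', rot_iterate_cup p i (by omega),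
      rot_cup h]

/-- every pattern is a rotation of a pattern with a short arc through the seam -/
theorem Bd.exists_rot {L : ℕ} {a : St} (h : Bd (L + 2) a) :
    ∃ k p, Bd L p ∧ a = (One.rot (L + 2))^[k] (One.cupS L p) := by
  obtain ⟨p, hp, rfl | ⟨i, hi, rfl⟩⟩ := h.cases
  · exact ⟨0, p, hp, rfl⟩
  · refine ⟨i + 1, (One.rotI L)^[i] p, Function.Iterate.rec _ hp (fun _ h => h.rotI) i, ?_⟩
    rw [Function.iterate_succ_apply, rot_cupS, rot_iterate_cup _ i hi,
      Function.LeftInverse.iterate (rot_rotI L) i p]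

end Pool.Agent.P.MP_6c8efb_pr.One
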