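import Pool.Agent.P.MP_6c8efb_pr.One.Iface

section DtopS

/-! Step Dtop. -/

namespace Pool.Agent.P.MP_6c8efb_pr.One

open Polynomial Filter Topology
open Arm (q ah ac Nz Gen Near LPd LP1 TC Pt TConn q_eq q_cube q_ne_zero)

namespace DtopA

theorem tw : Tendsto (fun u : ℝ => ((u : ℂ))⁻¹) atTop (𝓝 0) := by
  have := (Complex.continuous_ofReal.tendsto 0).comp tendsto_inv_atTop_zero
  simpa [Function.comp_def] using this

theorem ev : ∀ᶠ u : ℝ in atTop, (u : ℂ) ≠ 0 :=
  (eventually_gt_atTop 0).mono fun _ h => Complex.ofReal_ne_zero.2 h.ne'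

theorem tc {g : ℂ → ℂ} (hg : Continuous g) {F : ℝ → ℂ} {c : ℂ} (hc : g 0 = c)
    (h : ∀ u : ℝ, (u : ℂ) ≠ 0 → g ((u : ℂ)⁻¹) = F u) : Tendsto F atTop (𝓝 c) := by
  subst hc
  exact ((hg.tendsto 0).comp tw).congr' (ev.mono fun u hu => h u hu)

theorem tPQ (x : List ℂ) : Tendsto (fun u : ℝ => PQ (x ++ [(u : ℂ), (u : ℂ) ^ 2]) /
    (u : ℂ) ^ (6 * x.length + 4)) atTop (𝓝 (PQ x)) := by
  induction x with
  | nil =>
    refine tc (g := fun w => w ^ 2 + w + 1) (by fun_prop) (by simp [PQ]) fun u hu => ?_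
    simp only [PQ, List.nil_append, List.map_cons, List.map_nil, List.prod_cons, List.prod_nil,
      List.length_nil]
    field_simp
    ring
  | cons y x ih =>
    have h1 : Tendsto (fun u : ℝ => (y ^ 2 + y * (u : ℂ) + (u : ℂ) ^ 2) *
        (y ^ 2 + y * (u : ℂ) ^ 2 + ((u : ℂ) ^ 2) ^ 2) / (u : ℂ) ^ 6) atTop (𝓝 1) := by
      refine tc (g := fun w => (y ^ 2 * w ^ 2 + y * w + 1) * (y ^ 2 * w ^ 4 + y * w ^ 2 + 1))
        (by fun_prop) (by simp) fun u hu => ?_
      field_simp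
    have h2 := (h1.mul ih).const_mul (x.map fun z => y ^ 2 + y * z + z ^ 2).prod
    rw [one_mul] at h2
    refine h2.congr' (ev.mono fun u hu => ?_)
    simp only [PQ, List.cons_append, List.map_append, List.map_cons, List.map_nil,
      List.prod_append, List.prod_cons, List.prod_nil, List.length_cons]
    field_simp
    ring

theorem tVD (x : List ℂ) : Tendsto (fun u : ℝ => VD (x ++ [(u : ℂ), (u : ℂ) ^ 2]) ^ 2 /
    (u : ℂ) ^ (6 * x.length + 4)) atTop (𝓝 (VD x ^ 2)) := by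
  induction x with
  | nil =>
    refine tc (g := fun w => (w - 1) ^ 2) (by fun_prop) (by simp [VD]) fun u hu => ?_
    simp only [VD, List.nil_append, List.map_cons, List.map_nil, List.prod_cons, List.prod_nil,
      List.length_nil]
    field_simp
    ring
  | cons y x ih =>
    have h1 : Tendsto (fun u : ℝ => ((y - (u : ℂ)) * (y - (u : ℂ) ^ 2)) ^ 2 / (u : ℂ) ^ 6)
        atTop (𝓝 1) := by
      refine tc (g := fun w => ((y * w - 1) * (y * w ^ 2 - 1)) ^ 2)
        (by fun_prop) (by simp) fun u hu => ?_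
      field_simp
    have h2 := (h1.mul ih).const_mul ((x.map fun z => y - z).prod ^ 2)
    rw [one_mul, ← mul_pow] at h2
    refine h2.congr' (ev.mono fun u hu => ?_)
    simp only [VD, List.cons_append, List.map_append, List.map_cons, List.map_nil,
      List.prod_append, List.prod_cons, List.prod_nil, List.length_cons]
    field_simp
    ring

theorem tphi (α β : ℂ) {f g : ℝ → ℂ} {a b : ℂ} (hf : Tendsto f atTop (𝓝 a))
    (hg : Tendsto g atTop (𝓝 b)) (h1 : a - q * b ≠ 0) (h2 : a - q ^ 2 * b ≠ 0) :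
    Tendsto (fun u => phi α β (f u) (g u)) atTop (𝓝 (phi α β a b)) :=
  (tendsto_const_nhds.div (hf.sub (hg.const_mul q)) h1).add
    (tendsto_const_nhds.div (hf.sub (hg.const_mul (q ^ 2))) h2)

theorem phi_hom (α β : ℂ) {c : ℂ} (hc : c ≠ 0) (x y : ℂ) :
    phi α β x y = c⁻¹ * phi α β (x * c⁻¹) (y * c⁻¹) := by
  have e1 : x * c⁻¹ - q * (y * c⁻¹) = (x - q * y) * c⁻¹ := by ring
  have e2 : x * c⁻¹ - q ^ 2 * (y * c⁻¹) = (x - q ^ 2 * y) * c⁻¹ := by ring
  simp only [phi, e1, e2, div_eq_mul_inv, mul_inv, inv_inv]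
  field_simp

/-- an entry whose column variable is much larger -/
theorem tcol (α β : ℂ) {r f g : ℝ → ℂ} (hg : ∀ᶠ u in atTop, g u ≠ 0)
    (h1 : Tendsto (fun u => r u * (g u)⁻¹) atTop (𝓝 0))
    (h2 : Tendsto (fun u => f u * (g u)⁻¹) atTop (𝓝 0)) :
    Tendsto (fun u => r u * phi α β (f u) (g u)) atTop (𝓝 0) := by
  have h := h1.mul (tphi α β h2 (tendsto_const_nhds (x := (1 : ℂ))) (by simp [q_ne_zero])
    (by simp [q_ne_zero]))
  rw [zero_mul] at h
  refine h.congr' (hg.mono fun u hu => ?_)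
  simp only
  rw [phi_hom α β hu (f u) (g u), mul_inv_cancel₀ hu, mul_assoc]

/-- an entry whose row variable is much larger -/
theorem trow (α β : ℂ) {f g : ℝ → ℂ} (hf : ∀ᶠ u in atTop, f u ≠ 0)
    (h2 : Tendsto (fun u => g u * (f u)⁻¹) atTop (𝓝 0)) :
    Tendsto (fun u => f u * phi α β (f u) (g u)) atTop (𝓝 (α + β)) := by
  have h := tphi α β (tendsto_const_nhds (x := (1 : ℂ))) h2 (by simp) (by simp)
  have e : phi α β 1 0 = α + β := by simp [phi]
  rw [e] at h
  refine h.congr' (hf.mono fun u hu => ?_)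
  simp only
  rw [phi_hom α β hu (f u) (g u), mul_inv_cancel₀ hu, ← mul_assoc, mul_inv_cancel₀ hu, one_mul]

theorem tdiag (α β : ℂ) {f : ℝ → ℂ} (hf : ∀ᶠ u in atTop, f u ≠ 0) :
    Tendsto (fun u => f u * phi α β (f u) (f u)) atTop (𝓝 (kap α β)) := by
  refine tendsto_const_nhds.congr' (hf.mono fun u hu => ?_)
  simp only
  rw [phi_hom α β hu (f u) (f u), mul_inv_cancel₀ hu, ← mul_assoc, mul_inv_cancel₀ hu, one_mul]
  simp [phi, kap]

theorem dphi_app (α β : ℂ) (x : List ℂ) (s t : ℂ) :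
    dphi α β (x ++ [s, t]) = Matrix.det (Matrix.of fun i j : Fin x.length ⊕ Fin 2 =>
      phi α β (Sum.elim (fun k : Fin x.length => x[k]) ![s, t] i)
        (Sum.elim (fun k : Fin x.length => x[k]) ![s, t] j)) := by
  let e : Fin x.length ⊕ Fin 2 ≃ Fin (x ++ [s, t]).length :=
    finSumFinEquiv.trans (finCongr (by simp))
  have he : ∀ i, (x ++ [s, t])[e i] = Sum.elim (fun k : Fin x.length => x[k]) ![s, t] i := by
    rintro (k | k)
    · simp [e]
    · fin_cases k <;> simp [e]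
  rw [dphi, ← Matrix.det_submatrix_equiv_self e]
  congr 1
  ext i j
  simp only [Matrix.submatrix_apply, Matrix.of_apply, he]

theorem tdphi (α β : ℂ) (x : List ℂ) : Tendsto (fun u : ℝ => (u : ℂ) ^ 3 *
    dphi α β (x ++ [(u : ℂ), (u : ℂ) ^ 2])) atTop (𝓝 (dphi α β x * kap α β ^ 2)) := by
  let M : ℝ → Matrix (Fin x.length ⊕ Fin 2) (Fin x.length ⊕ Fin 2) ℂ := fun u =>
    Matrix.of fun i j => Sum.elim (fun _ => (1 : ℂ)) ![(u : ℂ), (u : ℂ) ^ 2] i *
      phi α β (Sum.elim (fun k : Fin x.length => x[k]) ![(u : ℂ), (u : ℂ) ^ 2] i)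
        (Sum.elim (fun k : Fin x.length => x[k]) ![(u : ℂ), (u : ℂ) ^ 2] j)
  let M0 : Matrix (Fin x.length ⊕ Fin 2) (Fin x.length ⊕ Fin 2) ℂ :=
    Matrix.fromBlocks (Matrix.of fun i j => phi α β x[i] x[j]) 0 (Matrix.of fun _ _ => α + β)
      !![kap α β, 0; α + β, kap α β]
  have ev2 : ∀ᶠ u : ℝ in atTop, (u : ℂ) ^ 2 ≠ 0 := ev.mono fun u hu => pow_ne_zero 2 hu
  have a1 : ∀ c : ℂ, Tendsto (fun u : ℝ => c * ((u : ℂ))⁻¹) atTop (𝓝 0) := fun c => by
    simpa using tw.const_mul c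
  have a2 : ∀ c : ℂ, Tendsto (fun u : ℝ => c * ((u : ℂ) ^ 2)⁻¹) atTop (𝓝 0) := fun c =>
    tc (g := fun w => c * w ^ 2) (by fun_prop) (by simp) fun u _ => by simp
  have a3 : Tendsto (fun u : ℝ => (u : ℂ) * ((u : ℂ) ^ 2)⁻¹) atTop (𝓝 0) :=
    tc (g := fun w => w) (by fun_prop) rfl fun u hu => by field_simp
  have hM : Tendsto M atTop (𝓝 M0) := by
    refine tendsto_pi_nhds.2 fun i => tendsto_pi_nhds.2 fun j => ?_
    rcases i with i | i <;> rcases j with j | j
    · exact tendsto_const_nhds.congr fun u => (one_mul _).symm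
    · fin_cases j
      · exact tcol α β (r := fun _ => 1) (f := fun _ => x[i]) (g := fun u : ℝ => (u : ℂ))
          ev (a1 1) (a1 x[i])
      · exact tcol α β (r := fun _ => 1) (f := fun _ => x[i]) (g := fun u : ℝ => (u : ℂ) ^ 2)
          ev2 (a2 1) (a2 x[i])
    · fin_cases i
      · exact trow α β (f := fun u : ℝ => (u : ℂ)) (g := fun _ => x[j]) ev (a1 x[j])
      · exact trow α β (f := fun u : ℝ => (u : ℂ) ^ 2) (g := fun _ => x[j]) ev2 (a2 x[j])
    · fin_cases i <;> fin_cases j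
      · exact tdiag α β (f := fun u : ℝ => (u : ℂ)) ev
      · exact tcol α β (r := fun u : ℝ => (u : ℂ)) (f := fun u : ℝ => (u : ℂ))
          (g := fun u : ℝ => (u : ℂ) ^ 2) ev2 a3 a3
      · exact trow α β (f := fun u : ℝ => (u : ℂ) ^ 2) (g := fun u : ℝ => (u : ℂ)) ev2 a3
      · exact tdiag α β (f := fun u : ℝ => (u : ℂ) ^ 2) ev2
  have hd := (continuous_id.matrix_det.tendsto M0).comp hM
  have e0 : M0.det = dphi α β x * kap α β ^ 2 := by
    simp only [M0, Matrix.det_fromBlocks_zero₁₂, dphi, Matrix.det_fin_two_of]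
    ring
  simp only [id, e0] at hd
  refine hd.congr fun u => ?_
  simp only [Function.comp, M]
  rw [dphi_app]
  have := Matrix.det_mul_column
    (Sum.elim (fun _ : Fin x.length => (1 : ℂ)) ![(u : ℂ), (u : ℂ) ^ 2])
    (Matrix.of fun i j : Fin x.length ⊕ Fin 2 =>
      phi α β (Sum.elim (fun k : Fin x.length => x[k]) ![(u : ℂ), (u : ℂ) ^ 2] i)
        (Sum.elim (fun k : Fin x.length => x[k]) ![(u : ℂ), (u : ℂ) ^ 2] j))
  simp only [Matrix.of_apply] at this
  rw [this]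
  congr 1
  simp [Fintype.prod_sum_type]
  ring

theorem VD_ne {x : List ℂ} (h : Gen x) : VD x ≠ 0 := by
  have h2 := h.2
  clear h
  induction x with
  | nil => simp [VD]
  | cons y x ih =>
    rw [List.pairwise_cons] at h2
    refine mul_ne_zero (List.prod_ne_zero fun hz => ?_) (ih h2.2)
    obtain ⟨z, hz1, hz2⟩ := List.mem_map.1 hz
    exact (h2.1 z hz1).1 (by rw [sub_eq_zero.1 hz2])

end DtopA

open DtopA in
theorem p_Dtop :
    S_Dtop := by
  intro α β x hx
  have hV := VD_ne hx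
  have hP : PR x ≠ 0 := List.prod_ne_zero fun h => (hx.1 0 h).1 rfl
  have h := ((((tPQ x).pow 2).mul (tdphi α β x)).mul_const (PR x ^ 2)).div
    ((tVD x).mul_const (PR x ^ (x.length + 2))) (mul_ne_zero (pow_ne_zero _ hV) (pow_ne_zero _ hP))
  have e : PQ x ^ 2 * (dphi α β x * kap α β ^ 2) * PR x ^ 2 / (VD x ^ 2 * PR x ^ (x.length + 2)) =
      kap α β ^ 2 * (PR x ^ 2)⁻¹ * DD α β x := by
    unfold DD
    field_simp
    ring
  rw [e] at h
  refine h.congr' (ev.mono fun u hu => ?_)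
  have eP : PR (x ++ [(u : ℂ), (u : ℂ) ^ 2]) = PR x * (u : ℂ) ^ 3 := by
    simp only [PR, List.prod_append, List.prod_cons, List.prod_nil]; ring
  have eL : (x ++ [(u : ℂ), (u : ℂ) ^ 2]).length = x.length + 2 := by simp
  simp only [Pi.div_apply, DD, eP, eL]
  by_cases hW : VD (x ++ [(u : ℂ), (u : ℂ) ^ 2]) = 0
  · simp [hW]
  · field_simp
    ring

end Pool.Agent.P.MP_6c8efb_pr.One

end DtopS

section MainS

/-! Step Main. -/

namespace Pool.Agent.P.MP_6c8efb_pr.One

open Polynomial Filter Topology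
open Arm (q ah ac Nz Gen Near LPd LP1 TC Pt TConn q_eq q_cube q_ne_zero)

namespace MainA

theorem ev_ne {f : ℝ → ℂ} (hf : Tendsto (fun u => ‖f u‖) atTop atTop) (k : ℕ) (c : ℂ) :
    ∀ᶠ u in atTop, f u ^ (k + 1) ≠ c := by
  have h : Tendsto (fun u => ‖f u‖ ^ (k + 1)) atTop atTop :=
    (tendsto_pow_atTop (Nat.succ_ne_zero k)).comp hf
  refine (h.eventually_gt_atTop ‖c‖).mono fun u hu e => ?_
  rw [← norm_pow, e] at hu
  exact lt_irrefl _ hu

theorem ev_gen {f : ℝ → ℂ} (hf : Tendsto (fun u => ‖f u‖) atTop atTop) {l : List ℂ} (h : Gen l) :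
    ∀ᶠ u in atTop, Gen (f u :: l) := by
  have h1 : ∀ᶠ u in atTop, ∀ y ∈ l.toFinset, f u ^ 3 ≠ y ^ 3 ∧ f u ^ 3 * y ^ 3 ≠ 1 := by
    rw [Filter.eventually_all_finset]
    intro y hy
    have hy0 : y ^ 3 ≠ 0 := pow_ne_zero _ (h.nz y (List.mem_toFinset.1 hy))
    filter_upwards [ev_ne hf 2 (y ^ 3), ev_ne hf 2 (y ^ 3)⁻¹] with u a b
    exact ⟨a, fun e => b (eq_inv_of_mul_eq_one_left e)⟩
  filter_upwards [h1, ev_ne hf 0 0, ev_ne hf 5 1] with u a b c
  exact Arm.gen_cons.2 ⟨⟨by simpa using b, c⟩, fun y hy => a y (List.mem_toFinset.2 hy), h⟩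

theorem t1 : Tendsto (fun u : ℝ => ‖(u : ℂ)‖) atTop atTop := by
  simpa only [Complex.norm_real, Real.norm_eq_abs] using tendsto_abs_atTop_atTop

theorem tk (k : ℕ) : Tendsto (fun u : ℝ => ‖(u : ℂ) ^ (k + 1)‖) atTop atTop := by
  simp only [norm_pow]
  exact (tendsto_pow_atTop (Nat.succ_ne_zero k)).comp t1

theorem ev_gen2 {l : List ℂ} (h : Gen l) :
    ∀ᶠ u : ℝ in atTop, Gen ((u : ℂ) ^ 2 :: (u : ℂ) :: l) := by
  filter_upwards [ev_gen t1 h, ev_gen (tk 1) h, ev_ne t1 2 1, ev_ne t1 8 1, ev_ne t1 2 0]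
    with u a b c d e
  have b' := Arm.gen_cons.1 b
  refine Arm.gen_cons.2 ⟨b'.1, fun y hy => ?_, a⟩
  rcases List.mem_cons.1 hy with rfl | hy
  · exact ⟨fun k => c (mul_right_cancel₀ e (by linear_combination k)),
      fun k => d (by linear_combination k)⟩
  · exact b'.2.1 y hy

theorem inv0 {f : ℝ → ℂ} (hf : Tendsto (fun u => ‖f u‖) atTop atTop) :
    Tendsto (fun u => (f u)⁻¹) atTop (𝓝 0) := by
  rw [tendsto_zero_iff_norm_tendsto_zero]
  simp only [norm_inv]
  exact hf.inv_tendsto_atTop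

theorem prod_lim {f : ℝ → ℂ} (hf : Tendsto (fun u => ‖f u‖) atTop atTop) (x : List ℂ) :
    Tendsto (fun u => (x.map fun y => f u ^ 2 + f u * y + y ^ 2).prod / f u ^ (2 * x.length))
      atTop (𝓝 1) := by
  induction x with
  | nil => simp
  | cons y x ih =>
    have h := ((((inv0 hf).const_mul y).add (((inv0 hf).pow 2).const_mul (y ^ 2))).const_add 1).mul ih
    simp only [mul_zero, zero_pow two_ne_zero, add_zero, mul_one] at h
    refine h.congr' ((ev_ne hf 0 0).mono fun u hu => ?_)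
    have hu' : f u ≠ 0 := by simpa using hu
    simp only [List.map_cons, List.prod_cons, List.length_cons, mul_add, mul_one, pow_add]
    generalize (List.map (fun y => f u ^ 2 + f u * y + y ^ 2) x).prod = A
    field_simp
    ring

theorem pq_lim (x : List ℂ) :
    Tendsto (fun u : ℝ => PQ ((u : ℂ) ^ 2 :: (u : ℂ) :: x) / (u : ℂ) ^ (6 * x.length + 4))
      atTop (𝓝 (PQ x)) := by
  have h := ((((((inv0 t1).add ((inv0 t1).pow 2)).const_add 1).mul (prod_lim (tk 1) x)).mul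
    (prod_lim t1 x)).mul_const (PQ x))
  simp only [zero_pow two_ne_zero, add_zero, mul_one, one_mul] at h
  refine h.congr' ((ev_ne t1 0 0).mono fun u hu => ?_)
  have hu' : (u : ℂ) ≠ 0 := by simpa using hu
  simp only [PQ, List.map_cons, List.prod_cons, Nat.reduceAdd]
  have e : (u : ℂ) ^ (6 * x.length + 4) =
      ((u : ℂ) ^ 2) ^ (2 * x.length) * (u : ℂ) ^ (2 * x.length) * (u : ℂ) ^ 4 := by ring
  rw [e]
  generalize (List.map (fun y => ((u : ℂ) ^ 2) ^ 2 + (u : ℂ) ^ 2 * y + y ^ 2) x).prod = A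
  generalize (List.map (fun y => (u : ℂ) ^ 2 + (u : ℂ) * y + y ^ 2) x).prod = B
  field_simp
  ring

theorem pq_ne {l : List ℂ} (h : Gen l) : PQ l ≠ 0 := by
  induction l with
  | nil => simp [PQ]
  | cons x l ih =>
    rw [Arm.gen_cons] at h
    refine mul_ne_zero (List.prod_ne_zero fun e => ?_) (ih h.2.2)
    obtain ⟨y, hy, e⟩ := List.mem_map.1 e
    exact (h.2.1 y hy).1 (by linear_combination (x - y) * e)

theorem pr_ne {l : List ℂ} (h : Gen l) : PR l ≠ 0 :=
  List.prod_ne_zero fun e => h.nz 0 e rfl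

theorem dd_nil (α β : ℂ) : DD α β [] = 1 := by
  have : dphi α β [] = 1 := by
    have : IsEmpty (Fin ([] : List ℂ).length) := inferInstanceAs (IsEmpty (Fin 0))
    exact Matrix.det_isEmpty
  simp [DD, PQ, PR, VD, this]

end MainA

open MainA in
theorem p_Main (hStep : S_Step) (hDperm : S_Dperm) (hDtop : S_Dtop) :
    S_Main := by
  intro a α β N hN hαβ hk
  have key : ∀ k : ℕ, ∀ l : List ℂ, l.length = 2 * k → Gen l → N l = cc (2 * k) * DD α β l := by
    intro k
    induction k with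
    | zero =>
      intro l hl _
      rw [List.length_eq_zero_iff.1 hl, hN.nil, dd_nil]
      simp [cc]
    | succ k ih =>
      intro l hl hg
      obtain ⟨s, t, x, rfl⟩ : ∃ s t x, l = s :: t :: x := by
        match l, hl with
        | s :: t :: x, _ => exact ⟨s, t, x, rfl⟩
      have hx : x.length = 2 * k := by simp only [List.length_cons] at hl; omega
      have gt : Gen (t :: x) := (Arm.gen_cons.1 hg).2.2
      have gx : Gen x := (Arm.gen_cons.1 gt).2.2
      set n := 2 * k with hn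
      have en : Even n := ⟨k, by omega⟩
      let Φ : List ℂ → ℂ := fun l =>
        (N l - cc (n + 2) * DD α β l) * PR l ^ (n + 1) / PQ l
      have hp : ∀ l l' : List ℂ, Gen l → l.Perm l' → Φ l = Φ l' := fun l l' g p => by
        obtain ⟨e1, e2, e3⟩ := hDperm α β l l' p
        simp only [Φ, hN.perm l l' g.nz p, e1, e2, e3]
      have hs : ∀ (y s t : ℂ), Gen (s :: y :: x) → Gen (t :: y :: x) →
          Φ (s :: y :: x) = Φ (t :: y :: x) := fun y s t g g' =>
        hStep a α β N n hN hαβ en ih (y :: x) s t (by simp [hx]) g g'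
      have ev : ∀ᶠ u : ℝ in atTop,
          (N (x ++ [(u : ℂ), (u : ℂ) ^ 2]) / (u : ℂ) ^ (3 * x.length + 1) - cc (n + 2) *
            (DD α β (x ++ [(u : ℂ), (u : ℂ) ^ 2]) / (u : ℂ) ^ (3 * x.length + 1))) * PR x ^ (n + 1) =
          Φ (s :: t :: x) * (PQ ((u : ℂ) ^ 2 :: (u : ℂ) :: x) / (u : ℂ) ^ (6 * x.length + 4)) := by
        filter_upwards [ev_gen t1 gt, ev_gen2 gx] with u g1 g2
        have p2 : ((u : ℂ) ^ 2 :: (u : ℂ) :: x).Perm (x ++ [(u : ℂ), (u : ℂ) ^ 2]) :=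
          (List.Perm.swap _ _ _).trans (List.perm_append_comm (l₁ := [(u : ℂ), (u : ℂ) ^ 2]))
        have hu : (u : ℂ) ≠ 0 := (Arm.gen_cons.1 g1).1.1
        rw [hs t s u hg g1, hp _ _ g1 (List.Perm.swap _ _ _),
          hs u t _ (g1.perm (List.Perm.swap _ _ _)) g2, ← hN.perm _ _ g2.nz p2,
          ← (hDperm α β _ _ p2).1]
        have h0 := pq_ne g2
        have e : PR ((u : ℂ) ^ 2 :: (u : ℂ) :: x) = (u : ℂ) ^ 3 * PR x := by
          simp only [PR, List.prod_cons]; ring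
        have e' : (u : ℂ) ^ (6 * x.length + 4) =
            (u : ℂ) ^ (3 * x.length + 1) * ((u : ℂ) ^ 3) ^ (n + 1) := by rw [hx]; ring
        simp only [Φ]
        rw [e, e', mul_pow]
        field_simp
      have l1 := ((hN.top x gx (hx ▸ en)).sub ((hDtop α β x gx).const_mul (cc (n + 2)))).mul_const
        (PR x ^ (n + 1))
      have l2 := tendsto_nhds_unique (l1.congr' ev) ((pq_lim x).const_mul (Φ (s :: t :: x)))
      have z : Φ (s :: t :: x) * PQ x = 0 := by
        rw [← l2, ih x hx gx, hx, cc, ← hk]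
        ring
      have z' : Φ (s :: t :: x) = 0 := (mul_eq_zero.1 z).resolve_right (pq_ne gx)
      simp only [Φ, div_eq_zero_iff, mul_eq_zero, pq_ne hg, or_false, pow_eq_zero_iff', pr_ne hg,
        false_and] at z'
      exact sub_eq_zero.1 z'
  rintro l hg ⟨k, hk'⟩
  rw [hk', ← two_mul]
  exact key k l (by omega) hg

end Pool.Agent.P.MP_6c8efb_pr.One

end MainS

section KapS

/-! Step Kap. -/

namespace Pool.Agent.P.MP_6c8efb_pr.One

open Polynomial Filter Topology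
open Arm (q ah ac Nz Gen Near LPd LP1 TC Pt TConn q_eq q_cube q_ne_zero)

namespace KapA

theorem kap_eq (a b : ℂ) : kap a b = (a * (1 - q ^ 2) + b * (1 - q)) / 3 := by
  have h : (1 - q) * (1 - q ^ 2) = 3 := by linear_combination (q - 2) * q_eq
  have h1 : (1 - q)⁻¹ = (1 - q ^ 2) / 3 := inv_eq_of_mul_eq_one_right (by linear_combination h / 3)
  have h2 : (1 - q ^ 2)⁻¹ = (1 - q) / 3 := inv_eq_of_mul_eq_one_right (by linear_combination h / 3)
  rw [kap, div_eq_mul_inv, div_eq_mul_inv b, h1, h2]; ring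

theorem al_sq : al (3 * Real.pi / 8) ^ 2 = -Complex.I * q := by
  rw [al, ← Complex.exp_nat_mul]
  have e : ((2 : ℕ) : ℂ) * (((2 * (3 * Real.pi / 8) / 3 - Real.pi / 6 : ℝ) : ℂ) * Complex.I) =
      ((Real.pi / 6 : ℝ) : ℂ) * Complex.I := by push_cast; ring
  rw [e]
  apply Complex.ext
  · rw [Complex.exp_ofReal_mul_I_re, Real.cos_pi_div_six]; simp [q]
  · rw [Complex.exp_ofReal_mul_I_im, Real.sin_pi_div_six]; simp [q]; norm_num

end KapA

theorem p_Kap :
    S_Kap := by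
  constructor
  · have hA := KapA.al_sq
    have h0 : al (3 * Real.pi / 8) ≠ 0 := Complex.exp_ne_zero _
    have hAB := mul_inv_cancel₀ h0
    have hB : (al (3 * Real.pi / 8))⁻¹ ^ 2 = Complex.I * q ^ 2 := by
      rw [inv_pow, hA]
      exact inv_eq_of_mul_eq_one_right (by linear_combination q_cube - q ^ 3 * Complex.I_sq)
    rw [KapA.kap_eq]
    generalize (al (3 * Real.pi / 8))⁻¹ = B at *
    generalize al (3 * Real.pi / 8) = A at *
    have h : (1 - q) * (1 - q ^ 2) = 3 := by linear_combination (q - 2) * q_eq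
    have h1 : (1 - q ^ 2) ^ 2 = -3 * q ^ 2 := by linear_combination (q ^ 2 - q + 1) * q_eq
    have h2 : (1 - q) ^ 2 = -3 * q := by linear_combination q_eq
    linear_combination (A ^ 2 / 3) * h1 + (B ^ 2 / 3) * h2 + (2 * A * B / 3) * h + 2 * hAB -
      q ^ 2 * hA - q * hB
  · have h : al (Real.pi / 4) = 1 := by
      rw [al, show 2 * (Real.pi / 4) / 3 - Real.pi / 6 = 0 by ring]; simp
    have h1 : kap 1 1 = 1 := by rw [KapA.kap_eq]; linear_combination (-1 / 3) * q_eq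
    rw [h, inv_one, h1]; norm_num

end Pool.Agent.P.MP_6c8efb_pr.One

end KapS
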